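import Pool.Agent.BPH.Stmts

/-!
# Row AFB: the Alexandrov-Fenchel inequality for zonoids, case `m = 2`
-/

set_option autoImplicit false

open MeasureTheory Module Set Filter
open scoped RealInnerProductSpace Pointwise Topology ENNReal

namespace Pool.Agent.BPH.H15

open Pool.Agent.BPH

/-- approximations of `1 - sqrt (1 - s)` -/
noncomputable def qn (s : ℝ) : ℕ → ℝ
  | 0 => 0
  | N + 1 => (s + qn s N ^ 2) / 2

theorem qn_bd (s : ℝ) (h0 : 0 ≤ s) (h1 : s ≤ 1) (N : ℕ) :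
    0 ≤ qn s N ∧ qn s N ≤ 1 - Real.sqrt (1 - s) := by
  have hr : Real.sqrt (1 - s) ^ 2 = 1 - s := Real.sq_sqrt (by linarith)
  have hr0 : 0 ≤ Real.sqrt (1 - s) := Real.sqrt_nonneg _
  have hr1 : Real.sqrt (1 - s) ≤ 1 := by
    rw [Real.sqrt_le_left (by norm_num)]
    linarith
  induction N with
  | zero => exact ⟨le_rfl, by simp only [qn]; linarith⟩
  | succ N ih =>
    obtain ⟨i0, i1⟩ := ih
    simp only [qn]
    exact ⟨by positivity, by nlinarith⟩

theorem qn_mono (s : ℝ) (h0 : 0 ≤ s) (h1 : s ≤ 1) : Monotone (qn s) := by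
  refine monotone_nat_of_le_succ fun N => ?_
  have hr : Real.sqrt (1 - s) ^ 2 = 1 - s := Real.sq_sqrt (by linarith)
  have hr0 : 0 ≤ Real.sqrt (1 - s) := Real.sqrt_nonneg _
  obtain ⟨i0, i1⟩ := qn_bd s h0 h1 N
  have e : qn s (N + 1) = (s + qn s N ^ 2) / 2 := rfl
  rw [e]
  nlinarith

theorem qn_lim (s : ℝ) (h0 : 0 ≤ s) (h1 : s ≤ 1) :
    Tendsto (qn s) atTop (𝓝 (1 - Real.sqrt (1 - s))) := by
  have hr : Real.sqrt (1 - s) ^ 2 = 1 - s := Real.sq_sqrt (by linarith)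
  have hr0 : 0 ≤ Real.sqrt (1 - s) := Real.sqrt_nonneg _
  have hb : BddAbove (Set.range (qn s)) :=
    ⟨1 - Real.sqrt (1 - s), by rintro _ ⟨N, rfl⟩; exact (qn_bd s h0 h1 N).2⟩
  have hL := tendsto_atTop_ciSup (qn_mono s h0 h1) hb
  set L := ⨆ N, qn s N with hLdef
  have hL1 : L ≤ 1 - Real.sqrt (1 - s) := ciSup_le fun N => (qn_bd s h0 h1 N).2
  have hL2 : Tendsto (fun N => qn s (N + 1)) atTop (𝓝 L) := (tendsto_add_atTop_iff_nat 1).2 hL
  have hL3 : Tendsto (fun N => qn s (N + 1)) atTop (𝓝 ((s + L ^ 2) / 2)) := by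
    have : Tendsto (fun N => (s + qn s N ^ 2) / 2) atTop (𝓝 ((s + L ^ 2) / 2)) :=
      (tendsto_const_nhds.add (hL.pow 2)).div_const 2
    exact this
  have hL4 : L = (s + L ^ 2) / 2 := tendsto_nhds_unique hL2 hL3
  have hL5 : (1 - L) ^ 2 = Real.sqrt (1 - s) ^ 2 := by rw [hr]; linarith
  have hL6 : 1 - L = Real.sqrt (1 - s) := by
    have := (sq_eq_sq₀ (by linarith) hr0).1 hL5
    exact this
  have hL7 : L = 1 - Real.sqrt (1 - s) := by linarith
  rw [← hL7]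
  exact hL

section

variable {E : Type} [NormedAddCommGroup E] [InnerProductSpace ℝ E]

theorem nrm_norm_le (x : E) : ‖nrm x‖ ≤ 1 := by
  unfold nrm
  rw [norm_smul, norm_inv, norm_norm]
  by_cases h : ‖x‖ = 0
  · rw [h]; simp
  · rw [inv_mul_cancel₀ h]

theorem sq_inner_le (x y : E) : ⟪nrm x, nrm y⟫ ^ 2 ≤ 1 := by
  have h := abs_real_inner_le_norm (nrm x) (nrm y)
  have h2 : ‖nrm x‖ * ‖nrm y‖ ≤ 1 := mul_le_one₀ (nrm_norm_le x) (norm_nonneg _) (nrm_norm_le y)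
  rw [sq_le_one_iff_abs_le_one]
  exact h.trans h2

theorem gw2 (a c : E) (w : Fin 0 → E) :
    gw (cns a (cns c w)) = Real.sqrt (‖a‖ ^ 2 * ‖c‖ ^ 2 - ⟪a, c⟫ ^ 2) := by
  unfold gw
  congr 1
  have h := Matrix.det_fin_two (Matrix.gram ℝ (cns a (cns c w)))
  rw [show (Matrix.gram ℝ (cns a (cns c w))).det = _ from h]
  have h1 : Matrix.gram ℝ (cns a (cns c w)) 0 0 = ⟪a, a⟫ := rfl
  have h2 : Matrix.gram ℝ (cns a (cns c w)) 1 1 = ⟪c, c⟫ := rfl
  have h3 : Matrix.gram ℝ (cns a (cns c w)) 0 1 = ⟪a, c⟫ := rfl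
  have h4 : Matrix.gram ℝ (cns a (cns c w)) 1 0 = ⟪c, a⟫ := rfl
  rw [h1, h2, h3, h4, real_inner_self_eq_norm_sq, real_inner_self_eq_norm_sq,
    real_inner_comm a c]
  ring

theorem gw2' (a c : E) (w : Fin 0 → E) :
    gw (cns a (cns c w)) =
      ‖a‖ * ‖c‖ - ‖a‖ * ‖c‖ * (1 - Real.sqrt (1 - ⟪nrm a, nrm c⟫ ^ 2)) := by
  rw [gw2]
  by_cases ha : ‖a‖ = 0
  · rw [norm_eq_zero] at ha
    subst ha
    simp
  by_cases hc : ‖c‖ = 0
  · rw [norm_eq_zero] at hc
    subst hc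
    simp
  have e1 : ⟪nrm a, nrm c⟫ = ⟪a, c⟫ / (‖a‖ * ‖c‖) := by
    unfold nrm
    rw [real_inner_smul_left, real_inner_smul_right]
    field_simp
  have e2 : ‖a‖ ^ 2 * ‖c‖ ^ 2 - ⟪a, c⟫ ^ 2 =
      (‖a‖ * ‖c‖) ^ 2 * (1 - ⟪nrm a, nrm c⟫ ^ 2) := by
    rw [e1]
    field_simp
  rw [e2, Real.sqrt_mul (by positivity), Real.sqrt_sq (by positivity)]
  ring

variable {ι : Type} [Fintype ι]

/-- the matrix of the approximations -/
noncomputable def mq (e : ι → E) (N : ℕ) : Matrix ι ι ℝ :=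
  Matrix.of fun a c => qn (⟪e a, e c⟫ ^ 2) N

theorem mq_psd (e : ι → E) (N : ℕ) : (mq e N).PosSemidef := by
  induction N with
  | zero =>
    have : mq e 0 = 0 := by ext a c; rfl
    rw [this]
    exact Matrix.PosSemidef.zero
  | succ N ih =>
    have hg := Matrix.posSemidef_gram ℝ e
    have h1 := ((hg.hadamard hg).add (ih.hadamard ih)).smul (α := ℝ)
      (show (0 : ℝ) ≤ 1 / 2 by norm_num)
    have h2 : mq e (N + 1) = (1 / 2 : ℝ) • (Matrix.hadamard (Matrix.gram ℝ e) (Matrix.gram ℝ e) +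
        Matrix.hadamard (mq e N) (mq e N)) := by
      ext a c
      show (⟪e a, e c⟫ ^ 2 + qn (⟪e a, e c⟫ ^ 2) N ^ 2) / 2 =
        (1 / 2 : ℝ) * (⟪e a, e c⟫ * ⟪e a, e c⟫ +
          qn (⟪e a, e c⟫ ^ 2) N * qn (⟪e a, e c⟫ ^ 2) N)
      ring
    rw [h2]
    exact h1

theorem psd_lim (b : ι → E) (w : ι → ℝ) :
    0 ≤ ∑ a, ∑ c, w a * w c * (1 - Real.sqrt (1 - ⟪nrm (b a), nrm (b c)⟫ ^ 2)) := by
  have h1 : ∀ N, 0 ≤ ∑ a, ∑ c, w a * w c * qn (⟪nrm (b a), nrm (b c)⟫ ^ 2) N := fun N => by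
    have h := (mq_psd (fun a => nrm (b a)) N).dotProduct_mulVec_nonneg w
    have e : star w ⬝ᵥ (mq (fun a => nrm (b a)) N).mulVec w =
        ∑ a, ∑ c, w a * w c * qn (⟪nrm (b a), nrm (b c)⟫ ^ 2) N := by
      simp only [dotProduct, Matrix.mulVec, Pi.star_apply, star_trivial, Finset.mul_sum]
      refine Finset.sum_congr rfl fun a _ => Finset.sum_congr rfl fun c _ => ?_
      show w a * (qn (⟪nrm (b a), nrm (b c)⟫ ^ 2) N * w c) = _
      ring
    rwa [e] at h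
  refine ge_of_tendsto' (x := atTop) ?_ h1
  refine tendsto_finset_sum _ fun a _ => tendsto_finset_sum _ fun c _ => ?_
  exact (qn_lim _ (sq_nonneg _) (sq_inner_le _ _)).const_mul _

/-- the linear form -/
noncomputable def bet (b : ι → E) (y : ι → ℝ) : ℝ := ∑ a, y a * ‖b a‖

/-- the positive form -/
noncomputable def psi (b : ι → E) (y z : ι → ℝ) : ℝ :=
  ∑ a, ∑ c, (y a * ‖b a‖) * (z c * ‖b c‖) *
    (1 - Real.sqrt (1 - ⟪nrm (b a), nrm (b c)⟫ ^ 2))

theorem zf2_eq (b : ι → E) (y z x : ι → ℝ) : zf2 0 b y z x = bet b y * bet b z - psi b y z := by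
  unfold zf2 bet psi
  rw [Finset.sum_mul_sum, ← Finset.sum_sub_distrib]
  refine Finset.sum_congr rfl fun a _ => ?_
  rw [← Finset.sum_sub_distrib]
  refine Finset.sum_congr rfl fun c _ => ?_
  rw [Fintype.sum_unique, gw2']
  simp only [Finset.univ_eq_empty, Finset.prod_empty]
  ring

theorem psi_nonneg (b : ι → E) (y : ι → ℝ) : 0 ≤ psi b y y := psd_lim b fun a => y a * ‖b a‖

theorem psi_sub (b : ι → E) (y x : ι → ℝ) (t : ℝ) :
    psi b (fun a => y a - t * x a) (fun a => y a - t * x a) =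
      psi b y y - 2 * t * psi b y x + t ^ 2 * psi b x x := by
  have hs : psi b x y = psi b y x := by
    unfold psi
    rw [Finset.sum_comm]
    refine Finset.sum_congr rfl fun a _ => Finset.sum_congr rfl fun c _ => ?_
    rw [real_inner_comm (nrm (b a)) (nrm (b c))]
    ring
  have h : psi b (fun a => y a - t * x a) (fun a => y a - t * x a) =
      psi b y y - t * psi b y x - t * psi b x y + t ^ 2 * psi b x x := by
    unfold psi
    simp only [Finset.mul_sum, ← Finset.sum_sub_distrib, ← Finset.sum_add_distrib]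
    refine Finset.sum_congr rfl fun a _ => Finset.sum_congr rfl fun c _ => ?_
    ring
  rw [h, hs]
  ring

theorem bet_sub (b : ι → E) (y x : ι → ℝ) (t : ℝ) :
    bet b (fun a => y a - t * x a) = bet b y - t * bet b x := by
  unfold bet
  rw [Finset.mul_sum, ← Finset.sum_sub_distrib]
  refine Finset.sum_congr rfl fun a _ => ?_
  ring

end

/-- (AFB) -/
theorem afb' {E : Type} [NormedAddCommGroup E] [InnerProductSpace ℝ E] {ι : Type} [Fintype ι]
    (b : ι → E) (x y : ι → ℝ) (hx : ∀ a, 0 ≤ x a) :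
    zf2 0 b y y x * zf2 0 b x x x ≤ zf2 0 b y x x ^ 2 := by
  have hq0 : 0 ≤ zf2 0 b x x x := by
    unfold zf2
    refine Finset.sum_nonneg fun a _ => Finset.sum_nonneg fun c _ => Finset.sum_nonneg fun v _ => ?_
    refine mul_nonneg (Real.sqrt_nonneg _) (mul_nonneg (mul_nonneg (hx a) (hx c)) ?_)
    exact Finset.prod_nonneg fun l _ => hx _
  rcases hq0.eq_or_lt with hq | hq
  · rw [← hq, mul_zero]
    exact sq_nonneg _
  · have e1 := zf2_eq b x x x
    have e2 := zf2_eq b y y x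
    have e3 := zf2_eq b y x x
    have hb : bet b x ≠ 0 := by
      intro h0
      have := psi_nonneg b x
      rw [h0] at e1
      linarith
    set t : ℝ := bet b y / bet b x with ht
    have hz : bet b y - t * bet b x = 0 := by
      rw [ht, div_mul_cancel₀ _ hb, sub_self]
    have hp := psi_nonneg b (fun a => y a - t * x a)
    rw [psi_sub] at hp
    have hty : bet b y = t * bet b x := by linarith
    have hQ : zf2 0 b y y x - 2 * t * zf2 0 b y x x + t ^ 2 * zf2 0 b x x x ≤ 0 := by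
      rw [e1, e2, e3, hty]
      nlinarith
    nlinarith [sq_nonneg (zf2 0 b y x x - t * zf2 0 b x x x)]

end Pool.Agent.BPH.H15

namespace Pool.Agent.BPH

/-- AFB -/
theorem afb : AFBStmt := fun b x y hx => H15.afb' b x y hx

end Pool.Agent.BPH
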