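import Pool.Agent.BPH.Simp

/-!
# Row AFM: integral form of the tangent inequality
-/

open MeasureTheory Module Set Filter
open scoped RealInnerProductSpace Pointwise Topology ENNReal

namespace Pool.Agent.BPH

open Pool.Agent.Helper55_PB Pool.Agent.Helper28_PB

theorem afm (sp : SPH) (gwb : GWB) (zfu : ZFU) (aft : AFTStmt) : AFMStmt := by
  intro E _ _ _ _ _ _ j hj f hf
  have := sp.prob (E := E)
  have h1d : Dens (fun _ : E => (1 : ℝ)) := Dens.one sp
  -- the simple functions
  have hpos : ∀ N : ℕ, (0 : ℝ) < 1 / ((N : ℝ) + 1) := fun N => by positivity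
  have hle : ∀ N : ℕ, 1 / ((N : ℝ) + 1) ≤ 1 := by
    intro N
    rw [div_le_one (by positivity)]
    have : (0 : ℝ) ≤ N := Nat.cast_nonneg N
    linarith
  choose r hr using fun N : ℕ => exists_simple (E := E) 1 (hpos N)
  have hrn : ∀ N, ∀ x : E, ‖x‖ ≤ 1 → ‖r N x‖ ≤ 2 := by
    intro N x hx
    have h1 := (hr N x (by rwa [mem_closedBall_zero_iff])).le
    have h2 : ‖r N x‖ ≤ ‖r N x - x‖ + ‖x‖ := by
      have := norm_add_le (r N x - x) x
      simpa using this
    linarith [hle N]
  -- the integrands
  have hG1 : Continuous (fun q : E × (Fin (j + 1) → E) => gw q.2) :=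
    gwb.cont.comp continuous_snd
  have hG2 : Continuous (fun q : E × (Fin j → E) => gw (cns q.1 q.2)) :=
    gwb.cont.comp continuous_cns
  -- the three sums
  set A : ℕ → ℝ := fun N => zf (j + 1) (fun p : (r N).range => (p : E))
    (fun p => wr (r N) f p) with hA
  set B : ℕ → ℝ := fun N => zf (j + 1) (fun p : (r N).range => (p : E))
    (fun p => wr (r N) (fun _ => 1) p) with hB
  set C : ℕ → ℝ := fun N => zf1 j (fun p : (r N).range => (p : E))
    (fun p => wr (r N) (fun _ => 1) p) (fun p => wr (r N) f p) with hC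
  have hAt : Tendsto A atTop (𝓝 (ZZ (j + 1) f)) := by
    have h := tendsto_simple sp hG1 hf hr (a := fun _ => (0 : E)) (a₀ := 0) tendsto_const_nhds
      (fun _ => by simp)
    refine h.congr (fun N => ?_)
    exact (simple_int sp (r N) (hf.integrable sp) (fun v => gw v)).symm
  have hBt : Tendsto B atTop (𝓝 (ZZ (j + 1) (fun _ : E => 1))) := by
    have h := tendsto_simple sp hG1 h1d hr (a := fun _ => (0 : E)) (a₀ := 0) tendsto_const_nhds
      (fun _ => by simp)
    refine h.congr (fun N => ?_)
    exact (simple_int sp (r N) (h1d.integrable sp) (fun v => gw v)).symm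
  -- the mixed sum
  set H : ℕ → E → ℝ := fun N a =>
    ∫ v, gw (cns a (fun l => r N (v l))) * ∏ l, f (v l) ∂sphP E j with hH
  have hC1 : ∀ N, C N = ∫ x, H N (r N x) ∂sph E := by
    intro N
    have h1 := simple_int1 (r N) (h1d.integrable sp) (H N)
    simp only [mul_one] at h1
    rw [← h1]
    simp only [hC, zf1, hH]
    refine Finset.sum_congr rfl ?_
    intro a _
    rw [← simple_int sp (r N) (hf.integrable sp) (fun v => gw (cns (a : E) v)), Finset.sum_mul]
    refine Finset.sum_congr rfl ?_
    intro v _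
    ring
  have hCt : Tendsto C atTop (𝓝 (∫ x, YY j f x ∂sph E)) := by
    obtain ⟨b, hb⟩ := bdd_simple sp hG2 hf
    have h : Tendsto (fun N => ∫ x, H N (r N x) ∂sph E) atTop (𝓝 (∫ x, YY j f x ∂sph E)) := by
      refine tendsto_integral_of_dominated_convergence (fun _ => b) ?_ ?_ ?_ ?_
      · intro N
        have h1 : Measurable ((r N).map (H N)) := SimpleFunc.measurable _
        exact h1.aestronglyMeasurable
      · exact integrable_const _
      · intro N
        filter_upwards [sp.norm (E := E)] with x hx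
        rw [Real.norm_eq_abs]
        exact hb (r N x) (r N) (hrn N x hx.le) (fun y hy => (hr N y hy).trans_le (hle N))
      · filter_upwards [sp.norm (E := E)] with x hx
        refine tendsto_simple sp hG2 hf hr (a := fun N => r N x) (a₀ := x) ?_
          (fun N => hrn N x hx.le)
        rw [tendsto_iff_norm_sub_tendsto_zero]
        exact squeeze_zero (fun _ => norm_nonneg _) (fun N => (hr N x (by
          rw [mem_closedBall_zero_iff]; exact hx.le)).le) tendsto_one_div_add_atTop_nhds_zero_nat
    refine h.congr (fun N => ?_)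
    exact (hC1 N).symm
  have hApos : 0 < ZZ (j + 1) f := zfu.pos _ f hj hf
  have hBpos : 0 < ZZ (j + 1) (fun _ : E => 1) := zfu.pos _ _ hj h1d
  -- the inequality
  have hmain : ∀ᶠ N in atTop, (j + 1) * (1 - C N / A N) ≤ Real.log (A N / B N) := by
    filter_upwards [hAt.eventually (lt_mem_nhds hApos), hBt.eventually (lt_mem_nhds hBpos)]
      with N h1 h2
    exact aft j (fun p : (r N).range => (p : E)) _ _ (fun p => wr_nonneg _ hf.nonneg _)
      (fun p => wr_nonneg _ h1d.nonneg _) h1 h2
  refine le_of_tendsto_of_tendsto ?_ ?_ hmain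
  · exact (tendsto_const_nhds.sub (hCt.div hAt hApos.ne')).const_mul _
  · exact (hAt.div hBt hBpos.ne').log (div_pos hApos hBpos).ne'

end Pool.Agent.BPH
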