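import Pool.Agent.BPH.Stmts

/-!
# AFT: the tangent form of Minkowski's inequality
-/

open MeasureTheory Module Set Filter
open scoped RealInnerProductSpace Pointwise Topology

namespace Pool.Agent.BPH

namespace H76

variable {ι : Type}

/-- a form of degree `m` given by its coefficients -/
noncomputable def GZ [Fintype ι] (m : ℕ) (G : (Fin m → ι) → ℝ) (X : ι → ℝ) : ℝ :=
  ∑ v : Fin m → ι, G v * ∏ l, X (v l)

/-- symmetric coefficients -/
def SymG {ι : Type} {m : ℕ} (G : (Fin m → ι) → ℝ) : Prop :=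
  ∀ (e : Equiv.Perm (Fin m)) (v : Fin m → ι), G (fun l => v (e l)) = G v

theorem GZ_succ [Fintype ι] (m : ℕ) (G : (Fin (m + 1) → ι) → ℝ) (X : ι → ℝ) :
    GZ (m + 1) G X = ∑ a, X a * GZ m (fun v => G (Fin.cons a v)) X := by
  unfold GZ
  rw [← (Fin.consEquiv (fun _ : Fin (m + 1) => ι)).sum_comp, Fintype.sum_prod_type]
  refine Finset.sum_congr rfl fun a _ => ?_
  rw [Finset.mul_sum]
  refine Finset.sum_congr rfl fun v _ => ?_
  have e1 : (Fin.consEquiv (fun _ : Fin (m + 1) => ι)) (a, v) = Fin.cons a v := rfl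
  rw [e1, Fin.prod_univ_succ]
  simp only [Fin.cons_zero, Fin.cons_succ]
  ring

theorem SymG.tail {m : ℕ} {G : (Fin (m + 1) → ι) → ℝ} (hG : SymG G) (a : ι) :
    SymG (fun v : Fin m → ι => G (Fin.cons a v)) := by
  intro e v
  show G (Fin.cons a fun l => v (e l)) = G (Fin.cons a v)
  rw [← hG (Equiv.Perm.decomposeFin.symm (0, e)) (Fin.cons a v)]
  congr 1
  funext l
  refine Fin.cases ?_ (fun l => ?_) l
  · simp
  · simp

theorem SymG.swap {m : ℕ} {G : (Fin (m + 2) → ι) → ℝ} (hG : SymG G) (a c : ι) (v : Fin m → ι) :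
    G (Fin.cons a (Fin.cons c v : Fin (m + 1) → ι)) =
      G (Fin.cons c (Fin.cons a v : Fin (m + 1) → ι)) := by
  rw [← hG (Equiv.swap 0 1) (Fin.cons a (Fin.cons c v : Fin (m + 1) → ι))]
  congr 1
  funext l
  refine Fin.cases ?_ (fun l => ?_) l
  · rw [Equiv.swap_apply_left]
    rfl
  · refine Fin.cases ?_ (fun l => ?_) l
    · have : (Fin.succ (0 : Fin (m + 1))) = (1 : Fin (m + 2)) := rfl
      rw [this, Equiv.swap_apply_right]
      rfl
    · rw [Equiv.swap_apply_of_ne_of_ne]
      · rfl
      · exact Fin.succ_ne_zero _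
      · intro h
        have : (Fin.succ (Fin.succ l) : Fin (m + 2)) = Fin.succ 0 := h
        exact Fin.succ_ne_zero _ (Fin.succ_injective _ this)

/-- the derivative of a form along a line -/
theorem hasDerivAt_GZ [Fintype ι] (y d : ι → ℝ) (s : ℝ) : ∀ (m : ℕ) (G : (Fin (m + 1) → ι) → ℝ), SymG G →
    HasDerivAt (fun s : ℝ => GZ (m + 1) G (fun a => y a + s * d a))
      ((m + 1 : ℝ) * ∑ a, d a * GZ m (fun v => G (Fin.cons a v)) (fun a => y a + s * d a)) s := by
  have hX : ∀ a, HasDerivAt (fun s : ℝ => y a + s * d a) (d a) s := by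
    intro a
    have := ((hasDerivAt_id s).mul_const (d a)).const_add (y a)
    simpa using this
  intro m
  induction m with
  | zero =>
    intro G hG
    have e1 : (fun s : ℝ => GZ (0 + 1) G (fun a => y a + s * d a)) =
        fun s : ℝ => ∑ a, (y a + s * d a) * GZ 0 (fun v => G (Fin.cons a v)) (fun _ => 0) := by
      funext s
      rw [GZ_succ]
      refine Finset.sum_congr rfl fun a _ => ?_
      congr 1
    rw [e1]
    have e2 : ((0 : ℕ) + 1 : ℝ) * ∑ a, d a * GZ 0 (fun v => G (Fin.cons a v))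
        (fun a => y a + s * d a) = ∑ a, d a * GZ 0 (fun v => G (Fin.cons a v)) (fun _ => 0) := by
      push_cast
      rw [zero_add, one_mul]
      refine Finset.sum_congr rfl fun a _ => ?_
      congr 1
    rw [e2]
    exact HasDerivAt.fun_sum fun a _ => (hX a).mul_const _
  | succ m ih =>
    intro G hG
    have e1 : (fun s : ℝ => GZ (m + 1 + 1) G (fun a => y a + s * d a)) =
        fun s : ℝ => ∑ a, (y a + s * d a) *
          GZ (m + 1) (fun v => G (Fin.cons a v)) (fun a => y a + s * d a) := by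
      funext s
      rw [GZ_succ]
    rw [e1]
    have h1 : HasDerivAt (fun s : ℝ => ∑ a, (y a + s * d a) *
          GZ (m + 1) (fun v => G (Fin.cons a v)) (fun a => y a + s * d a))
        (∑ a, (d a * GZ (m + 1) (fun v => G (Fin.cons a v)) (fun a => y a + s * d a) +
          (y a + s * d a) * ((m + 1 : ℝ) * ∑ c, d c * GZ m
            (fun v => G (Fin.cons a (Fin.cons c v : Fin (m + 1) → ι)))
            (fun a => y a + s * d a)))) s := by
      refine HasDerivAt.fun_sum fun a _ => ?_
      exact (hX a).mul (ih (fun v => G (Fin.cons a v)) (hG.tail a))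
    have e3 : ∑ a, (d a * GZ (m + 1) (fun v => G (Fin.cons a v)) (fun a => y a + s * d a) +
          (y a + s * d a) * ((m + 1 : ℝ) * ∑ c, d c * GZ m
            (fun v => G (Fin.cons a (Fin.cons c v : Fin (m + 1) → ι)))
            (fun a => y a + s * d a))) =
        (((m + 1 : ℕ) : ℝ) + 1) * ∑ a, d a *
          GZ (m + 1) (fun v => G (Fin.cons a v)) (fun a => y a + s * d a) := by
      rw [Finset.sum_add_distrib]
      have e4 : ∑ a, (y a + s * d a) * ((m + 1 : ℝ) * ∑ c, d c * GZ m
            (fun v => G (Fin.cons a (Fin.cons c v : Fin (m + 1) → ι)))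
            (fun a => y a + s * d a)) =
          (m + 1 : ℝ) * ∑ c, d c *
            GZ (m + 1) (fun v => G (Fin.cons c v)) (fun a => y a + s * d a) := by
        simp_rw [GZ_succ, Finset.mul_sum]
        rw [Finset.sum_comm]
        refine Finset.sum_congr rfl fun c _ => Finset.sum_congr rfl fun a _ => ?_
        have e5 : (fun v : Fin m → ι => G (Fin.cons a (Fin.cons c v : Fin (m + 1) → ι))) =
            fun v => G (Fin.cons c (Fin.cons a v : Fin (m + 1) → ι)) :=
          funext fun v => hG.swap a c v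
        rw [e5]
        ring
      rw [e4]
      push_cast
      ring
    rw [← e3]
    exact h1

section

variable {E : Type} [NormedAddCommGroup E] [InnerProductSpace ℝ E] [Fintype ι]

theorem zf_eq (m : ℕ) (b : ι → E) (x : ι → ℝ) :
    zf m b x = GZ m (fun v => gw (fun l => b (v l))) x := rfl

theorem cns_eq {m : ℕ} (b : ι → E) (a : ι) (v : Fin m → ι) :
    cns (b a) (fun l => b (v l)) = fun l => b ((Fin.cons a v : Fin (m + 1) → ι) l) := by
  funext l
  refine Fin.cases ?_ (fun l => ?_) l
  · rfl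
  · rfl

theorem zf1_eq (m : ℕ) (b : ι → E) (y x : ι → ℝ) :
    zf1 m b y x = ∑ a, y a * GZ m (fun v => gw (fun l => b ((Fin.cons a v : Fin (m + 1) → ι) l)))
      x := by
  unfold zf1 GZ
  refine Finset.sum_congr rfl fun a _ => ?_
  rw [Finset.mul_sum]
  refine Finset.sum_congr rfl fun v _ => ?_
  rw [cns_eq]
  ring

theorem zf1_self (m : ℕ) (b : ι → E) (x : ι → ℝ) : zf1 m b x x = zf (m + 1) b x := by
  rw [zf1_eq, zf_eq, GZ_succ]

theorem zf2_eq (m : ℕ) (b : ι → E) (y z x : ι → ℝ) :
    zf2 m b y z x = ∑ a, y a * ∑ c, z c * GZ m (fun v => gw (fun l =>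
      b ((Fin.cons a (Fin.cons c v : Fin (m + 1) → ι) : Fin (m + 2) → ι) l))) x := by
  unfold zf2 GZ
  refine Finset.sum_congr rfl fun a _ => ?_
  rw [Finset.mul_sum]
  refine Finset.sum_congr rfl fun c _ => ?_
  rw [Finset.mul_sum, Finset.mul_sum]
  refine Finset.sum_congr rfl fun v _ => ?_
  rw [cns_eq, cns_eq]
  ring

theorem zf2_self (m : ℕ) (b : ι → E) (y x : ι → ℝ) : zf2 m b y x x = zf1 (m + 1) b y x := by
  rw [zf2_eq, zf1_eq]
  refine Finset.sum_congr rfl fun a _ => ?_
  rw [GZ_succ]

theorem symG_gw (gwb : GWB) (m : ℕ) (b : ι → E) :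
    SymG (fun v : Fin m → ι => gw (fun l => b (v l))) := by
  intro e v
  exact gwb.perm (fun l => b (v l)) e

theorem zf1_sub (m : ℕ) (b : ι → E) (y z x : ι → ℝ) :
    zf1 m b (fun a => y a - z a) x = zf1 m b y x - zf1 m b z x := by
  rw [zf1_eq, zf1_eq, zf1_eq, ← Finset.sum_sub_distrib]
  refine Finset.sum_congr rfl fun a _ => ?_
  ring

theorem gw_nonneg {m : ℕ} (v : Fin m → E) : 0 ≤ gw v := Real.sqrt_nonneg _

theorem zf_mono (m : ℕ) (b : ι → E) {x y : ι → ℝ} (hx : ∀ a, 0 ≤ x a) (hxy : ∀ a, x a ≤ y a) :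
    zf m b x ≤ zf m b y := by
  unfold zf
  refine Finset.sum_le_sum fun v _ => ?_
  exact mul_le_mul_of_nonneg_left (Finset.prod_le_prod (fun l _ => hx _) fun l _ => hxy _)
    (gw_nonneg _)

theorem zf_smul (m : ℕ) (b : ι → E) (c : ℝ) (x : ι → ℝ) :
    zf m b (fun a => c * x a) = c ^ m * zf m b x := by
  unfold zf
  rw [Finset.mul_sum]
  refine Finset.sum_congr rfl fun v _ => ?_
  rw [Finset.prod_mul_distrib, Finset.prod_const, Finset.card_univ, Fintype.card_fin]
  ring

end

end H76

open H76 in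
/-- (AFT) -/
theorem aft (gwb : GWB) (afi : AFIStmt) : AFTStmt := by
  intro E _ _ _ ι _ j b x y hx hy hPx hPy
  set d : ι → ℝ := fun a => x a - y a with hd
  set X : ℝ → ι → ℝ := fun s a => y a + s * d a with hX
  have hX1 : X 1 = x := by
    funext a
    simp only [hX, hd]
    ring
  have hX0 : X 0 = y := by
    funext a
    simp only [hX, hd]
    ring
  have hXn : ∀ s ∈ Icc (0 : ℝ) 1, ∀ a, 0 ≤ X s a := by
    intro s hs a
    have e : X s a = (1 - s) * y a + s * x a := by
      simp only [hX, hd]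
      ring
    rw [e]
    have h1 := mul_nonneg (by linarith [hs.2] : 0 ≤ 1 - s) (hy a)
    have h2 := mul_nonneg hs.1 (hx a)
    linarith
  set P : ℝ → ℝ := fun s => zf (j + 1) b (X s) with hP
  set Q : ℝ → ℝ := fun s => zf1 j b d (X s) with hQ
  have hPpos : ∀ s ∈ Icc (0 : ℝ) 1, 0 < P s := by
    intro s hs
    have e : ∀ a, X s a = (1 - s) * y a + s * x a := by
      intro a
      simp only [hX, hd]
      ring
    rcases eq_or_lt_of_le hs.2 with h1 | h1
    · rw [h1]
      simp only [hP, hX1]
      exact hPx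
    · have h2 : zf (j + 1) b (fun a => (1 - s) * y a) ≤ P s := by
        refine zf_mono (j + 1) b (fun a => mul_nonneg (by linarith) (hy a)) fun a => ?_
        rw [e a]
        have := mul_nonneg hs.1 (hx a)
        linarith
      rw [zf_smul] at h2
      have h3 : 0 < (1 - s) ^ (j + 1) * zf (j + 1) b y := by
        have : 0 < 1 - s := by linarith
        positivity
      linarith
  have hPd : ∀ s, HasDerivAt P ((j + 1 : ℝ) * Q s) s := by
    intro s
    have h1 := hasDerivAt_GZ y d s j (fun v => gw (fun l => b (v l))) (symG_gw gwb (j + 1) b)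
    simp only [hQ, zf1_eq]
    exact h1
  have hQd : ∀ s ∈ Icc (0 : ℝ) 1, ∃ R : ℝ, HasDerivAt Q R s ∧ R * P s ≤ (j : ℝ) * Q s ^ 2 := by
    intro s hs
    cases j with
    | zero =>
      refine ⟨0, ?_, by simp⟩
      have : Q = fun _ => Q 0 := by
        funext s
        simp only [hQ, zf1_eq]
        refine Finset.sum_congr rfl fun a _ => ?_
        congr 1
      rw [this]
      exact hasDerivAt_const s _
    | succ m =>
      refine ⟨(m + 1 : ℝ) * zf2 m b d d (X s), ?_, ?_⟩
      · have h1 : HasDerivAt (fun s : ℝ => ∑ a, d a * GZ (m + 1)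
            (fun v => gw (fun l => b ((Fin.cons a v : Fin (m + 2) → ι) l)))
            (fun a => y a + s * d a))
            (∑ a, d a * ((m + 1 : ℝ) * ∑ c, d c * GZ m (fun v => gw (fun l =>
              b ((Fin.cons a (Fin.cons c v : Fin (m + 1) → ι) : Fin (m + 2) → ι) l)))
              (fun a => y a + s * d a))) s := by
          refine HasDerivAt.fun_sum fun a _ => ?_
          refine HasDerivAt.const_mul _ ?_
          exact hasDerivAt_GZ y d s m
            (fun v => gw (fun l => b ((Fin.cons a v : Fin (m + 2) → ι) l)))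
            ((symG_gw gwb (m + 2) b).tail a)
        have h2 : ((m + 1 : ℝ) * zf2 m b d d (X s)) =
            ∑ a, d a * ((m + 1 : ℝ) * ∑ c, d c * GZ m (fun v => gw (fun l =>
              b ((Fin.cons a (Fin.cons c v : Fin (m + 1) → ι) : Fin (m + 2) → ι) l)))
              (fun a => y a + s * d a)) := by
          rw [zf2_eq, Finset.mul_sum]
          refine Finset.sum_congr rfl fun a _ => ?_
          ring
        rw [h2]
        have h3 : Q = (fun s : ℝ => ∑ a, d a * GZ (m + 1)
            (fun v => gw (fun l => b ((Fin.cons a v : Fin (m + 2) → ι) l)))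
            (fun a => y a + s * d a)) := by
          funext s
          simp only [hQ, hX]
          rw [zf1_eq]
        rw [h3]
        exact h1
      · have h4 := afi m b (X s) d (hXn s hs)
        rw [zf2_self, zf2_self, zf1_self] at h4
        have h5 : (m + 1 : ℝ) * zf2 m b d d (X s) * P s =
            (m + 1 : ℝ) * (zf2 m b d d (X s) * zf (m + 1 + 1) b (X s)) := by
          simp only [hP]
          ring
        rw [h5]
        push_cast
        exact mul_le_mul_of_nonneg_left h4 (by positivity)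
  -- the quotient is antitone
  have hanti : AntitoneOn (fun s => Q s / P s) (Icc 0 1) := by
    refine antitoneOn_of_deriv_nonpos (convex_Icc 0 1) ?_ ?_ ?_
    · intro s hs
      obtain ⟨R, hR, _⟩ := hQd s hs
      exact (hR.div (hPd s) (hPpos s hs).ne').continuousAt.continuousWithinAt
    · intro s hs
      rw [interior_Icc] at hs
      have hs' := Ioo_subset_Icc_self hs
      obtain ⟨R, hR, _⟩ := hQd s hs'
      exact (hR.div (hPd s) (hPpos s hs').ne').differentiableAt.differentiableWithinAt
    · intro s hs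
      rw [interior_Icc] at hs
      have hs' := Ioo_subset_Icc_self hs
      obtain ⟨R, hR, hRP⟩ := hQd s hs'
      have h1 := hR.div (hPd s) (hPpos s hs').ne'
      have h2 : deriv (fun s => Q s / P s) s = _ := h1.deriv
      rw [h2]
      refine div_nonpos_of_nonpos_of_nonneg ?_ (sq_nonneg _)
      nlinarith [sq_nonneg (Q s)]
  -- mean value theorem
  have hlog : ∀ s ∈ Icc (0 : ℝ) 1, HasDerivAt (fun s => Real.log (P s))
      ((j + 1 : ℝ) * Q s / P s) s := fun s hs => (hPd s).log (hPpos s hs).ne'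
  obtain ⟨c, hc, hcd⟩ := exists_hasDerivAt_eq_slope (fun s => Real.log (P s))
    (fun s => (j + 1 : ℝ) * Q s / P s) (zero_lt_one)
    (fun s hs => (hlog s hs).continuousAt.continuousWithinAt)
    (fun s hs => hlog s (Ioo_subset_Icc_self hs))
  have h1 := hanti (Ioo_subset_Icc_self hc) (right_mem_Icc.2 zero_le_one) hc.2.le
  have hP1 : P 1 = zf (j + 1) b x := by simp only [hP, hX1]
  have hP0 : P 0 = zf (j + 1) b y := by simp only [hP, hX0]
  have hQ1 : Q 1 = zf (j + 1) b x - zf1 j b y x := by
    simp only [hQ, hX1, hd]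
    rw [zf1_sub, zf1_self]
  rw [Real.log_div hPx.ne' hPy.ne', ← hP1, ← hP0]
  have h2 : Real.log (P 1) - Real.log (P 0) = (j + 1 : ℝ) * (Q c / P c) := by
    have : (j + 1 : ℝ) * Q c / P c = (Real.log (P 1) - Real.log (P 0)) / (1 - 0) := hcd
    rw [sub_zero, div_one] at this
    rw [← this]
    ring
  rw [h2]
  refine mul_le_mul_of_nonneg_left (le_trans (le_of_eq ?_) h1) (by positivity)
  show 1 - zf1 j b y x / P 1 = Q 1 / P 1
  rw [hQ1, ← hP1, sub_div, div_self]
  rw [hP1]
  exact hPx.ne'

end Pool.Agent.BPH
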