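import Pool.Agent.BPH.Stmts

/-!
# BPH, row AVG: the average of `mS (perp v) φ`
-/

open MeasureTheory Module Set Filter
open scoped RealInnerProductSpace Pointwise Topology ENNReal

namespace Pool.Agent.BPH

set_option linter.unusedSectionVars false

namespace AvgH

variable {E : Type} [NormedAddCommGroup E] [InnerProductSpace ℝ E] [FiniteDimensional ℝ E]

theorem perp_map (T : E ≃ₗᵢ[ℝ] E) {i : ℕ} (v : Fin i → E) :
    perp (fun l => T (v l)) = (perp v).map (T.toLinearEquiv : E →ₗ[ℝ] E) := by
  ext x
  unfold perp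
  rw [Submodule.mem_orthogonal, Submodule.mem_map]
  constructor
  · intro h
    refine ⟨T.symm x, ?_, T.apply_symm_apply x⟩
    rw [Submodule.mem_orthogonal]
    intro u hu
    have h1 : T u ∈ Submodule.span ℝ (Set.range fun l => T (v l)) := by
      have h2 : (T.toLinearEquiv : E →ₗ[ℝ] E) u ∈
          (Submodule.span ℝ (Set.range v)).map (T.toLinearEquiv : E →ₗ[ℝ] E) :=
        Submodule.mem_map_of_mem hu
      rw [Submodule.map_span, ← Set.range_comp] at h2
      exact h2
    have h3 := h _ h1
    rw [← T.inner_map_map, T.apply_symm_apply]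
    exact h3
  · rintro ⟨y, hy, rfl⟩ u hu
    rw [Submodule.mem_orthogonal] at hy
    have h1 : T.symm u ∈ Submodule.span ℝ (Set.range v) := by
      have h2 : (T.symm.toLinearEquiv : E →ₗ[ℝ] E) u ∈
          (Submodule.span ℝ (Set.range fun l => T (v l))).map
            (T.symm.toLinearEquiv : E →ₗ[ℝ] E) :=
        Submodule.mem_map_of_mem hu
      rw [Submodule.map_span, ← Set.range_comp] at h2
      have h3 : ((T.symm.toLinearEquiv : E →ₗ[ℝ] E) : E → E) ∘ (fun l => T (v l)) = v := by
        funext l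
        exact T.symm_apply_apply (v l)
      rw [h3] at h2
      exact h2
    have h3 := hy _ h1
    rw [← T.inner_map_map, T.apply_symm_apply] at h3
    exact h3

theorem pp_map (T : E ≃ₗᵢ[ℝ] E) {i : ℕ} (v : Fin i → E) (x : E) :
    (perp (fun l => T (v l))).starProjection (T x) = T ((perp v).starProjection x) := by
  rw [perp_map, Submodule.starProjection_map_apply, T.symm_apply_apply]

theorem nrm_map (T : E ≃ₗᵢ[ℝ] E) (x : E) : nrm (T x) = T (nrm x) := by
  unfold nrm
  rw [T.norm_map, map_smul]

theorem norm_nrm {x : E} (hx : x ≠ 0) : ‖nrm x‖ = 1 := by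
  unfold nrm
  rw [norm_smul, norm_inv, norm_norm, inv_mul_cancel₀ (norm_ne_zero_iff.2 hx)]

variable [MeasurableSpace E] [BorelSpace E]

theorem meas_nrm : Measurable (nrm : E → E) := by
  unfold nrm
  exact (measurable_norm.inv).smul measurable_id

theorem mp_iso (sp : SPH) (T : E ≃ₗᵢ[ℝ] E) :
    MeasurePreserving T.toHomeomorph.toMeasurableEquiv (sph E) (sph E) :=
  ⟨T.toHomeomorph.toMeasurableEquiv.measurable, sp.iso T⟩

theorem mS_map (sp : SPH) (T : E ≃ₗᵢ[ℝ] E) {i : ℕ} (v : Fin i → E) (φ : E → ℝ) :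
    mS (perp (fun l => T (v l))) φ = mS (perp v) (fun x => φ (T x)) := by
  unfold mS
  have h := (mp_iso sp T).integral_comp'
    (fun x => φ (nrm ((perp (fun l => T (v l))).starProjection x)))
  rw [← h]
  refine integral_congr_ae (Filter.Eventually.of_forall fun x => ?_)
  change φ (nrm ((perp (fun l => T (v l))).starProjection (T x))) = _
  rw [pp_map, nrm_map]

theorem int_inv (sp : SPH) (gwb : GWB) (T : E ≃ₗᵢ[ℝ] E) (i : ℕ) (φ : E → ℝ) :
    ∫ v, gw v * mS (perp v) (fun x => φ (T x)) ∂sphP E i = ∫ v, gw v * mS (perp v) φ ∂sphP E i := by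
  have := sp.prob (E := E)
  let e : (Fin i → E) ≃ᵐ (Fin i → E) :=
    MeasurableEquiv.piCongrRight fun _ => T.toHomeomorph.toMeasurableEquiv
  have hmp : MeasurePreserving e (sphP E i) (sphP E i) := by
    have := measurePreserving_pi (fun _ : Fin i => sph E) (fun _ : Fin i => sph E)
      (f := fun _ => T.toHomeomorph.toMeasurableEquiv) (fun _ => mp_iso sp T)
    exact this
  have h := hmp.integral_comp' (fun v => gw v * mS (perp v) φ)
  rw [← h]
  refine integral_congr_ae (Filter.Eventually.of_forall fun v => ?_)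
  change gw v * mS (perp v) (fun x => φ (T x)) =
    gw (fun l => T (v l)) * mS (perp (fun l => T (v l))) φ
  rw [mS_map sp T v φ]
  have h1 := gwb.iso T.toLinearIsometry v
  have h2 : gw (fun l => T (v l)) = gw v := h1
  rw [h2]

end AvgH

open AvgH in
theorem avg (sp : SPH) (spi : SPIStmt) (ppm : PPMStmt) (gwb : GWB) (haa : HAAStmt) (uni : UNI) :
    AVGStmt := by
  intro E _ _ _ _ _ i hi φ hφ
  have hpr := sp.prob (E := E)
  have hnt : Nontrivial E := by
    apply Module.nontrivial_of_finrank_pos (R := ℝ)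
    omega
  obtain ⟨lam, hlam⟩ := haa E
  have hlp := hlam.prob
  obtain ⟨C, hC⟩ := hφ.bdd
  have hpi : IsProbabilityMeasure (sphP E i) := by
    unfold sphP
    infer_instance
  -- `gw` is integrable
  have hgm : Measurable (fun v : Fin i → E => gw v) := gwb.cont.measurable
  have hgb : ∀ᵐ v ∂sphP E i, ‖gw v‖ ≤ 1 := by
    filter_upwards [spi (E := E) i hi.le] with v hv
    have h1 := gwb.le v
    have h2 : 0 ≤ gw v := Real.sqrt_nonneg _
    rw [Real.norm_eq_abs, abs_of_nonneg h2]
    refine h1.trans ?_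
    rw [Finset.prod_congr rfl fun l _ => hv.2 l, Finset.prod_const_one]
  have hgi : Integrable (fun v : Fin i → E => gw v) (sphP E i) :=
    Integrable.of_bound hgm.aestronglyMeasurable 1 hgb
  -- the kernel
  have hap : Measurable fun q : (E →L[ℝ] E) × E => q.1 q.2 :=
    (isBoundedBilinearMap_apply (𝕜 := ℝ) (E := E) (F := E)).continuous.measurable
  have hK : Measurable fun q : (E →L[ℝ] E) × ((Fin i → E) × E) =>
      φ (q.1 (nrm (pp q.2.1 q.2.2))) := by
    have h1 : Measurable fun q : (E →L[ℝ] E) × ((Fin i → E) × E) =>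
        (q.1, nrm (pp q.2.1 q.2.2)) :=
      measurable_fst.prodMk (meas_nrm.comp ((ppm (E := E) i).comp measurable_snd))
    exact hφ.meas.comp (hap.comp h1)
  let F : (E →L[ℝ] E) → (Fin i → E) × E → ℝ := fun g p => gw p.1 * φ (g (nrm (pp p.1 p.2)))
  have hFm : Measurable (Function.uncurry F) :=
    ((hgm.comp (measurable_fst.comp measurable_snd))).mul hK
  have hg2 : Integrable (fun p : (Fin i → E) × E => gw p.1) ((sphP E i).prod (sph E)) :=
    hgi.comp_fst (sph E)
  have hg3 : Integrable (fun q : (E →L[ℝ] E) × ((Fin i → E) × E) => C * gw q.2.1)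
      (lam.prod ((sphP E i).prod (sph E))) := (hg2.comp_snd lam).const_mul C
  have hFi : Integrable (Function.uncurry F) (lam.prod ((sphP E i).prod (sph E))) := by
    refine hg3.mono hFm.aestronglyMeasurable (Filter.Eventually.of_forall fun q => ?_)
    have h2 : 0 ≤ gw q.2.1 := Real.sqrt_nonneg _
    change ‖gw q.2.1 * φ (q.1 (nrm (pp q.2.1 q.2.2)))‖ ≤ ‖C * gw q.2.1‖
    rw [norm_mul, norm_mul, mul_comm ‖C‖]
    apply mul_le_mul_of_nonneg_left _ (norm_nonneg _)
    rw [Real.norm_eq_abs, Real.norm_eq_abs]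
    exact (hC _).trans (le_abs_self C)
  have hFg : ∀ g : E →L[ℝ] E, Integrable (F g) ((sphP E i).prod (sph E)) := by
    intro g
    have hm : Measurable (F g) := hFm.comp measurable_prodMk_left
    refine (hg2.const_mul C).mono hm.aestronglyMeasurable (Filter.Eventually.of_forall fun q => ?_)
    change ‖gw q.1 * φ (g (nrm (pp q.1 q.2)))‖ ≤ ‖C * gw q.1‖
    rw [norm_mul, norm_mul, mul_comm ‖C‖]
    apply mul_le_mul_of_nonneg_left _ (norm_nonneg _)
    rw [Real.norm_eq_abs, Real.norm_eq_abs]
    exact (hC _).trans (le_abs_self C)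
  have hswap := integral_integral_swap hFi
  -- the left side
  have hL : ∫ g, ∫ p, F g p ∂((sphP E i).prod (sph E)) ∂lam =
      ∫ v, gw v * mS (perp v) φ ∂sphP E i := by
    have h1 : ∀ᵐ g ∂lam, ∫ p, F g p ∂((sphP E i).prod (sph E)) =
        ∫ v, gw v * mS (perp v) φ ∂sphP E i := by
      filter_upwards [hlam.iso] with g hg
      obtain ⟨T, rfl⟩ := hg
      rw [integral_prod _ (hFg _), ← int_inv sp gwb T i φ]
      refine integral_congr_ae (Filter.Eventually.of_forall fun v => ?_)
      change ∫ x, gw v * φ (opT T (nrm (pp v x))) ∂sph E = gw v * mS (perp v) (fun x => φ (T x))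
      rw [integral_const_mul]
      rfl
    rw [integral_congr_ae h1, integral_const, probReal_univ, one_smul]
  -- the right side
  have hR : ∫ p, ∫ g, F g p ∂lam ∂((sphP E i).prod (sph E)) =
      ZZ i (fun _ : E => 1) * ∫ x, φ x ∂sph E := by
    have hFr : Integrable (fun p => ∫ g, F g p ∂lam) ((sphP E i).prod (sph E)) :=
      hFi.integral_prod_right
    rw [integral_prod _ hFr]
    have h1 : ∀ v : Fin i → E, ∫ x, ∫ g, F g (v, x) ∂lam ∂sph E = gw v * ∫ x, φ x ∂sph E := by
      intro v
      have hne : (perp v)ᗮ ≠ ⊤ := by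
        unfold perp
        rw [Submodule.orthogonal_orthogonal]
        intro h
        have h2 := finrank_range_le_card (R := ℝ) v
        rw [Set.finrank, h, finrank_top, Fintype.card_fin] at h2
        omega
      have h0 : ∀ᵐ x ∂sph E, x ∉ ((perp v)ᗮ : Submodule ℝ E) := by
        have := sp.null (perp v)ᗮ hne
        rw [ae_iff]
        simpa using this
      have h2 : ∀ᵐ x ∂sph E, ∫ g, F g (v, x) ∂lam = gw v * ∫ x, φ x ∂sph E := by
        filter_upwards [h0] with x hx
        have hpx : pp v x ≠ 0 := by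
          intro h
          apply hx
          unfold pp at h
          exact (Submodule.starProjection_apply_eq_zero_iff _).1 h
        change ∫ g, gw v * φ (g (nrm (pp v x))) ∂lam = _
        rw [integral_const_mul, uni.all lam hlam _ (norm_nrm hpx) φ hφ]
      rw [integral_congr_ae h2, integral_const, probReal_univ, one_smul]
    simp only [h1]
    rw [integral_mul_const]
    unfold ZZ
    simp only [Finset.prod_const_one, mul_one]
  rw [← hL, hswap, hR]

end Pool.Agent.BPH
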