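import Pool.Agent.BPH.Kit

/-!
# Row BKK (helper31): moments on the unit sphere of a subspace
-/

open MeasureTheory Module Set Filter
open scoped RealInnerProductSpace Pointwise Topology ENNReal

namespace Pool.Agent.BPH

open Pool.Agent.Helper55_PB Pool.Agent.Helper28_PB

section

variable {E : Type} [NormedAddCommGroup E] [InnerProductSpace ℝ E] [FiniteDimensional ℝ E]

/-- an isometry which maps a pair of a subspace and a unit vector to another pair -/
theorem bkk_iso {U U' : Submodule ℝ E} (h : finrank ℝ U = finrank ℝ U') {u u' : E} (hu : u ∈ U)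
    (hu' : u' ∈ U') (h1 : ‖u‖ = 1) (h1' : ‖u'‖ = 1) :
    ∃ T : E ≃ₗᵢ[ℝ] E, (∀ x ∈ U, T x ∈ U') ∧ T u = u' := by
  obtain ⟨L0, -⟩ : ∃ L : U ≃ₗᵢ[ℝ] U', True :=
    ⟨(stdOrthonormalBasis ℝ U).equiv (stdOrthonormalBasis ℝ U') (finCongr h), trivial⟩
  obtain ⟨R, hR⟩ : ∃ R : U' ≃ₗᵢ[ℝ] U', R (L0 ⟨u, hu⟩) = ⟨u', hu'⟩ := by
    refine ⟨(ℝ ∙ (L0 ⟨u, hu⟩ - ⟨u', hu'⟩))ᗮ.reflection, ?_⟩
    refine Submodule.reflection_sub ?_
    rw [LinearIsometryEquiv.norm_map]
    show ‖u‖ = ‖u'‖
    rw [h1, h1']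
  have hext := LinearIsometry.extend_apply
    (U'.subtypeₗᵢ.comp (L0.trans R).toLinearIsometry : U →ₗᵢ[ℝ] E)
  refine ⟨(LinearIsometry.extend
    (U'.subtypeₗᵢ.comp (L0.trans R).toLinearIsometry : U →ₗᵢ[ℝ] E)).toLinearIsometryEquiv rfl,
    ?_, ?_⟩
  · intro x hx
    have h2 := hext ⟨x, hx⟩
    show (LinearIsometry.extend
      (U'.subtypeₗᵢ.comp (L0.trans R).toLinearIsometry : U →ₗᵢ[ℝ] E)) x ∈ U'
    rw [show x = ((⟨x, hx⟩ : U) : E) from rfl, h2]
    exact (R (L0 ⟨x, hx⟩)).2
  · have h2 := hext ⟨u, hu⟩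
    show (LinearIsometry.extend
      (U'.subtypeₗᵢ.comp (L0.trans R).toLinearIsometry : U →ₗᵢ[ℝ] E)) u = u'
    rw [show u = ((⟨u, hu⟩ : U) : E) from rfl, h2]
    show ((R (L0 ⟨u, hu⟩) : U') : E) = u'
    rw [hR]

theorem bkk_proj {U U' : Submodule ℝ E} (h : finrank ℝ U = finrank ℝ U') (T : E ≃ₗᵢ[ℝ] E)
    (hT : ∀ x ∈ U, T x ∈ U') (x : E) : U'.starProjection (T x) = T (U.starProjection x) := by
  have hmap : U.map (T.toLinearEquiv : E →ₗ[ℝ] E) = U' := by
    refine Submodule.eq_of_le_of_finrank_eq ?_ ?_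
    · rintro _ ⟨y, hy, rfl⟩
      exact hT y hy
    · rw [← h]
      exact LinearEquiv.finrank_map_eq T.toLinearEquiv U
  refine Submodule.eq_starProjection_of_mem_of_inner_eq_zero
    (hT _ (Submodule.starProjection_apply_mem U x)) ?_
  intro w hw
  rw [← hmap] at hw
  obtain ⟨w0, hw0, rfl⟩ := hw
  show ⟪T x - T (U.starProjection x), T w0⟫ = 0
  rw [← map_sub, LinearIsometryEquiv.inner_map_map]
  exact Submodule.starProjection_inner_eq_zero x w0 hw0

theorem bkk_inner (U : Submodule ℝ E) (w x : E) :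
    ⟪w, nrm (U.starProjection x)⟫ = ⟪U.starProjection w, nrm (U.starProjection x)⟫ := by
  have h3 : U.starProjection (nrm (U.starProjection x)) = nrm (U.starProjection x) :=
    Submodule.starProjection_eq_self_iff.2
      (Submodule.smul_mem _ _ (Submodule.starProjection_apply_mem U x))
  rw [Submodule.inner_starProjection_left_eq_right, h3]

variable [MeasurableSpace E] [BorelSpace E]

theorem bkk_mS (sp : SPH) {U U' : Submodule ℝ E} (h : finrank ℝ U = finrank ℝ U')
    (T : E ≃ₗᵢ[ℝ] E) (hT : ∀ x ∈ U, T x ∈ U') (φ : E → ℝ) :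
    mS U' φ = mS U (fun x => φ (T x)) := by
  unfold mS
  have hemb : MeasurableEmbedding (T : E → E) := T.toHomeomorph.measurableEmbedding
  have e := sp.iso (E := E) T
  calc ∫ x, φ (nrm (U'.starProjection x)) ∂sph E
      = ∫ x, φ (nrm (U'.starProjection x)) ∂((sph E).map T) := by rw [e]
    _ = ∫ x, φ (nrm (U'.starProjection (T x))) ∂sph E := hemb.integral_map _
    _ = ∫ x, φ (T (nrm (U.starProjection x))) ∂sph E := by
        refine integral_congr_ae (Eventually.of_forall fun x => ?_)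
        show φ (nrm (U'.starProjection (T x))) = φ (T (nrm (U.starProjection x)))
        rw [bkk_proj h T hT, nrm_iso]

theorem bkk_meas (U : Submodule ℝ E) : Measurable fun x : E => nrm (U.starProjection x) :=
  measurable_nrm.comp (by fun_prop)

theorem bkk_ae (sp : SPH) {U : Submodule ℝ E} (hU : U ≠ ⊥) :
    ∀ᵐ x ∂sph E, U.starProjection x ≠ 0 := by
  have h1 : Uᗮ ≠ ⊤ := by
    intro h
    exact hU (by rw [← Submodule.orthogonal_orthogonal U, h, Submodule.top_orthogonal_eq_bot])
  have h2 := sp.null (E := E) Uᗮ h1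
  rw [ae_iff]
  refine measure_mono_null ?_ h2
  intro x hx
  have hx' : U.starProjection x = 0 := by
    by_contra hc
    exact hx hc
  exact (Submodule.starProjection_apply_eq_zero_iff U).1 hx'

end

/-- row BKK -/
theorem bkk (sp : SPH) : BKKStmt := by
  intro E _ _ _ _ _ k hk1 hkn
  by_cases hex : ∃ U : Submodule ℝ E, finrank ℝ U = k
  swap
  · exact ⟨1, one_pos, fun U hU => absurd ⟨U, hU⟩ hex⟩
  obtain ⟨U0, hU0⟩ := hex
  have := sp.prob (E := E)
  have hbot : ∀ {U : Submodule ℝ E}, finrank ℝ U = k → U ≠ ⊥ := by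
    intro U hU h
    rw [h, finrank_bot] at hU
    omega
  obtain ⟨x0, hx0, hx00⟩ := Submodule.exists_mem_ne_zero_of_ne_bot (hbot hU0)
  obtain ⟨u0, hu0, hu01⟩ : ∃ u0 ∈ U0, ‖u0‖ = 1 := ⟨nrm x0, Submodule.smul_mem _ _ hx0,
    norm_nrm hx00⟩
  have hint : ∀ (U : Submodule ℝ E) (w : E), Integrable
      (fun x => |⟪w, nrm (U.starProjection x)⟫|) (sph E) := by
    intro U w
    have hm : Measurable fun x : E => |⟪w, nrm (U.starProjection x)⟫| := by
      have := bkk_meas U
      fun_prop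
    refine integrable_bdd hm (C := ‖w‖ * 1) (Eventually.of_forall fun x => ?_)
    rw [abs_abs]
    exact (abs_real_inner_le_norm _ _).trans
      (mul_le_mul_of_nonneg_left (norm_nrm_le _) (norm_nonneg _))
  have hint2 : ∀ (U : Submodule ℝ E) (w : E), Integrable
      (fun x => ⟪w, nrm (U.starProjection x)⟫ ^ 2) (sph E) := by
    intro U w
    have hm : Measurable fun x : E => ⟪w, nrm (U.starProjection x)⟫ ^ 2 := by
      have := bkk_meas U
      fun_prop
    refine integrable_bdd hm (C := (‖w‖ * 1) ^ 2) (Eventually.of_forall fun x => ?_)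
    rw [abs_pow]
    exact pow_le_pow_left₀ (abs_nonneg _) ((abs_real_inner_le_norm _ _).trans
      (mul_le_mul_of_nonneg_left (norm_nrm_le _) (norm_nonneg _))) 2
  -- the moments of unit vectors do not depend on the pair
  have hinv : ∀ ψ : ℝ → ℝ, ∀ U : Submodule ℝ E, finrank ℝ U = k → ∀ u ∈ U, ‖u‖ = 1 →
      mS U (fun x => ψ ⟪u, x⟫) = mS U0 (fun x => ψ ⟪u0, x⟫) := by
    intro ψ U hU u hu hu1
    obtain ⟨T, hT, hTu⟩ := bkk_iso (hU0.trans hU.symm) hu0 hu hu01 hu1
    rw [bkk_mS sp (hU0.trans hU.symm) T hT]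
    simp only [← hTu, LinearIsometryEquiv.inner_map_map]
  -- positivity
  have hpos : 0 < mS U0 (fun x => |⟪u0, x⟫|) := by
    have hn : 0 ≤ mS U0 (fun x => |⟪u0, x⟫|) := integral_nonneg fun x => abs_nonneg _
    refine lt_of_le_of_ne hn fun h0 => ?_
    have h1 : ∀ᵐ x ∂sph E, |⟪u0, nrm (U0.starProjection x)⟫| = 0 := by
      have h2 : ∫ x, |⟪u0, nrm (U0.starProjection x)⟫| ∂sph E = 0 := h0.symm
      rw [integral_eq_zero_iff_of_nonneg (fun x => abs_nonneg _) (hint U0 u0)] at h2
      exact h2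
    have h3 : ∀ᵐ x ∂sph E, ⟪u0, x⟫ = 0 := by
      filter_upwards [h1, bkk_ae sp (hbot hU0)] with x hx hx2
      rw [abs_eq_zero] at hx
      have h4 : ⟪u0, U0.starProjection x⟫ = 0 := by
        unfold nrm at hx
        rw [inner_smul_right] at hx
        exact (mul_eq_zero.1 hx).resolve_left (inv_ne_zero (norm_ne_zero_iff.2 hx2))
      rw [← Submodule.inner_starProjection_left_eq_right,
        Submodule.starProjection_eq_self_iff.2 hu0] at h4
      exact h4
    have h5 : (ℝ ∙ u0)ᗮ ≠ ⊤ := by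
      intro h
      have h6 : u0 ∈ (ℝ ∙ u0)ᗮ := by
        rw [h]
        trivial
      have h7 := Submodule.mem_orthogonal_singleton_iff_inner_right.1 h6
      rw [real_inner_self_eq_norm_sq, hu01] at h7
      norm_num at h7
    have h8 := sp.null (E := E) _ h5
    have h9 : ∀ᵐ x ∂sph E, False := by
      have h10 : ∀ᵐ x ∂sph E, x ∉ (((ℝ ∙ u0)ᗮ : Submodule ℝ E) : Set E) :=
        measure_eq_zero_iff_ae_notMem.1 h8
      filter_upwards [h3, h10] with x hx hx2
      exact hx2 (Submodule.mem_orthogonal_singleton_iff_inner_right.2 hx)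
    have h11 := h9.exists
    obtain ⟨x, hx⟩ := h11
    exact hx
  -- the second moment
  have hsec : mS U0 (fun x => ⟪u0, x⟫ ^ 2) = 1 / k := by
    have e := stdOrthonormalBasis ℝ U0
    have h1 : ∑ i, mS U0 (fun x => ⟪((e i : U0) : E), x⟫ ^ 2) = 1 := by
      unfold mS
      rw [← integral_finsetSum _ fun i _ => hint2 U0 _]
      have h2 : ∫ x, ∑ i, ⟪((e i : U0) : E), nrm (U0.starProjection x)⟫ ^ 2 ∂sph E =
          ∫ _x : E, (1 : ℝ) ∂sph E := by
        refine integral_congr_ae ?_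
        filter_upwards [bkk_ae sp (hbot hU0)] with x hx
        have hy : nrm (U0.starProjection x) ∈ U0 :=
          Submodule.smul_mem _ _ (Submodule.starProjection_apply_mem U0 x)
        have h3 := e.sum_sq_norm_inner_right (⟨nrm (U0.starProjection x), hy⟩ : U0)
        have h4 : ‖(⟨nrm (U0.starProjection x), hy⟩ : U0)‖ = 1 := by
          show ‖nrm (U0.starProjection x)‖ = 1
          exact norm_nrm hx
        rw [h4] at h3
        simp only [Submodule.coe_inner, Real.norm_eq_abs, sq_abs] at h3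
        rw [h3]
        norm_num
      rw [h2]
      simp
    have h5 : ∀ i, mS U0 (fun x => ⟪((e i : U0) : E), x⟫ ^ 2) =
        mS U0 (fun x => ⟪u0, x⟫ ^ 2) := fun i =>
      hinv (fun t => t ^ 2) U0 hU0 _ (e i).2 (by
        have := e.orthonormal.1 i
        exact this)
    simp only [h5, Finset.sum_const, Finset.card_univ, Fintype.card_fin, nsmul_eq_mul, hU0] at h1
    have hk0 : (0 : ℝ) < k := by exact_mod_cast hk1
    rw [eq_div_iff hk0.ne']
    linarith
  refine ⟨_, hpos, fun U hU w => ?_⟩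
  have hw : ∀ x, ⟪w, nrm (U.starProjection x)⟫ =
      ⟪U.starProjection w, nrm (U.starProjection x)⟫ := fun x => bkk_inner U w x
  by_cases hp : U.starProjection w = 0
  · constructor
    · unfold mS
      simp only [hw, hp, inner_zero_left, abs_zero, integral_zero, norm_zero, mul_zero]
    · unfold mS
      simp only [hw, hp, inner_zero_left, norm_zero]
      simp
  · have hu : nrm (U.starProjection w) ∈ U :=
      Submodule.smul_mem _ _ (Submodule.starProjection_apply_mem U w)
    have hsm : U.starProjection w = ‖U.starProjection w‖ • nrm (U.starProjection w) := by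
      unfold nrm
      rw [smul_smul, mul_inv_cancel₀ (norm_ne_zero_iff.2 hp), one_smul]
    have hin : ∀ x, ⟪w, nrm (U.starProjection x)⟫ =
        ‖U.starProjection w‖ * ⟪nrm (U.starProjection w), nrm (U.starProjection x)⟫ := by
      intro x
      rw [hw x]
      conv_lhs => rw [hsm]
      rw [inner_smul_left]
      rfl
    have i1 : mS U (fun x => |⟪nrm (U.starProjection w), x⟫|) = mS U0 (fun x => |⟪u0, x⟫|) :=
      hinv (fun t => |t|) U hU _ hu (norm_nrm hp)
    have i2 : mS U (fun x => ⟪nrm (U.starProjection w), x⟫ ^ 2) =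
        mS U0 (fun x => ⟪u0, x⟫ ^ 2) := hinv (fun t => t ^ 2) U hU _ hu (norm_nrm hp)
    constructor
    · rw [← i1]
      unfold mS
      simp only [hin, abs_mul, abs_norm, integral_const_mul]
      rw [mul_comm]
    · rw [hsec] at i2
      have h6 : mS U (fun x => ⟪w, x⟫ ^ 2) = ‖U.starProjection w‖ ^ 2 *
          mS U (fun x => ⟪nrm (U.starProjection w), x⟫ ^ 2) := by
        unfold mS
        simp only [hin, mul_pow, integral_const_mul]
      rw [h6, i2]
      ring

end Pool.Agent.BPH
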