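import Pool.Agent.BPH.Stmts

/-!
# Row FOA of BPH: Jensen over the orthogonal group of a subspace
-/

set_option autoImplicit false

open MeasureTheory Module Set Filter
open scoped RealInnerProductSpace Pointwise Topology ENNReal

namespace Pool.Agent.BPH

/-- every isometry of a subspace is the restriction of an isometry -/
theorem foa_ext {E : Type} [NormedAddCommGroup E] [InnerProductSpace ℝ E] [FiniteDimensional ℝ E]
    (U : Submodule ℝ E) (h : U ≃ₗᵢ[ℝ] U) :
    ∃ T : E ≃ₗᵢ[ℝ] E, ∀ u : U, T (u : E) = (h u : E) := by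
  let L : U →ₗᵢ[ℝ] E := U.subtypeₗᵢ.comp h.toLinearIsometry
  refine ⟨L.extend.toLinearIsometryEquiv rfl, fun u => ?_⟩
  show L.extend (u : E) = _
  rw [LinearIsometry.extend_apply]
  rfl

theorem foa_meas {E : Type} [NormedAddCommGroup E] [InnerProductSpace ℝ E]
    [FiniteDimensional ℝ E] [MeasurableSpace E] [BorelSpace E] (U : Submodule ℝ E) (z : U)
    {φ : E → ℝ} (hφ : Measurable φ) :
    Measurable (fun p : (E →L[ℝ] E) × (U →L[ℝ] U) => φ (p.1 ((p.2 z : U) : E))) := by
  apply hφ.comp
  have h1 : Measurable (fun q : (E →L[ℝ] E) × E => q.1 q.2) := by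
    apply Continuous.measurable
    exact continuous_fst.clm_apply continuous_snd
  have h2 : Measurable (fun p : (E →L[ℝ] E) × (U →L[ℝ] U) => ((p.2 z : U) : E)) :=
    (Measurable.apply_continuousLinearMap measurable_snd z).subtype_val
  exact h1.comp (measurable_fst.prodMk h2)

theorem foa (haa : HAAStmt) (uni : UNI) : FOAStmt := by
  intro E _ _ _ _ _ lam hlam U k y hyU hy1 φ hφ
  obtain ⟨C, hC⟩ := hφ.bdd
  obtain ⟨lamU, hU⟩ := haa U
  have := hlam.prob
  have := hU.prob
  let z : Fin k → U := fun j => ⟨y j, hyU j⟩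
  let G : (E →L[ℝ] E) → (U →L[ℝ] U) → ℝ := fun g h => ∑ j, φ (g ((h (z j) : U) : E))
  have hGm : Measurable (fun p : (E →L[ℝ] E) × (U →L[ℝ] U) => G p.1 p.2) :=
    Finset.measurable_sum _ fun j _ => foa_meas U (z j) hφ.meas
  have hGb : ∀ g h, |G g h| ≤ k * C := by
    intro g h
    refine (Finset.abs_sum_le_sum_abs _ _).trans ?_
    refine (Finset.sum_le_sum fun j _ => hC _).trans ?_
    simp
  have hEb : ∀ g h, ‖Real.exp (G g h)‖ ≤ Real.exp (k * C) := by
    intro g h
    rw [Real.norm_eq_abs, abs_of_pos (Real.exp_pos _), Real.exp_le_exp]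
    exact (le_abs_self _).trans (hGb g h)
  have hEm : Measurable (fun p : (E →L[ℝ] E) × (U →L[ℝ] U) => Real.exp (G p.1 p.2)) :=
    Real.measurable_exp.comp hGm
  -- the right side is an average over the isometries of `U`
  have hright : ∀ᵐ h ∂lamU, ∫ g, Real.exp (G g h) ∂lam = ∫ g, Real.exp (∑ j, φ (g (y j))) ∂lam := by
    filter_upwards [hU.iso] with h hh
    obtain ⟨T₀, hT₀⟩ := hh
    obtain ⟨T, hT⟩ := foa_ext U T₀
    have hcomp : Measurable (fun g : E →L[ℝ] E => g.comp (opT T)) := by
      apply Continuous.measurable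
      exact continuous_id.clm_comp continuous_const
    have hFm : Measurable (fun g : E →L[ℝ] E => Real.exp (∑ j, φ (g (y j)))) := by
      apply Real.measurable_exp.comp
      exact Finset.measurable_sum _ fun j _ =>
        hφ.meas.comp (Measurable.apply_continuousLinearMap measurable_id (y j))
    calc ∫ g, Real.exp (G g h) ∂lam
        = ∫ g, (fun g : E →L[ℝ] E => Real.exp (∑ j, φ (g (y j)))) (g.comp (opT T)) ∂lam := by
          congr 1
          funext g
          simp only [G]
          congr 1
          refine Finset.sum_congr rfl fun j _ => ?_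
          congr 1
          show g ((h (z j) : U) : E) = g (opT T (y j))
          congr 1
          have h1 : opT T (y j) = T ((z j : U) : E) := rfl
          rw [h1, hT, hT₀]
          rfl
      _ = ∫ g, Real.exp (∑ j, φ (g (y j))) ∂(lam.map (fun g => g.comp (opT T))) := by
          rw [integral_map hcomp.aemeasurable hFm.aestronglyMeasurable]
      _ = _ := by rw [hlam.right T]
  have e1 : ∫ g, Real.exp (∑ j, φ (g (y j))) ∂lam = ∫ h, ∫ g, Real.exp (G g h) ∂lam ∂lamU := by
    rw [integral_congr_ae hright, integral_const]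
    simp
  have hint : Integrable (fun p : (E →L[ℝ] E) × (U →L[ℝ] U) => Real.exp (G p.1 p.2))
      (lam.prod lamU) :=
    Integrable.of_bound hEm.aestronglyMeasurable (Real.exp (k * C))
      (Eventually.of_forall fun p => hEb p.1 p.2)
  have e2 : ∫ h, ∫ g, Real.exp (G g h) ∂lam ∂lamU = ∫ g, ∫ h, Real.exp (G g h) ∂lamU ∂lam :=
    (integral_integral_swap (f := fun g h => Real.exp (G g h)) hint).symm
  rw [e1, e2]
  -- Jensen
  have hsec : ∀ g : E →L[ℝ] E, Measurable (fun h : U →L[ℝ] U => G g h) := fun g =>
    hGm.comp (measurable_const.prodMk measurable_id)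
  have hjen : ∀ g : E →L[ℝ] E, Real.exp (k * mS U (fun x => φ (g x))) ≤
      ∫ h, Real.exp (G g h) ∂lamU := by
    intro g
    have hgT : Tst (fun x => φ (g x)) :=
      ⟨hφ.meas.comp g.continuous.measurable, C, fun x => hC _⟩
    have hi : Integrable (fun h : U →L[ℝ] U => G g h) lamU :=
      Integrable.of_bound (hsec g).aestronglyMeasurable (k * C)
        (Eventually.of_forall fun h => by rw [Real.norm_eq_abs]; exact hGb g h)
    have hi2 : Integrable (Real.exp ∘ fun h : U →L[ℝ] U => G g h) lamU :=
      Integrable.of_bound (Real.measurable_exp.comp (hsec g)).aestronglyMeasurable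
        (Real.exp (k * C)) (Eventually.of_forall fun h => hEb g h)
    have hmean : ∫ h, G g h ∂lamU = k * mS U (fun x => φ (g x)) := by
      have hij : ∀ j, Integrable (fun h : U →L[ℝ] U => φ (g ((h (z j) : U) : E))) lamU := by
        intro j
        refine Integrable.of_bound ?_ C (Eventually.of_forall fun h => by
          rw [Real.norm_eq_abs]; exact hC _)
        exact ((foa_meas U (z j) hφ.meas).comp
          (measurable_const.prodMk measurable_id)).aestronglyMeasurable (f := fun h : U →L[ℝ] U =>
            φ (g ((h (z j) : U) : E)))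
      simp only [G]
      rw [integral_finsetSum _ (fun j _ => hij j)]
      have : ∀ j, ∫ h, φ (g ((h (z j) : U) : E)) ∂lamU = mS U (fun x => φ (g x)) := by
        intro j
        exact uni.sub U lamU hU (z j) (hy1 j) (fun x => φ (g x)) hgT
      simp [this]
    rw [← hmean]
    exact convexOn_exp.map_integral_le Real.continuous_exp.continuousOn isClosed_univ
      (Eventually.of_forall fun _ => mem_univ _) hi hi2
  apply integral_mono_of_nonneg (Eventually.of_forall fun g => (Real.exp_pos _).le)
    hint.integral_prod_left (Eventually.of_forall hjen)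

end Pool.Agent.BPH
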