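import Pool.Agent.BPH.Stmts

/-!
# BPH, row FOB: the exponential inequality for one subspace
-/

open MeasureTheory Module Set Filter
open scoped RealInnerProductSpace Pointwise Topology ENNReal

namespace Pool.Agent.BPH.Fob18

open Pool.Agent.BPH

section

variable {E : Type} [NormedAddCommGroup E] [InnerProductSpace ℝ E]

lemma nrm_iso (T : E ≃ₗᵢ[ℝ] E) (x : E) : nrm (T x) = T (nrm x) := by
  simp [nrm]

variable [FiniteDimensional ℝ E]

/-- two subspaces of the same dimension are related by an isometry -/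
lemma exists_iso (U V : Submodule ℝ E) (h : finrank ℝ U = finrank ℝ V) :
    ∃ T : E ≃ₗᵢ[ℝ] E, Submodule.map (T.toLinearEquiv : E →ₗ[ℝ] E) U = V := by
  let L : U ≃ₗᵢ[ℝ] V :=
    (stdOrthonormalBasis ℝ U).equiv (stdOrthonormalBasis ℝ V) (finCongr h)
  let L' : U →ₗᵢ[ℝ] E := V.subtypeₗᵢ.comp L.toLinearIsometry
  let T : E ≃ₗᵢ[ℝ] E := L'.extend.toLinearIsometryEquiv rfl
  have hT : ∀ u : U, T (u : E) = (L u : E) := by
    intro u
    have h1 : T (u : E) = L'.extend (u : E) := by
      simp [T]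
    rw [h1, LinearIsometry.extend_apply]
    rfl
  refine ⟨T, ?_⟩
  apply le_antisymm
  · rintro _ ⟨u, hu, rfl⟩
    have := hT ⟨u, hu⟩
    simp only [LinearEquiv.coe_coe, LinearIsometryEquiv.coe_toLinearEquiv] at this ⊢
    rw [this]
    exact (L ⟨u, hu⟩).2
  · intro v hv
    refine ⟨(L.symm ⟨v, hv⟩ : U), (L.symm ⟨v, hv⟩).2, ?_⟩
    have := hT (L.symm ⟨v, hv⟩)
    simp only [LinearEquiv.coe_coe, LinearIsometryEquiv.coe_toLinearEquiv]
    rw [this]
    simp

variable [MeasurableSpace E] [BorelSpace E]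

lemma meas_emb (T : E ≃ₗᵢ[ℝ] E) : MeasurableEmbedding (T : E → E) :=
  T.toHomeomorph.measurableEmbedding

lemma integral_iso (sphh : SPH) (T : E ≃ₗᵢ[ℝ] E) (F : E → ℝ) :
    ∫ x, F (T x) ∂sph E = ∫ x, F x ∂sph E := by
  conv_rhs => rw [← sphh.iso T]
  rw [(meas_emb T).integral_map]

lemma mS_map (sphh : SPH) (T : E ≃ₗᵢ[ℝ] E) (U : Submodule ℝ E) (ψ : E → ℝ) :
    mS U (fun x => ψ (T x)) = mS (Submodule.map (T.toLinearEquiv : E →ₗ[ℝ] E) U) ψ := by
  unfold mS
  conv_rhs => rw [← integral_iso sphh T]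
  refine integral_congr_ae (Eventually.of_forall fun x => ?_)
  simp only
  rw [Submodule.starProjection_map_apply]
  simp [nrm_iso]

/-- composition with an isometry on the right as a homeomorphism -/
noncomputable def compR (T : E ≃ₗᵢ[ℝ] E) : (E →L[ℝ] E) ≃ₜ (E →L[ℝ] E) where
  toFun g := g.comp (opT T)
  invFun g := g.comp (opT T.symm)
  left_inv g := by
    ext x
    simp [opT]
  right_inv g := by
    ext x
    simp [opT]
  continuous_toFun := by fun_prop
  continuous_invFun := by fun_prop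

lemma integral_right {lam : Measure (E →L[ℝ] E)} (hl : IsHaarO lam) (T : E ≃ₗᵢ[ℝ] E)
    (G : (E →L[ℝ] E) → ℝ) : ∫ g, G (g.comp (opT T)) ∂lam = ∫ g, G g ∂lam := by
  conv_rhs => rw [← hl.right T]
  have h := (compR T).measurableEmbedding
  have h2 := h.integral_map (μ := lam) G
  exact h2.symm

lemma opT_apply (T : E ≃ₗᵢ[ℝ] E) (x : E) : opT T x = T x := rfl

end

end Pool.Agent.BPH.Fob18

namespace Pool.Agent.BPH

open Pool.Agent.BPH.Fob18

theorem fob (sphh : SPH) (spi : SPIStmt) (foa : FOAStmt) : FOBStmt := by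
  intro E _ _ _ _ _ lam hl U hU φ hφ
  have : IsProbabilityMeasure (sph E) := sphh.prob
  have : IsProbabilityMeasure lam := hl.prob
  have : IsProbabilityMeasure (sphP E (finrank ℝ U)) := by
    unfold sphP; infer_instance
  have : Nontrivial E := by
    have : Nontrivial U := Module.nontrivial_of_finrank_pos hU
    exact U.subtype_injective.nontrivial
  set k := finrank ℝ U with hk
  obtain ⟨C, hC⟩ := hφ.bdd
  have hC0 : 0 ≤ C := le_trans (abs_nonneg _) (hC 0)
  set c := ∫ g, Real.exp (k * mS U (fun x => φ (g x))) ∂lam with hc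
  -- the first claim
  have claim1 : ∀ᵐ y ∂sphP E k, c ≤ ∫ g, Real.exp (∑ j, φ (g (y j))) ∂lam := by
    filter_upwards [spi (E := E) k (Submodule.finrank_le U)] with y hy
    obtain ⟨hy1, hy2⟩ := hy
    have hfin : finrank ℝ U = finrank ℝ (Submodule.span ℝ (Set.range y)) := by
      rw [finrank_span_eq_card hy1, Fintype.card_fin]
    obtain ⟨T, hT⟩ := exists_iso U _ hfin
    have h1 : c = ∫ g, Real.exp (k * mS (Submodule.span ℝ (Set.range y))
        (fun x => φ (g x))) ∂lam := by
      rw [hc, ← integral_right hl T]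
      refine integral_congr_ae (Eventually.of_forall fun g => ?_)
      simp only
      rw [← hT, ← mS_map sphh T U (fun x => φ (g x))]
      rfl
    rw [h1]
    exact foa lam hl _ k y (fun j => Submodule.subset_span (Set.mem_range_self j)) hy2 φ hφ
  -- joint measurability
  have hmeas : Measurable (fun p : (Fin k → E) × (E →L[ℝ] E) =>
      Real.exp (∑ j, φ (p.2 (p.1 j)))) := by
    refine Real.measurable_exp.comp (Finset.measurable_sum _ fun j _ => hφ.meas.comp ?_)
    have : Continuous (fun p : (Fin k → E) × (E →L[ℝ] E) => p.2 (p.1 j)) := by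
      fun_prop
    exact this.measurable
  have hbd : ∀ p : (Fin k → E) × (E →L[ℝ] E),
      ‖Real.exp (∑ j, φ (p.2 (p.1 j)))‖ ≤ Real.exp (k * C) := by
    intro p
    rw [Real.norm_eq_abs, abs_of_pos (Real.exp_pos _)]
    apply Real.exp_le_exp.2
    calc ∑ j, φ (p.2 (p.1 j)) ≤ ∑ _j : Fin k, C :=
          Finset.sum_le_sum fun j _ => le_trans (le_abs_self _) (hC _)
      _ = k * C := by simp
  have hint : Integrable (Function.uncurry fun (y : Fin k → E) (g : E →L[ℝ] E) =>
      Real.exp (∑ j, φ (g (y j)))) ((sphP E k).prod lam) :=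
    Integrable.of_bound (C := Real.exp (k * C)) hmeas.aestronglyMeasurable
      (Eventually.of_forall hbd)
  -- integrate
  have h2 : c ≤ ∫ y, ∫ g, Real.exp (∑ j, φ (g (y j))) ∂lam ∂sphP E k := by
    have h3 : c = ∫ _y, c ∂sphP E k := by simp
    rw [h3]
    refine integral_mono_ae (integrable_const _) hint.integral_prod_left claim1
  refine le_trans h2 (le_of_eq ?_)
  rw [integral_integral_swap hint]
  have h4 : ∀ᵐ g ∂lam, ∫ y, Real.exp (∑ j, φ (g (y j))) ∂sphP E k =
      (∫ x, Real.exp (φ x) ∂sph E) ^ k := by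
    filter_upwards [hl.iso] with g hg
    obtain ⟨T, rfl⟩ := hg
    have h5 : ∀ y : Fin k → E, Real.exp (∑ j, φ (opT T (y j))) =
        ∏ j, Real.exp (φ (T (y j))) := by
      intro y
      rw [Real.exp_sum]
      rfl
    simp_rw [h5]
    unfold sphP
    rw [integral_fintype_prod_eq_pow (fun x : E => Real.exp (φ (T x))),
      integral_iso sphh T (fun x => Real.exp (φ x)), Fintype.card_fin]
  rw [integral_congr_ae h4]
  simp

end Pool.Agent.BPH
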