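import Pool.Agent.BPH.Stmts

/-!
# Small kit: integrability and bounds (all with the hypothesis `(sp : SPH)`)
-/

open MeasureTheory Module Set Filter
open scoped RealInnerProductSpace Pointwise Topology ENNReal

namespace Pool.Agent.BPH

open Pool.Agent.Helper55_PB Pool.Agent.Helper28_PB

theorem neg_one_le_mul_log {x : ℝ} (hx : 0 ≤ x) : -1 ≤ x * Real.log x := by
  rcases hx.eq_or_lt with h0 | h0
  · rw [← h0]; simp
  · have h1 := Real.one_sub_inv_le_log_of_pos h0
    have h2 : x * (1 - x⁻¹) ≤ x * Real.log x := mul_le_mul_of_nonneg_left h1 hx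
    have h3 : x * (1 - x⁻¹) = x - 1 := by field_simp
    linarith

theorem sub_one_le_mul_log {x : ℝ} (hx : 0 ≤ x) : x - 1 ≤ x * Real.log x := by
  rcases hx.eq_or_lt with h0 | h0
  · rw [← h0]; simp
  · have h1 := Real.one_sub_inv_le_log_of_pos h0
    have h2 : x * (1 - x⁻¹) ≤ x * Real.log x := mul_le_mul_of_nonneg_left h1 hx
    have h3 : x * (1 - x⁻¹) = x - 1 := by field_simp
    linarith

section aux

variable {E : Type} [NormedAddCommGroup E] [InnerProductSpace ℝ E] [FiniteDimensional ℝ E]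

omit [FiniteDimensional ℝ E] in
theorem norm_nrm {x : E} (hx : x ≠ 0) : ‖nrm x‖ = 1 := by
  rw [nrm, norm_smul, norm_inv, norm_norm, inv_mul_cancel₀ (norm_ne_zero_iff.mpr hx)]

omit [FiniteDimensional ℝ E] in
theorem norm_nrm_le (x : E) : ‖nrm x‖ ≤ 1 := by
  by_cases hx : x = 0
  · rw [hx, nrm, smul_zero, norm_zero]; norm_num
  · exact (norm_nrm hx).le

omit [FiniteDimensional ℝ E] in
theorem nrm_iso (T : E ≃ₗᵢ[ℝ] E) (x : E) : nrm (T x) = T (nrm x) := by
  simp [nrm]

variable [MeasurableSpace E] [BorelSpace E]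

omit [FiniteDimensional ℝ E] in
theorem measurable_nrm : Measurable (nrm : E → E) := by
  unfold nrm
  exact (measurable_norm.inv).smul measurable_id

/-- bounded measurable functions are integrable for a probability measure -/
theorem integrable_bdd {α : Type*} [MeasurableSpace α] {μ : Measure α} [IsFiniteMeasure μ]
    {h : α → ℝ} (hm : Measurable h) {C : ℝ} (hC : ∀ᵐ x ∂μ, |h x| ≤ C) : Integrable h μ :=
  Integrable.of_bound hm.aestronglyMeasurable C (by simpa using hC)

theorem SPH.probP (sp : SPH) (i : ℕ) : IsProbabilityMeasure (sphP E i) := by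
  have := sp.prob (E := E)
  unfold sphP
  infer_instance

theorem Dens.integrable (sp : SPH) {f : E → ℝ} (hf : Dens f) : Integrable f (sph E) := by
  have := sp.prob (E := E)
  obtain ⟨C, hC⟩ := hf.bdd
  refine integrable_bdd hf.meas (C := C) ?_
  filter_upwards with x
  rw [abs_of_nonneg (hf.nonneg x)]
  exact hC x

theorem Dens.mul_log_bdd {f : E → ℝ} (hf : Dens f) : ∃ C, ∀ x, |f x * Real.log (f x)| ≤ C := by
  obtain ⟨C, hC⟩ := hf.bdd
  refine ⟨1 + |C| * |Real.log (|C| + 1)|, ?_⟩
  intro x
  have h0 := hf.nonneg x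
  have hfC : f x ≤ |C| := (hC x).trans (le_abs_self C)
  have hp : 0 ≤ |C| * |Real.log (|C| + 1)| := by positivity
  rw [abs_le]
  constructor
  · have := neg_one_le_mul_log h0
    linarith
  · rcases h0.eq_or_lt with h1 | h1
    · rw [← h1]; simp; positivity
    · have h2 : Real.log (f x) ≤ |Real.log (|C| + 1)| :=
        (Real.log_le_log h1 (by linarith)).trans (le_abs_self _)
      have h3 : f x * Real.log (f x) ≤ f x * |Real.log (|C| + 1)| :=
        mul_le_mul_of_nonneg_left h2 h0
      have h4 : f x * |Real.log (|C| + 1)| ≤ |C| * |Real.log (|C| + 1)| :=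
        mul_le_mul_of_nonneg_right hfC (abs_nonneg _)
      linarith

theorem Dens.meas_mul_log {f : E → ℝ} (hf : Dens f) :
    Measurable (fun x => f x * Real.log (f x)) :=
  hf.meas.mul (Real.measurable_log.comp hf.meas)

theorem Dens.integrable_mul_log (sp : SPH) {f : E → ℝ} (hf : Dens f) :
    Integrable (fun x => f x * Real.log (f x)) (sph E) := by
  have := sp.prob (E := E)
  obtain ⟨C, hC⟩ := hf.mul_log_bdd
  exact integrable_bdd hf.meas_mul_log (C := C) (Eventually.of_forall hC)

/-- the entropy is nonnegative -/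
theorem Dens.ent_nonneg (sp : SPH) {f : E → ℝ} (hf : Dens f) : 0 ≤ ent f := by
  have := sp.prob (E := E)
  have h1 : ∫ x, (f x - 1) ∂sph E ≤ ∫ x, f x * Real.log (f x) ∂sph E :=
    integral_mono ((hf.integrable sp).sub (integrable_const _)) (hf.integrable_mul_log sp)
      (fun x => sub_one_le_mul_log (hf.nonneg x))
  rw [integral_sub (hf.integrable sp) (integrable_const _), hf.int] at h1
  simpa [ent] using h1

/-- the entropy of a bounded density -/
theorem Dens.ent_le_log (sp : SPH) {f : E → ℝ} (hf : Dens f) {C : ℝ} (h : ∀ x, f x ≤ C) :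
    ent f ≤ Real.log C := by
  have := sp.prob (E := E)
  have hpt : ∀ x, f x * Real.log (f x) ≤ f x * Real.log C := by
    intro x
    rcases (hf.nonneg x).eq_or_lt with h0 | h0
    · rw [← h0]; simp
    · exact mul_le_mul_of_nonneg_left (Real.log_le_log h0 (h x)) h0.le
  unfold ent
  calc ∫ x, f x * Real.log (f x) ∂sph E ≤ ∫ x, f x * Real.log C ∂sph E :=
        integral_mono (hf.integrable_mul_log sp) ((hf.integrable sp).mul_const _) hpt
    _ = Real.log C := by rw [integral_mul_const, hf.int, one_mul]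

theorem Dens.one (sp : SPH) : Dens (fun _ : E => (1 : ℝ)) := by
  have := sp.prob (E := E)
  exact ⟨measurable_const, fun _ => zero_le_one, ⟨1, fun _ => le_refl _⟩, by simp⟩

theorem mS_abs_le (sp : SPH) (U : Submodule ℝ E) {φ : E → ℝ} {C : ℝ} (hC : ∀ x, |φ x| ≤ C) :
    |mS U φ| ≤ C := by
  have := sp.prob (E := E)
  unfold mS
  have h := norm_integral_le_of_norm_le_const (μ := sph E)
    (f := fun x => φ (nrm (U.starProjection x))) (C := C)
    (Eventually.of_forall (fun x => by simpa using hC _))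
  simpa using h

/-- the truncated test function `min |⟪w,x⟫| ‖w‖` -/
theorem tst_min (w : E) : Tst (fun x => min |⟪w, x⟫| ‖w‖) := by
  refine ⟨by fun_prop, ‖w‖, fun x => ?_⟩
  rw [abs_of_nonneg (le_min (abs_nonneg _) (norm_nonneg _))]
  exact min_le_right _ _

omit [FiniteDimensional ℝ E] [MeasurableSpace E] [BorelSpace E] in
theorem min_eq_of_norm (w : E) {x : E} (hx : ‖x‖ ≤ 1) : min |⟪w, x⟫| ‖w‖ = |⟪w, x⟫| := by
  refine min_eq_left ?_
  have h := abs_real_inner_le_norm w x
  have h2 : ‖w‖ * ‖x‖ ≤ ‖w‖ * 1 := mul_le_mul_of_nonneg_left hx (norm_nonneg _)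
  linarith

theorem Dens.integrable_inner (sp : SPH) [Nontrivial E] {f : E → ℝ} (hf : Dens f) (u : E) :
    Integrable (fun x => |⟪u, x⟫| * f x) (sph E) := by
  have := sp.prob (E := E)
  obtain ⟨C, hC⟩ := hf.bdd
  refine integrable_bdd ((by fun_prop : Measurable fun x : E => |⟪u, x⟫|).mul hf.meas)
    (C := ‖u‖ * C) ?_
  filter_upwards [sp.norm (E := E)] with x hx
  rw [abs_mul, abs_abs, abs_of_nonneg (hf.nonneg x)]
  have h := abs_real_inner_le_norm u x
  rw [hx, mul_one] at h
  exact mul_le_mul h (hC x) (hf.nonneg x) (norm_nonneg _)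

end aux

end Pool.Agent.BPH
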