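import Pool.Agent.BPH.Avg
import Pool.Agent.BPH.Kit

/-!
# BPH, row FOC: the exponential inequality averaged over the orthogonal group
-/

open MeasureTheory Module Set Filter
open scoped RealInnerProductSpace Pointwise Topology ENNReal

namespace Pool.Agent.BPH

namespace FocH

variable {E : Type} [NormedAddCommGroup E] [InnerProductSpace ℝ E] [FiniteDimensional ℝ E]
variable [MeasurableSpace E] [BorelSpace E]

theorem int_inv (sp : SPH) (gwb : GWB) (T : E ≃ₗᵢ[ℝ] E) (i : ℕ) (k : ℝ) (φ : E → ℝ) :
    ∫ v, gw v * Real.exp (k * mS (perp v) (fun x => φ (T x))) ∂sphP E i =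
      ∫ v, gw v * Real.exp (k * mS (perp v) φ) ∂sphP E i := by
  have := sp.prob (E := E)
  let e : (Fin i → E) ≃ᵐ (Fin i → E) :=
    MeasurableEquiv.piCongrRight fun _ => T.toHomeomorph.toMeasurableEquiv
  have hmp : MeasurePreserving e (sphP E i) (sphP E i) := by
    have := measurePreserving_pi (fun _ : Fin i => sph E) (fun _ : Fin i => sph E)
      (f := fun _ => T.toHomeomorph.toMeasurableEquiv) (fun _ => AvgH.mp_iso sp T)
    exact this
  have h := hmp.integral_comp' (fun v => gw v * Real.exp (k * mS (perp v) φ))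
  rw [← h]
  refine integral_congr_ae (Filter.Eventually.of_forall fun v => ?_)
  change gw v * Real.exp (k * mS (perp v) (fun x => φ (T x))) =
    gw (fun l => T (v l)) * Real.exp (k * mS (perp (fun l => T (v l))) φ)
  rw [AvgH.mS_map sp T v φ]
  have h1 := gwb.iso T.toLinearIsometry v
  have h2 : gw (fun l => T (v l)) = gw v := h1
  rw [h2]

end FocH

open AvgH in
theorem foc (sp : SPH) (spi : SPIStmt) (ppm : PPMStmt) (gwb : GWB) (haa : HAAStmt)
    (fob : FOBStmt) : FOCStmt := by
  intro E _ _ _ _ _ i k hk hik φ hφ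
  have hpr := sp.prob (E := E)
  have hnt : Nontrivial E := by
    apply Module.nontrivial_of_finrank_pos (R := ℝ)
    omega
  obtain ⟨lam, hlam⟩ := haa E
  have hlp := hlam.prob
  obtain ⟨C, hC⟩ := hφ.bdd
  have hpi : IsProbabilityMeasure (sphP E i) := by
    unfold sphP
    infer_instance
  have hspi := spi (E := E) i (by omega)
  -- `gw` is integrable
  have hgm : Measurable (fun v : Fin i → E => gw v) := gwb.cont.measurable
  have hgb : ∀ᵐ v ∂sphP E i, ‖gw v‖ ≤ 1 := by
    filter_upwards [hspi] with v hv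
    have h1 := gwb.le v
    have h2 : 0 ≤ gw v := Real.sqrt_nonneg _
    rw [Real.norm_eq_abs, abs_of_nonneg h2]
    refine h1.trans ?_
    rw [Finset.prod_congr rfl fun l _ => hv.2 l, Finset.prod_const_one]
  have hgi : Integrable (fun v : Fin i → E => gw v) (sphP E i) :=
    Integrable.of_bound hgm.aestronglyMeasurable 1 hgb
  -- the kernel
  have hap : Measurable fun q : (E →L[ℝ] E) × E => q.1 q.2 :=
    (isBoundedBilinearMap_apply (𝕜 := ℝ) (E := E) (F := E)).continuous.measurable
  have hK0 : Measurable fun q : (E →L[ℝ] E) × ((Fin i → E) × E) =>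
      φ (q.1 (nrm (pp q.2.1 q.2.2))) := by
    have h1 : Measurable fun q : (E →L[ℝ] E) × ((Fin i → E) × E) =>
        (q.1, nrm (pp q.2.1 q.2.2)) :=
      measurable_fst.prodMk (meas_nrm.comp ((ppm (E := E) i).comp measurable_snd))
    exact hφ.meas.comp (hap.comp h1)
  have hK : Measurable fun q : ((E →L[ℝ] E) × (Fin i → E)) × E =>
      φ (q.1.1 (nrm (pp q.1.2 q.2))) :=
    hK0.comp (MeasurableEquiv.prodAssoc (α := E →L[ℝ] E) (β := Fin i → E) (γ := E)).measurable
  have hI : Measurable fun q : (E →L[ℝ] E) × (Fin i → E) =>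
      ∫ x, φ (q.1 (nrm (pp q.2 x))) ∂sph E :=
    (hK.stronglyMeasurable.integral_prod_right (ν := sph E)).measurable
  have hIC : ∀ (g : E →L[ℝ] E) (v : Fin i → E), ∫ x, φ (g (nrm (pp v x))) ∂sph E ≤ C := by
    intro g v
    have h1 : ‖∫ x, φ (g (nrm (pp v x))) ∂sph E‖ ≤ C * (sph E).real Set.univ := by
      refine norm_integral_le_of_norm_le_const (Eventually.of_forall fun x => ?_)
      exact hC _
    rw [probReal_univ, mul_one, Real.norm_eq_abs] at h1
    exact (le_abs_self _).trans h1
  let F : (E →L[ℝ] E) → (Fin i → E) → ℝ := fun g v =>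
    gw v * Real.exp (k * ∫ x, φ (g (nrm (pp v x))) ∂sph E)
  have hFm : Measurable (Function.uncurry F) :=
    (hgm.comp measurable_snd).mul (Real.measurable_exp.comp (hI.const_mul (k : ℝ)))
  have hk0 : (0 : ℝ) ≤ k := Nat.cast_nonneg k
  have hFb : ∀ (g : E →L[ℝ] E) (v : Fin i → E), ‖F g v‖ ≤ ‖Real.exp (k * C) * gw v‖ := by
    intro g v
    change ‖gw v * Real.exp (k * ∫ x, φ (g (nrm (pp v x))) ∂sph E)‖ ≤ _
    rw [norm_mul, norm_mul, mul_comm]
    apply mul_le_mul_of_nonneg_right _ (norm_nonneg _)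
    rw [Real.norm_eq_abs, Real.norm_eq_abs, abs_of_pos (Real.exp_pos _),
      abs_of_pos (Real.exp_pos _)]
    exact Real.exp_le_exp.2 (mul_le_mul_of_nonneg_left (hIC g v) hk0)
  have hFi : Integrable (Function.uncurry F) (lam.prod (sphP E i)) := by
    have hg3 : Integrable (fun q : (E →L[ℝ] E) × (Fin i → E) => Real.exp (k * C) * gw q.2)
        (lam.prod (sphP E i)) := (hgi.comp_snd lam).const_mul _
    exact hg3.mono hFm.aestronglyMeasurable (Eventually.of_forall fun q => hFb q.1 q.2)
  have hswap := integral_integral_swap hFi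
  -- the left side
  have hL : ∫ g, ∫ v, F g v ∂sphP E i ∂lam =
      ∫ v, gw v * Real.exp (k * mS (perp v) φ) ∂sphP E i := by
    have h1 : ∀ᵐ g ∂lam, ∫ v, F g v ∂sphP E i =
        ∫ v, gw v * Real.exp (k * mS (perp v) φ) ∂sphP E i := by
      filter_upwards [hlam.iso] with g hg
      obtain ⟨T, rfl⟩ := hg
      rw [← FocH.int_inv sp gwb T i k φ]
      rfl
    rw [integral_congr_ae h1, integral_const, probReal_univ, one_smul]
  -- the right side
  have hR : ∫ v, ∫ g, F g v ∂lam ∂sphP E i ≤
      ∫ v, gw v * (∫ x, Real.exp (φ x) ∂sph E) ^ k ∂sphP E i := by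
    have hFr : Integrable (fun v => ∫ g, F g v ∂lam) (sphP E i) :=
      hFi.integral_prod_right
    refine integral_mono_ae hFr (hgi.mul_const _) ?_
    filter_upwards [hspi] with v hv
    have hdim : finrank ℝ (perp v) = k := by
      have h1 : finrank ℝ (Submodule.span ℝ (Set.range v)) = i := by
        rw [finrank_span_eq_card hv.1, Fintype.card_fin]
      have h2 := Submodule.finrank_add_finrank_orthogonal (Submodule.span ℝ (Set.range v))
      unfold perp
      omega
    have h3 := fob lam hlam (perp v) (by omega) φ hφ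
    rw [hdim] at h3
    change ∫ g, gw v * Real.exp (k * ∫ x, φ (g (nrm (pp v x))) ∂sph E) ∂lam ≤ _
    rw [integral_const_mul]
    exact mul_le_mul_of_nonneg_left h3 (Real.sqrt_nonneg _)
  rw [← hL, hswap]
  refine hR.trans (le_of_eq ?_)
  rw [integral_mul_const]
  unfold ZZ
  simp only [Finset.prod_const_one, mul_one]

end Pool.Agent.BPH
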