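import Pool.Agent.BPH.Stmts

/-!
# BPH, row GEO: one step for the body
-/

open MeasureTheory Module Set Filter
open scoped RealInnerProductSpace Pointwise Topology ENNReal

namespace Pool.Agent.BPH

open Pool.Agent.Helper55_PB Pool.Agent.Helper28_PB

section

variable {E : Type} [NormedAddCommGroup E] [InnerProductSpace ℝ E] [FiniteDimensional ℝ E]

theorem geo_subset {A B : Set E} (hA : CC A) (hB : CC B)
    (h : ∀ w : E, supportFn A w ≤ supportFn B w) : A ⊆ B := by
  intro x hx
  by_contra hxB
  obtain ⟨f, u, h1, h2⟩ := geometric_hahn_banach_closed_point hB.cvx hB.cpt.isClosed hxB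
  set w : E := (InnerProductSpace.toDual ℝ E).symm f with hw
  have hf : ∀ y, f y = ⟪y, w⟫ := by
    intro y
    rw [real_inner_comm, hw, InnerProductSpace.toDual_symm_apply]
  have h3 : supportFn B w ≤ u := supportFn_le hB.ne (fun y hy => by rw [← hf]; exact (h1 y hy).le)
  have h4 := inner_le_supportFn hA.cpt hx w
  have h5 := h w
  rw [hf] at h2
  linarith

theorem geo_nrm_le (x : E) : ‖nrm x‖ ≤ 1 := by
  unfold nrm
  rw [norm_smul, norm_inv, norm_norm]
  rcases eq_or_ne ‖x‖ 0 with h | h
  · rw [h]; simp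
  · rw [inv_mul_cancel₀ h]

theorem geo_finrank_perp {i : ℕ} {v : Fin i → E} (hv : LinearIndependent ℝ v) :
    finrank ℝ (perp v) + i = finrank ℝ E := by
  unfold perp
  have h1 := Submodule.finrank_add_finrank_orthogonal (Submodule.span ℝ (Set.range v))
  rw [finrank_span_eq_card hv, Fintype.card_fin] at h1
  omega

variable [MeasurableSpace E] [BorelSpace E]

theorem geo_YY (gwa : GWAStmt) (s : SPH) (spi : SPIStmt) (bkk : BKKStmt) {i : ℕ}
    (hi : i < finrank ℝ E) : ∃ b : ℝ, 0 < b ∧ ∀ f f' : E → ℝ, IsStep i f f' →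
      ∀ w : E, ‖w‖ = 1 → b * YY i f w = ZZ i f * hz f' w := by
  haveI hnt : Nontrivial E := Module.nontrivial_of_finrank_pos (R := ℝ) (by omega)
  obtain ⟨b, hb, hB⟩ := bkk E (finrank ℝ E - i) (by omega) (by omega)
  refine ⟨b, hb, ?_⟩
  intro f f' hstep w hw
  have hTst : Tst (fun x : E => min |⟪w, x⟫| 1) := by
    refine ⟨?_, ⟨1, fun x => ?_⟩⟩
    · have h1 : Continuous (fun x : E => min |⟪w, x⟫| 1) := by fun_prop
      exact h1.measurable
    · rw [abs_of_nonneg (le_min (abs_nonneg _) zero_le_one)]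
      exact min_le_right _ _
  have h1 := hstep _ hTst
  have h2 : ∫ x, min |⟪w, x⟫| 1 * f' x ∂sph E = hz f' w := by
    unfold hz
    refine integral_congr_ae ?_
    filter_upwards [s.norm (E := E)] with x hx
    have h3 : |⟪w, x⟫| ≤ 1 := by
      have := abs_real_inner_le_norm w x
      rw [hw, hx, one_mul] at this
      exact this
    rw [min_eq_left h3]
  rw [h2] at h1
  rw [h1]
  unfold YY
  rw [← integral_const_mul]
  refine integral_congr_ae ?_
  filter_upwards [spi i hi.le] with v hv
  have hfr := geo_finrank_perp hv.1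
  have h3 := (hB (perp v) (by omega) w).1
  have h4 : mS (perp v) (fun x : E => min |⟪w, x⟫| 1) = mS (perp v) (fun x : E => |⟪w, x⟫|) := by
    unfold mS
    refine integral_congr_ae (Eventually.of_forall (fun x => ?_))
    dsimp only
    refine min_eq_left ?_
    have h5 := abs_real_inner_le_norm w (nrm ((perp v).starProjection x))
    have h6 := geo_nrm_le ((perp v).starProjection x)
    rw [hw, one_mul] at h5
    linarith
  rw [h4, h3, (gwa w v).2]
  unfold pp
  ring

end

theorem geo (gwa : GWAStmt) (s : SPH) (spi : SPIStmt) (bkk : BKKStmt) (zfu : ZFU)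
    (zod : ZODStmt) (zom : ZOMStmt) : GEOStmt := by
  intro E _ _ _ _ _ i m hi hm him K c hK f f' hf hf' hstep δ t hδ ht hKf
  haveI hnt : Nontrivial E := Module.nontrivial_of_finrank_pos (R := ℝ) (by omega)
  have hlim : LimStmt := lim_of vd_sum
  obtain ⟨b, hb, hbY⟩ := geo_YY (E := E) gwa s spi bkk (i := i) (by omega)
  obtain ⟨M, hM, hMf⟩ := zom (E := E) f hf
  obtain ⟨ρ, hρ, hρb⟩ := exists_ball_zero hK.zero_mem
  have hc₀ : 0 < Real.exp (-δ) * (ρ / t) := by positivity
  have hlow : ∀ u : E, ‖u‖ = 1 → Real.exp (-δ) * (ρ / t) ≤ hz f u := by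
    intro u hu
    have h1 := le_supportFn_of_ball hK.cc.cpt hρ.le hρb u
    have h2 := (hKf u).2
    rw [hu, mul_one] at h1
    have h3 : ρ ≤ Real.exp δ * (t * hz f u) := h1.trans h2
    have h4 : Real.exp (-δ) * (ρ / t) ≤ Real.exp (-δ) * ((Real.exp δ * (t * hz f u)) / t) := by
      gcongr
    refine h4.trans (le_of_eq ?_)
    have h5 : Real.exp (-δ) * Real.exp δ = 1 := by rw [← Real.exp_add]; simp
    calc Real.exp (-δ) * ((Real.exp δ * (t * hz f u)) / t)
        = (Real.exp (-δ) * Real.exp δ) * (hz f u * (t / t)) := by ring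
      _ = hz f u := by rw [h5, div_self ht.ne']; ring
  set C : ℝ := ballVol m * (2 ^ i / (i.factorial : ℝ)) with hC
  have hC0 : 0 < C := by
    have h1 := ballVol_pos m
    have h2 : (0 : ℝ) < (i.factorial : ℝ) := by exact_mod_cast Nat.factorial_pos i
    positivity
  have hZ : 0 < ZZ i f := zfu.pos i f (by omega) hf
  have hcp := hK.pos
  set t' : ℝ := C * (ZZ i f / b) * t ^ i / c with ht'
  have ht'0 : 0 < t' := by positivity
  have key : ∀ a : ℝ, 0 < a → ∀ w : E, ‖w‖ = 1 →
      sc ((ℝ ∙ w)ᗮ.orthogonalProjectionOnto '' (a • M)) m = a ^ i * (C * (ZZ i f / b) * hz f' w) ∧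
      CC ((ℝ ∙ w)ᗮ.orthogonalProjectionOnto '' (a • M)) := by
    intro a ha w hw
    have hrank := Helper28_PB.finrank_perp hw
    have hPM : CC ((ℝ ∙ w)ᗮ.orthogonalProjectionOnto '' M) := hM.image _
    have h1 : (ℝ ∙ w)ᗮ.orthogonalProjectionOnto '' (a • M) =
        a • ((ℝ ∙ w)ᗮ.orthogonalProjectionOnto '' M) :=
      Set.image_smul_comm _ a M (fun x => map_smul _ a x)
    have h2 := sc_smul hlim (by omega) hPM ha (j := m) (by omega)
    have h3 := zod i m hm him f hf _ hc₀ hlow M hM hMf w hw
    have h4 := hbY f f' hstep w hw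
    have h5 : finrank ℝ ((ℝ ∙ w)ᗮ : Submodule ℝ E) - m = i := by omega
    refine ⟨?_, (CC_smul hM a).image _⟩
    rw [h1, h2, h3, h5]
    have h6 : YY i f w = ZZ i f / b * hz f' w := by
      field_simp
      linarith
    rw [h6, hC]
    ring
  have hunit : ∀ w : E, ‖w‖ = 1 → Real.exp (-(i * δ)) * (t' * hz f' w) ≤ supportFn K w ∧
      supportFn K w ≤ Real.exp (i * δ) * (t' * hz f' w) := by
    intro w hw
    have hrank := Helper28_PB.finrank_perp hw
    have heq := hK.eq w hw
    have hPK : CC ((ℝ ∙ w)ᗮ.orthogonalProjectionOnto '' K) := hK.cc.image _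
    have hsup : ∀ a : ℝ, 0 < a → ∀ u : E, supportFn (a • M) u = a * hz f u := by
      intro a ha u
      have h1 : supportFn ((fun y => a • y) '' M) u = a * supportFn M u :=
        supportFn_smul_set hM.cpt hM.ne ha.le u
      rw [hMf] at h1
      exact h1
    constructor
    · have ha : 0 < Real.exp (-δ) * t := by positivity
      have hsub : (Real.exp (-δ) * t) • M ⊆ K := by
        refine geo_subset (CC_smul hM _) hK.cc (fun u => ?_)
        rw [hsup _ ha]
        have := (hKf u).1
        linarith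
      have h1 := sc_mono hlim vd_mono (by omega) (key _ ha w hw).2 hPK (j := m) (by omega)
        (Set.image_mono hsub)
      rw [(key _ ha w hw).1, ← heq] at h1
      have h2 : (Real.exp (-δ) * t) ^ i = Real.exp (-(i * δ)) * t ^ i := by
        rw [mul_pow, ← Real.exp_nat_mul]
        congr 2
        ring
      rw [h2] at h1
      rw [ht']
      have h3 : Real.exp (-(i * δ)) * (C * (ZZ i f / b) * t ^ i / c * hz f' w) =
          (Real.exp (-(i * δ)) * t ^ i * (C * (ZZ i f / b) * hz f' w)) / c := by ring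
      rw [h3, div_le_iff₀ hcp]
      linarith
    · have ha : 0 < Real.exp δ * t := by positivity
      have hsub : K ⊆ (Real.exp δ * t) • M := by
        refine geo_subset hK.cc (CC_smul hM _) (fun u => ?_)
        rw [hsup _ ha]
        have := (hKf u).2
        linarith
      have h1 := sc_mono hlim vd_mono (by omega) hPK (key _ ha w hw).2 (j := m) (by omega)
        (Set.image_mono hsub)
      rw [(key _ ha w hw).1, ← heq] at h1
      have h2 : (Real.exp δ * t) ^ i = Real.exp (i * δ) * t ^ i := by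
        rw [mul_pow, ← Real.exp_nat_mul]
      rw [h2] at h1
      rw [ht']
      have h3 : Real.exp (i * δ) * (C * (ZZ i f / b) * t ^ i / c * hz f' w) =
          (Real.exp (i * δ) * t ^ i * (C * (ZZ i f / b) * hz f' w)) / c := by ring
      rw [h3, le_div_iff₀ hcp]
      linarith
  refine ⟨t', ht'0, ?_⟩
  intro w
  rcases eq_or_ne w 0 with hw0 | hw0
  · subst hw0
    have h1 : hz f' (0 : E) = 0 := by
      unfold hz
      simp
    rw [h1, supportFn_zero hK.cc.cpt hK.cc.ne]
    simp
  · have hn : 0 < ‖w‖ := norm_pos_iff.mpr hw0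
    set u : E := ‖w‖⁻¹ • w with hu
    have hu1 : ‖u‖ = 1 := by
      rw [hu, norm_smul, norm_inv, norm_norm, inv_mul_cancel₀ hn.ne']
    have hwu : w = ‖w‖ • u := by
      rw [hu, smul_smul, mul_inv_cancel₀ hn.ne', one_smul]
    have h1 : hz f' w = ‖w‖ * hz f' u := by
      rw [hwu]
      unfold hz
      rw [← integral_const_mul]
      refine integral_congr_ae (Eventually.of_forall (fun x => ?_))
      dsimp only
      rw [real_inner_smul_left, abs_mul, norm_smul, hu1, mul_one]
      rw [Real.norm_eq_abs]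
      ring
    have h2 : supportFn K w = ‖w‖ * supportFn K u := by
      conv_lhs => rw [hwu]
      exact supportFn_smul hK.cc.cpt hK.cc.ne hn.le u
    obtain ⟨h3, h4⟩ := hunit u hu1
    rw [h1, h2]
    constructor
    · calc Real.exp (-(i * δ)) * (t' * (‖w‖ * hz f' u))
          = ‖w‖ * (Real.exp (-(i * δ)) * (t' * hz f' u)) := by ring
        _ ≤ _ := mul_le_mul_of_nonneg_left h3 hn.le
    · calc ‖w‖ * supportFn K u ≤ ‖w‖ * (Real.exp (i * δ) * (t' * hz f' u)) :=
            mul_le_mul_of_nonneg_left h4 hn.le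
        _ = _ := by ring

end Pool.Agent.BPH
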