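import Pool.Agent.BPH.Stmts

/-!
# BPH: row GWA: gram volume of `(a, v)`
-/

set_option autoImplicit false

open MeasureTheory Module Set Filter
open scoped RealInnerProductSpace Pointwise Topology ENNReal

namespace Pool.Agent.BPH.Gwa

variable {E : Type} [NormedAddCommGroup E] [InnerProductSpace ℝ E]

/-- the gram matrix of a linear transform of a family -/
theorem gram_lin {m : ℕ} (P : Matrix (Fin m) (Fin m) ℝ) (x y : Fin m → E)
    (h : ∀ p, x p = ∑ r, P p r • y r) :
    Matrix.gram ℝ x = P * Matrix.gram ℝ y * P.transpose := by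
  ext p q
  rw [Matrix.gram_apply, h p, h q, sum_inner, Matrix.mul_apply]
  simp only [inner_sum, inner_smul_left, inner_smul_right, Matrix.mul_apply, Matrix.gram_apply,
    Matrix.transpose_apply, Finset.sum_mul, RCLike.conj_to_real]
  rw [Finset.sum_comm]
  refine Finset.sum_congr rfl fun r _ => Finset.sum_congr rfl fun s _ => ?_
  ring

theorem det_gram_lin {m : ℕ} (P : Matrix (Fin m) (Fin m) ℝ) (hP : P.det = 1) (x y : Fin m → E)
    (h : ∀ p, x p = ∑ r, P p r • y r) : (Matrix.gram ℝ x).det = (Matrix.gram ℝ y).det := by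
  rw [gram_lin P x y h, Matrix.det_mul, Matrix.det_mul, Matrix.det_transpose, hP]
  ring

/-- block diagonal gram matrices -/
theorem det_gram_orth {i : ℕ} (b : E) (w : Fin i → E) (h : ∀ l, ⟪b, w l⟫ = 0) :
    (Matrix.gram ℝ (cns b w)).det = ‖b‖ ^ 2 * (Matrix.gram ℝ w).det := by
  rw [Matrix.det_succ_row_zero, Fin.sum_univ_succ]
  have h0 : ∀ l : Fin i, (Matrix.gram ℝ (cns b w)) 0 l.succ = 0 := by
    intro l
    rw [Matrix.gram_apply]
    exact h l
  have h1 : (Matrix.gram ℝ (cns b w)) 0 0 = ‖b‖ ^ 2 := by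
    rw [Matrix.gram_apply]
    exact real_inner_self_eq_norm_sq b
  have h2 : (Matrix.gram ℝ (cns b w)).submatrix Fin.succ (Fin.succAbove 0) = Matrix.gram ℝ w := by
    ext p q
    rw [Matrix.submatrix_apply, Matrix.gram_apply, Matrix.gram_apply]
    rfl
  rw [h1, h2, Finset.sum_eq_zero]
  · simp
  · intro l _
    rw [h0 l]
    ring

/-- replacing `a` by `a - ∑ c_l v_l` -/
theorem det_gram_upper {i : ℕ} (a b : E) (v : Fin i → E) (c : Fin i → ℝ)
    (h : a = b + ∑ l, c l • v l) :
    (Matrix.gram ℝ (cns a v)).det = (Matrix.gram ℝ (cns b v)).det := by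
  classical
  set P : Matrix (Fin (i + 1)) (Fin (i + 1)) ℝ := Matrix.of (Fin.cons (Fin.cons 1 c)
    (fun l : Fin i => Fin.cons (0 : ℝ) (fun r : Fin i => if l = r then (1 : ℝ) else 0))) with hP
  refine det_gram_lin P ?_ _ _ ?_
  · rw [Matrix.det_succ_column_zero, Fin.sum_univ_succ, Finset.sum_eq_zero]
    · have h2 : P.submatrix (Fin.succAbove 0) Fin.succ = 1 := by
        ext p q
        simp [hP, Matrix.one_apply]
      have h3 : P 0 0 = 1 := rfl
      rw [h2, h3]
      simp
    · intro l _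
      have : P l.succ 0 = 0 := rfl
      rw [this]
      ring
  · intro p
    rw [Fin.sum_univ_succ]
    refine Fin.cases ?_ (fun l => ?_) p
    · simp [hP, cns, h]
    · simp [hP, cns]

/-- replacing `v_l` by `v_l - t_l a` -/
theorem det_gram_lower {i : ℕ} (a : E) (v w : Fin i → E) (t : Fin i → ℝ)
    (h : ∀ l, v l = w l + t l • a) :
    (Matrix.gram ℝ (cns a v)).det = (Matrix.gram ℝ (cns a w)).det := by
  classical
  set P : Matrix (Fin (i + 1)) (Fin (i + 1)) ℝ := Matrix.of (Fin.cons (Fin.cons 1 (fun _ => 0))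
    (fun l : Fin i => Fin.cons (t l) (fun r : Fin i => if l = r then (1 : ℝ) else 0))) with hP
  refine det_gram_lin P ?_ _ _ ?_
  · rw [Matrix.det_succ_row_zero, Fin.sum_univ_succ, Finset.sum_eq_zero]
    · have h2 : P.submatrix Fin.succ (Fin.succAbove 0) = 1 := by
        ext p q
        simp [hP, Matrix.one_apply]
      have h3 : P 0 0 = 1 := rfl
      rw [h2, h3]
      simp
    · intro l _
      have : P 0 l.succ = 0 := rfl
      rw [this]
      ring
  · intro p
    rw [Fin.sum_univ_succ]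
    refine Fin.cases ?_ (fun l => ?_) p
    · simp [hP, cns]
    · simp [hP, cns, h l, add_comm]

theorem sqrt_norm_mul {b d : ℝ} (hb : 0 ≤ b) : Real.sqrt (b ^ 2 * d) = b * Real.sqrt d := by
  rw [Real.sqrt_mul (sq_nonneg b), Real.sqrt_sq hb]

theorem gwa1 [FiniteDimensional ℝ E] {i : ℕ} (a : E) (v : Fin i → E) :
    gw (cns a v) = ‖a‖ * gw (fun l => po a (v l)) := by
  have hpo : ∀ x, ⟪a, po a x⟫ = 0 := by
    intro x
    have h1 : po a x ∈ (ℝ ∙ a)ᗮ := Submodule.starProjection_apply_mem _ _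
    exact Submodule.inner_right_of_mem_orthogonal (Submodule.mem_span_singleton_self a) h1
  have hd : ∀ x, ∃ t : ℝ, x = po a x + t • a := by
    intro x
    have h1 : x - po a x ∈ (ℝ ∙ a)ᗮᗮ := Submodule.sub_starProjection_mem_orthogonal x
    rw [Submodule.orthogonal_orthogonal] at h1
    obtain ⟨t, ht⟩ := Submodule.mem_span_singleton.mp h1
    exact ⟨t, by rw [ht]; abel⟩
  choose t ht using hd
  unfold gw
  rw [det_gram_lower a v (fun l => po a (v l)) (fun l => t (v l)) (fun l => ht (v l)),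
    det_gram_orth a _ (fun l => hpo (v l)), sqrt_norm_mul (norm_nonneg a)]

theorem gwa2 [FiniteDimensional ℝ E] {i : ℕ} (a : E) (v : Fin i → E) :
    gw (cns a v) = gw v * ‖pp v a‖ := by
  have hpo : ∀ l, ⟪pp v a, v l⟫ = 0 := by
    intro l
    have h1 : pp v a ∈ (Submodule.span ℝ (Set.range v))ᗮ := Submodule.starProjection_apply_mem _ _
    exact Submodule.inner_left_of_mem_orthogonal (Submodule.subset_span (Set.mem_range_self l)) h1
  have hd : ∃ c : Fin i → ℝ, a = pp v a + ∑ l, c l • v l := by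
    have h1 : a - pp v a ∈ (Submodule.span ℝ (Set.range v))ᗮᗮ :=
      Submodule.sub_starProjection_mem_orthogonal a
    rw [Submodule.orthogonal_orthogonal] at h1
    obtain ⟨c, hc⟩ := (Submodule.mem_span_range_iff_exists_fun ℝ).mp h1
    exact ⟨c, by rw [hc]; abel⟩
  obtain ⟨c, hc⟩ := hd
  unfold gw
  rw [det_gram_upper a (pp v a) v c hc, det_gram_orth _ _ hpo, sqrt_norm_mul (norm_nonneg _),
    mul_comm]

end Pool.Agent.BPH.Gwa

namespace Pool.Agent.BPH

theorem gwa : GWAStmt := by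
  intro E _ _ _ i a v
  exact ⟨Gwa.gwa1 a v, Gwa.gwa2 a v⟩

end Pool.Agent.BPH
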