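import Pool.Agent.BPH.Stmts

/-!
# BPH, row GWB: elementary facts on the gram volumes
-/

set_option linter.all false

open MeasureTheory Module Set Filter
open scoped RealInnerProductSpace Pointwise Topology ENNReal

namespace Pool.Agent.BPH

namespace H90

theorem gw_perm {E : Type} [NormedAddCommGroup E] [InnerProductSpace ℝ E] {i : ℕ} (v : Fin i → E)
    (e : Equiv.Perm (Fin i)) : gw (fun l => v (e l)) = gw v := by
  unfold gw
  congr 1
  have h : Matrix.gram ℝ (fun l => v (e l)) = (Matrix.gram ℝ v).submatrix e e := by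
    ext a b
    simp [Matrix.gram_apply]
  rw [h, Matrix.det_submatrix_equiv_self]

theorem gw_le (gwa : GWAStmt) {E : Type} [NormedAddCommGroup E] [InnerProductSpace ℝ E]
    [FiniteDimensional ℝ E] : ∀ {i : ℕ} (v : Fin i → E), gw v ≤ ∏ l, ‖v l‖ := by
  intro i
  induction i with
  | zero =>
    intro v
    unfold gw
    simp
  | succ i ih =>
    intro v
    have h1 : v = cns (v 0) (fun l => v l.succ) := by
      unfold cns
      exact (Fin.cons_self_tail v).symm
    rw [h1, (gwa (v 0) (fun l => v l.succ)).2, Fin.prod_univ_succ]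
    have h2 : ‖pp (fun l => v l.succ) (v 0)‖ ≤ ‖v 0‖ := by
      unfold pp
      exact Submodule.norm_starProjection_apply_le _ _
    have h3 := ih (fun l => v l.succ)
    have h4 : 0 ≤ gw (fun l => v l.succ) := Real.sqrt_nonneg _
    show gw (fun l => v l.succ) * ‖pp (fun l => v l.succ) (v 0)‖ ≤ ‖v 0‖ * ∏ l : Fin i, ‖v l.succ‖
    calc gw (fun l => v l.succ) * ‖pp (fun l => v l.succ) (v 0)‖
        ≤ (∏ l : Fin i, ‖v l.succ‖) * ‖v 0‖ := by
          apply mul_le_mul h3 h2 (norm_nonneg _)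
          exact Finset.prod_nonneg (fun _ _ => norm_nonneg _)
      _ = ‖v 0‖ * ∏ l : Fin i, ‖v l.succ‖ := mul_comm _ _

theorem gw_cont {E : Type} [NormedAddCommGroup E] [InnerProductSpace ℝ E] {i : ℕ} :
    Continuous (fun v : Fin i → E => gw v) := by
  unfold gw
  refine Real.continuous_sqrt.comp ?_
  refine Continuous.matrix_det ?_
  refine continuous_matrix (fun a b => ?_)
  simp only [Matrix.gram_apply]
  exact (continuous_apply a).inner (continuous_apply b)

theorem gw_pos_iff {E : Type} [NormedAddCommGroup E] [InnerProductSpace ℝ E] {i : ℕ} (v : Fin i → E) :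
    0 < gw v ↔ LinearIndependent ℝ v := by
  unfold gw
  rw [Real.sqrt_pos, ← Matrix.det_gram_ne_zero_iff_linearIndependent (𝕜 := ℝ)]
  have h : 0 ≤ (Matrix.gram ℝ v).det := (Matrix.posSemidef_gram ℝ v).det_nonneg
  constructor
  · intro h1; exact h1.ne'
  · intro h1; exact lt_of_le_of_ne h (Ne.symm h1)

theorem gw_iso {E F : Type} [NormedAddCommGroup E] [InnerProductSpace ℝ E] [NormedAddCommGroup F]
    [InnerProductSpace ℝ F] (T : E →ₗᵢ[ℝ] F) {i : ℕ} (v : Fin i → E) :
    gw (fun l => T (v l)) = gw v := by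
  unfold gw
  congr 2
  ext a b
  simp only [Matrix.gram_apply]
  exact T.inner_map_map _ _

theorem gw_smul {E : Type} [NormedAddCommGroup E] [InnerProductSpace ℝ E] {i : ℕ} (v : Fin i → E)
    (c : Fin i → ℝ) : gw (fun l => c l • v l) = |∏ l, c l| * gw v := by
  unfold gw
  have h : Matrix.gram ℝ (fun l => c l • v l) =
      Matrix.diagonal c * Matrix.gram ℝ v * Matrix.diagonal c := by
    ext a b
    rw [Matrix.mul_diagonal, Matrix.diagonal_mul]
    simp only [Matrix.gram_apply, real_inner_smul_left, real_inner_smul_right]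
    ring
  rw [h, Matrix.det_mul, Matrix.det_mul, Matrix.det_diagonal]
  have h2 : (∏ l, c l) * (Matrix.gram ℝ v).det * (∏ l, c l) =
      (∏ l, c l) ^ 2 * (Matrix.gram ℝ v).det := by ring
  rw [h2, Real.sqrt_mul (sq_nonneg _), Real.sqrt_sq_eq_abs]

theorem gw_proj (gwa : GWAStmt) {E : Type} [NormedAddCommGroup E] [InnerProductSpace ℝ E]
    [FiniteDimensional ℝ E] {i : ℕ} (w : E) (hw : ‖w‖ = 1) (v : Fin i → E) :
    gw (fun l => (ℝ ∙ w)ᗮ.orthogonalProjectionOnto (v l)) = gw (cns w v) := by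
  rw [(gwa w v).1, hw, one_mul]
  have h := gw_iso ((ℝ ∙ w)ᗮ.subtypeₗᵢ) (fun l => (ℝ ∙ w)ᗮ.orthogonalProjectionOnto (v l))
  rw [← h]
  rfl

end H90

/-- GWB. -/
theorem gwb (gwa : GWAStmt) : GWB where
  perm := fun v e => H90.gw_perm v e
  le := fun v => H90.gw_le gwa v
  cont := H90.gw_cont
  pos_iff := fun v => H90.gw_pos_iff v
  iso := fun T _ v => H90.gw_iso T v
  smul := fun v c => H90.gw_smul v c
  proj := fun w hw v => H90.gw_proj gwa w hw v

end Pool.Agent.BPH
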