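import Pool.Agent.BPH.Stmts

/-!
# BPH, row HAA: the Haar probability measure of the orthogonal group
-/

open MeasureTheory Module Set Filter
open scoped RealInnerProductSpace Pointwise Topology

namespace Pool.Agent.BPH

theorem haa : HAAStmt := by
  intro E _ _ _ _ _
  have hcomp : CompleteSpace E := FiniteDimensional.complete ℝ E
  have hprop : ProperSpace (E →L[ℝ] E) := FiniteDimensional.proper ℝ (E →L[ℝ] E)
  let G := unitary (E →L[ℝ] E)
  have hbd : Bornology.IsBounded (G : Set (E →L[ℝ] E)) := by
    refine (Metric.isBounded_closedBall (x := (0 : E →L[ℝ] E)) (r := 1)).subset ?_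
    intro g hg
    rw [mem_closedBall_zero_iff]
    refine ContinuousLinearMap.opNorm_le_bound _ zero_le_one fun x => ?_
    rw [Unitary.norm_map ⟨g, hg⟩ x, one_mul]
  have hcs : CompactSpace G := isCompact_iff_compactSpace.1
    (Metric.isCompact_of_isClosed_isBounded isClosed_unitary hbd)
  have hbs : BorelSpace G := Subtype.borelSpace _
  let K0 : TopologicalSpace.PositiveCompacts G := ⊤
  let mu : Measure G := Measure.haarMeasure K0
  have hprob : IsProbabilityMeasure mu := by
    constructor
    have h := Measure.haarMeasure_self (K₀ := K0)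
    exact h
  have hright : ∀ g : G, mu.map (fun x => x * g) = mu := by
    intro g
    have hm : Measurable fun x : G => x * g := (continuous_mul_const g).measurable
    have h1 : IsProbabilityMeasure (mu.map fun x => x * g) :=
      Measure.isProbabilityMeasure_map hm.aemeasurable
    have h2 : (mu.map fun x => x * g).IsHaarMeasure :=
      Measure.isHaarMeasure_map_mul_right mu g
    exact Measure.isHaarMeasure_eq_of_isProbabilityMeasure _ _
  have hleft : ∀ g : G, mu.map (fun x => g * x) = mu := fun g => map_mul_left_eq_self mu g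
  have hi : Measurable (fun g : G => (g : E →L[ℝ] E)) := measurable_subtype_coe
  refine ⟨mu.map (fun g : G => (g : E →L[ℝ] E)), ?_, ?_, ?_, ?_⟩
  · exact Measure.isProbabilityMeasure_map hi.aemeasurable
  · have hset : MeasurableSet (G : Set (E →L[ℝ] E)) := isClosed_unitary.measurableSet
    have h3 : ∀ᵐ g ∂(mu.map (fun g : G => (g : E →L[ℝ] E))), g ∈ (G : Set (E →L[ℝ] E)) := by
      refine (ae_map_iff (p := fun y => y ∈ (G : Set (E →L[ℝ] E))) hi.aemeasurable hset).2 ?_
      exact Eventually.of_forall fun g => g.2
    filter_upwards [h3] with g hg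
    refine ⟨Unitary.linearIsometryEquiv ⟨g, hg⟩, ?_⟩
    ext x
    rfl
  · intro T
    have hT : opT T ∈ unitary (E →L[ℝ] E) := (Unitary.linearIsometryEquiv.symm T).2
    have hm : Measurable (fun g : E →L[ℝ] E => (opT T).comp g) :=
      (continuous_const.clm_comp continuous_id).measurable
    have hm2 : Measurable (fun x : G => (⟨opT T, hT⟩ : G) * x) :=
      (continuous_const_mul _).measurable
    calc (mu.map (fun g : G => (g : E →L[ℝ] E))).map (fun g => (opT T).comp g)
        = mu.map (fun g : G => (opT T).comp (g : E →L[ℝ] E)) := Measure.map_map hm hi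
      _ = (mu.map (fun x => (⟨opT T, hT⟩ : G) * x)).map (fun g : G => (g : E →L[ℝ] E)) :=
          (Measure.map_map hi hm2).symm
      _ = mu.map (fun g : G => (g : E →L[ℝ] E)) := by rw [hleft]
  · intro T
    have hT : opT T ∈ unitary (E →L[ℝ] E) := (Unitary.linearIsometryEquiv.symm T).2
    have hm : Measurable (fun g : E →L[ℝ] E => g.comp (opT T)) :=
      (continuous_id.clm_comp continuous_const).measurable
    have hm2 : Measurable (fun x : G => x * (⟨opT T, hT⟩ : G)) :=
      (continuous_mul_const _).measurable
    calc (mu.map (fun g : G => (g : E →L[ℝ] E))).map (fun g => g.comp (opT T))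
        = mu.map (fun g : G => (g : E →L[ℝ] E).comp (opT T)) := Measure.map_map hm hi
      _ = (mu.map (fun x => x * (⟨opT T, hT⟩ : G))).map (fun g : G => (g : E →L[ℝ] E)) :=
          (Measure.map_map hi hm2).symm
      _ = mu.map (fun g : G => (g : E →L[ℝ] E)) := by rw [hright]

end Pool.Agent.BPH
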