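import Pool.Agent.BPH.Kit

/-!
# (ITE) the iteration
-/

open MeasureTheory Module Set Filter
open scoped RealInnerProductSpace Pointwise Topology ENNReal

namespace Pool.Agent.BPH

open Pool.Agent.Helper55_PB Pool.Agent.Helper28_PB

section

variable {E : Type} [NormedAddCommGroup E] [InnerProductSpace ℝ E] [FiniteDimensional ℝ E]
  [MeasurableSpace E] [BorelSpace E]

/-- `K` is within the ratio `e^{±δ}` of `t` times the zonoid of `f` -/
def Near (K : Set E) (f : E → ℝ) (t δ : ℝ) : Prop :=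
  ∀ w : E, Real.exp (-δ) * (t * hz f w) ≤ supportFn K w ∧
    supportFn K w ≤ Real.exp δ * (t * hz f w)

/-- some unit vector has a large value of the support function -/
theorem exists_hz_ge (sp : SPH) [Nontrivial E] {f : E → ℝ} (hf : Dens f) :
    ∃ w : E, ‖w‖ = 1 ∧ 1 / (finrank ℝ E : ℝ) ≤ hz f w := by
  have := sp.prob (E := E)
  have hn : 0 < finrank ℝ E := finrank_pos
  set e := stdOrthonormalBasis ℝ E with he
  by_contra hcon
  push Not at hcon
  have h1 : ∑ l, hz f (e l) < 1 := by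
    have h2 : ∑ l : Fin (finrank ℝ E), hz f (e l) <
        ∑ l : Fin (finrank ℝ E), 1 / (finrank ℝ E : ℝ) := by
      refine Finset.sum_lt_sum_of_nonempty ?_ (fun l _ => hcon (e l) (e.norm_eq_one l))
      exact ⟨⟨0, hn⟩, Finset.mem_univ _⟩
    refine h2.trans_le (le_of_eq ?_)
    rw [Finset.sum_const, Finset.card_univ, Fintype.card_fin, nsmul_eq_mul]
    have : (finrank ℝ E : ℝ) ≠ 0 := by positivity
    field_simp
  have h3 : 1 ≤ ∑ l, hz f (e l) := by
    unfold hz
    rw [← integral_finset_sum _ (fun l _ => hf.integrable_inner sp (e l)), ← hf.int]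
    refine integral_mono_ae (hf.integrable sp)
      (integrable_finset_sum _ (fun l _ => hf.integrable_inner sp (e l))) ?_
    filter_upwards [sp.norm (E := E)] with x hx
    rw [← Finset.sum_mul]
    have h4 : 1 ≤ ∑ l, |⟪e l, x⟫| := by
      have h5 : ∑ l, ⟪e l, x⟫ ^ 2 = 1 := by
        rw [e.sum_sq_inner_right, hx]; norm_num
      rw [← h5]
      refine Finset.sum_le_sum (fun l _ => ?_)
      have h6 : |⟪e l, x⟫| ≤ 1 := by
        have := abs_real_inner_le_norm (e l) x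
        rwa [e.norm_eq_one, hx, mul_one] at this
      rw [← sq_abs]
      nlinarith [abs_nonneg ⟪e l, x⟫]
    have h7 := mul_le_mul_of_nonneg_right h4 (hf.nonneg x)
    rwa [one_mul] at h7
  linarith

/-- a uniform lower bound of the support function of the approximating zonoids -/
theorem near_lower (sp : SPH) [Nontrivial E] {K : Set E} {r R : ℝ} (hr : 0 < r) (hR : 0 < R)
    (hrK : ∀ w : E, ‖w‖ = 1 → r ≤ supportFn K w) (hRK : ∀ w : E, ‖w‖ = 1 → supportFn K w ≤ R)
    {f : E → ℝ} (hf : Dens f) {t δ : ℝ} (ht : 0 < t) (hδ : δ ≤ 1) (h : Near K f t δ) :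
    ∀ w : E, ‖w‖ = 1 → r / (Real.exp 1 ^ 2 * R * finrank ℝ E) ≤ hz f w := by
  have hn : 0 < finrank ℝ E := finrank_pos
  have hn' : (0 : ℝ) < finrank ℝ E := by exact_mod_cast hn
  obtain ⟨w₀, hw₀, hw₀'⟩ := exists_hz_ge sp hf
  have he1 : Real.exp δ ≤ Real.exp 1 := Real.exp_le_exp.mpr hδ
  have hpos : 0 < Real.exp δ := Real.exp_pos δ
  have hinv : Real.exp (-δ) = (Real.exp δ)⁻¹ := Real.exp_neg δ
  -- bound of t
  have h1 := (h w₀).1
  have h2 : t ≤ Real.exp 1 * R * finrank ℝ E := by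
    have h3 : Real.exp (-δ) * (t * (1 / (finrank ℝ E : ℝ))) ≤ R := by
      refine le_trans ?_ (h1.trans (hRK w₀ hw₀))
      gcongr
    rw [hinv] at h3
    have h4 : t = Real.exp δ * finrank ℝ E * ((Real.exp δ)⁻¹ * (t * (1 / (finrank ℝ E : ℝ)))) := by
      field_simp
    rw [h4]
    calc Real.exp δ * finrank ℝ E * ((Real.exp δ)⁻¹ * (t * (1 / (finrank ℝ E : ℝ))))
        ≤ Real.exp 1 * finrank ℝ E * R := by gcongr
      _ = Real.exp 1 * R * finrank ℝ E := by ring
  intro w hw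
  have h3 := (hrK w hw).trans (h w).2
  have hhz : 0 ≤ hz f w := integral_nonneg (fun x => mul_nonneg (abs_nonneg _) (hf.nonneg x))
  rw [div_le_iff₀ (by positivity)]
  refine h3.trans ?_
  calc Real.exp δ * (t * hz f w) ≤ Real.exp 1 * ((Real.exp 1 * R * finrank ℝ E) * hz f w) := by
        gcongr
    _ = hz f w * (Real.exp 1 ^ 2 * R * finrank ℝ E) := by ring

/-- the iteration for a fixed starting approximation -/
theorem iterate (sp : SPH) (tex : TEXStmt) (geo : GEOStmt) (stp : STPStmt) (pbb : PBBStmt)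
    [Nontrivial E] {j m : ℕ} (hm : 1 ≤ m) (hn : m + (j + 1) + 1 = finrank ℝ E)
    {q : ℝ} (hq0 : 0 ≤ q)
    (hq : ∀ g f f' : E → ℝ, Dens g → Dens f → Dens f' → IsStep (j + 1) g f →
      IsStep (j + 1) f f' → ent f' ≤ q * ent f)
    {K : Set E} {c : ℝ} (hK : Centred m K c) {r R : ℝ} (hr : 0 < r) (hR : 0 < R)
    (hrK : ∀ w : E, ‖w‖ = 1 → r ≤ supportFn K w) (hRK : ∀ w : E, ‖w‖ = 1 → supportFn K w ≤ R)
    {f₀ : E → ℝ} (hf₀ : Dens f₀) {t₀ δ : ℝ} (ht₀ : 0 < t₀) (hδ0 : 0 ≤ δ) (hδ : δ ≤ 1)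
    (hnear : Near K f₀ t₀ δ) (s : ℕ) :
    ∃ (g f : E → ℝ) (t : ℝ), Dens g ∧ Dens f ∧ IsStep (j + 1) g f ∧ 0 < t ∧
      Near K f t (((j + 1 : ℕ) : ℝ) ^ (s + 1) * δ) ∧
      ent f ≤ q ^ s * (((j : ℝ) + 1) * (1 / (r / (Real.exp 1 ^ 2 * R * finrank ℝ E))) *
        ent f₀) := by
  induction s with
  | zero =>
    obtain ⟨f₁, hf₁, hstep⟩ := tex (j + 1) (by omega) f₀ hf₀
    obtain ⟨t₁, ht₁, hn₁⟩ := geo (j + 1) m (by omega) hm hn K c hK f₀ f₁ hf₀ hf₁ hstep δ t₀
      hδ0 ht₀ hnear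
    refine ⟨f₀, f₁, t₁, hf₀, hf₁, hstep, ht₁, ?_, ?_⟩
    · intro w
      rw [zero_add, pow_one]
      exact hn₁ w
    · rw [pow_zero, one_mul]
      have hlow := near_lower sp hr hR hrK hRK hf₀ ht₀ hδ hnear
      have hc : 0 < r / (Real.exp 1 ^ 2 * R * finrank ℝ E) := by
        have : (0 : ℝ) < finrank ℝ E := by exact_mod_cast (finrank_pos : 0 < finrank ℝ E)
        positivity
      have hP := pbb j (by omega) f₀ hf₀ _ hc hlow
      have h1 := stp j (m + 1) (by omega) (by omega) f₀ f₁ hf₀ hf₁ hstep _ hP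
      have h2 : 0 ≤ ent f₁ := hf₁.ent_nonneg sp
      refine le_trans ?_ h1
      push_cast
      have hm0 : (0 : ℝ) ≤ m := Nat.cast_nonneg m
      nlinarith [mul_nonneg hm0 h2]
  | succ s ih =>
    obtain ⟨g, f, t, hg, hf, hgf, ht, hnr, hent⟩ := ih
    obtain ⟨f₁, hf₁, hstep⟩ := tex (j + 1) (by omega) f hf
    obtain ⟨t₁, ht₁, hn₁⟩ := geo (j + 1) m (by omega) hm hn K c hK f f₁ hf hf₁ hstep
      (((j + 1 : ℕ) : ℝ) ^ (s + 1) * δ) t (by positivity) ht hnr
    refine ⟨f, f₁, t₁, hf, hf₁, hstep, ht₁, ?_, ?_⟩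
    · intro w
      have h1 : ((j + 1 : ℕ) : ℝ) ^ (s + 1 + 1) * δ =
          ((j + 1 : ℕ) : ℝ) * (((j + 1 : ℕ) : ℝ) ^ (s + 1) * δ) := by ring
      rw [h1]
      exact hn₁ w
    · have h1 := hq g f f₁ hg hf hf₁ hgf hstep
      refine h1.trans ?_
      calc q * ent f ≤ q * (q ^ s * (((j : ℝ) + 1) *
            (1 / (r / (Real.exp 1 ^ 2 * R * finrank ℝ E))) * ent f₀)) :=
            mul_le_mul_of_nonneg_left hent hq0
        _ = _ := by ring

end

/-- `a^N exp (-θ^N) → 0` -/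
theorem tendsto_pow_mul_exp_neg_pow {a θ : ℝ} (ha : 0 < a) (hθ : 1 < θ) :
    Tendsto (fun N : ℕ => a ^ N * Real.exp (-(θ ^ N))) atTop (𝓝 0) := by
  obtain ⟨p, hp⟩ : ∃ p : ℕ, a < θ ^ p := pow_unbounded_of_one_lt a hθ
  have hθ0 : 0 < θ := by linarith
  have hθp : 0 < θ ^ p := by positivity
  have h1 : Tendsto (fun N : ℕ => (p.factorial : ℝ) * (a / θ ^ p) ^ N) atTop (𝓝 0) := by
    have := (tendsto_pow_atTop_nhds_zero_of_lt_one (r := a / θ ^ p) (by positivity)
      (by rw [div_lt_one hθp]; exact hp)).const_mul (p.factorial : ℝ)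
    rwa [mul_zero] at this
  refine squeeze_zero (fun N => by positivity) (fun N => ?_) h1
  have h2 := Real.pow_div_factorial_le_exp (θ ^ N) (by positivity) p
  have h3 : 0 < (θ ^ N) ^ p / (p.factorial : ℝ) := by positivity
  rw [Real.exp_neg]
  calc a ^ N * (Real.exp (θ ^ N))⁻¹ ≤ a ^ N * ((θ ^ N) ^ p / (p.factorial : ℝ))⁻¹ := by
        gcongr
    _ = (p.factorial : ℝ) * (a / θ ^ p) ^ N := by
        rw [inv_div, div_pow, ← pow_mul, ← pow_mul, mul_comm N p]
        ring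

theorem ite_of (sp : SPH) (tex : TEXStmt) (geo : GEOStmt) (stp : STPStmt) (pbb : PBBStmt)
    (pin : PINStmt) (zak : ZAKStmt) (sta : STAStmt) : ITEStmt := by
  intro E _ _ _ _ _ j k m hm hk hn q hq0 hq1 hq K c hK
  have hn0 : 0 < finrank ℝ E := by omega
  have hnt : Nontrivial E := Module.nontrivial_of_finrank_pos (R := ℝ) hn0
  have hn' : m + (j + 1) + 1 = finrank ℝ E := by omega
  -- bounds of the support function
  obtain ⟨r, hr, hball⟩ := exists_ball_zero hK.zero_mem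
  have hrK : ∀ w : E, ‖w‖ = 1 → r ≤ supportFn K w := by
    intro w hw
    have := le_supportFn_of_ball hK.cc.cpt hr.le hball w
    rwa [hw, mul_one] at this
  obtain ⟨R, hR, hRK⟩ : ∃ R : ℝ, 0 < R ∧ ∀ w : E, ‖w‖ = 1 → supportFn K w ≤ R := by
    have hsph : IsCompact (Metric.sphere (0 : E) 1) := isCompact_sphere 0 1
    have hcont := continuous_supportFn hK.cc.cpt hK.cc.ne
    obtain ⟨e₀, he₀⟩ := exists_norm_eq E zero_le_one
    obtain ⟨u, hu, hmax⟩ := hsph.exists_isMaxOn ⟨e₀, by simpa using he₀⟩ hcont.continuousOn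
    have hu' : ‖u‖ = 1 := by simpa using hu
    exact ⟨supportFn K u, hr.trans_le (hrK u hu'), fun w hw => hmax (by simpa using hw)⟩
  obtain ⟨C, hC1, hC⟩ := sta K hK.cc hK.zero_mem (zak m K c (by omega) (by omega) hK)
  obtain ⟨b, hb, hpin⟩ := pin E
  -- the exponential rate
  set θ : ℝ := 2 / (1 + q) with hθ
  have hθ1 : 1 < θ := by
    rw [hθ, lt_div_iff₀ (by linarith)]
    linarith
  have hqθ : q * θ < 1 := by
    rw [hθ, mul_div_assoc', div_lt_one (by linarith)]
    linarith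
  have hθ0 : 0 < θ := by linarith
  set A : ℝ := ((j : ℝ) + 1) * (1 / (r / (Real.exp 1 ^ 2 * R * finrank ℝ E))) with hA
  have hnR : (0 : ℝ) < finrank ℝ E := by exact_mod_cast hn0
  have hA0 : 0 ≤ A := by positivity
  -- the key inequality for small ε
  have key : ∀ ε : ℝ, 0 < ε → ε < b → ∀ u u' : E, ‖u‖ = 1 → ‖u'‖ = 1 →
      supportFn K u * (b - ε) ≤ Real.exp (2 * ε) * (b + ε) * supportFn K u' := by
    intro ε hε hεb u u' hu hu'
    obtain ⟨η, hη, hη'⟩ := hpin ε hε
    have h1 : Tendsto (fun N : ℕ => ((j + 1 : ℕ) : ℝ) * (((j + 1 : ℕ) : ℝ) ^ N *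
        Real.exp (-(θ ^ N)))) atTop (𝓝 0) := by
      have := (tendsto_pow_mul_exp_neg_pow (a := ((j + 1 : ℕ) : ℝ)) (by positivity) hθ1).const_mul
        ((j + 1 : ℕ) : ℝ)
      rwa [mul_zero] at this
    have h2 : Tendsto (fun N : ℕ => q ^ N * (A * (Real.log C + finrank ℝ E * θ ^ N))) atTop
        (𝓝 0) := by
      have h3 := (tendsto_pow_atTop_nhds_zero_of_lt_one hq0 hq1).const_mul (A * Real.log C)
      have h4 := (tendsto_pow_atTop_nhds_zero_of_lt_one (r := q * θ) (by positivity)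
        hqθ).const_mul (A * finrank ℝ E)
      have h5 := h3.add h4
      rw [mul_zero, mul_zero, add_zero] at h5
      refine h5.congr (fun N => ?_)
      rw [mul_pow]
      ring
    have h3 := (h1.eventually_le_const hε).and (h2.eventually_le_const hη)
    obtain ⟨N, hN1, hN2⟩ := h3.exists
    set δ : ℝ := Real.exp (-(θ ^ N)) with hδ
    have hδ0 : 0 < δ := Real.exp_pos _
    have hδ1 : δ ≤ 1 := by
      rw [hδ, Real.exp_le_one_iff]
      have : 0 < θ ^ N := by positivity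
      linarith
    obtain ⟨f₀, t₀, hf₀, ht₀, hbd, hnear⟩ := hC δ hδ0 hδ1
    obtain ⟨g, f, t, hg, hf, hgf, ht, hnr, hent⟩ := iterate sp tex geo stp pbb hm hn' hq0 hq hK
      hr hR hrK hRK hf₀ ht₀ hδ0.le hδ1 hnear N
    have h4 : ent f₀ ≤ Real.log C + finrank ℝ E * θ ^ N := by
      have h5 := hf₀.ent_le_log sp hbd
      have h6 : Real.log (C / δ ^ finrank ℝ E) = Real.log C + finrank ℝ E * θ ^ N := by
        rw [Real.log_div (by positivity) (by positivity), Real.log_pow, hδ, Real.log_exp]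
        ring
      rwa [h6] at h5
    have h5 : ent f ≤ η := by
      refine hent.trans (le_trans ?_ hN2)
      gcongr
    have h6 := hη' f hf h5
    have h7 := abs_le.mp (h6 u hu)
    have h8 := abs_le.mp (h6 u' hu')
    have hd : ((j + 1 : ℕ) : ℝ) ^ (N + 1) * δ ≤ ε := by
      refine le_trans (le_of_eq ?_) hN1
      rw [hδ]
      ring
    set d : ℝ := ((j + 1 : ℕ) : ℝ) ^ (N + 1) * δ with hdd
    have h9 := (hnr u).2
    have h10 := (hnr u').1
    have hbe : 0 < b - ε := by linarith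
    -- supportFn K u ≤ e^d t (b + ε),  supportFn K u' ≥ e^{-d} t (b - ε)
    have h11 : supportFn K u ≤ Real.exp d * (t * (b + ε)) := by
      refine h9.trans ?_
      gcongr
      linarith
    have h12 : Real.exp (-d) * (t * (b - ε)) ≤ supportFn K u' := by
      refine le_trans ?_ h10
      gcongr
      linarith
    have h13 : t * (b - ε) ≤ Real.exp d * supportFn K u' := by
      have h14 := mul_le_mul_of_nonneg_left h12 (Real.exp_pos d).le
      rwa [← mul_assoc, ← Real.exp_add, add_neg_cancel, Real.exp_zero, one_mul] at h14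
    calc supportFn K u * (b - ε) ≤ Real.exp d * (t * (b + ε)) * (b - ε) := by gcongr
      _ = Real.exp d * (b + ε) * (t * (b - ε)) := by ring
      _ ≤ Real.exp d * (b + ε) * (Real.exp d * supportFn K u') := by gcongr
      _ = Real.exp (2 * d) * (b + ε) * supportFn K u' := by
          rw [two_mul, Real.exp_add]; ring
      _ ≤ Real.exp (2 * ε) * (b + ε) * supportFn K u' := by
          have hs : 0 ≤ supportFn K u' := hr.le.trans (hrK u' hu')
          gcongr
  have hle : ∀ u u' : E, ‖u‖ = 1 → ‖u'‖ = 1 → supportFn K u ≤ supportFn K u' := by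
    intro u u' hu hu'
    have h1 : Tendsto (fun ε : ℝ => supportFn K u * (b - ε)) (𝓝[>] 0)
        (𝓝 (supportFn K u * (b - 0))) :=
      (Continuous.tendsto (by fun_prop) 0).mono_left nhdsWithin_le_nhds
    have h2 : Tendsto (fun ε : ℝ => Real.exp (2 * ε) * (b + ε) * supportFn K u') (𝓝[>] 0)
        (𝓝 (Real.exp (2 * 0) * (b + 0) * supportFn K u')) :=
      (Continuous.tendsto (by fun_prop) 0).mono_left nhdsWithin_le_nhds
    have h3 : supportFn K u * (b - 0) ≤ Real.exp (2 * 0) * (b + 0) * supportFn K u' := by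
      refine le_of_tendsto_of_tendsto h1 h2 ?_
      have h4 : ∀ᶠ ε : ℝ in 𝓝[>] 0, ε < b :=
        mem_nhdsWithin_of_mem_nhds (Iio_mem_nhds hb)
      filter_upwards [self_mem_nhdsWithin, h4] with ε hε hεb
      exact key ε hε hεb u u' hu hu'
    rw [sub_zero, mul_zero, Real.exp_zero, add_zero, one_mul] at h3
    have h5 : b * supportFn K u ≤ b * supportFn K u' := by linarith
    exact le_of_mul_le_mul_left h5 hb
  obtain ⟨e₀, he₀⟩ := exists_norm_eq E zero_le_one
  refine ⟨supportFn K e₀, hr.trans_le (hrK e₀ he₀), Subset.antisymm ?_ ?_⟩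
  · exact subset_closedBall_of_max hK.cc (hr.le.trans (hrK e₀ he₀)) (fun w hw => hle w e₀ hw he₀)
  · exact closedBall_subset_of_min hK.cc (fun w hw => hle e₀ w he₀ hw)

end Pool.Agent.BPH
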