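import Pool.Agent.BPH.Stmts

/-!
# BPH: row LEA (the leading Steiner coefficient)
-/

open MeasureTheory Module Set Filter
open scoped RealInnerProductSpace Pointwise Topology ENNReal

namespace Pool.Agent.BPH

open Pool.Agent.Helper55_PB Pool.Agent.Helper28_PB

theorem lea : LEAStmt := by
  intro E _ _ _ _ _ hd M hM
  have hlim : LimStmt := lim_of vd_sum
  have hS : IsSteiner M (sc M) := sc_spec hlim hd hM
  set n := finrank ℝ E with hn
  obtain ⟨x₀, hx₀⟩ := hM.ne
  obtain ⟨R, hR⟩ := hM.cpt.isBounded.subset_closedBall (0 : E)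
  set κ := ballVol n with hκ
  have hκ0 : 0 ≤ κ := ENNReal.toReal_nonneg
  -- bounds
  have hlow : ∀ r : ℝ, 0 ≤ r → κ * r ^ n ≤ ∑ j ∈ Finset.range (n + 1), sc M j * r ^ j := by
    intro r hr
    rw [← hS r hr, ← volume_ball_eq x₀ hr]
    refine ENNReal.toReal_mono ?_ (measure_mono ?_)
    · exact (hM.cpt.add (isCompact_closedBall (0 : E) r)).measure_ne_top
    · intro y hy
      refine ⟨x₀, hx₀, y - x₀, ?_, by simp⟩
      rw [Metric.mem_closedBall, dist_zero_right]
      rwa [Metric.mem_closedBall, dist_eq_norm] at hy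
  have hup : ∀ r : ℝ, 0 ≤ r → ∑ j ∈ Finset.range (n + 1), sc M j * r ^ j ≤
      κ * (|R| + r) ^ n := by
    intro r hr
    rw [← hS r hr, ← volume_ball_eq (0 : E) (add_nonneg (abs_nonneg R) hr)]
    refine ENNReal.toReal_mono ?_ (measure_mono ?_)
    · exact (isCompact_closedBall (0 : E) _).measure_ne_top
    · rintro y ⟨a, ha, b, hb, rfl⟩
      have h1 := hR ha
      rw [Metric.mem_closedBall, dist_zero_right] at *
      calc ‖a + b‖ ≤ ‖a‖ + ‖b‖ := norm_add_le _ _
        _ ≤ |R| + r := add_le_add (h1.trans (le_abs_self R)) hb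
  -- the reversed polynomial
  set Q : ℝ → ℝ := fun s => ∑ j ∈ Finset.range (n + 1), sc M j * s ^ (n - j) with hQ
  have hQc : Continuous Q := by
    rw [hQ]
    fun_prop
  have hQ0 : Q 0 = sc M n := by
    simp only [hQ]
    rw [Finset.sum_eq_single n]
    · simp
    · intro j hj hjn
      have : n - j ≠ 0 := by
        have := Finset.mem_range.1 hj
        omega
      rw [zero_pow this, mul_zero]
    · intro h
      exact absurd (Finset.mem_range.2 (Nat.lt_succ_self n)) h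
  have hQs : ∀ s : ℝ, 0 < s → Q s = (∑ j ∈ Finset.range (n + 1), sc M j * (s⁻¹) ^ j) * s ^ n := by
    intro s hs
    simp only [hQ, Finset.sum_mul]
    refine Finset.sum_congr rfl fun j hj => ?_
    have hj' : j ≤ n := Nat.lt_succ_iff.1 (Finset.mem_range.1 hj)
    have : s ^ n = s ^ (n - j) * s ^ j := by rw [← pow_add, Nat.sub_add_cancel hj']
    rw [this, inv_pow]
    field_simp
  have h1 : ∀ s : ℝ, 0 < s → κ ≤ Q s := by
    intro s hs
    rw [hQs s hs]
    have h := hlow s⁻¹ (inv_nonneg.2 hs.le)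
    calc κ = κ * (s⁻¹) ^ n * s ^ n := by rw [inv_pow]; field_simp
      _ ≤ _ := mul_le_mul_of_nonneg_right h (pow_nonneg hs.le n)
  have h2 : ∀ s : ℝ, 0 < s → Q s ≤ κ * (|R| * s + 1) ^ n := by
    intro s hs
    rw [hQs s hs]
    have h := hup s⁻¹ (inv_nonneg.2 hs.le)
    calc _ ≤ κ * (|R| + s⁻¹) ^ n * s ^ n := mul_le_mul_of_nonneg_right h (pow_nonneg hs.le n)
      _ = κ * ((|R| + s⁻¹) * s) ^ n := by rw [mul_pow]; ring
      _ = κ * (|R| * s + 1) ^ n := by
          congr 2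
          field_simp
  have hlim1 : Tendsto Q (𝓝[>] 0) (𝓝 (Q 0)) := (hQc.tendsto 0).mono_left nhdsWithin_le_nhds
  have hlim2 : Tendsto (fun s : ℝ => κ * (|R| * s + 1) ^ n) (𝓝[>] 0) (𝓝 κ) := by
    have hc : Continuous (fun s : ℝ => κ * (|R| * s + 1) ^ n) := by fun_prop
    have := (hc.tendsto 0).mono_left (nhdsWithin_le_nhds (s := Set.Ioi (0:ℝ)))
    simpa using this
  have hev : ∀ᶠ s : ℝ in 𝓝[>] 0, 0 < s := self_mem_nhdsWithin
  have a1 : κ ≤ Q 0 := ge_of_tendsto hlim1 (hev.mono h1)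
  have a2 : Q 0 ≤ κ := le_of_tendsto_of_tendsto hlim1 hlim2 (hev.mono h2)
  rw [← hQ0]
  exact le_antisymm a2 a1

end Pool.Agent.BPH
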