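import Pool.Agent.BPH.MolB

/-!
# BPH, row MOL: `segVol M` is approximated by support functions of zonoids
-/

set_option linter.unusedSectionVars false

open MeasureTheory Module Set Filter
open scoped RealInnerProductSpace Pointwise Topology ENNReal

namespace Pool.Agent.BPH

namespace H55

open Pool.Agent.Helper55_PB Pool.Agent.Helper28_PB

section

variable {E : Type} [NormedAddCommGroup E] [InnerProductSpace ℝ E]

theorem add_ball_subset {M : Set E} (hc : Convex ℝ M) {a : E} {r s : ℝ} (hr : 0 < r) (hs : 0 < s)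
    (hb : Metric.closedBall a r ⊆ M) :
    M + Metric.closedBall (0 : E) s ⊆ AffineMap.homothety a (1 + s / r) '' M := by
  rintro y ⟨x, hx, z, hz, rfl⟩
  have hz' : ‖z‖ ≤ s := mem_closedBall_zero_iff.1 hz
  set c : ℝ := 1 + s / r with hcdef
  have hsr : 0 < s / r := div_pos hs hr
  have hc0 : 0 < c := by positivity
  have hm : a + (r / s) • z ∈ M := by
    apply hb
    rw [mem_closedBall_iff_norm, add_sub_cancel_left, norm_smul, Real.norm_of_nonneg (by positivity)]
    calc r / s * ‖z‖ ≤ r / s * s := by gcongr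
      _ = r := by field_simp
  refine ⟨(1 / c) • x + (1 - 1 / c) • (a + (r / s) • z), ?_, ?_⟩
  · refine hc hx hm (by positivity) ?_ (by ring)
    have : 1 / c ≤ 1 := by rw [div_le_one hc0]; linarith
    linarith
  · have e1 : (1 - 1 / c) * (r / s) = 1 / c := by
      rw [hcdef]; field_simp; ring
    rw [AffineMap.homothety_apply, vsub_eq_sub, vadd_eq_add]
    have e2 : (1 / c) • x + (1 - 1 / c) • (a + (r / s) • z) - a = (1 / c) • (x + z - a) := by
      rw [smul_add (1 - 1 / c), smul_smul, e1]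
      module
    rw [e2, smul_smul, mul_one_div_cancel hc0.ne', one_smul]
    exact sub_add_cancel _ _

variable [FiniteDimensional ℝ E] [MeasurableSpace E] [BorelSpace E]

theorem shadow_le {M : Set E} (hM : CC M) {a : E} {r s : ℝ} (hr : 0 < r) (hs : 0 < s)
    (hb : Metric.closedBall a r ⊆ M) (e : E) :
    shadowVol (M + Metric.closedBall (0 : E) s) e ≤
      (1 + s / r) ^ finrank ℝ E * shadowVol M e := by
  have hc1 : 1 ≤ 1 + s / r := by have := div_pos hs hr; linarith
  have hPc : IsCompact ((ℝ ∙ e)ᗮ.orthogonalProjectionOnto '' M) :=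
    hM.cpt.image (ContinuousLinearMap.continuous _)
  have hsub : (ℝ ∙ e)ᗮ.orthogonalProjectionOnto '' (M + Metric.closedBall (0 : E) s) ⊆
      AffineMap.homothety ((ℝ ∙ e)ᗮ.orthogonalProjectionOnto a) (1 + s / r) ''
        ((ℝ ∙ e)ᗮ.orthogonalProjectionOnto '' M) := by
    rintro y ⟨x, hx, rfl⟩
    obtain ⟨m, hm, rfl⟩ := add_ball_subset hM.cvx hr hs hb hx
    refine ⟨_, ⟨m, hm, rfl⟩, ?_⟩
    rw [AffineMap.homothety_apply, AffineMap.homothety_apply, vsub_eq_sub, vadd_eq_add,
      vsub_eq_sub, vadd_eq_add, map_add, map_smul, map_sub]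
  have h1 : (volume ((ℝ ∙ e)ᗮ.orthogonalProjectionOnto ''
      (M + Metric.closedBall (0 : E) s))).toReal ≤
      (1 + s / r) ^ finrank ℝ ((ℝ ∙ e)ᗮ : Submodule ℝ E) * shadowVol M e := by
    have h2 := (measure_mono hsub).trans_eq (Measure.addHaar_image_homothety volume _ _ _)
    have h3 := ENNReal.toReal_mono
      (ENNReal.mul_ne_top ENNReal.ofReal_ne_top hPc.measure_lt_top.ne) h2
    rw [ENNReal.toReal_mul, ENNReal.toReal_ofReal (abs_nonneg _), abs_of_nonneg (by positivity)] at h3
    exact h3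
  refine h1.trans ?_
  refine mul_le_mul_of_nonneg_right ?_ ENNReal.toReal_nonneg
  exact pow_le_pow_right₀ hc1 (Submodule.finrank_le _)

/-- the total variation of the cut off distance function in the direction `e` -/
theorem grad_bounds {M : Set E} (hM : CC M) {s : ℝ} (hs : 0 < s) {e : E} (he : ‖e‖ = 1) :
    2 * shadowVol M e ≤ ∫ x, |fderiv ℝ (gg M s) x e| ∧
    ∫ x, |fderiv ℝ (gg M s) x e| ≤ 2 * shadowVol (M + Metric.closedBall (0 : E) s) e := by
  have hg := gg_continuous M hs
  obtain ⟨R, hR, hR'⟩ := exists_radius hM.cpt s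
  have hz : ∀ x : E, R < ‖x‖ → gg M s x = 0 := fun x hx =>
    gg_supp hM.cpt hM.ne hs fun h => absurd (mem_closedBall_zero_iff.1 (hR' h)) (not_le.2 hx)
  set t : ℕ → ℝ := fun N => 1 / ((N : ℝ) + 1) with ht
  have htpos : ∀ N, 0 < t N := fun N => by simp only [ht]; positivity
  have ht1 : ∀ N, t N ≤ 1 := fun N => by
    simp only [ht]
    rw [div_le_one (by positivity)]
    have : (0 : ℝ) ≤ N := Nat.cast_nonneg N
    linarith
  have ht0 : Tendsto t atTop (𝓝 0) := tendsto_one_div_add_atTop_nhds_zero_nat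
  have hlim : Tendsto (fun N => ∫ x, |gg M s (x + t N • e) - gg M s x| / t N) atTop
      (𝓝 (∫ x, |fderiv ℝ (gg M s) x e|)) := by
    refine tendsto_integral_of_dominated_convergence
      ((Metric.closedBall (0 : E) (R + 1)).indicator fun _ => 1 / s) ?_ ?_ ?_ ?_
    · intro N
      exact ((diff_facts hM hs e (t N)).1.div_const _).aestronglyMeasurable
    · exact (integrable_indicator_iff measurableSet_closedBall).2
        (integrableOn_const (isCompact_closedBall _ _).measure_lt_top.ne)
    · intro N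
      refine Eventually.of_forall fun x => ?_
      rw [Real.norm_eq_abs, abs_of_nonneg (div_nonneg (abs_nonneg _) (htpos N).le)]
      by_cases hx : x ∈ Metric.closedBall (0 : E) (R + 1)
      · rw [indicator_of_mem hx, div_le_iff₀ (htpos N)]
        refine (gg_lip M hs _ _).trans (le_of_eq ?_)
        rw [add_sub_cancel_left, norm_smul, he, mul_one, Real.norm_of_nonneg (htpos N).le]
        ring
      · rw [indicator_of_notMem hx]
        rw [mem_closedBall_zero_iff, not_le] at hx
        have h2 : R < ‖x + t N • e‖ := by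
          have h3 : ‖x‖ ≤ ‖x + t N • e‖ + ‖t N • e‖ := by
            calc ‖x‖ = ‖(x + t N • e) - t N • e‖ := by rw [add_sub_cancel_right]
              _ ≤ _ := norm_sub_le _ _
          rw [norm_smul, he, mul_one, Real.norm_of_nonneg (htpos N).le] at h3
          linarith [ht1 N]
        rw [hz _ h2, hz x (by linarith), sub_zero, abs_zero, zero_div]
    · filter_upwards [(gg_lipschitz M hs).ae_differentiableAt (μ := volume)] with x hx
      have h1 := (hx.hasFDerivAt.hasLineDerivAt e).tendsto_slope_zero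
      have h2 : Tendsto t atTop (𝓝[≠] 0) :=
        tendsto_nhdsWithin_iff.2 ⟨ht0, Eventually.of_forall fun N => (htpos N).ne'⟩
      have h3 := (h1.comp h2).abs
      refine h3.congr fun N => ?_
      show |(t N)⁻¹ • (gg M s (x + t N • e) - gg M s x)| = _
      rw [smul_eq_mul, abs_mul, abs_inv, abs_of_pos (htpos N)]
      ring
  constructor
  · have h1 : Tendsto (fun N => 2 * (1 - t N / s) * shadowVol M e) atTop
        (𝓝 (2 * (1 - 0 / s) * shadowVol M e)) :=
      ((tendsto_const_nhds.sub (ht0.div_const s)).const_mul 2).mul_const _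
    rw [zero_div, sub_zero, mul_one] at h1
    refine le_of_tendsto_of_tendsto' h1 hlim fun N => ?_
    rw [integral_div, le_div_iff₀ (htpos N)]
    refine (le_of_eq ?_).trans (int_lower hM hs he (htpos N))
    ring
  · refine le_of_tendsto' hlim fun N => ?_
    rw [integral_div, div_le_iff₀ (htpos N)]
    refine (int_upper hM hs he (htpos N)).trans (le_of_eq ?_)
    ring

/-- the approximating measure -/
theorem exists_tau {M : Set E} (hM : CC M) {s : ℝ} (hs : 0 < s) :
    ∃ (R : ℝ) (τ : Measure E), IsFiniteMeasure τ ∧ τ (Metric.closedBall (0 : E) R)ᶜ = 0 ∧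
      ∀ w : E, ∫ y, |⟪w, y⟫| ∂τ = (1 / 2) * ∫ x, |fderiv ℝ (gg M s) x w| := by
  obtain ⟨R, hR, hR'⟩ := exists_radius hM.cpt s
  have hz : ∀ x : E, R < ‖x‖ → gg M s x = 0 := fun x hx =>
    gg_supp hM.cpt hM.ne hs fun h => absurd (mem_closedBall_zero_iff.1 (hR' h)) (not_le.2 hx)
  set D : E → E := fun x => (1 / 2 : ℝ) • (InnerProductSpace.toDual ℝ E).symm
    (fderiv ℝ (gg M s) x) with hD
  have hDm : Measurable D :=
    ((InnerProductSpace.toDual ℝ E).symm.continuous.measurable.comp
      (measurable_fderiv ℝ (gg M s))).const_smul (1 / 2 : ℝ)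
  have hDn : ∀ x, ‖D x‖ ≤ 1 / 2 * (1 / s) := by
    intro x
    simp only [hD]
    rw [norm_smul, LinearIsometryEquiv.norm_map, Real.norm_of_nonneg (by norm_num)]
    have h := norm_fderiv_le_of_lipschitz ℝ (gg_lipschitz M hs) (x₀ := x)
    rw [Real.coe_toNNReal _ (by positivity)] at h
    linarith
  have : IsFiniteMeasure (volume.restrict (Metric.closedBall (0 : E) R)) :=
    ⟨by rw [Measure.restrict_apply_univ]; exact (isCompact_closedBall _ _).measure_lt_top⟩
  refine ⟨1 / 2 * (1 / s), (volume.restrict (Metric.closedBall (0 : E) R)).map D, ?_, ?_, ?_⟩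
  · infer_instance
  · rw [Measure.map_apply hDm Metric.isClosed_closedBall.measurableSet.compl]
    have e : D ⁻¹' (Metric.closedBall (0 : E) (1 / 2 * (1 / s)))ᶜ = ∅ := by
      refine eq_empty_of_forall_notMem fun x hx => hx ?_
      rw [mem_closedBall_zero_iff]
      exact hDn x
    rw [e, measure_empty]
  · intro w
    have hw : Continuous fun y : E => |⟪w, y⟫| := (continuous_const.inner continuous_id).abs
    rw [integral_map hDm.aemeasurable hw.aestronglyMeasurable, ← integral_const_mul]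
    have e1 : ∀ x, |⟪w, D x⟫| = 1 / 2 * |fderiv ℝ (gg M s) x w| := by
      intro x
      simp only [hD]
      rw [inner_smul_right, abs_mul, real_inner_comm, InnerProductSpace.toDual_symm_apply,
        abs_of_nonneg (by norm_num : (0 : ℝ) ≤ 1 / 2)]
    simp only [e1]
    refine setIntegral_eq_integral_of_forall_compl_eq_zero fun x hx => ?_
    rw [mem_closedBall_zero_iff, not_le] at hx
    have h1 : gg M s =ᶠ[𝓝 x] fun _ => 0 := by
      have ho : IsOpen {y : E | R < ‖y‖} := isOpen_lt continuous_const continuous_norm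
      filter_upwards [ho.mem_nhds hx] with y hy
      exact hz y hy
    rw [h1.fderiv_eq, fderiv_fun_const]
    simp

end

end H55

open Pool.Agent.Helper55_PB Pool.Agent.Helper28_PB

/-- (MOL) -/
theorem mol : MOLStmt := by
  intro E _ _ _ _ _ hd M hM hint ε hε
  obtain ⟨a, ha⟩ := hint
  obtain ⟨r, hr, hb⟩ := Metric.nhds_basis_closedBall.mem_iff.1 (mem_interior_iff_mem_nhds.1 ha)
  have hlim : Tendsto (fun s : ℝ => (1 + s / r) ^ finrank ℝ E) (𝓝[>] 0) (𝓝 1) := by
    have h : Continuous fun s : ℝ => (1 + s / r) ^ finrank ℝ E := by fun_prop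
    have h1 := h.tendsto 0
    simp only [zero_div, add_zero, one_pow] at h1
    exact h1.mono_left nhdsWithin_le_nhds
  obtain ⟨s, hs1, hs⟩ := ((hlim.eventually (gt_mem_nhds (by linarith : (1 : ℝ) < 1 + ε))).and
    self_mem_nhdsWithin).exists
  have hs0 : 0 < s := hs
  obtain ⟨R, τ, hfin, hsupp, hτ⟩ := H55.exists_tau hM hs0
  refine ⟨R, τ, hfin, hsupp, fun w => ?_⟩
  by_cases hw : w = 0
  · subst hw
    simp [segVol_zero]
  · obtain ⟨e, he, hwe⟩ := exists_unit w hw
    have hn : 0 ≤ ‖w‖ := norm_nonneg w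
    have h1 : ∫ y, |⟪w, y⟫| ∂τ = ‖w‖ * ∫ y, |⟪e, y⟫| ∂τ := by
      rw [← integral_const_mul]
      refine integral_congr_ae (Eventually.of_forall fun y => ?_)
      show |⟪w, y⟫| = ‖w‖ * |⟪e, y⟫|
      conv_lhs => rw [hwe]
      rw [real_inner_smul_left, abs_mul, abs_of_nonneg hn]
    have h2 : segVol M w = ‖w‖ * shadowVol M e := by
      conv_lhs => rw [hwe]
      exact segVol_eq hM.cpt hM.cvx he hn
    obtain ⟨g1, g2⟩ := H55.grad_bounds hM hs0 he
    have g3 := H55.shadow_le hM hr hs0 hb e
    have hS : 0 ≤ shadowVol M e := ENNReal.toReal_nonneg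
    have hI := hτ e
    have l1 : shadowVol M e ≤ ∫ y, |⟪e, y⟫| ∂τ := by rw [hI]; linarith
    have l2 : ∫ y, |⟪e, y⟫| ∂τ ≤ (1 + ε) * shadowVol M e := by
      rw [hI]
      have := mul_le_mul_of_nonneg_right hs1.le hS
      linarith
    simp only [h1, h2]
    constructor
    · have h3 : (1 - ε) * shadowVol M e ≤ ∫ y, |⟪e, y⟫| ∂τ := by nlinarith
      calc (1 - ε) * (‖w‖ * shadowVol M e) = ‖w‖ * ((1 - ε) * shadowVol M e) := by ring
        _ ≤ _ := mul_le_mul_of_nonneg_left h3 hn
    · calc ‖w‖ * ∫ y, |⟪e, y⟫| ∂τ ≤ ‖w‖ * ((1 + ε) * shadowVol M e) :=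
            mul_le_mul_of_nonneg_left l2 hn
        _ = (1 + ε) * (‖w‖ * shadowVol M e) := by ring

end Pool.Agent.BPH
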