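import Pool.Agent.BPH.Kit

/-!
# Row PBB (helper31): the bound for the first step
-/

open MeasureTheory Module Set Filter
open scoped RealInnerProductSpace Pointwise Topology ENNReal

namespace Pool.Agent.BPH

open Pool.Agent.Helper55_PB Pool.Agent.Helper28_PB

section

variable {E : Type} [NormedAddCommGroup E] [InnerProductSpace ℝ E] [FiniteDimensional ℝ E]

omit [InnerProductSpace ℝ E] [FiniteDimensional ℝ E] in
theorem pbb_cont_cns (j : ℕ) : Continuous fun q : E × (Fin j → E) => cns q.1 q.2 := by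
  refine continuous_pi fun i => ?_
  refine Fin.cases ?_ (fun l => ?_) i
  · exact continuous_fst
  · exact (continuous_apply l).comp continuous_snd

/-- a unit vector orthogonal to few vectors -/
theorem pbb_unit {j : ℕ} (hj : j + 1 ≤ finrank ℝ E) (v : Fin j → E) :
    ∃ e ∈ perp v, ‖e‖ = 1 := by
  have h1 : finrank ℝ (Submodule.span ℝ (Set.range v)) ≤ j := by
    have := finrank_range_le_card (R := ℝ) (b := v)
    rwa [Fintype.card_fin] at this
  have h2 : perp v ≠ ⊥ := by
    intro h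
    have h3 := Submodule.finrank_add_finrank_orthogonal (Submodule.span ℝ (Set.range v))
    have h4 : (Submodule.span ℝ (Set.range v))ᗮ = ⊥ := h
    rw [h4, finrank_bot] at h3
    omega
  obtain ⟨x, hx, hx0⟩ := Submodule.exists_mem_ne_zero_of_ne_bot h2
  exact ⟨nrm x, Submodule.smul_mem _ _ hx, norm_nrm hx0⟩

theorem pbb_le {j : ℕ} {v : Fin j → E} {e : E} (he : e ∈ perp v) (h1 : ‖e‖ = 1) (x : E) :
    |⟪e, x⟫| ≤ ‖pp v x‖ := by
  have h2 : ⟪e, x⟫ = ⟪e, pp v x⟫ := by
    have h3 : (perp v).starProjection e = e := Submodule.starProjection_eq_self_iff.2 he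
    unfold pp
    rw [← Submodule.inner_starProjection_left_eq_right, h3]
  rw [h2]
  have h4 := abs_real_inner_le_norm e (pp v x)
  rwa [h1, one_mul] at h4

variable [MeasurableSpace E] [BorelSpace E]

theorem pbb_norm (sp : SPH) [Nontrivial E] (j : ℕ) : ∀ᵐ v ∂sphP E j, ∀ l, ‖v l‖ = 1 := by
  have := sp.prob (E := E)
  rw [ae_all_iff]
  intro l
  have h := (Measure.quasiMeasurePreserving_eval (fun _ : Fin j => sph E) l).ae
    (sp.norm (E := E))
  exact h

end

/-- row PBB -/
theorem pbb (sp : SPH) (ga : GWAStmt) (gb : GWB) (z : ZFU) : PBBStmt := by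
  intro E _ _ _ _ _ j hj f hf c hc hcf x hx
  have hE : Nontrivial E := Module.nontrivial_of_finrank_pos (R := ℝ) (by omega)
  have := sp.prob (E := E)
  have := sp.probP (E := E) j
  obtain ⟨C, hC⟩ := hf.bdd
  have hC0 : 0 ≤ C := (hf.nonneg 0).trans (hC 0)
  have hprod : ∀ v : Fin j → E, 0 ≤ ∏ l, f (v l) := fun v =>
    Finset.prod_nonneg fun l _ => hf.nonneg _
  have hprodC : ∀ v : Fin j → E, ∏ l, f (v l) ≤ C ^ j := fun v => by
    calc ∏ l, f (v l) ≤ ∏ _l : Fin j, C :=
          Finset.prod_le_prod (fun l _ => hf.nonneg _) (fun l _ => hC _)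
      _ = C ^ j := by simp
  have hgn : ∀ {i : ℕ} (v : Fin i → E), 0 ≤ gw v := fun v => Real.sqrt_nonneg _
  have hmp : Measurable fun v : Fin j → E => ∏ l, f (v l) :=
    Finset.measurable_fun_prod _ fun l _ => hf.meas.comp (measurable_pi_apply l)
  -- the joint function
  have hmF : Measurable fun q : E × (Fin j → E) =>
      f q.1 * (gw (cns q.1 q.2) * ∏ l, f (q.2 l)) :=
    (hf.meas.comp measurable_fst).mul ((gb.cont.comp (pbb_cont_cns j)).measurable.mul
      (hmp.comp measurable_snd))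
  have hbF : ∀ᵐ q ∂(sph E).prod (sphP E j),
      |f q.1 * (gw (cns q.1 q.2) * ∏ l, f (q.2 l))| ≤ C * (1 * C ^ j) := by
    have a1 : ∀ᵐ q ∂(sph E).prod (sphP E j), ‖q.1‖ = 1 :=
      Measure.quasiMeasurePreserving_fst.ae (sp.norm (E := E))
    have a2 : ∀ᵐ q ∂(sph E).prod (sphP E j), ∀ l, ‖q.2 l‖ = 1 :=
      Measure.quasiMeasurePreserving_snd.ae (pbb_norm sp j)
    filter_upwards [a1, a2] with q h1 h2
    have h3 : gw (cns q.1 q.2) ≤ 1 := by
      refine (gb.le _).trans_eq ?_
      rw [Fin.prod_univ_succ]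
      show ‖q.1‖ * ∏ l : Fin j, ‖q.2 l‖ = 1
      rw [h1, one_mul]
      exact Finset.prod_eq_one fun l _ => h2 l
    rw [abs_of_nonneg (mul_nonneg (hf.nonneg _) (mul_nonneg (hgn _) (hprod _)))]
    exact mul_le_mul (hC _) (mul_le_mul h3 (hprodC _) (hprod _) zero_le_one)
      (mul_nonneg (hgn _) (hprod _)) hC0
  have hiF : Integrable (fun q : E × (Fin j → E) =>
      f q.1 * (gw (cns q.1 q.2) * ∏ l, f (q.2 l))) ((sph E).prod (sphP E j)) :=
    integrable_bdd hmF hbF
  have e1 : ZZ (j + 1) f = ∫ v, ∫ x, f x * (gw (cns x v) * ∏ l, f (v l)) ∂sph E ∂sphP E j := by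
    rw [z.succ j f hf]
    rw [← integral_integral_swap (f := fun x v => f x * (gw (cns x v) * ∏ l, f (v l))) hiF]
    simp only [YY, integral_const_mul]
  -- the inner integral
  have hin : ∀ v : Fin j → E, c * (gw v * ∏ l, f (v l)) ≤
      ∫ x, f x * (gw (cns x v) * ∏ l, f (v l)) ∂sph E := by
    intro v
    obtain ⟨e, he, he1⟩ := pbb_unit hj v
    have i1 := hf.integrable_inner sp e
    have hppm : Measurable fun x => ‖pp v x‖ := by
      unfold pp
      fun_prop
    have i2 : Integrable (fun x => ‖pp v x‖ * f x) (sph E) := by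
      refine integrable_bdd (hppm.mul hf.meas) (C := 1 * C) ?_
      filter_upwards [sp.norm (E := E)] with x hx
      rw [abs_of_nonneg (mul_nonneg (norm_nonneg _) (hf.nonneg _))]
      have h1 : ‖pp v x‖ ≤ 1 := by
        rw [← hx]
        exact Submodule.norm_starProjection_apply_le _ _
      exact mul_le_mul h1 (hC _) (hf.nonneg _) zero_le_one
    have h2 : c ≤ ∫ x, ‖pp v x‖ * f x ∂sph E :=
      (hcf e he1).trans (integral_mono i1 i2 fun x =>
        mul_le_mul_of_nonneg_right (pbb_le he he1 x) (hf.nonneg _))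
    have h3 : ∫ x, f x * (gw (cns x v) * ∏ l, f (v l)) ∂sph E =
        (gw v * ∏ l, f (v l)) * ∫ x, ‖pp v x‖ * f x ∂sph E := by
      rw [← integral_const_mul]
      refine integral_congr_ae (Eventually.of_forall fun x => ?_)
      show f x * (gw (cns x v) * ∏ l, f (v l)) = (gw v * ∏ l, f (v l)) * (‖pp v x‖ * f x)
      rw [(ga x v).2]
      ring
    rw [h3, mul_comm c]
    exact mul_le_mul_of_nonneg_left h2 (mul_nonneg (hgn _) (hprod _))
  have h4 : c * ZZ j f ≤ ZZ (j + 1) f := by
    rw [e1]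
    unfold ZZ
    rw [← integral_const_mul]
    exact integral_mono ((z.int j f hf).const_mul c) hiF.integral_prod_right hin
  have h5 := (z.nonneg j f x hf).2
  rw [hx, one_mul] at h5
  rw [one_div, ← div_eq_inv_mul, le_div_iff₀ hc]
  nlinarith

end Pool.Agent.BPH
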