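import Pool.Agent.BPH.Kit

/-!
# BPH: row PIN, small entropy implies almost constant support function
-/

open MeasureTheory Module Set Filter
open scoped RealInnerProductSpace Pointwise Topology ENNReal

namespace Pool.Agent.BPH

open Pool.Agent.Helper55_PB Pool.Agent.Helper28_PB

/-- `(√t - 1)^2 ≤ t log t - t + 1` -/
theorem pin_sqrt {t : ℝ} (ht : 0 ≤ t) :
    (Real.sqrt t - 1) ^ 2 ≤ t * Real.log t - t + 1 := by
  have hs : 0 ≤ Real.sqrt t := Real.sqrt_nonneg t
  have h1 := sub_one_le_mul_log hs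
  have h2 : t = Real.sqrt t * Real.sqrt t := (Real.mul_self_sqrt ht).symm
  have h3 : t * Real.log t = 2 * Real.sqrt t * (Real.sqrt t * Real.log (Real.sqrt t)) := by
    rw [Real.log_sqrt ht]
    nth_rewrite 1 [h2]
    ring
  have h4 : 2 * Real.sqrt t * (Real.sqrt t - 1) ≤
      2 * Real.sqrt t * (Real.sqrt t * Real.log (Real.sqrt t)) :=
    mul_le_mul_of_nonneg_left h1 (by positivity)
  rw [h3]
  nlinarith [Real.sq_sqrt ht]

theorem pin_abs {t ε : ℝ} (ht : 0 ≤ t) (hε : 0 < ε) :
    |t - 1| ≤ ε + (1 + 1 / ε) * (t * Real.log t - t + 1) := by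
  have hk := pin_sqrt ht
  set s : ℝ := |Real.sqrt t - 1| with hs
  have hs0 : 0 ≤ s := abs_nonneg _
  have hs2 : s ^ 2 = (Real.sqrt t - 1) ^ 2 := sq_abs _
  have h1 : |t - 1| ≤ s ^ 2 + 2 * s := by
    have : t - 1 = (Real.sqrt t - 1) * ((Real.sqrt t - 1) + 2) := by
      have := Real.mul_self_sqrt ht
      nlinarith
    rw [this, abs_mul, ← hs]
    have h2 : |Real.sqrt t - 1 + 2| ≤ s + 2 := by
      refine (abs_add_le _ _).trans ?_
      rw [← hs]
      norm_num
    calc s * |Real.sqrt t - 1 + 2| ≤ s * (s + 2) := mul_le_mul_of_nonneg_left h2 hs0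
      _ = s ^ 2 + 2 * s := by ring
  have h2 : 2 * s ≤ ε + s ^ 2 / ε := by
    have h3 : 0 ≤ (s - ε) ^ 2 / ε := by positivity
    have h4 : (s - ε) ^ 2 / ε = s ^ 2 / ε - 2 * s + ε := by
      field_simp
      ring
    linarith
  have h5 : (1 + 1 / ε) * s ^ 2 ≤ (1 + 1 / ε) * (t * Real.log t - t + 1) := by
    refine mul_le_mul_of_nonneg_left ?_ (by positivity)
    rw [hs2]
    exact hk
  have h6 : (1 + 1 / ε) * s ^ 2 = s ^ 2 + s ^ 2 / ε := by
    ring
  linarith

theorem pin (sp : SPH) : PINStmt := by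
  intro E _ _ _ _ _ _
  have : IsProbabilityMeasure (sph E) := sp.prob
  have hn : ∀ᵐ x ∂sph E, ‖x‖ = 1 := sp.norm
  obtain ⟨u₀, hu₀⟩ : ∃ u : E, ‖u‖ = 1 := exists_norm_eq E zero_le_one
  have hone := Dens.one (E := E) sp
  have hrot : ∀ u : E, ‖u‖ = 1 → hz (fun _ => (1 : ℝ)) u = hz (fun _ => (1 : ℝ)) u₀ := by
    intro u hu
    set T : E ≃ₗᵢ[ℝ] E := (ℝ ∙ (u₀ - u))ᗮ.reflection with hT
    have hTu : T u₀ = u := Submodule.reflection_sub (by rw [hu₀, hu])
    unfold hz
    have hm : (sph E).map T = sph E := sp.iso T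
    calc ∫ x, |⟪u, x⟫| * 1 ∂sph E = ∫ x, |⟪u, x⟫| * 1 ∂((sph E).map T) := by rw [hm]
      _ = ∫ x, |⟪u, T x⟫| * 1 ∂sph E := by
          refine integral_map T.continuous.measurable.aemeasurable ?_
          exact (by fun_prop : Measurable fun x : E => |⟪u, x⟫| * 1).aestronglyMeasurable
      _ = ∫ x, |⟪u₀, x⟫| * 1 ∂sph E := by
          refine integral_congr_ae (Eventually.of_forall fun x => ?_)
          simp only
          rw [← hTu, LinearIsometryEquiv.inner_map_map]
  have hbpos : 0 < hz (fun _ => (1 : ℝ)) u₀ := by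
    have h0 : 0 ≤ hz (fun _ => (1 : ℝ)) u₀ := by
      unfold hz
      exact integral_nonneg fun x => by positivity
    refine lt_of_le_of_ne h0 (fun h => ?_)
    have h1 : ∀ᵐ x ∂sph E, |⟪u₀, x⟫| * 1 = 0 := by
      have := (integral_eq_zero_iff_of_nonneg (fun x => by positivity)
        (hone.integrable_inner sp u₀)).mp h.symm
      filter_upwards [this] with x hx
      simpa using hx
    have h2 : ∀ᵐ x ∂sph E, x ∈ ((ℝ ∙ u₀)ᗮ : Submodule ℝ E) := by
      filter_upwards [h1] with x hx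
      rw [Submodule.mem_orthogonal_singleton_iff_inner_right]
      simpa using hx
    have hV : (ℝ ∙ u₀)ᗮ ≠ (⊤ : Submodule ℝ E) := by
      intro htop
      have h3 : u₀ ∈ (ℝ ∙ u₀)ᗮ := by rw [htop]; trivial
      rw [Submodule.mem_orthogonal_singleton_iff_inner_right, real_inner_self_eq_norm_sq,
        hu₀] at h3
      norm_num at h3
    have h4 := sp.null (ℝ ∙ u₀)ᗮ hV
    have h5 : sph E (((ℝ ∙ u₀)ᗮ : Submodule ℝ E) : Set E)ᶜ = 0 := h2
    have h6 : sph E Set.univ ≤ 0 := by
      rw [← Set.union_compl_self (((ℝ ∙ u₀)ᗮ : Submodule ℝ E) : Set E)]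
      refine (measure_union_le _ _).trans ?_
      rw [h4, h5, add_zero]
    rw [measure_univ] at h6
    exact absurd h6 (by simp)
  refine ⟨hz (fun _ => (1 : ℝ)) u₀, hbpos, ?_⟩
  intro ε hε
  have hε2 : 0 < ε / 2 := by positivity
  refine ⟨(ε / 2) / (1 + 1 / (ε / 2)), by positivity, ?_⟩
  intro f hf hent u hu
  have hL1 : ∫ x, |f x - 1| ∂sph E ≤ ε := by
    have h1 : ∫ x, |f x - 1| ∂sph E ≤
        ∫ x, (ε / 2 + (1 + 1 / (ε / 2)) * (f x * Real.log (f x) - f x + 1)) ∂sph E := by
      refine integral_mono ?_ ?_ ?_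
      · exact ((hf.integrable sp).sub (integrable_const _)).abs
      · exact (integrable_const _).add ((((hf.integrable_mul_log sp).sub
          (hf.integrable sp)).add (integrable_const _)).const_mul _)
      · intro x
        exact pin_abs (hf.nonneg x) hε2
    have hA : Integrable (fun x => f x * Real.log (f x) - f x) (sph E) :=
      (hf.integrable_mul_log sp).sub (hf.integrable sp)
    have hB : Integrable (fun x => f x * Real.log (f x) - f x + 1) (sph E) :=
      hA.add (integrable_const _)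
    have hC : Integrable (fun x => (1 + 1 / (ε / 2)) * (f x * Real.log (f x) - f x + 1))
      (sph E) := hB.const_mul _
    rw [integral_add (integrable_const _) hC, integral_const_mul,
      integral_add hA (integrable_const _),
      integral_sub (hf.integrable_mul_log sp) (hf.integrable sp), hf.int] at h1
    simp only [integral_const, probReal_univ, smul_eq_mul, one_mul] at h1
    have h2 : ∫ x, f x * Real.log (f x) ∂sph E ≤ (ε / 2) / (1 + 1 / (ε / 2)) := hent
    have h3 : (1 + 1 / (ε / 2)) * (∫ x, f x * Real.log (f x) ∂sph E) ≤ ε / 2 := by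
      have h4 : 0 < 1 + 1 / (ε / 2) := by positivity
      calc (1 + 1 / (ε / 2)) * (∫ x, f x * Real.log (f x) ∂sph E)
          ≤ (1 + 1 / (ε / 2)) * ((ε / 2) / (1 + 1 / (ε / 2))) :=
            mul_le_mul_of_nonneg_left h2 h4.le
        _ = ε / 2 := by field_simp
    linarith
  rw [← hrot u hu]
  unfold hz
  rw [← integral_sub (hf.integrable_inner sp u) (hone.integrable_inner sp u)]
  have h7 : ‖∫ x, (|⟪u, x⟫| * f x - |⟪u, x⟫| * 1) ∂sph E‖ ≤ ∫ x, |f x - 1| ∂sph E := by
    refine norm_integral_le_of_norm_le ((hf.integrable sp).sub (integrable_const _)).abs ?_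
    filter_upwards [hn] with x hx
    rw [Real.norm_eq_abs, ← mul_sub, abs_mul, abs_abs]
    have h8 := abs_real_inner_le_norm u x
    rw [hu, hx, mul_one] at h8
    exact mul_le_of_le_one_left (abs_nonneg _) h8
  rw [Real.norm_eq_abs] at h7
  exact h7.trans hL1

end Pool.Agent.BPH
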