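import Pool.Agent.BPH.Stmts

/-!
# BPH, row PPM: joint measurability of the projections
-/

open MeasureTheory Module Set Filter
open scoped RealInnerProductSpace Pointwise Topology

namespace Pool.Agent.BPH

theorem po_formula {E : Type} [NormedAddCommGroup E] [InnerProductSpace ℝ E]
    [FiniteDimensional ℝ E] (a x : E) : po a x = x - (⟪a, x⟫ / ‖a‖ ^ 2) • a := by
  have h : po a x = x - (ℝ ∙ a).starProjection x := by
    unfold po
    rw [Submodule.starProjection_orthogonal]
    simp
  rw [h, Submodule.starProjection_singleton]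
  simp

theorem po_orth {E : Type} [NormedAddCommGroup E] [InnerProductSpace ℝ E]
    [FiniteDimensional ℝ E] (a x : E) : ⟪a, po a x⟫ = 0 :=
  Submodule.mem_orthogonal_singleton_iff_inner_right.1
    (Submodule.starProjection_apply_mem (ℝ ∙ a)ᗮ x)

theorem sub_po_mem {E : Type} [NormedAddCommGroup E] [InnerProductSpace ℝ E]
    [FiniteDimensional ℝ E] (a x : E) : x - po a x ∈ (ℝ ∙ a) := by
  rw [po_formula]
  simp only [sub_sub_cancel]
  exact Submodule.smul_mem _ _ (Submodule.mem_span_singleton_self a)

theorem pp_cns {E : Type} [NormedAddCommGroup E] [InnerProductSpace ℝ E]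
    [FiniteDimensional ℝ E] {i : ℕ} (a : E) (v : Fin i → E) (x : E) :
    pp (cns a v) x = pp (fun l => po a (v l)) (po a x) := by
  set w : Fin i → E := fun l => po a (v l) with hw
  set p := pp w (po a x) with hp
  have hpmem : p ∈ perp w := Submodule.starProjection_apply_mem _ _
  have hsub : po a x - p ∈ Submodule.span ℝ (Set.range w) := by
    have h := Submodule.sub_starProjection_mem_orthogonal (K := perp w) (po a x)
    unfold perp at h
    rw [Submodule.orthogonal_orthogonal] at h
    exact h
  have hspan : Submodule.span ℝ (Set.range w) ≤ (ℝ ∙ a)ᗮ := by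
    rw [Submodule.span_le]
    rintro _ ⟨l, rfl⟩
    exact Submodule.starProjection_apply_mem (ℝ ∙ a)ᗮ (v l)
  have hpa : ⟪a, p⟫ = 0 := by
    have h1 : ⟪a, po a x - p⟫ = 0 :=
      Submodule.mem_orthogonal_singleton_iff_inner_right.1 (hspan hsub)
    rw [inner_sub_right, po_orth] at h1
    linarith
  have hpw : ∀ l, ⟪w l, p⟫ = 0 := by
    intro l
    exact (Submodule.mem_orthogonal _ _).1 hpmem (w l) (Submodule.subset_span ⟨l, rfl⟩)
  have hpv : ∀ l, ⟪v l, p⟫ = 0 := by
    intro l
    obtain ⟨c, hc⟩ := Submodule.mem_span_singleton.1 (sub_po_mem a (v l))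
    have h2 : v l = w l + c • a := by
      rw [hc, hw]
      simp
    rw [h2, inner_add_left, hpw l, inner_smul_left, hpa]
    simp
  have hmem : p ∈ perp (cns a v) := by
    unfold perp
    rw [Submodule.mem_orthogonal]
    intro u hu
    induction hu using Submodule.span_induction with
    | mem u hu =>
      obtain ⟨j, rfl⟩ := hu
      refine Fin.cases ?_ (fun l => ?_) j
      · exact hpa
      · exact hpv l
    | zero => simp
    | add u u' _ _ h1 h2 => rw [inner_add_left, h1, h2, add_zero]
    | smul c u _ h1 => rw [inner_smul_left, h1, mul_zero]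
  have ha : a ∈ Submodule.span ℝ (Set.range (cns a v)) :=
    Submodule.subset_span ⟨0, rfl⟩
  have hv : ∀ l, v l ∈ Submodule.span ℝ (Set.range (cns a v)) := fun l =>
    Submodule.subset_span ⟨l.succ, rfl⟩
  have hla : (ℝ ∙ a) ≤ Submodule.span ℝ (Set.range (cns a v)) := by
    rw [Submodule.span_le]
    intro u hu
    rw [Set.mem_singleton_iff.1 hu]
    exact ha
  have hlw : Submodule.span ℝ (Set.range w) ≤ Submodule.span ℝ (Set.range (cns a v)) := by
    rw [Submodule.span_le]
    rintro _ ⟨l, rfl⟩
    have h3 : w l = v l - (v l - po a (v l)) := by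
      rw [hw]
      simp
    rw [h3]
    exact Submodule.sub_mem _ (hv l) (hla (sub_po_mem a (v l)))
  have hx : x - p ∈ (perp (cns a v))ᗮ := by
    unfold perp
    rw [Submodule.orthogonal_orthogonal]
    have h4 : x - p = (x - po a x) + (po a x - p) := by abel
    rw [h4]
    exact Submodule.add_mem _ (hla (sub_po_mem a x)) (hlw hsub)
  exact (Submodule.eq_starProjection_of_mem_orthogonal hmem hx)

theorem measurable_po {E : Type} [NormedAddCommGroup E] [InnerProductSpace ℝ E]
    [FiniteDimensional ℝ E] [MeasurableSpace E] [BorelSpace E] :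
    Measurable (fun q : E × E => po q.1 q.2) := by
  have h : (fun q : E × E => po q.1 q.2)
      = fun q : E × E => q.2 - (⟪q.1, q.2⟫ / ‖q.1‖ ^ 2) • q.1 := by
    funext q
    exact po_formula q.1 q.2
  rw [h]
  exact measurable_snd.sub
    (((measurable_fst.inner measurable_snd).div (measurable_fst.norm.pow_const 2)).smul
      measurable_fst)

theorem measurable_po' {E : Type} [NormedAddCommGroup E] [InnerProductSpace ℝ E]
    [FiniteDimensional ℝ E] [MeasurableSpace E] [BorelSpace E] {α : Type*} [MeasurableSpace α]
    {f g : α → E} (hf : Measurable f) (hg : Measurable g) :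
    Measurable (fun x => po (f x) (g x)) := by
  have h : (fun x => po (f x) (g x)) = fun x => g x - (⟪f x, g x⟫ / ‖f x‖ ^ 2) • f x := by
    funext x
    exact po_formula (f x) (g x)
  rw [h]
  exact hg.sub (((hf.inner hg).div (hf.norm.pow_const 2)).smul hf)

theorem pp_zero {E : Type} [NormedAddCommGroup E] [InnerProductSpace ℝ E]
    [FiniteDimensional ℝ E] (v : Fin 0 → E) (x : E) : pp v x = x := by
  have hx : x ∈ perp v := by
    unfold perp
    rw [Set.range_eq_empty]
    simp
  exact Submodule.starProjection_eq_self_iff.2 hx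

/-- the reduction map of the induction -/
noncomputable def red {E : Type} [NormedAddCommGroup E] [InnerProductSpace ℝ E]
    [FiniteDimensional ℝ E] (i : ℕ) (q : (Fin (i + 1) → E) × E) : (Fin i → E) × E :=
  (fun l : Fin i => po (q.1 0) (q.1 l.succ), po (q.1 0) q.2)

theorem measurable_red {E : Type} [NormedAddCommGroup E] [InnerProductSpace ℝ E]
    [FiniteDimensional ℝ E] [MeasurableSpace E] [BorelSpace E] (i : ℕ) :
    Measurable (red (E := E) i) := by
  have h0 : Measurable (fun q : (Fin (i + 1) → E) × E => q.1 0) :=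
    (measurable_pi_apply 0).comp measurable_fst
  have h1 : Measurable (fun q : (Fin (i + 1) → E) × E =>
      (fun l : Fin i => po (q.1 0) (q.1 l.succ))) := by
    refine measurable_pi_lambda _ fun l => ?_
    have h2 : Measurable (fun q : (Fin (i + 1) → E) × E => q.1 l.succ) :=
      (measurable_pi_apply l.succ).comp measurable_fst
    exact measurable_po' h0 h2
  have h3 : Measurable (fun q : (Fin (i + 1) → E) × E => po (q.1 0) q.2) :=
    measurable_po' h0 measurable_snd
  exact h1.prodMk h3

theorem pp_red {E : Type} [NormedAddCommGroup E] [InnerProductSpace ℝ E]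
    [FiniteDimensional ℝ E] (i : ℕ) (q : (Fin (i + 1) → E) × E) :
    pp q.1 q.2 = pp (red i q).1 (red i q).2 := by
  have h1 := pp_cns (q.1 0) (fun l : Fin i => q.1 l.succ) q.2
  have h2 : cns (q.1 0) (fun l : Fin i => q.1 l.succ) = q.1 := by
    unfold cns
    exact Fin.cons_self_tail q.1
  rw [h2] at h1
  exact h1

theorem ppm_main {E : Type} [NormedAddCommGroup E] [InnerProductSpace ℝ E]
    [FiniteDimensional ℝ E] [MeasurableSpace E] [BorelSpace E] (i : ℕ) :
    Measurable (fun q : (Fin i → E) × E => pp q.1 q.2) := by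
  induction i with
  | zero =>
    have h : (fun q : (Fin 0 → E) × E => pp q.1 q.2) = fun q => q.2 := by
      funext q
      exact pp_zero q.1 q.2
    rw [h]
    exact measurable_snd
  | succ i ih =>
    have h : (fun q : (Fin (i + 1) → E) × E => pp q.1 q.2)
        = fun q : (Fin (i + 1) → E) × E => pp (red i q).1 (red i q).2 := by
      funext q
      exact pp_red i q
    rw [h]
    exact ih.comp (measurable_red i)

theorem ppm : PPMStmt := by
  intro E _ _ _ _ _ i
  exact ppm_main i

end Pool.Agent.BPH
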