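import Pool.Agent.BPH.Stmts

/-!
# BPH, row QB2: the sharper sup norm bound, by fourth moments
-/

open MeasureTheory Module Set Filter
open scoped RealInnerProductSpace Pointwise Topology ENNReal

namespace Pool.Agent.BPH

section

variable {E : Type} [NormedAddCommGroup E] [InnerProductSpace ℝ E]

private theorem qb_nrm_norm_le (y : E) : ‖nrm y‖ ≤ 1 := by
  unfold nrm
  rw [norm_smul, norm_inv, norm_norm]
  rcases eq_or_ne ‖y‖ 0 with h | h
  · rw [h]; simp
  · rw [inv_mul_cancel₀ h]

private theorem qb_nrm_norm {y : E} (hy : y ≠ 0) : ‖nrm y‖ = 1 := by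
  unfold nrm
  rw [norm_smul, norm_inv, norm_norm, inv_mul_cancel₀ (norm_ne_zero_iff.2 hy)]

private theorem qb_nrm_mem (U : Submodule ℝ E) {y : E} (hy : y ∈ U) : nrm y ∈ U :=
  U.smul_mem _ hy

private theorem qb_nrm_iso (T : E ≃ₗᵢ[ℝ] E) (y : E) : nrm (T y) = T (nrm y) := by
  unfold nrm
  rw [T.norm_map, T.map_smul]

private theorem qb_nrm_unit {y : E} (hy : ‖y‖ = 1) : nrm y = y := by
  unfold nrm
  rw [hy]; simp

variable [FiniteDimensional ℝ E] [MeasurableSpace E] [BorelSpace E]

private theorem qb_nrm_meas : Measurable (nrm : E → E) := by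
  unfold nrm
  exact (measurable_norm.inv).smul measurable_id

private theorem qb_pt_meas (U : Submodule ℝ E) :
    Measurable (fun x : E => nrm (U.starProjection x)) :=
  qb_nrm_meas.comp U.starProjection.continuous.measurable

private theorem qb_ae (hs : SPH) (U : Submodule ℝ E) (hU : U ≠ ⊥) :
    ∀ᵐ x ∂sph E, ‖nrm (U.starProjection x)‖ = 1 := by
  have h : sph E ((Uᗮ : Submodule ℝ E) : Set E) = 0 := by
    refine hs.null _ fun h => hU ?_
    rwa [Submodule.orthogonal_eq_top_iff] at h
  have h2 : ∀ᵐ x ∂sph E, x ∉ ((Uᗮ : Submodule ℝ E) : Set E) := measure_eq_zero_iff_ae_notMem.1 h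
  filter_upwards [h2] with x hx
  refine qb_nrm_norm fun h0 => hx ?_
  rw [Submodule.starProjection_apply_eq_zero_iff] at h0
  exact h0

private theorem qb_int (hs : SPH) (U : Submodule ℝ E) (φ : E → ℝ) (hφ : Measurable φ) (C : ℝ)
    (hC : ∀ y : E, ‖y‖ ≤ 1 → |φ y| ≤ C) :
    Integrable (fun x : E => φ (nrm (U.starProjection x))) (sph E) := by
  have := hs.prob (E := E)
  refine Integrable.of_bound (hφ.comp (qb_pt_meas U)).aestronglyMeasurable C
    (Eventually.of_forall fun x => ?_)
  exact hC _ (qb_nrm_norm_le _)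

private theorem qb_inner_int (hs : SPH) (U : Submodule ℝ E) (a b : E) (p q : ℕ) :
    Integrable (fun x : E => ⟪a, nrm (U.starProjection x)⟫ ^ p *
      ⟪b, nrm (U.starProjection x)⟫ ^ q) (sph E) := by
  refine qb_int hs U (fun y => ⟪a, y⟫ ^ p * ⟪b, y⟫ ^ q) ?_ (‖a‖ ^ p * ‖b‖ ^ q) fun y hy => ?_
  · exact (((continuous_const.inner continuous_id).pow p).mul
      ((continuous_const.inner continuous_id).pow q)).measurable
  · rw [abs_mul, abs_pow, abs_pow]
    have h1 : |⟪a, y⟫| ≤ ‖a‖ := (abs_real_inner_le_norm a y).trans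
      (mul_le_of_le_one_right (norm_nonneg _) hy)
    have h2 : |⟪b, y⟫| ≤ ‖b‖ := (abs_real_inner_le_norm b y).trans
      (mul_le_of_le_one_right (norm_nonneg _) hy)
    gcongr

/-- invariance of `mS U` under reflections along vectors of `U` -/
private theorem qb_refl (hs : SPH) (U : Submodule ℝ E) (u : E) (hu : u ∈ U) (φ : E → ℝ) :
    mS U (fun x => φ ((ℝ ∙ u)ᗮ.reflection x)) = mS U φ := by
  set T := (ℝ ∙ u)ᗮ.reflection with hT
  have hTx : ∀ x, T x = x - 2 • (ℝ ∙ u).starProjection x := by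
    intro x
    rw [hT, Submodule.reflection_orthogonal_apply, Submodule.reflection_apply]
    abel
  have hcomm : ∀ x, U.starProjection (T x) = T (U.starProjection x) := by
    intro x
    rw [hTx, hTx, map_sub, map_nsmul, Submodule.starProjection_singleton,
      Submodule.starProjection_singleton, map_smul,
      Submodule.starProjection_eq_self_iff.2 hu]
    have : ⟪u, U.starProjection x⟫ = ⟪u, x⟫ := by
      rw [← Submodule.inner_starProjection_left_eq_right, Submodule.starProjection_eq_self_iff.2 hu]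
    rw [this]
  unfold mS
  have hmap : (sph E).map T = sph E := hs.iso T
  have e1 : ∫ x, φ (nrm (U.starProjection x)) ∂sph E =
      ∫ x, φ (nrm (U.starProjection (T x))) ∂sph E := by
    conv_lhs => rw [← hmap]
    exact MeasurableEmbedding.integral_map (T.toHomeomorph.measurableEmbedding) _
  rw [e1]
  refine integral_congr_ae (Eventually.of_forall fun x => ?_)
  simp only
  rw [hcomm, qb_nrm_iso]

private theorem qb_mS_proj (U : Submodule ℝ E) (a b : E) (p q : ℕ) :
    mS U (fun x => ⟪a, x⟫ ^ p * ⟪b, x⟫ ^ q) =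
      mS U (fun x => ⟪U.starProjection a, x⟫ ^ p * ⟪U.starProjection b, x⟫ ^ q) := by
  unfold mS
  refine integral_congr_ae (Eventually.of_forall fun x => ?_)
  simp only
  have hm : nrm (U.starProjection x) ∈ U :=
    qb_nrm_mem U (Submodule.starProjection_apply_mem U x)
  have h : ∀ c : E, ⟪U.starProjection c, nrm (U.starProjection x)⟫ =
      ⟪c, nrm (U.starProjection x)⟫ := by
    intro c
    rw [Submodule.inner_starProjection_left_eq_right, Submodule.starProjection_eq_self_iff.2 hm]
  rw [h a, h b]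

private theorem qb_four_eq (hs : SPH) (U : Submodule ℝ E) (a b : E) (ha : a ∈ U) (hb : b ∈ U)
    (hab : ‖a‖ = ‖b‖) :
    mS U (fun x => ⟪a, x⟫ ^ 4) = mS U (fun x => ⟪b, x⟫ ^ 4) := by
  have h := qb_refl hs U (a - b) (U.sub_mem ha hb) (fun x => ⟪b, x⟫ ^ 4)
  rw [← h]
  unfold mS
  refine integral_congr_ae (Eventually.of_forall fun x => ?_)
  simp only
  congr 1
  set T := (ℝ ∙ (a - b))ᗮ.reflection with hT
  have hTa : T a = b := Submodule.reflection_sub hab
  rw [← hTa, T.inner_map_map]

/-- the fourth moment is a multiple of the fourth power of the norm -/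
private theorem qb_four (hs : SPH) (U : Submodule ℝ E) (hU : U ≠ ⊥) :
    ∃ K : ℝ, ∀ a : E, mS U (fun x => ⟪a, x⟫ ^ 4) = K * ‖U.starProjection a‖ ^ 4 := by
  obtain ⟨e, heU, he0⟩ := Submodule.exists_mem_ne_zero_of_ne_bot hU
  set e1 : E := nrm e with he1
  have h1 : ‖e1‖ = 1 := qb_nrm_norm he0
  have h1U : e1 ∈ U := qb_nrm_mem U heU
  refine ⟨mS U (fun x => ⟪e1, x⟫ ^ 4), fun a => ?_⟩
  have hp : mS U (fun x => ⟪a, x⟫ ^ 4) = mS U (fun x => ⟪U.starProjection a, x⟫ ^ 4) := by
    have := qb_mS_proj U a a 4 0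
    simpa using this
  rw [hp]
  set a' := U.starProjection a with ha'
  have ha'U : a' ∈ U := Submodule.starProjection_apply_mem U a
  have h2 := qb_four_eq hs U a' (‖a'‖ • e1) ha'U (U.smul_mem _ h1U) (by
    rw [norm_smul, norm_norm, h1, mul_one])
  rw [h2]
  unfold mS
  rw [← integral_mul_const]
  refine integral_congr_ae (Eventually.of_forall fun x => ?_)
  simp only
  rw [real_inner_smul_left, mul_pow, mul_comm]

/-- mixed fourth moments -/
private theorem qb_mix (hs : SPH) (U : Submodule ℝ E) {K : ℝ}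
    (hK : ∀ a : E, mS U (fun x => ⟪a, x⟫ ^ 4) = K * ‖U.starProjection a‖ ^ 4) (a b : E) :
    mS U (fun x => ⟪a, x⟫ ^ 2 * ⟪b, x⟫ ^ 2) =
      K / 3 * (‖U.starProjection a‖ ^ 2 * ‖U.starProjection b‖ ^ 2 +
        2 * ⟪U.starProjection a, U.starProjection b⟫ ^ 2) := by
  have hi : ∀ c : E, Integrable (fun x : E => ⟪c, nrm (U.starProjection x)⟫ ^ 4) (sph E) := by
    intro c
    simpa using qb_inner_int hs U c c 4 0
  have e : ∀ x : E, ⟪a, x⟫ ^ 2 * ⟪b, x⟫ ^ 2 =
      (1 / 12) * (⟪a + b, x⟫ ^ 4 + ⟪a - b, x⟫ ^ 4 - 2 * ⟪a, x⟫ ^ 4 - 2 * ⟪b, x⟫ ^ 4) := by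
    intro x
    rw [inner_add_left, inner_sub_left]
    ring
  have e2 : mS U (fun x => ⟪a, x⟫ ^ 2 * ⟪b, x⟫ ^ 2) =
      (1 / 12) * (mS U (fun x => ⟪a + b, x⟫ ^ 4) + mS U (fun x => ⟪a - b, x⟫ ^ 4) -
        2 * mS U (fun x => ⟪a, x⟫ ^ 4) - 2 * mS U (fun x => ⟪b, x⟫ ^ 4)) := by
    unfold mS
    simp only [e]
    rw [integral_const_mul, integral_sub, integral_sub, integral_add, integral_const_mul,
      integral_const_mul]
    · exact hi _
    · exact hi _
    · exact (hi _).add (hi _)
    · exact (hi _).const_mul 2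
    · exact ((hi _).add (hi _)).sub ((hi _).const_mul 2)
    · exact (hi _).const_mul 2
  rw [e2, hK, hK, hK, hK, map_add, map_sub]
  set A := U.starProjection a
  set B := U.starProjection b
  have n1 : ‖A + B‖ ^ 4 = (‖A‖ ^ 2 + 2 * ⟪A, B⟫ + ‖B‖ ^ 2) ^ 2 := by
    rw [← norm_add_sq_real]; ring
  have n2 : ‖A - B‖ ^ 4 = (‖A‖ ^ 2 - 2 * ⟪A, B⟫ + ‖B‖ ^ 2) ^ 2 := by
    rw [← norm_sub_sq_real]; ring
  rw [n1, n2]
  ring

private theorem qb_basis_sum (W : Submodule ℝ E) (x : E) :
    ∑ l, ⟪((stdOrthonormalBasis ℝ W l : W) : E), x⟫ ^ 2 = ‖W.starProjection x‖ ^ 2 := by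
  have h := (stdOrthonormalBasis ℝ W).sum_sq_norm_inner_right (W.orthogonalProjectionOnto x)
  have hn : ‖W.orthogonalProjectionOnto x‖ = ‖W.starProjection x‖ := by
    rw [Submodule.starProjection_apply]; rfl
  rw [hn] at h
  rw [← h]
  refine Finset.sum_congr rfl fun l _ => ?_
  rw [Real.norm_eq_abs, sq_abs]
  congr 1
  rw [Submodule.coe_inner, ← Submodule.starProjection_apply,
    ← Submodule.inner_starProjection_left_eq_right, Submodule.starProjection_eq_self_iff.2
      (Subtype.mem _)]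

private theorem qb_K (hs : SPH) (U : Submodule ℝ E) (k : ℕ) (hk : 1 ≤ k) (hUk : finrank ℝ U = k)
    {K : ℝ} (hK : ∀ a : E, mS U (fun x => ⟪a, x⟫ ^ 4) = K * ‖U.starProjection a‖ ^ 4) :
    K / 3 = 1 / (k * (k + 2)) := by
  have := hs.prob (E := E)
  have hU : U ≠ ⊥ := by
    rintro rfl
    rw [finrank_bot] at hUk
    omega
  have h1 : ∫ x, (∑ l, ⟪((stdOrthonormalBasis ℝ U l : U) : E), nrm (U.starProjection x)⟫ ^ 2) ^ 2
      ∂sph E = 1 := by
    have : ∀ᵐ x ∂sph E,
        (∑ l, ⟪((stdOrthonormalBasis ℝ U l : U) : E), nrm (U.starProjection x)⟫ ^ 2) ^ 2 = 1 := by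
      filter_upwards [qb_ae hs U hU] with x hx
      rw [qb_basis_sum, Submodule.starProjection_eq_self_iff.2
        (qb_nrm_mem U (Submodule.starProjection_apply_mem U x)), hx]
      norm_num
    rw [integral_congr_ae this]
    simp
  have h2 : ∫ x, (∑ l, ⟪((stdOrthonormalBasis ℝ U l : U) : E), nrm (U.starProjection x)⟫ ^ 2) ^ 2
      ∂sph E = ∑ l, ∑ l', mS U (fun x => ⟪((stdOrthonormalBasis ℝ U l : U) : E), x⟫ ^ 2 *
        ⟪((stdOrthonormalBasis ℝ U l' : U) : E), x⟫ ^ 2) := by
    have e : ∀ x : E,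
        (∑ l, ⟪((stdOrthonormalBasis ℝ U l : U) : E), nrm (U.starProjection x)⟫ ^ 2) ^ 2 =
        ∑ l, ∑ l', ⟪((stdOrthonormalBasis ℝ U l : U) : E), nrm (U.starProjection x)⟫ ^ 2 *
          ⟪((stdOrthonormalBasis ℝ U l' : U) : E), nrm (U.starProjection x)⟫ ^ 2 := by
      intro x
      rw [sq, Finset.sum_mul_sum]
    simp only [e]
    rw [integral_finset_sum _ (fun l _ => integrable_finset_sum _ (fun l' _ =>
      qb_inner_int hs U _ _ 2 2))]
    refine Finset.sum_congr rfl fun l _ => ?_
    rw [integral_finset_sum _ (fun l' _ => qb_inner_int hs U _ _ 2 2)]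
    rfl
  rw [h1] at h2
  have h3 : ∀ l l', mS U (fun x => ⟪((stdOrthonormalBasis ℝ U l : U) : E), x⟫ ^ 2 *
        ⟪((stdOrthonormalBasis ℝ U l' : U) : E), x⟫ ^ 2) =
      K / 3 * (1 + 2 * if l = l' then 1 else 0) := by
    intro l l'
    rw [qb_mix hs U hK, Submodule.starProjection_eq_self_iff.2 (Subtype.mem _),
      Submodule.starProjection_eq_self_iff.2 (Subtype.mem _)]
    have hn : ∀ m, ‖((stdOrthonormalBasis ℝ U m : U) : E)‖ = 1 := by
      intro m
      exact (stdOrthonormalBasis ℝ U).orthonormal.1 m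
    have hin : ⟪((stdOrthonormalBasis ℝ U l : U) : E), ((stdOrthonormalBasis ℝ U l' : U) : E)⟫ =
        if l = l' then 1 else 0 := by
      rw [← Submodule.coe_inner]
      exact orthonormal_iff_ite.1 (stdOrthonormalBasis ℝ U).orthonormal l l'
    rw [hn, hn, hin]
    split_ifs <;> norm_num
  simp only [h3] at h2
  rw [hUk] at h2
  simp only [← Finset.mul_sum, Finset.sum_add_distrib, Finset.sum_const, Finset.card_univ,
    Fintype.card_fin, Finset.sum_ite_eq, Finset.mem_univ, if_true, nsmul_eq_mul, mul_one] at h2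
  have hk0 : (0 : ℝ) < k := by exact_mod_cast hk
  field_simp
  nlinarith [h2]

private theorem qb_sub_int (hs : SPH) (U W : Submodule ℝ E) (p : ℕ) :
    Integrable (fun x : E => ‖W.starProjection (nrm (U.starProjection x))‖ ^ p) (sph E) := by
  refine qb_int hs U (fun y => ‖W.starProjection y‖ ^ p) ?_ 1 fun y hy => ?_
  · exact ((W.starProjection.continuous.norm).pow p).measurable
  · rw [abs_pow, abs_norm]
    exact pow_le_one₀ (norm_nonneg _) ((Submodule.norm_starProjection_apply_le W y).trans hy)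

/-- second moment of a projection -/
private theorem qb_second (hs : SPH) (U W : Submodule ℝ E) (k : ℕ)
    (h2 : ∀ w : E, mS U (fun x => ⟪w, x⟫ ^ 2) = ‖U.starProjection w‖ ^ 2 / k) :
    mS U (fun x => ‖W.starProjection x‖ ^ 2) =
      (∑ l, ‖U.starProjection ((stdOrthonormalBasis ℝ W l : W) : E)‖ ^ 2) / k := by
  have e : mS U (fun x => ‖W.starProjection x‖ ^ 2) =
      ∑ l, mS U (fun x => ⟪((stdOrthonormalBasis ℝ W l : W) : E), x⟫ ^ 2) := by
    unfold mS
    simp only [← qb_basis_sum]
    rw [integral_finset_sum _ (fun l _ => by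
      simpa using qb_inner_int hs U ((stdOrthonormalBasis ℝ W l : W) : E) 0 2 0)]
  rw [e, Finset.sum_div]
  exact Finset.sum_congr rfl fun l _ => h2 _

/-- fourth moment of a projection -/
private theorem qb_fourth (hs : SPH) (U W : Submodule ℝ E) (k : ℕ) (hk : 1 ≤ k)
    (hUk : finrank ℝ U = k) :
    mS U (fun x => ‖W.starProjection x‖ ^ 4) ≤
      1 / (k * (k + 2)) *
        ((∑ l, ‖U.starProjection ((stdOrthonormalBasis ℝ W l : W) : E)‖ ^ 2) ^ 2 +
          2 * ∑ l, ‖U.starProjection ((stdOrthonormalBasis ℝ W l : W) : E)‖ ^ 2) := by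
  have hU : U ≠ ⊥ := by
    rintro rfl
    rw [finrank_bot] at hUk
    omega
  obtain ⟨K, hK⟩ := qb_four hs U hU
  have hK3 := qb_K hs U k hk hUk hK
  set f : Fin (finrank ℝ W) → E := fun l => ((stdOrthonormalBasis ℝ W l : W) : E) with hf
  have e : mS U (fun x => ‖W.starProjection x‖ ^ 4) =
      ∑ l, ∑ m, mS U (fun x => ⟪f l, x⟫ ^ 2 * ⟪f m, x⟫ ^ 2) := by
    unfold mS
    have e1 : ∀ x : E, ‖W.starProjection (nrm (U.starProjection x))‖ ^ 4 =
        ∑ l, ∑ m, ⟪f l, nrm (U.starProjection x)⟫ ^ 2 * ⟪f m, nrm (U.starProjection x)⟫ ^ 2 := by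
      intro x
      have : ‖W.starProjection (nrm (U.starProjection x))‖ ^ 4 =
          (‖W.starProjection (nrm (U.starProjection x))‖ ^ 2) ^ 2 := by ring
      rw [this, ← qb_basis_sum, sq, Finset.sum_mul_sum]
    simp only [e1]
    rw [integral_finset_sum _ (fun l _ => integrable_finset_sum _ (fun l' _ =>
      qb_inner_int hs U _ _ 2 2))]
    refine Finset.sum_congr rfl fun l _ => ?_
    rw [integral_finset_sum _ (fun l' _ => qb_inner_int hs U _ _ 2 2)]
  rw [e]
  simp only [qb_mix hs U hK, hK3]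
  have hkk : (0 : ℝ) ≤ 1 / (k * (k + 2)) := by positivity
  simp only [← Finset.mul_sum]
  refine mul_le_mul_of_nonneg_left ?_ hkk
  simp only [Finset.sum_add_distrib, ← Finset.mul_sum]
  rw [sq (∑ l, ‖U.starProjection (f l)‖ ^ 2), ← Finset.sum_mul]
  refine add_le_add le_rfl (mul_le_mul_of_nonneg_left ?_ (by norm_num))
  refine Finset.sum_le_sum fun l _ => ?_
  have h3 : ∑ m, ⟪U.starProjection (f l), U.starProjection (f m)⟫ ^ 2 =
      ∑ m, ⟪f m, U.starProjection (f l)⟫ ^ 2 := by
    refine Finset.sum_congr rfl fun m _ => ?_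
    rw [← Submodule.inner_starProjection_left_eq_right,
      Submodule.starProjection_eq_self_iff.2 (Submodule.starProjection_apply_mem U (f l)),
      real_inner_comm]
  rw [h3, hf, qb_basis_sum W]
  have := Submodule.norm_starProjection_apply_le W (U.starProjection (f l))
  have h0 := norm_nonneg (W.starProjection (U.starProjection (f l)))
  exact pow_le_pow_left₀ h0 this 2

/-- the elementary inequality -/
private theorem qb_elem (k j t : ℝ) (hj : 0 ≤ j) (hjk : j < k) (ht : (k - j) / k ≤ t) :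
    (k - j) / k * Real.sqrt ((k + 2) / (k - j + 2)) ≤
      t * Real.sqrt ((k + 2) / (k * t + 2)) := by
  have hk : 0 < k := hj.trans_lt hjk
  have hkj : 0 < k - j := by linarith
  have ht0 : 0 < (k - j) / k := by positivity
  have ht1 : 0 < t := ht0.trans_le ht
  refine abs_le_of_sq_le_sq' ?_ (by positivity) |>.2
  rw [mul_pow, mul_pow, Real.sq_sqrt (by positivity), Real.sq_sqrt (by positivity)]
  set t0 := (k - j) / k with ht0'
  have hkt : k - j = k * t0 := by rw [ht0']; field_simp
  clear_value t0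
  rw [hkt, ← mul_div_assoc, ← mul_div_assoc, div_le_div_iff₀ (by positivity) (by positivity)]
  have h1 : 0 ≤ (k * t * t0 * (t - t0) + 2 * (t - t0) * (t + t0)) * (k + 2) := by
    have : 0 ≤ t - t0 := by linarith
    positivity
  nlinarith [h1]

/-- lower bound for the mean of `‖P_W x‖` on the sphere of `U` -/
private theorem qb_low (hs : SPH) (U W : Submodule ℝ E) (j k : ℕ) (hjk : j < k)
    (hUk : finrank ℝ U = k)
    (h2 : ∀ w : E, mS U (fun x => ⟪w, x⟫ ^ 2) = ‖U.starProjection w‖ ^ 2 / k)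
    (hW : finrank ℝ Wᗮ ≤ j) :
    ((k : ℝ) - j) / k * Real.sqrt ((k + 2) / (k - j + 2)) ≤
      mS U (fun x => ‖W.starProjection x‖) := by
  have := hs.prob (E := E)
  have hk : 1 ≤ k := by omega
  have hk0 : (0 : ℝ) < k := by exact_mod_cast hk
  have hjk' : (j : ℝ) < k := by exact_mod_cast hjk
  have hU : U ≠ ⊥ := by
    rintro rfl
    rw [finrank_bot] at hUk
    omega
  set s : ℝ := ∑ l, ‖U.starProjection ((stdOrthonormalBasis ℝ W l : W) : E)‖ ^ 2 with hs'
  have m2 : mS U (fun x => ‖W.starProjection x‖ ^ 2) = s / k := qb_second hs U W k h2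
  have m4 : mS U (fun x => ‖W.starProjection x‖ ^ 4) ≤ 1 / (k * (k + 2)) * (s ^ 2 + 2 * s) :=
    qb_fourth hs U W k hk hUk
  set t : ℝ := s / k with ht
  -- lower bound of t
  have htl : ((k : ℝ) - j) / k ≤ t := by
    have h3 : mS U (fun x => ‖Wᗮ.starProjection x‖ ^ 2) ≤ j / k := by
      rw [qb_second hs U Wᗮ k h2]
      refine div_le_div_of_nonneg_right ?_ hk0.le
      calc ∑ l, ‖U.starProjection ((stdOrthonormalBasis ℝ Wᗮ l : Wᗮ) : E)‖ ^ 2
          ≤ ∑ _l : Fin (finrank ℝ Wᗮ), (1 : ℝ) := by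
            refine Finset.sum_le_sum fun l _ => ?_
            have h1 : ‖((stdOrthonormalBasis ℝ Wᗮ l : Wᗮ) : E)‖ = 1 :=
              (stdOrthonormalBasis ℝ Wᗮ).orthonormal.1 l
            have h4 := Submodule.norm_starProjection_apply_le U
              ((stdOrthonormalBasis ℝ Wᗮ l : Wᗮ) : E)
            rw [h1] at h4
            exact pow_le_one₀ (norm_nonneg _) h4
        _ = (finrank ℝ Wᗮ : ℝ) := by simp
        _ ≤ j := by exact_mod_cast hW
    have h4 : mS U (fun x => ‖W.starProjection x‖ ^ 2) +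
        mS U (fun x => ‖Wᗮ.starProjection x‖ ^ 2) = 1 := by
      unfold mS
      rw [← integral_add (qb_sub_int hs U W 2) (qb_sub_int hs U Wᗮ 2)]
      have : ∀ᵐ x ∂sph E, ‖W.starProjection (nrm (U.starProjection x))‖ ^ 2 +
          ‖Wᗮ.starProjection (nrm (U.starProjection x))‖ ^ 2 = 1 := by
        filter_upwards [qb_ae hs U hU] with x hx
        rw [← Submodule.norm_sq_eq_add_norm_sq_starProjection, hx]
        norm_num
      rw [integral_congr_ae this]
      simp
    rw [m2] at h4
    have h5 : ((k : ℝ) - j) / k = 1 - j / k := by field_simp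
    rw [h5]
    linarith
  have ht0 : 0 < t := lt_of_lt_of_le (by
    have : 0 < (k : ℝ) - j := by linarith
    positivity) htl
  have hsk : s = k * t := by rw [ht]; field_simp
  have m4' : mS U (fun x => ‖W.starProjection x‖ ^ 4) ≤ t * (k * t + 2) / (k + 2) := by
    refine m4.trans (le_of_eq ?_)
    rw [hsk]
    field_simp
  -- the parameter
  set c : ℝ := Real.sqrt ((k + 2) / (k * t + 2)) with hc
  have hc2 : c ^ 2 = (k + 2) / (k * t + 2) := Real.sq_sqrt (by positivity)
  have hc0 : 0 ≤ c := Real.sqrt_nonneg _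
  refine (qb_elem k j t (Nat.cast_nonneg j) hjk' htl).trans ?_
  have i1 : Integrable (fun x : E => ‖W.starProjection (nrm (U.starProjection x))‖) (sph E) := by
    simpa using qb_sub_int hs U W 1
  have hmain : (3 / 2 * c) * mS U (fun x => ‖W.starProjection x‖ ^ 2) -
      (1 / 2 * c ^ 3) * mS U (fun x => ‖W.starProjection x‖ ^ 4) ≤
      mS U (fun x => ‖W.starProjection x‖) := by
    unfold mS
    rw [← integral_const_mul, ← integral_const_mul, ← integral_sub
      ((qb_sub_int hs U W 2).const_mul _) ((qb_sub_int hs U W 4).const_mul _)]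
    refine integral_mono (((qb_sub_int hs U W 2).const_mul _).sub
      ((qb_sub_int hs U W 4).const_mul _)) i1 fun x => ?_
    simp only
    set r := ‖W.starProjection (nrm (U.starProjection x))‖
    have hr : 0 ≤ r := norm_nonneg _
    have : 0 ≤ r * (1 - c * r) ^ 2 * (2 + c * r) := by positivity
    nlinarith [this]
  refine le_trans ?_ hmain
  rw [m2]
  have h7 : (1 / 2 * c ^ 3) * mS U (fun x => ‖W.starProjection x‖ ^ 4) ≤
      (1 / 2 * c ^ 3) * (t * (k * t + 2) / (k + 2)) :=
    mul_le_mul_of_nonneg_left m4' (by positivity)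
  have h8 : (1 / 2 * c ^ 3) * (t * (k * t + 2) / (k + 2)) = 1 / 2 * c * t := by
    have : c ^ 3 = c * c ^ 2 := by ring
    rw [this, hc2]
    field_simp
  have h9 : 3 / 2 * c * t - 1 / 2 * c * t = t * c := by ring
  linarith

end

/-- row QB2 -/
theorem qb2 (gwa : GWAStmt) (gwb : GWB) (hs : SPH) (spi : SPIStmt) (ppm : PPMStmt)
    (bkk : BKKStmt) (zfu : ZFU) : QB2Stmt := by
  intro E _ _ _ _ _ j k hjk hn g f hg hf hstep x hx
  have := hs.prob (E := E)
  have hk0 : (0 : ℝ) < k := by
    have : 0 < k := by omega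
    exact_mod_cast this
  have hjk' : (j : ℝ) < k := by exact_mod_cast hjk
  have hkj : 0 < (k : ℝ) - j := by linarith
  haveI : Nontrivial E := by
    apply nontrivial_of_finrank_pos (R := ℝ)
    omega
  have hPj : IsProbabilityMeasure (sphP E j) := by unfold sphP; infer_instance
  have hPj1 : IsProbabilityMeasure (sphP E (j + 1)) := by unfold sphP; infer_instance
  obtain ⟨b, hb0, hb⟩ := bkk E k (by omega) (by omega)
  set c : ℝ := ((k : ℝ) - j) / k * Real.sqrt ((k + 2) / (k - j + 2)) with hc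
  have hc0 : 0 < c := by
    have h1 : 0 < (k : ℝ) - j + 2 := by linarith
    have : 0 < Real.sqrt (((k : ℝ) + 2) / (k - j + 2)) := Real.sqrt_pos.2 (by positivity)
    positivity
  -- the mean of the norm of the projections
  have key : ∀ w : Fin j → E, c ≤ ∫ y, ‖pp w y‖ * f y ∂sph E := by
    intro w
    set φ : E → ℝ := fun y => min ‖pp w y‖ 1 with hφ
    have hppc : Continuous (fun y : E => pp w y) := by
      unfold pp; exact (perp w).starProjection.continuous
    have hφm : Measurable φ := (hppc.norm.min continuous_const).measurable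
    have hφT : Tst φ := ⟨hφm, 1, fun y => by
      rw [abs_of_nonneg (le_min (norm_nonneg _) zero_le_one)]; exact min_le_right _ _⟩
    have hφ1 : ∀ y : E, ‖y‖ ≤ 1 → φ y = ‖pp w y‖ := by
      intro y hy
      exact min_eq_left ((Submodule.norm_starProjection_apply_le (perp w) y).trans hy)
    have h1 := hstep φ hφT
    have hZ : 0 < ZZ (j + 1) g := zfu.pos (j + 1) g (by omega) hg
    -- lower bound for mS
    have h2 : ∀ᵐ v ∂sphP E (j + 1), c ≤ mS (perp v) φ := by
      filter_upwards [spi (E := E) (j + 1) (by omega)] with v hv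
      have hfr : finrank ℝ (perp v) = k := by
        have h3 := (Submodule.span ℝ (Set.range v)).finrank_add_finrank_orthogonal
        have h4 : finrank ℝ (Submodule.span ℝ (Set.range v)) = j + 1 := by
          rw [finrank_span_eq_card hv.1]; simp
        unfold perp
        omega
      have h5 : finrank ℝ (perp w)ᗮ ≤ j := by
        unfold perp
        rw [Submodule.orthogonal_orthogonal]
        exact (finrank_range_le_card w).trans (by simp)
      have h6 := qb_low hs (perp v) (perp w) j k hjk hfr (fun u => (hb (perp v) hfr u).2) h5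
      refine h6.trans (le_of_eq ?_)
      unfold mS
      refine integral_congr_ae (Eventually.of_forall fun y => ?_)
      simp only
      rw [hφ1 _ (qb_nrm_norm_le _)]
      rfl
    -- integrability of the right side
    have hmeas : Measurable (fun v : Fin (j + 1) → E => mS (perp v) φ) := by
      have hm : Measurable (fun q : (Fin (j + 1) → E) × E => φ (nrm (pp q.1 q.2))) :=
        hφm.comp (qb_nrm_meas.comp (ppm (E := E) (j + 1)))
      exact (hm.stronglyMeasurable.integral_prod_right' (ν := sph E)).measurable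
    have hmSb : ∀ v : Fin (j + 1) → E, ‖mS (perp v) φ‖ ≤ 1 := by
      intro v
      unfold mS
      refine (norm_integral_le_integral_norm _).trans ?_
      have hii : Integrable (fun y : E => ‖φ (nrm ((perp v).starProjection y))‖) (sph E) :=
        (qb_int hs (perp v) φ hφm 1 (fun y _ => by
          rw [abs_of_nonneg (le_min (norm_nonneg _) zero_le_one)]; exact min_le_right _ _)).norm
      calc ∫ y, ‖φ (nrm ((perp v).starProjection y))‖ ∂sph E ≤ ∫ _y, (1 : ℝ) ∂sph E := by
            refine integral_mono hii (integrable_const _) fun y => ?_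
            simp only
            rw [Real.norm_eq_abs, abs_of_nonneg (le_min (norm_nonneg _) zero_le_one)]
            exact min_le_right _ _
        _ = 1 := by simp
    have hgi := zfu.int (j + 1) g hg
    have hri : Integrable (fun v : Fin (j + 1) → E => (gw v * ∏ l, g (v l)) * mS (perp v) φ)
        (sphP E (j + 1)) := hgi.mul_bdd (c := 1) hmeas.aestronglyMeasurable
          (Eventually.of_forall hmSb)
    have h7 : c * ZZ (j + 1) g ≤ ZZ (j + 1) g * ∫ y, φ y * f y ∂sph E := by
      rw [h1]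
      unfold ZZ
      rw [← integral_const_mul]
      refine integral_mono_ae (hgi.const_mul c) hri ?_
      filter_upwards [h2] with v hv
      have h8 : 0 ≤ gw v * ∏ l, g (v l) :=
        mul_nonneg (Real.sqrt_nonneg _) (Finset.prod_nonneg fun l _ => hg.nonneg _)
      rw [mul_comm c]
      exact mul_le_mul_of_nonneg_left hv h8
    have h9 : c ≤ ∫ y, φ y * f y ∂sph E := by
      rw [mul_comm] at h7
      exact le_of_mul_le_mul_left h7 hZ
    refine h9.trans (le_of_eq ?_)
    refine integral_congr_ae ?_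
    filter_upwards [hs.norm (E := E)] with y hy
    rw [hφ1 y hy.le]
  -- Fubini
  have hnormP : ∀ᵐ v ∂sphP E j, ∀ l, ‖v l‖ = 1 := by
    rw [ae_all_iff]
    intro l
    exact (Measure.quasiMeasurePreserving_eval (fun _ : Fin j => sph E) l).ae (hs.norm (E := E))
  obtain ⟨Cf, hCf⟩ := hf.bdd
  have hCf0 : 0 ≤ Cf := (hf.nonneg 0).trans (hCf 0)
  have hppm : Measurable (fun q : E × (Fin j → E) => ‖pp q.2 q.1‖) :=
    ((ppm (E := E) j).comp measurable_swap).norm
  have hgwm : Measurable (fun v : Fin j → E => gw v) := (gwb.cont (i := j)).measurable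
  have hprm : Measurable (fun v : Fin j → E => ∏ l, f (v l)) :=
    Finset.measurable_prod _ (fun l _ => hf.meas.comp (measurable_pi_apply l))
  have hH : Integrable (fun q : E × (Fin j → E) =>
      (‖pp q.2 q.1‖ * f q.1) * (gw q.2 * ∏ l, f (q.2 l))) ((sph E).prod (sphP E j)) := by
    have hm : AEStronglyMeasurable (fun q : E × (Fin j → E) =>
      (‖pp q.2 q.1‖ * f q.1) * (gw q.2 * ∏ l, f (q.2 l))) ((sph E).prod (sphP E j)) :=
      ((hppm.mul (hf.meas.comp measurable_fst)).mul
        ((hgwm.mul hprm).comp measurable_snd)).aestronglyMeasurable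
    refine Integrable.of_bound hm ((1 * Cf) * (1 * Cf ^ j)) ?_
    have a1 : ∀ᵐ q ∂(sph E).prod (sphP E j), ‖q.1‖ = 1 :=
      Measure.quasiMeasurePreserving_fst.ae (hs.norm (E := E))
    have a2 : ∀ᵐ q ∂(sph E).prod (sphP E j), ∀ l, ‖q.2 l‖ = 1 :=
      Measure.quasiMeasurePreserving_snd.ae hnormP
    filter_upwards [a1, a2] with q h1 h2
    have b1 : ‖pp q.2 q.1‖ ≤ 1 :=
      (Submodule.norm_starProjection_apply_le (perp q.2) q.1).trans h1.le
    have b2 : gw q.2 ≤ 1 := (gwb.le q.2).trans (by simp [h2])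
    have b3 : ∏ l, f (q.2 l) ≤ Cf ^ j := by
      calc ∏ l, f (q.2 l) ≤ ∏ _l : Fin j, Cf :=
            Finset.prod_le_prod (fun l _ => hf.nonneg _) (fun l _ => hCf _)
        _ = Cf ^ j := by simp
    have b0 : 0 ≤ ∏ l, f (q.2 l) := Finset.prod_nonneg fun l _ => hf.nonneg _
    have b4 : 0 ≤ gw q.2 := Real.sqrt_nonneg _
    rw [Real.norm_eq_abs, abs_of_nonneg (by
      have := hf.nonneg q.1
      positivity)]
    have b5 := hCf q.1
    have b6 := hf.nonneg q.1
    gcongr
  have hfub : ZZ (j + 1) f =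
      ∫ v, (∫ y, ‖pp v y‖ * f y ∂sph E) * (gw v * ∏ l, f (v l)) ∂sphP E j := by
    rw [zfu.succ j f hf]
    have e1 : ∫ y, f y * YY j f y ∂sph E =
        ∫ y, ∫ v, (‖pp v y‖ * f y) * (gw v * ∏ l, f (v l)) ∂sphP E j ∂sph E := by
      refine integral_congr_ae (Eventually.of_forall fun y => ?_)
      simp only [YY]
      rw [← integral_const_mul]
      refine integral_congr_ae (Eventually.of_forall fun v => ?_)
      simp only
      rw [(gwa y v).2]
      ring
    rw [e1, integral_integral_swap hH]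
    refine integral_congr_ae (Eventually.of_forall fun v => ?_)
    simp only
    rw [integral_mul_const]
  have hlow : c * ZZ j f ≤ ZZ (j + 1) f := by
    rw [hfub]
    unfold ZZ
    rw [← integral_const_mul]
    refine integral_mono ((zfu.int j f hf).const_mul c) ?_ fun v => ?_
    · have := hH.integral_prod_right
      refine this.congr (Eventually.of_forall fun v => ?_)
      simp only
      rw [integral_mul_const]
    · have h8 : 0 ≤ gw v * ∏ l, f (v l) :=
        mul_nonneg (Real.sqrt_nonneg _) (Finset.prod_nonneg fun l _ => hf.nonneg _)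
      exact mul_le_mul_of_nonneg_right (key v) h8
  have hup := (zfu.nonneg j f x hf).2
  rw [hx, one_mul] at hup
  have hinv : (k : ℝ) / (k - j) * Real.sqrt ((k - j + 2) / (k + 2)) = 1 / c := by
    have h1 : 0 < (k : ℝ) - j + 2 := by linarith
    have h2 : 0 < (k : ℝ) + 2 := by linarith
    have h3 : Real.sqrt (((k : ℝ) - j + 2) / (k + 2)) * Real.sqrt ((k + 2) / (k - j + 2)) = 1 := by
      rw [← Real.sqrt_mul (by positivity)]
      have : ((k : ℝ) - j + 2) / (k + 2) * ((k + 2) / (k - j + 2)) = 1 := by field_simp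
      rw [this, Real.sqrt_one]
    rw [eq_div_iff hc0.ne', hc]
    calc (k : ℝ) / (k - j) * Real.sqrt ((k - j + 2) / (k + 2)) *
          (((k : ℝ) - j) / k * Real.sqrt ((k + 2) / (k - j + 2)))
        = ((k : ℝ) / (k - j) * ((k - j) / k)) * (Real.sqrt (((k : ℝ) - j + 2) / (k + 2)) *
          Real.sqrt ((k + 2) / (k - j + 2))) := by ring
      _ = 1 := by
        rw [h3, mul_one]
        field_simp
  rw [hinv]
  calc YY j f x ≤ ZZ j f := hup
    _ ≤ 1 / c * ZZ (j + 1) f := by
      rw [div_mul_eq_mul_div, one_mul, le_div_iff₀ hc0, mul_comm]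
      exact hlow

end Pool.Agent.BPH
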