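import Pool.Agent.BPH.Kit

/-!
# Row SPH: facts on the uniform probability measure of the unit sphere
-/

open MeasureTheory Module Set Filter
open scoped RealInnerProductSpace Pointwise Topology ENNReal

namespace Pool.Agent.BPH

section

variable {E : Type} [NormedAddCommGroup E] [InnerProductSpace ℝ E] [FiniteDimensional ℝ E]
  [MeasurableSpace E] [BorelSpace E]

omit [FiniteDimensional ℝ E] [MeasurableSpace E] [BorelSpace E] in
theorem nrm_mem_iff (V : Submodule ℝ E) (x : E) : nrm x ∈ V ↔ x ∈ V := by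
  by_cases hx : x = 0
  · rw [hx, nrm, smul_zero]
  · rw [nrm]
    exact V.smul_mem_iff (inv_ne_zero (norm_ne_zero_iff.mpr hx))

omit [FiniteDimensional ℝ E] [MeasurableSpace E] [BorelSpace E] in
theorem nrm_smul_pos {R : ℝ} (hR : 0 < R) (x : E) : nrm (R • x) = nrm x := by
  rw [nrm, nrm, norm_smul, Real.norm_of_nonneg hR.le, smul_smul]
  congr 1
  rw [mul_inv, mul_assoc, mul_comm ‖x‖⁻¹ R, ← mul_assoc, inv_mul_cancel₀ hR.ne', one_mul]

theorem vol_ball_ne_zero {R : ℝ} (hR : 0 < R) : volume (Metric.ball (0 : E) R) ≠ 0 :=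
  (Metric.measure_ball_pos volume (0 : E) hR).ne'

theorem vol_ball_ne_top (R : ℝ) : volume (Metric.ball (0 : E) R) ≠ ⊤ :=
  measure_ball_lt_top.ne

theorem prob_cond :
    IsProbabilityMeasure (ProbabilityTheory.cond volume (Metric.ball (0 : E) 1)) :=
  ProbabilityTheory.cond_isProbabilityMeasure_of_finite (vol_ball_ne_zero one_pos)
    (vol_ball_ne_top 1)

theorem sph_prob : IsProbabilityMeasure (sph E) := by
  have := prob_cond (E := E)
  exact Measure.isProbabilityMeasure_map measurable_nrm.aemeasurable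

theorem sph_norm [Nontrivial E] : ∀ᵐ x ∂sph E, ‖x‖ = 1 := by
  unfold sph
  rw [ae_map_iff measurable_nrm.aemeasurable
    (measurableSet_eq_fun measurable_norm measurable_const)]
  have h0 : ∀ᵐ x ∂(volume : Measure E), x ≠ 0 :=
    compl_mem_ae_iff.mpr (measure_singleton (0 : E))
  have h1 : ∀ᵐ x ∂(ProbabilityTheory.cond volume (Metric.ball (0 : E) 1)), x ≠ 0 :=
    ProbabilityTheory.cond_absolutelyContinuous.ae_le h0
  filter_upwards [h1] with x hx
  exact norm_nrm hx

theorem sph_iso (T : E ≃ₗᵢ[ℝ] E) : (sph E).map T = sph E := by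
  have hT : Measurable (T : E → E) := T.continuous.measurable
  have hc : (ProbabilityTheory.cond volume (Metric.ball (0 : E) 1)).map T =
      ProbabilityTheory.cond volume (Metric.ball (0 : E) 1) := by
    have h := (T.measurePreserving.restrict_preimage
      (Metric.isOpen_ball (x := (0 : E)) (ε := 1)).measurableSet).map_eq
    have hp : (T : E → E) ⁻¹' Metric.ball (0 : E) 1 = Metric.ball (0 : E) 1 := by
      ext x
      simp
    rw [hp] at h
    unfold ProbabilityTheory.cond
    rw [Measure.map_smul, h]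
  unfold sph
  rw [Measure.map_map hT measurable_nrm]
  have hf : (T : E → E) ∘ nrm = nrm ∘ (T : E → E) := by
    funext x
    simp [nrm_iso]
  rw [hf, ← Measure.map_map measurable_nrm hT, hc]

theorem sph_null (V : Submodule ℝ E) (hV : V ≠ ⊤) : sph E (V : Set E) = 0 := by
  have hm : MeasurableSet (V : Set E) := V.closed_of_finiteDimensional.measurableSet
  unfold sph
  rw [Measure.map_apply measurable_nrm hm]
  have hp : (nrm : E → E) ⁻¹' (V : Set E) = (V : Set E) := by
    ext x
    exact nrm_mem_iff V x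
  rw [hp]
  exact ProbabilityTheory.cond_absolutelyContinuous (Measure.addHaar_submodule volume V hV)

theorem lint_sph {F : E → ℝ≥0∞} (hF : Measurable F) :
    ∫⁻ x, F x ∂sph E =
      (volume (Metric.ball (0 : E) 1))⁻¹ * ∫⁻ y in Metric.ball (0 : E) 1, F (nrm y) := by
  unfold sph
  rw [lintegral_map hF measurable_nrm]
  unfold ProbabilityTheory.cond
  rw [lintegral_smul_measure, smul_eq_mul]

theorem lint_ball {R : ℝ} (hR : 0 < R) {F : E → ℝ≥0∞} (hF : Measurable F) :
    ∫⁻ z in Metric.ball (0 : E) R, F (nrm z) =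
      ENNReal.ofReal (R ^ finrank ℝ E) * ∫⁻ y in Metric.ball (0 : E) 1, F (nrm y) := by
  have hB : ∀ r : ℝ, MeasurableSet (Metric.ball (0 : E) r) :=
    fun r => Metric.isOpen_ball.measurableSet
  have hg : Measurable (Set.indicator (Metric.ball (0 : E) R) (fun z => F (nrm z))) :=
    (hF.comp measurable_nrm).indicator (hB R)
  have hs : Measurable (fun y : E => R • y) := measurable_const_smul R
  have h1 : ∫⁻ y, Set.indicator (Metric.ball (0 : E) R) (fun z => F (nrm z)) (R • y) =
      ∫⁻ y in Metric.ball (0 : E) 1, F (nrm y) := by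
    rw [← lintegral_indicator (hB 1)]
    refine lintegral_congr fun y => ?_
    have hi : R • y ∈ Metric.ball (0 : E) R ↔ y ∈ Metric.ball (0 : E) 1 := by
      rw [mem_ball_zero_iff, mem_ball_zero_iff, norm_smul, Real.norm_of_nonneg hR.le]
      constructor
      · intro h
        by_contra h2
        have := mul_le_mul_of_nonneg_left (not_lt.mp h2) hR.le
        linarith
      · intro h
        have := mul_lt_mul_of_pos_left h hR
        linarith
    by_cases hy : y ∈ Metric.ball (0 : E) 1
    · rw [Set.indicator_of_mem (hi.mpr hy), Set.indicator_of_mem hy, nrm_smul_pos hR]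
    · rw [Set.indicator_of_notMem (fun h => hy (hi.mp h)), Set.indicator_of_notMem hy]
  have h2 : ∫⁻ y, Set.indicator (Metric.ball (0 : E) R) (fun z => F (nrm z)) (R • y) =
      ENNReal.ofReal |(R ^ finrank ℝ E)⁻¹| *
        ∫⁻ z, Set.indicator (Metric.ball (0 : E) R) (fun z => F (nrm z)) z := by
    rw [← lintegral_map hg hs, Measure.map_addHaar_smul volume hR.ne', lintegral_smul_measure,
      smul_eq_mul]
  have hpos : 0 < R ^ finrank ℝ E := pow_pos hR _
  rw [← lintegral_indicator (hB R), ← h1, h2, ← mul_assoc, ← ENNReal.ofReal_mul hpos.le,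
    abs_of_pos (inv_pos.mpr hpos), mul_inv_cancel₀ hpos.ne', ENNReal.ofReal_one, one_mul]

theorem sph_ball (R : ℝ) (hR : 0 < R) (F : E → ℝ≥0∞) (hF : Measurable F) :
    ∫⁻ z in Metric.ball (0 : E) R, F (nrm z) =
      volume (Metric.ball (0 : E) R) * ∫⁻ x, F x ∂sph E := by
  rw [lint_ball hR hF, lint_sph hF, Measure.addHaar_ball_of_pos volume (0 : E) hR, mul_assoc,
    ← mul_assoc (volume (Metric.ball (0 : E) 1)),
    ENNReal.mul_inv_cancel (vol_ball_ne_zero one_pos) (vol_ball_ne_top 1), one_mul]

end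

/-- row SPH -/
theorem sph_facts : SPH where
  prob := sph_prob
  norm := sph_norm
  iso := sph_iso
  null := sph_null
  ball := sph_ball

end Pool.Agent.BPH
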