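import Pool.Agent.BPH.Stmts

/-!
# BPH, row SPI: independent uniform unit vectors are linearly independent
-/

open MeasureTheory Module Set Filter
open scoped RealInnerProductSpace Pointwise Topology ENNReal

namespace Pool.Agent.BPH

theorem spi_aux (sf : SPH) {E : Type} [NormedAddCommGroup E] [InnerProductSpace ℝ E]
    [FiniteDimensional ℝ E] [MeasurableSpace E] [BorelSpace E] (i : ℕ) : i ≤ finrank ℝ E →
    ∀ᵐ v ∂sphP E i, LinearIndependent ℝ v := by
  have hprob : IsProbabilityMeasure (sph E) := sf.prob
  induction i with
  | zero =>
    intro _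
    exact Eventually.of_forall fun v => linearIndependent_empty_type
  | succ i ih =>
    intro h
    have ih' := ih (Nat.le_of_succ_le h)
    have hsp : IsProbabilityMeasure (sphP E i) := by
      unfold sphP
      infer_instance
    have hmp := measurePreserving_piFinSuccAbove (fun _ : Fin (i + 1) => sph E) 0
    have key : ∀ᵐ z ∂((sph E).prod (sphP E i)),
        LinearIndependent ℝ (Fin.cons z.1 z.2 : Fin (i + 1) → E) := by
      have hcont : Continuous (fun z : E × (Fin i → E) => (Fin.cons z.1 z.2 : Fin (i + 1) → E)) := by
        refine continuous_pi fun j => ?_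
        refine Fin.cases ?_ (fun j => ?_) j
        · simpa using continuous_fst
        · exact (continuous_apply j).comp continuous_snd
      have hopen : IsOpen {z : E × (Fin i → E) |
          LinearIndependent ℝ (Fin.cons z.1 z.2 : Fin (i + 1) → E)} :=
        (isOpen_setOfPred_linearIndependent (𝕜 := ℝ) (E := E)).preimage hcont
      rw [ae_iff]
      change ((sph E).prod (sphP E i)) {z : E × (Fin i → E) |
          LinearIndependent ℝ (Fin.cons z.1 z.2 : Fin (i + 1) → E)}ᶜ = 0
      rw [Measure.prod_apply_symm hopen.measurableSet.compl]
      refine (lintegral_congr_ae ?_).trans lintegral_zero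
      filter_upwards [ih'] with y hy
      have hset : (fun x : E => (x, y)) ⁻¹' {z : E × (Fin i → E) |
          LinearIndependent ℝ (Fin.cons z.1 z.2 : Fin (i + 1) → E)}ᶜ =
          (Submodule.span ℝ (Set.range y) : Set E) := by
        ext x
        simp only [mem_preimage, mem_compl_iff, mem_ofPred_eq, linearIndependent_finCons, hy,
          true_and, not_not, SetLike.mem_coe]
      rw [hset]
      refine sf.null _ ?_
      intro htop
      have h1 : finrank ℝ (Submodule.span ℝ (Set.range y)) = i := by
        rw [finrank_span_eq_card hy, Fintype.card_fin]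
      rw [htop, finrank_top] at h1
      omega
    have := hmp.quasiMeasurePreserving.ae key
    filter_upwards [this] with v hv
    have hv' : (Fin.cons ((MeasurableEquiv.piFinSuccAbove (fun _ => E) 0) v).1
        ((MeasurableEquiv.piFinSuccAbove (fun _ => E) 0) v).2 : Fin (i + 1) → E) = v := by
      funext j
      refine Fin.cases ?_ (fun j => ?_) j
      · rfl
      · rfl
    rw [hv'] at hv
    exact hv

theorem spi (sf : SPH) : SPIStmt := by
  intro E _ _ _ _ _ _ i hi
  have hprob : IsProbabilityMeasure (sph E) := sf.prob
  have h1 := spi_aux sf (E := E) i hi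
  have h2 : ∀ᵐ v ∂sphP E i, ∀ l, ‖v l‖ = 1 := by
    rw [ae_all_iff]
    intro l
    exact (measurePreserving_eval (fun _ : Fin i => sph E) l).quasiMeasurePreserving.ae sf.norm
  filter_upwards [h1, h2] with v a b
  exact ⟨a, b⟩

end Pool.Agent.BPH
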