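import Pool.Agent.BPH.Kit

/-!
# (STA) cap smoothing
-/

open MeasureTheory Module Set Filter
open scoped RealInnerProductSpace Pointwise Topology ENNReal

namespace Pool.Agent.BPH

open Pool.Agent.Helper55_PB Pool.Agent.Helper28_PB

namespace StaH

variable {E : Type} [NormedAddCommGroup E] [InnerProductSpace ℝ E] [FiniteDimensional ℝ E]
  [MeasurableSpace E] [BorelSpace E]

variable (E) in
/-- the uniform distribution in the unit ball -/
noncomputable def bt : Measure E := ProbabilityTheory.cond volume (Metric.ball (0 : E) 1)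

theorem vol_ne_zero {R : ℝ} (hR : 0 < R) : volume (Metric.ball (0 : E) R) ≠ 0 :=
  (Metric.measure_ball_pos volume 0 hR).ne'

theorem vol_ne_top (R : ℝ) : volume (Metric.ball (0 : E) R) ≠ ⊤ := measure_ball_lt_top.ne

theorem bt_prob : IsProbabilityMeasure (bt E) := by
  have : IsFiniteMeasure (volume.restrict (Metric.ball (0 : E) 1)) :=
    isFiniteMeasure_restrict.mpr (vol_ne_top 1)
  refine ⟨?_⟩
  unfold bt ProbabilityTheory.cond
  rw [Measure.smul_apply, Measure.restrict_apply MeasurableSet.univ, univ_inter, smul_eq_mul]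
  exact ENNReal.inv_mul_cancel (vol_ne_zero one_pos) (vol_ne_top 1)

theorem bt_norm : ∀ᵐ x ∂bt E, ‖x‖ ≤ 1 := by
  have h : ∀ᵐ x ∂(volume.restrict (Metric.ball (0 : E) 1)), ‖x‖ ≤ 1 := by
    rw [ae_restrict_iff' measurableSet_ball]
    refine Eventually.of_forall (fun x hx => ?_)
    rw [Metric.mem_ball, dist_zero_right] at hx
    exact hx.le
  exact Measure.ae_smul_measure h _

/-- the inner integral of the smoothing -/
theorem lint_inner (sp : SPH) {y : E} (hy : y ≠ 0) {d : ℝ} (hd : 0 < d) (hd1 : d ≤ 1)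
    {G : E → ℝ≥0∞} (hG : Measurable G) :
    ∫⁻ x, G (nrm (y + (d * ‖y‖) • x)) ∂bt E ≤
      ENNReal.ofReal ((2 / d) ^ finrank ℝ E) * ∫⁻ x, G x ∂sph E := by
  have hy0 : 0 < ‖y‖ := norm_pos_iff.mpr hy
  set ρ : ℝ := d * ‖y‖ with hρ
  have hρ0 : 0 < ρ := by positivity
  have hGn : Measurable (fun z : E => G (nrm z)) := hG.comp measurable_nrm
  -- change of variables
  have h1 : ∫⁻ x in Metric.ball (0 : E) 1, G (nrm (y + ρ • x)) =
      ENNReal.ofReal ((ρ ^ finrank ℝ E)⁻¹) * ∫⁻ z in Metric.ball (0 : E) ρ, G (nrm (y + z)) := by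
    set F : E → ℝ≥0∞ := (Metric.ball (0 : E) ρ).indicator (fun z => G (nrm (y + z))) with hF
    have hFm : Measurable F :=
      (hGn.comp (measurable_const_add y)).indicator measurableSet_ball
    have h2 : ∫⁻ x, F (ρ • x) = ENNReal.ofReal ((ρ ^ finrank ℝ E)⁻¹) * ∫⁻ z, F z := by
      rw [← lintegral_map hFm (measurable_const_smul ρ), Measure.map_addHaar_smul _ hρ0.ne',
        lintegral_smul_measure, smul_eq_mul, abs_of_pos (by positivity)]
    rw [hF, lintegral_indicator measurableSet_ball] at h2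
    rw [← h2, ← lintegral_indicator measurableSet_ball]
    refine lintegral_congr (fun x => ?_)
    by_cases hx : x ∈ Metric.ball (0 : E) 1
    · have hx' : ρ • x ∈ Metric.ball (0 : E) ρ := by
        rw [Metric.mem_ball, dist_zero_right] at hx ⊢
        rw [norm_smul, Real.norm_of_nonneg hρ0.le]
        nlinarith
      rw [indicator_of_mem hx, indicator_of_mem hx']
    · have hx' : ρ • x ∉ Metric.ball (0 : E) ρ := by
        rw [Metric.mem_ball, dist_zero_right] at hx ⊢
        rw [norm_smul, Real.norm_of_nonneg hρ0.le]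
        push Not at hx ⊢
        nlinarith
      rw [indicator_of_notMem hx, indicator_of_notMem hx']
  have h2 : ∫⁻ z in Metric.ball (0 : E) ρ, G (nrm (y + z)) ≤
      ∫⁻ z in Metric.ball (0 : E) (2 * ‖y‖), G (nrm z) := by
    have h3 : ∫⁻ z in Metric.ball (0 : E) ρ, G (nrm (y + z)) =
        ∫⁻ z in Metric.ball y ρ, G (nrm z) := by
      rw [← lintegral_indicator measurableSet_ball, ← lintegral_indicator measurableSet_ball,
        ← lintegral_add_left_eq_self ((Metric.ball y ρ).indicator (fun z => G (nrm z))) y]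
      refine lintegral_congr (fun z => ?_)
      by_cases hz : z ∈ Metric.ball (0 : E) ρ
      · have hz' : y + z ∈ Metric.ball y ρ := by
          rw [Metric.mem_ball, dist_eq_norm] at hz ⊢
          simpa using hz
        rw [indicator_of_mem hz, indicator_of_mem hz']
      · have hz' : y + z ∉ Metric.ball y ρ := by
          rw [Metric.mem_ball, dist_eq_norm] at hz ⊢
          simpa using hz
        rw [indicator_of_notMem hz, indicator_of_notMem hz']
    rw [h3]
    refine lintegral_mono_set ?_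
    intro z hz
    rw [Metric.mem_ball, dist_eq_norm] at hz
    rw [Metric.mem_ball, dist_zero_right]
    have h4 : ‖z‖ ≤ ‖z - y‖ + ‖y‖ := by
      have := norm_add_le (z - y) y
      rwa [sub_add_cancel] at this
    have h5 : ρ ≤ ‖y‖ := by
      rw [hρ]; nlinarith
    linarith
  have hvol : volume (Metric.ball (0 : E) (2 * ‖y‖)) =
      ENNReal.ofReal ((2 * ‖y‖) ^ finrank ℝ E) * volume (Metric.ball (0 : E) 1) :=
    Measure.addHaar_ball_of_pos _ _ (by positivity)
  rw [sp.ball (2 * ‖y‖) (by positivity) G hG, hvol] at h2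
  have h3 : ∫⁻ x, G (nrm (y + ρ • x)) ∂bt E = (volume (Metric.ball (0 : E) 1))⁻¹ *
      ∫⁻ x in Metric.ball (0 : E) 1, G (nrm (y + ρ • x)) := by
    unfold bt ProbabilityTheory.cond
    rw [lintegral_smul_measure, smul_eq_mul]
  rw [h3, h1]
  calc (volume (Metric.ball (0 : E) 1))⁻¹ * (ENNReal.ofReal ((ρ ^ finrank ℝ E)⁻¹) *
        ∫⁻ z in Metric.ball (0 : E) ρ, G (nrm (y + z)))
      ≤ (volume (Metric.ball (0 : E) 1))⁻¹ * (ENNReal.ofReal ((ρ ^ finrank ℝ E)⁻¹) *
        (ENNReal.ofReal ((2 * ‖y‖) ^ finrank ℝ E) * volume (Metric.ball (0 : E) 1) *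
          ∫⁻ x, G x ∂sph E)) := by gcongr
    _ = ((volume (Metric.ball (0 : E) 1))⁻¹ * volume (Metric.ball (0 : E) 1)) *
        ((ENNReal.ofReal ((ρ ^ finrank ℝ E)⁻¹) * ENNReal.ofReal ((2 * ‖y‖) ^ finrank ℝ E)) *
          ∫⁻ x, G x ∂sph E) := by ring
    _ = ENNReal.ofReal ((2 / d) ^ finrank ℝ E) * ∫⁻ x, G x ∂sph E := by
        rw [ENNReal.inv_mul_cancel (vol_ne_zero one_pos) (vol_ne_top 1), one_mul,
          ← ENNReal.ofReal_mul (by positivity)]
        congr 2
        rw [inv_mul_eq_div, ← div_pow]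
        congr 1
        rw [hρ]
        field_simp

/-- the smoothing of a measure -/
noncomputable def sm (τ : Measure E) (d : ℝ) : Measure E :=
  (((τ.prod (bt E)).withDensity (fun q => ENNReal.ofReal ‖q.1 + (d * ‖q.1‖) • q.2‖)).map
    (fun q => nrm (q.1 + (d * ‖q.1‖) • q.2)))

omit [FiniteDimensional ℝ E] in
theorem meas_pt (d : ℝ) [SecondCountableTopology E] :
    Measurable (fun q : E × E => q.1 + (d * ‖q.1‖) • q.2) := by
  fun_prop

theorem lint_sm (τ : Measure E) [IsFiniteMeasure τ] (d : ℝ) {G : E → ℝ≥0∞}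
    (hG : Measurable G) :
    ∫⁻ v, G v ∂sm τ d = ∫⁻ y, ∫⁻ x, ENNReal.ofReal ‖y + (d * ‖y‖) • x‖ *
      G (nrm (y + (d * ‖y‖) • x)) ∂bt E ∂τ := by
  have := bt_prob (E := E)
  have hm := meas_pt (E := E) d
  have hmn : Measurable (fun q : E × E => nrm (q.1 + (d * ‖q.1‖) • q.2)) :=
    measurable_nrm.comp hm
  have hGn : Measurable (fun q : E × E => G (nrm (q.1 + (d * ‖q.1‖) • q.2))) := hG.comp hmn
  unfold sm
  rw [lintegral_map hG hmn, lintegral_withDensity_eq_lintegral_mul _
    (hm.norm.ennreal_ofReal) hGn]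
  rw [lintegral_prod _ ((hm.norm.ennreal_ofReal.mul hGn).aemeasurable)]
  rfl

omit [FiniteDimensional ℝ E] [MeasurableSpace E] [BorelSpace E] in
theorem norm_pt_le {d : ℝ} (hd0 : 0 ≤ d) (hd1 : d ≤ 1) (y : E) {x : E} (hx : ‖x‖ ≤ 1) :
    ‖y + (d * ‖y‖) • x‖ ≤ 2 * ‖y‖ := by
  refine (norm_add_le _ _).trans ?_
  rw [norm_smul, Real.norm_of_nonneg (by positivity)]
  have h1 : d * ‖y‖ * ‖x‖ ≤ 1 * ‖y‖ * 1 := by gcongr
  linarith

theorem sm_le (sp : SPH) (τ : Measure E) [IsFiniteMeasure τ] {d : ℝ} (hd : 0 < d)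
    (hd1 : d ≤ 1) :
    sm τ d ≤ (ENNReal.ofReal ((2 / d) ^ finrank ℝ E) *
      ∫⁻ y, ENNReal.ofReal (2 * ‖y‖) ∂τ) • sph E := by
  have := bt_prob (E := E)
  refine Measure.le_intro (fun A hA _ => ?_)
  set G : E → ℝ≥0∞ := A.indicator 1 with hG
  have hGm : Measurable G := measurable_one.indicator hA
  have h1 : sm τ d A = ∫⁻ v, G v ∂sm τ d := by
    rw [hG, lintegral_indicator_one hA]
  have h2 : sph E A = ∫⁻ v, G v ∂sph E := by
    rw [hG, lintegral_indicator_one hA]
  rw [h1, lint_sm τ d hGm, Measure.smul_apply, smul_eq_mul, h2]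
  have h3 : ∀ y : E, ∫⁻ x, ENNReal.ofReal ‖y + (d * ‖y‖) • x‖ *
      G (nrm (y + (d * ‖y‖) • x)) ∂bt E ≤ ENNReal.ofReal (2 * ‖y‖) *
      (ENNReal.ofReal ((2 / d) ^ finrank ℝ E) * ∫⁻ x, G x ∂sph E) := by
    intro y
    by_cases hy : y = 0
    · subst hy
      simp
    · refine le_trans ?_ (mul_le_mul_right (lint_inner sp hy hd hd1 hGm)
        (ENNReal.ofReal (2 * ‖y‖)))
      have hGn : Measurable (fun x : E => G (nrm (y + (d * ‖y‖) • x))) :=
        hGm.comp (measurable_nrm.comp (by fun_prop))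
      rw [← lintegral_const_mul _ hGn]
      refine lintegral_mono_ae ?_
      filter_upwards [bt_norm (E := E)] with x hx
      gcongr
      exact norm_pt_le hd.le hd1 y hx
  refine (lintegral_mono h3).trans (le_of_eq ?_)
  rw [lintegral_mul_const _ (by fun_prop)]
  ring

/-- a measure dominated by a multiple of `ν` has a bounded density -/
theorem exists_density {α : Type*} [MeasurableSpace α] {μ ν : Measure α} [IsFiniteMeasure μ]
    [IsFiniteMeasure ν] {D : ℝ} (hD : 0 ≤ D) (h : μ ≤ ENNReal.ofReal D • ν) :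
    ∃ F : α → ℝ, Measurable F ∧ (∀ x, 0 ≤ F x) ∧ (∀ x, F x ≤ D) ∧
      μ = ν.withDensity (fun x => ENNReal.ofReal (F x)) := by
  have hac : μ ≪ ν := Measure.absolutelyContinuous_of_le_smul h
  have hm : Measurable (μ.rnDeriv ν) := Measure.measurable_rnDeriv μ ν
  have hle : μ.rnDeriv ν ≤ᵐ[ν] fun _ => ENNReal.ofReal D := by
    refine ae_le_of_forall_setLIntegral_le_of_sigmaFinite hm (fun s hs _ => ?_)
    rw [Measure.setLIntegral_rnDeriv hac s, setLIntegral_const]
    have h1 := h s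
    simpa using h1
  refine ⟨fun x => (min (μ.rnDeriv ν x) (ENNReal.ofReal D)).toReal,
    (hm.min measurable_const).ennreal_toReal, fun x => ENNReal.toReal_nonneg, fun x => ?_, ?_⟩
  · have h1 : (min (μ.rnDeriv ν x) (ENNReal.ofReal D)).toReal ≤ (ENNReal.ofReal D).toReal :=
      ENNReal.toReal_mono ENNReal.ofReal_ne_top (min_le_right _ _)
    rwa [ENNReal.toReal_ofReal hD] at h1
  · conv_lhs => rw [← Measure.withDensity_rnDeriv_eq μ ν hac]
    refine withDensity_congr_ae ?_
    filter_upwards [hle] with x hx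
    rw [min_eq_left hx, ENNReal.ofReal_toReal (ne_top_of_le_ne_top ENNReal.ofReal_ne_top hx)]

/-- the support function of the smoothed measure -/
theorem int_sm (τ : Measure E) [IsFiniteMeasure τ] {R : ℝ}
    (hR : τ (Metric.closedBall (0 : E) R)ᶜ = 0) {d : ℝ} (hd0 : 0 ≤ d) (hd1 : d ≤ 1)
    {G : E → ℝ} (hG : Measurable G) (hG0 : ∀ x, 0 ≤ G x) {C : ℝ} (hGC : ∀ x, ‖x‖ ≤ 1 → G x ≤ C) :
    (∫⁻ v, ENNReal.ofReal (G v) ∂sm τ d).toReal =
      ∫ q, ‖q.1 + (d * ‖q.1‖) • q.2‖ * G (nrm (q.1 + (d * ‖q.1‖) • q.2)) ∂(τ.prod (bt E)) := by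
  have := bt_prob (E := E)
  have hm := meas_pt (E := E) d
  have hmn : Measurable (fun q : E × E => nrm (q.1 + (d * ‖q.1‖) • q.2)) :=
    measurable_nrm.comp hm
  rw [lint_sm τ d hG.ennreal_ofReal, integral_eq_lintegral_of_nonneg_ae
    (Eventually.of_forall (fun q => mul_nonneg (norm_nonneg _) (hG0 _)))
    ((hm.norm.mul (hG.comp hmn)).aestronglyMeasurable)]
  congr 1
  have hmeas : Measurable (fun q : E × E =>
      ‖q.1 + (d * ‖q.1‖) • q.2‖ * G (nrm (q.1 + (d * ‖q.1‖) • q.2))) :=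
    hm.norm.mul (hG.comp hmn)
  rw [lintegral_prod _ (hmeas.ennreal_ofReal.aemeasurable)]
  refine lintegral_congr (fun y => lintegral_congr (fun x => ?_))
  exact (ENNReal.ofReal_mul (norm_nonneg _)).symm

end StaH

open StaH

theorem sta_of (sp : SPH) : STAStmt := by
  intro E _ _ _ _ _ _ K hK h0 hZ
  have hprob := sp.prob (E := E)
  have hbt := bt_prob (E := E)
  have hn0 : 0 < finrank ℝ E := finrank_pos
  have hnR : (0 : ℝ) < finrank ℝ E := by exact_mod_cast hn0
  obtain ⟨r, hr, hball⟩ := exists_ball_zero h0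
  have hrK : ∀ w : E, r * ‖w‖ ≤ supportFn K w := fun w => le_supportFn_of_ball hK.cpt hr.le hball w
  obtain ⟨R₀, hR₀⟩ := hK.cpt.isBounded.exists_norm_le
  obtain ⟨e₀, he₀⟩ := exists_norm_eq E zero_le_one
  have hRK : ∀ w : E, supportFn K w ≤ R₀ * ‖w‖ := by
    intro w
    refine supportFn_le hK.ne (fun x hx => ?_)
    have h1 := real_inner_le_norm x w
    have h2 : ‖x‖ * ‖w‖ ≤ R₀ * ‖w‖ := mul_le_mul_of_nonneg_right (hR₀ x hx) (norm_nonneg _)
    exact h1.trans h2
  have hrR : r ≤ R₀ := by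
    have h1 := (hrK e₀).trans (hRK e₀)
    rwa [he₀, mul_one, mul_one] at h1
  have hR₀0 : 0 < R₀ := lt_of_lt_of_le hr hrR
  set n := finrank ℝ E with hn
  set κ : ℝ := r / (16 * n * R₀) with hκ
  have hκ0 : 0 < κ := by positivity
  have hκ1 : κ ≤ 1 := by
    rw [hκ, div_le_one (by positivity)]
    have h1 : (1 : ℝ) ≤ n := by exact_mod_cast hn0
    nlinarith
  set C : ℝ := 8 * n * R₀ / r * (2 / κ) ^ n with hC
  refine ⟨max 1 C, le_max_left _ _, ?_⟩
  intro δ hδ hδ1
  obtain ⟨R, τ, hτ, hR, hτh⟩ := hZ (δ / 8) (by positivity)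
  set d : ℝ := κ * δ with hd
  have hd0 : 0 < d := by positivity
  have hd1 : d ≤ 1 := by rw [hd]; nlinarith
  have hae : ∀ᵐ y ∂τ, ‖y‖ ≤ R := by
    rw [ae_iff]
    refine measure_mono_null ?_ hR
    intro y hy
    simp only [mem_ofPred_eq, not_le] at hy
    simp only [mem_compl_iff, Metric.mem_closedBall, dist_zero_right, not_le]
    exact hy
  have hint_in : ∀ w : E, Integrable (fun y => |⟪w, y⟫|) τ := by
    intro w
    refine integrable_bdd (by fun_prop) (C := ‖w‖ * R) ?_
    filter_upwards [hae] with y hy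
    rw [abs_abs]
    exact (abs_real_inner_le_norm w y).trans (mul_le_mul_of_nonneg_left hy (norm_nonneg _))
  have hint_norm : Integrable (fun y => ‖y‖) τ := by
    refine integrable_bdd (by fun_prop) (C := R) ?_
    filter_upwards [hae] with y hy
    rwa [abs_norm]
  -- total mass
  set M : ℝ := ∫ y, ‖y‖ ∂τ with hM
  have hM0 : 0 ≤ M := integral_nonneg (fun y => norm_nonneg _)
  have hM1 : M ≤ 2 * n * R₀ := by
    set e := stdOrthonormalBasis ℝ E with he
    have h1 : M ≤ ∑ l, ∫ y, |⟪e l, y⟫| ∂τ := by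
      rw [← integral_finsetSum _ (fun l _ => hint_in (e l)), hM]
      refine integral_mono hint_norm (integrable_finsetSum _ (fun l _ => hint_in (e l))) ?_
      intro y
      have h2 : y = ∑ l, ⟪e l, y⟫ • e l := (e.sum_repr' y).symm
      calc ‖y‖ = ‖∑ l, ⟪e l, y⟫ • e l‖ := by rw [← h2]
        _ ≤ ∑ l, ‖⟪e l, y⟫ • e l‖ := norm_sum_le _ _
        _ = ∑ l, |⟪e l, y⟫| := by
            refine Finset.sum_congr rfl (fun l _ => ?_)
            rw [norm_smul, e.norm_eq_one, mul_one, Real.norm_eq_abs]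
    refine h1.trans ?_
    have h2 : ∀ l : Fin n, ∫ y, |⟪e l, y⟫| ∂τ ≤ 2 * R₀ := by
      intro l
      refine ((hτh (e l)).2).trans ?_
      have h3 := hRK (e l)
      rw [e.norm_eq_one, mul_one] at h3
      have h4 : 0 ≤ supportFn K (e l) := le_trans (by positivity) (hrK (e l))
      nlinarith
    calc ∑ l : Fin n, ∫ y, |⟪e l, y⟫| ∂τ ≤ ∑ l : Fin n, 2 * R₀ :=
          Finset.sum_le_sum (fun l _ => h2 l)
      _ = 2 * n * R₀ := by
          rw [Finset.sum_const, Finset.card_univ, Fintype.card_fin, nsmul_eq_mul]; ring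
  have hdM : d * M ≤ δ / 8 * r := by
    calc d * M ≤ d * (2 * n * R₀) := by gcongr
      _ = δ / 8 * r := by rw [hd, hκ]; field_simp; ring
  -- density
  set D : ℝ := (2 / d) ^ n * (2 * M) with hD
  have hD0 : 0 ≤ D := by positivity
  have hsm : sm τ d ≤ ENNReal.ofReal D • sph E := by
    have h1 := sm_le sp τ hd0 hd1
    have h2 : ∫⁻ y, ENNReal.ofReal (2 * ‖y‖) ∂τ = ENNReal.ofReal (2 * M) := by
      rw [← ofReal_integral_eq_lintegral_ofReal (hint_norm.const_mul 2)
        (Eventually.of_forall (fun y => by positivity)), integral_const_mul]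
    rw [h2, ← ENNReal.ofReal_mul (by positivity)] at h1
    exact h1
  have hfin : IsFiniteMeasure (sm τ d) := by
    refine ⟨lt_of_le_of_lt (hsm univ) ?_⟩
    rw [Measure.smul_apply, smul_eq_mul, measure_univ, mul_one]
    exact ENNReal.ofReal_lt_top
  obtain ⟨F, hFm, hF0, hFD, hF⟩ := exists_density hD0 hsm
  have hFint : Integrable F (sph E) := integrable_bdd hFm (C := D)
    (Eventually.of_forall (fun x => by rw [abs_of_nonneg (hF0 x)]; exact hFD x))
  -- transfer of integrals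
  have htrans : ∀ (G : E → ℝ), Measurable G → (∀ x, 0 ≤ G x) → ∀ C' : ℝ,
      (∀ x, ‖x‖ ≤ 1 → G x ≤ C') → ∫ x, G x * F x ∂sph E =
      ∫ q, ‖q.1 + (d * ‖q.1‖) • q.2‖ * G (nrm (q.1 + (d * ‖q.1‖) • q.2)) ∂(τ.prod (bt E)) := by
    intro G hGm hG0 C' hGC
    rw [← int_sm τ hR hd0.le hd1 hGm hG0 hGC, hF, lintegral_withDensity_eq_lintegral_mul _
      hFm.ennreal_ofReal hGm.ennreal_ofReal, integral_eq_lintegral_of_nonneg_ae
      (Eventually.of_forall (fun x => mul_nonneg (hG0 x) (hF0 x)))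
      (hGm.mul hFm).aestronglyMeasurable]
    congr 1
    refine lintegral_congr (fun x => ?_)
    rw [Pi.mul_apply, mul_comm (ENNReal.ofReal (F x)), ← ENNReal.ofReal_mul (hG0 x)]
  set t : ℝ := ∫ x, F x ∂sph E with ht
  -- the support function
  have hsupp : ∀ w : E, |∫ x, |⟪w, x⟫| * F x ∂sph E - ∫ y, |⟪w, y⟫| ∂τ| ≤ δ / 8 * r * ‖w‖ := by
    intro w
    have h1 : ∫ x, |⟪w, x⟫| * F x ∂sph E =
        ∫ q, |⟪w, q.1 + (d * ‖q.1‖) • q.2⟫| ∂(τ.prod (bt E)) := by
      rw [htrans (fun x => |⟪w, x⟫|) (by fun_prop) (fun x => abs_nonneg _) ‖w‖ (fun x hx => by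
        have h2 := abs_real_inner_le_norm w x
        nlinarith [norm_nonneg w])]
      refine integral_congr_ae (Eventually.of_forall (fun q => ?_))
      simp only
      set z := q.1 + (d * ‖q.1‖) • q.2 with hz
      by_cases hz0 : z = 0
      · rw [hz0]; simp
      · have h3 : ‖z‖ ≠ 0 := norm_ne_zero_iff.mpr hz0
        rw [nrm, real_inner_smul_right, abs_mul, abs_inv, abs_norm]
        field_simp
    have h2 : ∫ y, |⟪w, y⟫| ∂τ = ∫ q, |⟪w, q.1⟫| ∂(τ.prod (bt E)) := by
      rw [integral_prod _ ((hint_in w).comp_fst (bt E))]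
      simp
    rw [h1, h2]
    have hq : ∀ᵐ q ∂(τ.prod (bt E)), ‖q.1‖ ≤ R ∧ ‖q.2‖ ≤ 1 := by
      have h3 := Measure.quasiMeasurePreserving_fst (μ := τ) (ν := bt E)
      have h4 := Measure.quasiMeasurePreserving_snd (μ := τ) (ν := bt E)
      filter_upwards [h3.ae hae, h4.ae bt_norm] with q ha hb
      exact ⟨ha, hb⟩
    have hi1 : Integrable (fun q : E × E => |⟪w, q.1 + (d * ‖q.1‖) • q.2⟫|)
        (τ.prod (bt E)) := by
      refine integrable_bdd (by fun_prop) (C := ‖w‖ * (2 * R)) ?_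
      filter_upwards [hq] with q hq
      rw [abs_abs]
      refine (abs_real_inner_le_norm _ _).trans (mul_le_mul_of_nonneg_left ?_ (norm_nonneg _))
      refine (norm_pt_le hd0.le hd1 q.1 hq.2).trans ?_
      linarith [hq.1]
    have hi2 : Integrable (fun q : E × E => |⟪w, q.1⟫|) (τ.prod (bt E)) :=
      (hint_in w).comp_fst (bt E)
    rw [← integral_sub hi1 hi2]
    have hi3 : Integrable (fun q : E × E => d * ‖w‖ * ‖q.1‖) (τ.prod (bt E)) :=
      (hint_norm.comp_fst (bt E)).const_mul _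
    have h3 := norm_integral_le_of_norm_le hi3 (f := fun q : E × E =>
      |⟪w, q.1 + (d * ‖q.1‖) • q.2⟫| - |⟪w, q.1⟫|) (by
        filter_upwards [hq] with q hq
        rw [Real.norm_eq_abs]
        refine (abs_abs_sub_abs_le_abs_sub _ _).trans ?_
        rw [inner_add_right, add_sub_cancel_left]
        refine (abs_real_inner_le_norm _ _).trans ?_
        rw [norm_smul, Real.norm_of_nonneg (by positivity)]
        have h4 : d * ‖q.1‖ * ‖q.2‖ ≤ d * ‖q.1‖ * 1 :=
          mul_le_mul_of_nonneg_left hq.2 (by positivity)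
        have h5 := mul_le_mul_of_nonneg_left h4 (norm_nonneg w)
        linarith)
    rw [Real.norm_eq_abs] at h3
    refine h3.trans ?_
    rw [integral_const_mul]
    have h4 : ∫ q, ‖q.1‖ ∂(τ.prod (bt E)) = M := by
      rw [integral_prod _ (hint_norm.comp_fst (bt E))]
      simp [hM]
    rw [h4]
    calc d * ‖w‖ * M = (d * M) * ‖w‖ := by ring
      _ ≤ δ / 8 * r * ‖w‖ := by gcongr
  have hclose : ∀ w : E, (1 - δ / 4) * supportFn K w ≤ ∫ x, |⟪w, x⟫| * F x ∂sph E ∧
      ∫ x, |⟪w, x⟫| * F x ∂sph E ≤ (1 + δ / 4) * supportFn K w := by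
    intro w
    have h1 := abs_le.mp (hsupp w)
    have h2 := hτh w
    have h3 := mul_le_mul_of_nonneg_left (hrK w) (by positivity : 0 ≤ δ / 8)
    constructor
    · nlinarith [h1.1, h2.1]
    · nlinarith [h1.2, h2.2]
  -- mass
  have ht0 : r / 2 ≤ t := by
    have h1 := (hclose e₀).1
    have h2 := hrK e₀
    rw [he₀, mul_one] at h2
    have h3 : ∫ x, |⟪e₀, x⟫| * F x ∂sph E ≤ t := by
      rw [ht]
      refine integral_mono_ae ?_ hFint ?_
      · refine integrable_bdd (by fun_prop) (C := 1 * D) ?_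
        filter_upwards [sp.norm (E := E)] with x hx
        rw [abs_mul, abs_abs, abs_of_nonneg (hF0 x)]
        have h4 := abs_real_inner_le_norm e₀ x
        rw [he₀, hx, mul_one] at h4
        exact mul_le_mul h4 (hFD x) (hF0 x) zero_le_one
      · filter_upwards [sp.norm (E := E)] with x hx
        have h4 := abs_real_inner_le_norm e₀ x
        rw [he₀, hx, mul_one] at h4
        have h5 := mul_le_mul_of_nonneg_right h4 (hF0 x)
        rwa [one_mul] at h5
    nlinarith
  have ht' : 0 < t := lt_of_lt_of_le (by positivity) ht0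
  refine ⟨fun x => F x / t, t, ⟨hFm.div_const t, fun x => div_nonneg (hF0 x) ht'.le,
    ⟨D / t, fun x => div_le_div_of_nonneg_right (hFD x) ht'.le⟩, ?_⟩, ht', ?_, ?_⟩
  · rw [integral_div, ← ht, div_self ht'.ne']
  · intro x
    have h1 : F x / t ≤ D / (r / 2) := by
      have := hFD x
      have := hF0 x
      gcongr
    have h2 : D / (r / 2) ≤ C / δ ^ n := by
      have h3 : D ≤ (2 / d) ^ n * (2 * (2 * n * R₀)) := by rw [hD]; gcongr
      have h4 : (2 / d) ^ n * (2 * (2 * n * R₀)) / (r / 2) = C / δ ^ n := by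
        rw [hC, hd, div_pow, div_pow, mul_pow]
        field_simp
        ring
      rw [← h4]
      gcongr
    refine h1.trans (h2.trans ?_)
    gcongr
    exact le_max_right _ _
  · intro w
    have h1 := hclose w
    have h2 : t * hz (fun x => F x / t) w = ∫ x, |⟪w, x⟫| * F x ∂sph E := by
      unfold hz
      rw [← integral_const_mul]
      refine integral_congr_ae (Eventually.of_forall (fun x => ?_))
      simp only
      field_simp
    have h3 : 0 ≤ supportFn K w := le_trans (by positivity) (hrK w)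
    set I := ∫ x, |⟪w, x⟫| * F x ∂sph E with hI
    rw [h2]
    have he1 : 1 + δ ≤ Real.exp δ := by linarith [Real.add_one_le_exp δ]
    have he0 : 0 < Real.exp δ := Real.exp_pos δ
    constructor
    · rw [Real.exp_neg, inv_mul_le_iff₀ he0]
      nlinarith [h1.2]
    · have h4 : supportFn K w ≤ Real.exp δ * ((1 - δ / 4) * supportFn K w) := by
        have h5 : 1 ≤ Real.exp δ * (1 - δ / 4) := by nlinarith
        have h6 := mul_le_mul_of_nonneg_right h5 h3
        linarith
      refine h4.trans ?_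
      gcongr
      exact h1.1

end Pool.Agent.BPH
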