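import Pool.Agent.BPH.Stmts

/-!
# BPH, row TEX: existence of the next density (Radon-Nikodym)
-/

open MeasureTheory Module Set Filter
open scoped RealInnerProductSpace Pointwise Topology ENNReal

namespace Pool.Agent.BPH

section

variable {E : Type} [NormedAddCommGroup E] [InnerProductSpace ℝ E] [FiniteDimensional ℝ E]
  [MeasurableSpace E] [BorelSpace E]

theorem tex_nrm_meas : Measurable (nrm : E → E) := by
  unfold nrm
  exact (measurable_norm.inv).smul measurable_id

theorem tex_joint (ppm : PPMStmt) (i : ℕ) {φ : E → ℝ} (hφ : Measurable φ) :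
    Measurable (fun q : (Fin i → E) × E => φ (nrm (pp q.1 q.2))) :=
  hφ.comp (tex_nrm_meas.comp (ppm i))

theorem tex_mS_meas (s : SPH) (ppm : PPMStmt) (i : ℕ) {φ : E → ℝ} (hφ : Measurable φ) :
    Measurable (fun v : Fin i → E => mS (perp v) φ) := by
  haveI : IsProbabilityMeasure (sph E) := s.prob
  have h := (tex_joint ppm i hφ).stronglyMeasurable.integral_prod_right' (ν := sph E)
  exact h.measurable

theorem tex_mS_bdd (s : SPH) (U : Submodule ℝ E) {φ : E → ℝ} {C : ℝ} (hC : ∀ x, |φ x| ≤ C) :
    |mS U φ| ≤ C := by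
  haveI : IsProbabilityMeasure (sph E) := s.prob
  unfold mS
  have h := norm_integral_le_of_norm_le_const (μ := sph E) (f := fun x => φ (nrm (U.starProjection x)))
    (C := C) (Eventually.of_forall (fun x => by
      rw [Real.norm_eq_abs]
      exact hC _))
  simpa [Real.norm_eq_abs] using h

theorem tex_dens_one (s : SPH) : Dens (fun _ : E => (1 : ℝ)) := by
  haveI : IsProbabilityMeasure (sph E) := s.prob
  refine ⟨measurable_const, fun _ => zero_le_one, ⟨1, fun _ => le_refl _⟩, by simp⟩

theorem tex (s : SPH) (ppm : PPMStmt) (avg : AVGStmt) (zfu : ZFU) : TEXStmt := by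
  intro E _ _ _ _ _ i hi f hf
  haveI hnt : Nontrivial E := Module.nontrivial_of_finrank_pos (R := ℝ) (by omega)
  haveI hpr : IsProbabilityMeasure (sph E) := s.prob
  haveI hprP : IsProbabilityMeasure (sphP E i) := by unfold sphP; infer_instance
  set W : (Fin i → E) → ℝ := fun v => gw v * ∏ l, f (v l) with hW
  have hWi : Integrable W (sphP E i) := zfu.int i f hf
  have hW0 : ∀ v, 0 ≤ W v := fun v =>
    mul_nonneg (Real.sqrt_nonneg _) (Finset.prod_nonneg (fun l _ => hf.nonneg _))
  have hZ : 0 < ZZ i f := zfu.pos i f hi.le hf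
  have hZW : ∫ v, W v ∂sphP E i = ZZ i f := rfl
  obtain ⟨C, hC⟩ := hf.bdd
  have hC0 : 0 ≤ C := le_trans (hf.nonneg 0) (hC 0)
  have h1i : Integrable (fun v : Fin i → E => gw v) (sphP E i) := by
    have := zfu.int i (fun _ : E => (1:ℝ)) (tex_dens_one s)
    simpa using this
  have hWC : ∀ v, W v ≤ C ^ i * gw v := by
    intro v
    rw [hW]
    dsimp only
    rw [mul_comm]
    refine mul_le_mul_of_nonneg_right ?_ (Real.sqrt_nonneg _)
    calc ∏ l, f (v l) ≤ ∏ _l : Fin i, C := Finset.prod_le_prod (fun l _ => hf.nonneg _) (fun l _ => hC _)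
      _ = C ^ i := by simp
  -- the measure of the next step
  set μ : Measure (Fin i → E) := (sphP E i).withDensity (fun v => ENNReal.ofReal (W v)) with hμ
  have hWm : AEMeasurable W (sphP E i) := hWi.aestronglyMeasurable.aemeasurable
  haveI hμf : IsFiniteMeasure μ := by
    rw [hμ]
    exact isFiniteMeasure_withDensity_ofReal hWi.2
  set T : (Fin i → E) × E → E := fun q => nrm (pp q.1 q.2) with hT
  have hTm : Measurable T := tex_nrm_meas.comp (ppm i)
  set ρ : Measure E := (μ.prod (sph E)).map T with hρ
  haveI hρf : IsFiniteMeasure ρ := by rw [hρ]; infer_instance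
  have hint : ∀ φ : E → ℝ, Tst φ → ∫ x, φ x ∂ρ = ∫ v, W v * mS (perp v) φ ∂sphP E i := by
    intro φ hφ
    obtain ⟨D, hD⟩ := hφ.bdd
    rw [hρ, integral_map hTm.aemeasurable hφ.meas.aestronglyMeasurable]
    have hi1 : Integrable (fun q : (Fin i → E) × E => φ (T q)) (μ.prod (sph E)) := by
      refine Integrable.of_bound (hφ.meas.comp hTm).aestronglyMeasurable D
        (Eventually.of_forall (fun q => ?_))
      rw [Real.norm_eq_abs]
      exact hD _
    rw [integral_prod _ hi1, hμ, integral_withDensity_eq_integral_toReal_smul₀ hWm.ennreal_ofReal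
      (Eventually.of_forall (fun v => ENNReal.ofReal_lt_top))]
    refine integral_congr_ae (Eventually.of_forall (fun v => ?_))
    dsimp only
    rw [ENNReal.toReal_ofReal (hW0 v), smul_eq_mul]
    rfl
  have hρle : ρ ≤ ENNReal.ofReal (C ^ i * ZZ i (fun _ : E => 1)) • sph E := by
    refine Measure.le_intro (fun A hA _ => ?_)
    have hTst : Tst (A.indicator (fun _ : E => (1:ℝ))) := by
      refine ⟨measurable_const.indicator hA, ⟨1, fun x => ?_⟩⟩
      by_cases hx : x ∈ A
      · simp [hx]
      · simp [hx]
    have h1 := hint _ hTst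
    have h2 := avg i hi _ hTst
    have h1' : ∫ x, A.indicator (fun _ : E => (1:ℝ)) x ∂ρ = ρ.real A :=
      integral_indicator_one hA
    rw [h1'] at h1
    have h2' : ∫ x, A.indicator (fun _ : E => (1:ℝ)) x ∂sph E = (sph E).real A :=
      integral_indicator_one hA
    rw [h2'] at h2
    have hmSm : Measurable (fun v : Fin i → E => mS (perp v) (A.indicator (fun _ : E => (1:ℝ)))) :=
      tex_mS_meas s ppm i hTst.meas
    have hmSb : ∀ v : Fin i → E, |mS (perp v) (A.indicator (fun _ : E => (1:ℝ)))| ≤ 1 := by
      intro v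
      refine tex_mS_bdd s _ (fun x => ?_)
      by_cases hx : x ∈ A
      · simp [hx]
      · simp [hx]
    have hmS0 : ∀ v : Fin i → E, 0 ≤ mS (perp v) (A.indicator (fun _ : E => (1:ℝ))) := by
      intro v
      unfold mS
      refine integral_nonneg (fun x => ?_)
      exact Set.indicator_nonneg (fun _ _ => zero_le_one) _
    have h3 : ρ.real A ≤ C ^ i * ZZ i (fun _ : E => 1) * (sph E).real A := by
      rw [h1]
      calc ∫ v, W v * mS (perp v) (A.indicator (fun _ : E => (1:ℝ))) ∂sphP E i
          ≤ ∫ v, C ^ i * (gw v * mS (perp v) (A.indicator (fun _ : E => (1:ℝ)))) ∂sphP E i := by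
            refine integral_mono ?_ ?_ ?_
            · exact hWi.mul_bdd (c := 1) hmSm.aestronglyMeasurable
                (Eventually.of_forall (fun v => by rw [Real.norm_eq_abs]; exact hmSb v))
            · refine Integrable.const_mul ?_ _
              exact h1i.mul_bdd (c := 1) hmSm.aestronglyMeasurable
                (Eventually.of_forall (fun v => by rw [Real.norm_eq_abs]; exact hmSb v))
            · intro v
              dsimp only
              rw [← mul_assoc]
              exact mul_le_mul_of_nonneg_right (hWC v) (hmS0 v)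
        _ = C ^ i * ZZ i (fun _ : E => 1) * (sph E).real A := by
            rw [integral_const_mul, h2]
            ring
    rw [Measure.smul_apply, smul_eq_mul]
    have h4 : ρ A = ENNReal.ofReal (ρ.real A) := by
      rw [Measure.real, ENNReal.ofReal_toReal (measure_ne_top _ _)]
    have h5 : (sph E) A = ENNReal.ofReal ((sph E).real A) := by
      rw [Measure.real, ENNReal.ofReal_toReal (measure_ne_top _ _)]
    rw [h4, h5, ← ENNReal.ofReal_mul]
    · exact ENNReal.ofReal_le_ofReal h3
    · refine mul_nonneg (pow_nonneg hC0 _) ?_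
      exact (zfu.pos i (fun _ : E => (1:ℝ)) hi.le (tex_dens_one s)).le
  set c : ℝ := C ^ i * ZZ i (fun _ : E => 1) with hc
  have hc0 : 0 ≤ c := mul_nonneg (pow_nonneg hC0 _)
    (zfu.pos i (fun _ : E => (1:ℝ)) hi.le (tex_dens_one s)).le
  have hac : ρ ≪ sph E :=
    (Measure.absolutelyContinuous_of_le hρle).trans (Measure.smul_absolutelyContinuous)
  set g : E → ℝ≥0∞ := ρ.rnDeriv (sph E) with hg
  have hgm : Measurable g := Measure.measurable_rnDeriv _ _
  haveI hLD : ρ.HaveLebesgueDecomposition (sph E) :=
    Measure.haveLebesgueDecomposition_of_sigmaFinite ρ (sph E)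
  have hgρ : (sph E).withDensity g = ρ := Measure.withDensity_rnDeriv_eq ρ (sph E) hac
  have hgle : ∀ᵐ x ∂sph E, g x ≤ ENNReal.ofReal c := by
    refine ae_le_of_forall_setLIntegral_le_of_sigmaFinite hgm (fun A hA _ => ?_)
    calc ∫⁻ x in A, g x ∂sph E = ρ A := by rw [← withDensity_apply _ hA, hgρ]
      _ ≤ (ENNReal.ofReal c • sph E) A := hρle A
      _ = ∫⁻ _x in A, ENNReal.ofReal c ∂sph E := by
          rw [Measure.smul_apply, smul_eq_mul, setLIntegral_const]
  -- the density
  refine ⟨fun x => min (g x).toReal c / ZZ i f, ?_, ?_⟩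
  · refine ⟨(hgm.ennreal_toReal.min measurable_const).div_const _, fun x => ?_, ⟨c / ZZ i f, fun x => ?_⟩, ?_⟩
    · exact div_nonneg (le_min ENNReal.toReal_nonneg hc0) hZ.le
    · exact div_le_div_of_nonneg_right (min_le_right _ _) hZ.le
    · have h1 : ∫ x, min (g x).toReal c ∂sph E = ZZ i f := by
        have h2 := hint (fun _ => (1:ℝ)) ⟨measurable_const, ⟨1, fun x => by simp⟩⟩
        have h3 : ∀ v : Fin i → E, mS (perp v) (fun _ : E => (1:ℝ)) = 1 := by
          intro v
          unfold mS
          simp
        simp only [h3, mul_one] at h2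
        rw [hZW] at h2
        rw [← h2, ← hgρ, integral_withDensity_eq_integral_toReal_smul hgm]
        · refine integral_congr_ae ?_
          filter_upwards [hgle] with x hx
          have h4 : (g x).toReal ≤ c := by
            have := ENNReal.toReal_mono ENNReal.ofReal_ne_top hx
            rwa [ENNReal.toReal_ofReal hc0] at this
          rw [min_eq_left h4]
          simp
        · filter_upwards [hgle] with x hx
          exact lt_of_le_of_lt hx ENNReal.ofReal_lt_top
      rw [integral_div, h1, div_self hZ.ne']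
  · intro φ hφ
    rw [← hint φ hφ, ← hgρ, integral_withDensity_eq_integral_toReal_smul hgm]
    · rw [← integral_const_mul]
      refine integral_congr_ae ?_
      filter_upwards [hgle] with x hx
      have h4 : (g x).toReal ≤ c := by
        have := ENNReal.toReal_mono ENNReal.ofReal_ne_top hx
        rwa [ENNReal.toReal_ofReal hc0] at this
      rw [min_eq_left h4, smul_eq_mul]
      field_simp
    · filter_upwards [hgle] with x hx
      exact lt_of_le_of_lt hx ENNReal.ofReal_lt_top

end

end Pool.Agent.BPH
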