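import Pool.Agent.BPH.Stmts

/-!
# BPH: row UNF (pointwise limits of functions approximated by zonoids)
-/

open MeasureTheory Module Set Filter
open scoped RealInnerProductSpace Pointwise Topology ENNReal

namespace Pool.Agent.BPH

open Pool.Agent.Helper55_PB Pool.Agent.Helper28_PB

namespace Unf33

variable {E : Type} [NormedAddCommGroup E] [InnerProductSpace ℝ E] [FiniteDimensional ℝ E]
    [MeasurableSpace E] [BorelSpace E]

theorem integrable_inner {τ : Measure E} [IsFiniteMeasure τ] {R : ℝ}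
    (hR : τ (Metric.closedBall (0 : E) R)ᶜ = 0) (w : E) :
    Integrable (fun y => |⟪w, y⟫|) τ := by
  have hm : AEStronglyMeasurable (fun y : E => |⟪w, y⟫|) τ := by
    have : Continuous (fun y : E => |⟪w, y⟫|) := by fun_prop
    exact this.aestronglyMeasurable
  refine Integrable.of_bound hm (‖w‖ * |R|) ?_
  have h : ∀ᵐ y ∂τ, y ∈ Metric.closedBall (0 : E) R := by
    rw [ae_iff]
    exact hR
  filter_upwards [h] with y hy
  rw [Metric.mem_closedBall, dist_zero_right] at hy
  rw [Real.norm_eq_abs, abs_abs]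
  calc |⟪w, y⟫| ≤ ‖w‖ * ‖y‖ := abs_real_inner_le_norm w y
    _ ≤ ‖w‖ * |R| := by
        gcongr
        exact hy.trans (le_abs_self R)

/-- the support function -/
noncomputable def hh (τ : Measure E) (w : E) : ℝ := ∫ y, |⟪w, y⟫| ∂τ

theorem hh_smul (τ : Measure E) (t : ℝ) (w : E) : hh τ (t • w) = |t| * hh τ w := by
  unfold hh
  rw [← integral_const_mul]
  refine integral_congr_ae (Eventually.of_forall fun y => ?_)
  simp only
  rw [real_inner_smul_left, abs_mul]

theorem hh_nonneg (τ : Measure E) (w : E) : 0 ≤ hh τ w :=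
  integral_nonneg fun _ => abs_nonneg _

theorem hh_add {τ : Measure E} [IsFiniteMeasure τ] {R : ℝ}
    (hR : τ (Metric.closedBall (0 : E) R)ᶜ = 0) (v w : E) :
    hh τ (v + w) ≤ hh τ v + hh τ w := by
  unfold hh
  rw [← integral_add (integrable_inner hR v) (integrable_inner hR w)]
  refine integral_mono (integrable_inner hR _)
    ((integrable_inner hR v).add (integrable_inner hR w)) fun y => ?_
  simp only
  rw [inner_add_left]
  exact abs_add_le _ _

theorem hh_sum {τ : Measure E} [IsFiniteMeasure τ] {R : ℝ}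
    (hR : τ (Metric.closedBall (0 : E) R)ᶜ = 0) {ι : Type} (s : Finset ι) (f : ι → E) :
    hh τ (∑ i ∈ s, f i) ≤ ∑ i ∈ s, hh τ (f i) := by
  classical
  induction s using Finset.induction_on with
  | empty =>
    simp only [Finset.sum_empty]
    have := hh_smul τ 0 (0 : E)
    simp only [zero_smul, abs_zero, zero_mul] at this
    exact this.le
  | insert a s ha ih =>
    rw [Finset.sum_insert ha, Finset.sum_insert ha]
    exact (hh_add hR _ _).trans (by linarith)

theorem hh_le {τ : Measure E} [IsFiniteMeasure τ] {R : ℝ}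
    (hR : τ (Metric.closedBall (0 : E) R)ᶜ = 0) (w : E) :
    hh τ w ≤ (∑ i, hh τ (stdOrthonormalBasis ℝ E i)) * ‖w‖ := by
  set b := stdOrthonormalBasis ℝ E with hb
  have h1 : hh τ w ≤ ∑ i, hh τ (⟪b i, w⟫ • b i) := by
    conv_lhs => rw [← b.sum_repr' w]
    exact hh_sum hR _ _
  refine h1.trans ?_
  rw [Finset.sum_mul]
  refine Finset.sum_le_sum fun i _ => ?_
  rw [hh_smul, mul_comm]
  refine mul_le_mul_of_nonneg_left ?_ (hh_nonneg _ _)
  have := abs_real_inner_le_norm (b i) w
  rwa [b.norm_eq_one, one_mul] at this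

theorem hh_lip {τ : Measure E} [IsFiniteMeasure τ] {R C : ℝ}
    (hR : τ (Metric.closedBall (0 : E) R)ᶜ = 0)
    (hC : (∑ i, hh τ (stdOrthonormalBasis ℝ E i)) ≤ C) (v w : E) :
    |hh τ v - hh τ w| ≤ C * ‖v - w‖ := by
  have key : ∀ v w : E, hh τ v - hh τ w ≤ C * ‖v - w‖ := by
    intro v w
    have h1 := hh_add hR (v - w) w
    rw [sub_add_cancel] at h1
    have h2 := hh_le hR (v - w)
    have h3 : (∑ i, hh τ (stdOrthonormalBasis ℝ E i)) * ‖v - w‖ ≤ C * ‖v - w‖ := by gcongr
    linarith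
  rw [abs_le]
  constructor
  · have := key w v
    rw [norm_sub_rev] at this
    linarith
  · exact key v w

end Unf33

open Unf33 in
theorem unf : UNFStmt := by
  intro E _ _ _ _ _ g c hc hgc hgh hg G hG hlim ε hε
  -- the approximating measures
  have hch : ∀ N : ℕ, ∃ (R : ℝ) (τ : Measure E), IsFiniteMeasure τ ∧
      τ (Metric.closedBall (0 : E) R)ᶜ = 0 ∧
      ∀ w : E, (1 - 1 / ((N : ℝ) + 1)) * G N w ≤ ∫ y, |⟪w, y⟫| ∂τ ∧
        ∫ y, |⟪w, y⟫| ∂τ ≤ (1 + 1 / ((N : ℝ) + 1)) * G N w :=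
    fun N => hG N (1 / ((N : ℝ) + 1)) (by positivity)
  choose R τ hfin hR hτ using hch
  have hε0 : Tendsto (fun N : ℕ => 1 / ((N : ℝ) + 1)) atTop (𝓝 0) :=
    tendsto_one_div_add_atTop_nhds_zero_nat
  -- pointwise limit on unit vectors
  have hpt : ∀ w : E, ‖w‖ = 1 → Tendsto (fun N => hh (τ N) w) atTop (𝓝 (g w)) := by
    intro w hw
    have h1 : Tendsto (fun N : ℕ => (1 - 1 / ((N : ℝ) + 1)) * G N w) atTop (𝓝 (g w)) := by
      have := ((tendsto_const_nhds (x := (1:ℝ))).sub hε0).mul (hlim w hw)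
      simpa using this
    have h2 : Tendsto (fun N : ℕ => (1 + 1 / ((N : ℝ) + 1)) * G N w) atTop (𝓝 (g w)) := by
      have := ((tendsto_const_nhds (x := (1:ℝ))).add hε0).mul (hlim w hw)
      simpa using this
    exact tendsto_of_tendsto_of_tendsto_of_le_of_le h1 h2 (fun N => (hτ N w).1)
      (fun N => (hτ N w).2)
  -- uniform Lipschitz bound
  have hsum : Tendsto (fun N => ∑ i, hh (τ N) (stdOrthonormalBasis ℝ E i)) atTop
      (𝓝 (∑ i, g (stdOrthonormalBasis ℝ E i))) :=
    tendsto_finset_sum _ fun i _ => hpt _ ((stdOrthonormalBasis ℝ E).norm_eq_one i)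
  set C : ℝ := |∑ i, g (stdOrthonormalBasis ℝ E i)| + 1 with hC
  have hC0 : 0 < C := by positivity
  have hCev : ∀ᶠ N in atTop, ∑ i, hh (τ N) (stdOrthonormalBasis ℝ E i) ≤ C := by
    have : ∑ i, g (stdOrthonormalBasis ℝ E i) < C := by
      rw [hC]
      have := le_abs_self (∑ i, g (stdOrthonormalBasis ℝ E i))
      linarith
    exact (hsum.eventually_lt_const this).mono fun N h => h.le
  have hglip : ∀ v w : E, ‖v‖ = 1 → ‖w‖ = 1 → |g v - g w| ≤ C * ‖v - w‖ := by
    intro v w hv hw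
    have h1 := ((hpt v hv).sub (hpt w hw)).abs
    exact le_of_tendsto h1 (hCev.mono fun N hN => hh_lip (hR N) hN v w)
  -- a finite net
  set η : ℝ := ε * c with hη
  have hη0 : 0 < η := by positivity
  set δ : ℝ := η / (3 * C) with hδ
  have hδ0 : 0 < δ := by positivity
  obtain ⟨t, hts, htf, hcov⟩ := (isCompact_sphere (0 : E) 1).finite_cover_balls hδ0
  have hnet : ∀ᶠ N in atTop, ∀ w ∈ t, |hh (τ N) w - g w| ≤ η / 3 := by
    rw [htf.eventually_all]
    intro w hw
    have hw1 : ‖w‖ = 1 := by simpa using hts hw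
    have h1 := (hpt w hw1)
    rw [Metric.tendsto_atTop] at h1
    obtain ⟨N₀, hN₀⟩ := h1 (η / 3) (by positivity)
    filter_upwards [eventually_ge_atTop N₀] with N hN
    have := (hN₀ N hN).le
    rwa [Real.dist_eq] at this
  obtain ⟨N, hN1, hN2⟩ := (hCev.and hnet).exists
  have hunit : ∀ w : E, ‖w‖ = 1 → |hh (τ N) w - g w| ≤ ε * g w := by
    intro w hw
    have hw' : w ∈ Metric.sphere (0 : E) 1 := by simpa using hw
    obtain ⟨v, hv, hvw⟩ := Set.mem_iUnion₂.1 (hcov hw')
    have hv1 : ‖v‖ = 1 := by simpa using hts hv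
    rw [Metric.mem_ball, dist_eq_norm] at hvw
    have h1 := hh_lip (hR N) hN1 w v
    have h2 := hN2 v hv
    have h3 := hglip w v hw hv1
    have h4 : C * ‖w - v‖ ≤ η / 3 := by
      calc C * ‖w - v‖ ≤ C * δ := by gcongr
        _ = η / 3 := by rw [hδ]; field_simp
    have h5 : η ≤ ε * g w := by
      rw [hη]
      have := hgc w hw
      gcongr
    rw [abs_le] at *
    constructor <;> linarith [h1.1, h1.2, h2.1, h2.2, h3.1, h3.2]
  refine ⟨R N, τ N, hfin N, hR N, fun w => ?_⟩
  by_cases hw : w = 0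
  · subst hw
    have h0 : g 0 = 0 := by
      have := hgh 0 0
      simpa using this
    simp [h0]
  · have hn : 0 < ‖w‖ := norm_pos_iff.2 hw
    set u : E := ‖w‖⁻¹ • w with hu
    have hu1 : ‖u‖ = 1 := by
      rw [hu, norm_smul, norm_inv, norm_norm, inv_mul_cancel₀ hn.ne']
    have hwu : w = ‖w‖ • u := by
      rw [hu, smul_smul, mul_inv_cancel₀ hn.ne', one_smul]
    have h1 := hunit u hu1
    rw [abs_le] at h1
    have e1 : ∫ y, |⟪w, y⟫| ∂(τ N) = ‖w‖ * hh (τ N) u := by
      have := hh_smul (τ N) ‖w‖ u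
      rw [← hwu, abs_norm] at this
      exact this
    have e2 : g w = ‖w‖ * g u := by
      have := hgh ‖w‖ u
      rwa [← hwu, abs_norm] at this
    rw [e1, e2]
    constructor
    · nlinarith [h1.1, h1.2]
    · nlinarith [h1.1, h1.2]

end Pool.Agent.BPH
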