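import Pool.Agent.BPH.Kit

/-!
# UNI: the law of `g y` for a random rotation `g` is uniform
-/

set_option autoImplicit false

open MeasureTheory Module Set Filter
open scoped RealInnerProductSpace Pointwise Topology ENNReal

namespace Pool.Agent.BPH

namespace UniRow

section aux

variable {V : Type} [NormedAddCommGroup V] [InnerProductSpace ℝ V] [FiniteDimensional ℝ V]
  [MeasurableSpace V] [BorelSpace V]

/-- the law of `g y` does not depend on the unit vector `y` -/
theorem indep {lam : Measure (V →L[ℝ] V)} (hl : IsHaarO lam) {y y' : V} (hy : ‖y‖ = 1)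
    (hy' : ‖y'‖ = 1) {F : V → ℝ} (hF : Measurable F) :
    ∫ g, F (g y) ∂lam = ∫ g, F (g y') ∂lam := by
  have hT : (Submodule.reflection (ℝ ∙ (y' - y))ᗮ) y' = y :=
    Submodule.reflection_sub (hy'.trans hy.symm)
  set T : V ≃ₗᵢ[ℝ] V := Submodule.reflection (ℝ ∙ (y' - y))ᗮ with hTdef
  have h1 := hl.right T
  have hc : Continuous (fun g : V →L[ℝ] V => g.comp (opT T)) :=
    continuous_id.clm_comp continuous_const
  have hm : ∀ z : V, Measurable (fun g : V →L[ℝ] V => F (g z)) := fun z =>
    hF.comp (ContinuousLinearMap.measurable_apply z)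
  have h2 : ∫ g, F (g y') ∂(lam.map (fun g => g.comp (opT T))) =
      ∫ g, F ((g.comp (opT T)) y') ∂lam :=
    integral_map hc.measurable.aemeasurable (hm y').aestronglyMeasurable
  rw [h1] at h2
  rw [h2]
  refine integral_congr_ae (Eventually.of_forall fun g => ?_)
  show F (g y) = F (g (T y'))
  rw [hT]

/-- joint measurability of the evaluation -/
theorem eval_meas : Measurable (fun p : (V →L[ℝ] V) × V => p.1 p.2) :=
  (isBoundedBilinearMap_apply (𝕜 := ℝ) (E := V) (F := V)).continuous.measurable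

theorem average {Ω : Type} [MeasurableSpace Ω] (μ : Measure Ω) [IsProbabilityMeasure μ]
    {w : Ω → V} (hw : Measurable w) (hw1 : ∀ᵐ x ∂μ, ‖w x‖ = 1) {lam : Measure (V →L[ℝ] V)}
    (hl : IsHaarO lam) {F : V → ℝ} (hF : Tst F) {c : ℝ}
    (hc : ∀ T : V ≃ₗᵢ[ℝ] V, ∫ x, F (T (w x)) ∂μ = c) {y : V} (hy : ‖y‖ = 1) :
    ∫ g, F (g y) ∂lam = c := by
  have := hl.prob
  obtain ⟨C, hC⟩ := hF.bdd
  have h1 : ∫ g, F (g y) ∂lam = ∫ x, ∫ g, F (g (w x)) ∂lam ∂μ := by
    have e : ∫ x, ∫ g, F (g (w x)) ∂lam ∂μ = ∫ x, ∫ g, F (g y) ∂lam ∂μ := by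
      refine integral_congr_ae ?_
      filter_upwards [hw1] with x hx
      exact indep hl hx hy hF.meas
    rw [e, integral_const, probReal_univ, one_smul]
  have hm : Measurable (fun p : Ω × (V →L[ℝ] V) => F (p.2 (w p.1))) :=
    hF.meas.comp (eval_meas.comp (measurable_snd.prodMk (hw.comp measurable_fst)))
  have hi : Integrable (fun p : Ω × (V →L[ℝ] V) => F (p.2 (w p.1))) (μ.prod lam) :=
    integrable_bdd hm (Eventually.of_forall fun p => hC _)
  have h2 : ∫ x, ∫ g, F (g (w x)) ∂lam ∂μ = ∫ g, ∫ x, F (g (w x)) ∂μ ∂lam :=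
    integral_integral_swap hi
  rw [h1, h2]
  have e : ∫ g, ∫ x, F (g (w x)) ∂μ ∂lam = ∫ g, c ∂lam := by
    refine integral_congr_ae ?_
    filter_upwards [hl.iso] with g hg
    obtain ⟨T, rfl⟩ := hg
    exact hc T
  rw [e, integral_const, probReal_univ, one_smul]

end aux

section ext

variable {E : Type} [NormedAddCommGroup E] [InnerProductSpace ℝ E] [FiniteDimensional ℝ E]

/-- extension of an isometry of a subspace -/
theorem exists_ext (U : Submodule ℝ E) (h : U ≃ₗᵢ[ℝ] U) :
    ∃ H : E ≃ₗᵢ[ℝ] E, ∀ x : E, U.orthogonalProjectionOnto (H x) =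
      h (U.orthogonalProjectionOnto x) := by
  set L : U →ₗᵢ[ℝ] E := U.subtypeₗᵢ.comp h.toLinearIsometry with hL
  set H0 : E →ₗᵢ[ℝ] E := L.extend with hH0
  have hU : ∀ u : U, H0 (u : E) = (h u : E) := fun u => L.extend_apply u
  have hperp : ∀ z ∈ Uᗮ, H0 z ∈ Uᗮ := by
    intro z hz
    rw [Submodule.mem_orthogonal] at hz ⊢
    intro u hu
    have h1 := hz (h.symm ⟨u, hu⟩ : U) (h.symm ⟨u, hu⟩ : U).2
    have h2 : H0 ((h.symm ⟨u, hu⟩ : U) : E) = u := by
      rw [hU, h.apply_symm_apply]
    rw [← h2, H0.inner_map_map]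
    exact h1
  refine ⟨H0.toLinearIsometryEquiv rfl, fun x => ?_⟩
  show U.orthogonalProjectionOnto (H0 x) = _
  have hx : x = (U.orthogonalProjectionOnto x : E) + (x - U.orthogonalProjectionOnto x) := by
    abel
  have h3 : x - U.orthogonalProjectionOnto x ∈ Uᗮ :=
    U.sub_starProjection_mem_orthogonal x
  conv_lhs => rw [hx]
  rw [map_add, map_add, hU, Submodule.orthogonalProjectionOnto_mem_subspace_eq_self,
    Submodule.orthogonalProjectionOnto_apply_of_mem_orthogonal (hperp _ h3),
    add_zero]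

end ext

end UniRow

theorem uni (sp : SPH) : UNI := by
  constructor
  · intro E _ _ _ _ _ lam hl y hy φ hφ
    have hpr := sp.prob (E := E)
    have hnt : Nontrivial E := ⟨⟨y, 0, by
      intro h
      rw [h, norm_zero] at hy
      exact zero_ne_one hy⟩⟩
    refine UniRow.average (sph E) (w := fun x => x) measurable_id sp.norm hl hφ (fun T => ?_) hy
    have h1 := sp.iso T
    have h2 : ∫ x, φ x ∂((sph E).map T) = ∫ x, φ (T x) ∂sph E :=
      integral_map T.continuous.measurable.aemeasurable hφ.meas.aestronglyMeasurable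
    rw [h1] at h2
    exact h2.symm
  · intro E _ _ _ _ _ U lam hl y hy φ hφ
    have hpr := sp.prob (E := E)
    have hF : Tst (fun u : U => φ (u : E)) :=
      ⟨hφ.meas.comp measurable_subtype_coe, by
        obtain ⟨C, hC⟩ := hφ.bdd
        exact ⟨C, fun u => hC _⟩⟩
    have hUo : Uᗮ ≠ ⊤ := by
      intro h
      have h1 : (y : E) ∈ Uᗮ := by rw [h]; exact Submodule.mem_top
      have h2 := (Submodule.mem_orthogonal _ _).1 h1 (y : E) y.2
      rw [real_inner_self_eq_norm_sq] at h2
      have h3 : ‖(y : E)‖ = 1 := hy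
      rw [h3] at h2
      norm_num at h2
    have hPm : Measurable (fun x : E => U.orthogonalProjectionOnto x) :=
      (U.orthogonalProjectionOnto).continuous.measurable
    refine UniRow.average (sph E) (w := fun x => nrm (U.orthogonalProjectionOnto x))
      (measurable_nrm.comp hPm) ?_ hl hF (fun T => ?_) hy
    · have h0 : ∀ᵐ x ∂sph E, x ∉ (Uᗮ : Set E) := by
        rw [ae_iff]
        simp only [not_not]
        exact sp.null Uᗮ hUo
      filter_upwards [h0] with x hx
      refine norm_nrm ?_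
      intro h
      apply hx
      exact (Submodule.orthogonalProjectionOnto_eq_zero_iff).1 h
    · obtain ⟨H, hH⟩ := UniRow.exists_ext U T
      have h1 := sp.iso H
      have hm : Measurable (fun x : E => φ (nrm (U.starProjection x))) :=
        hφ.meas.comp (measurable_nrm.comp (U.starProjection).continuous.measurable)
      have h2 : ∫ x, φ (nrm (U.starProjection x)) ∂((sph E).map H) =
          ∫ x, φ (nrm (U.starProjection (H x))) ∂sph E :=
        integral_map H.continuous.measurable.aemeasurable hm.aestronglyMeasurable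
      rw [h1] at h2
      unfold mS
      rw [h2]
      refine integral_congr_ae (Eventually.of_forall fun x => ?_)
      show φ ((T (nrm (U.orthogonalProjectionOnto x)) : U) : E) = φ (nrm (U.starProjection (H x)))
      rw [← nrm_iso, ← hH x]
      rfl

end Pool.Agent.BPH
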