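import Pool.Agent.Helper60_BPH.Zap

/-!
# BPH, row VDZ: iterated differences are approximated by zonoids
-/

open MeasureTheory Module Set Filter
open scoped RealInnerProductSpace Pointwise Topology ENNReal

namespace Pool.Agent.BPH

open Pool.Agent.Helper55_PB Pool.Agent.Helper28_PB

namespace Vdz

theorem interior_image {E F : Type} [NormedAddCommGroup E] [InnerProductSpace ℝ E]
    [FiniteDimensional ℝ E] [NormedAddCommGroup F] [InnerProductSpace ℝ F]
    [FiniteDimensional ℝ F] (π : E →L[ℝ] F) (hπ : Function.Surjective π) {M : Set E}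
    (hM : (interior M).Nonempty) : (interior (π '' M)).Nonempty := by
  obtain ⟨x, hx⟩ := hM
  refine ⟨π x, ?_⟩
  have h1 : IsOpen (π '' interior M) := (π.isOpenMap hπ) _ isOpen_interior
  exact interior_maximal (image_mono interior_subset) h1 ⟨x, hx, rfl⟩

theorem aux (mol : MOLStmt) (n : ℕ) : ∀ (E : Type) [NormedAddCommGroup E]
    [InnerProductSpace ℝ E] [FiniteDimensional ℝ E] [MeasurableSpace E] [BorelSpace E]
    (l : List E), l.length = n → ∀ M : Set E, CC M → (interior M).Nonempty →
    ZApp (fun w => VD (w :: l) M) := by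
  induction n with
  | zero =>
    intro E _ _ _ _ _ l hl M hM hi
    rw [List.length_eq_zero_iff] at hl
    subst hl
    by_cases hd : 0 < finrank ℝ E
    · exact mol hd M hM hi
    · have h0 : finrank ℝ E = 0 := by omega
      have hs : Subsingleton E := finrank_zero_iff.mp h0
      have h1 : (fun w : E => VD [w] M) = fun _ => (0 : ℝ) := by
        funext w
        rw [Subsingleton.elim w 0, vd_zero_cons]
      rw [h1]
      exact H60.zapp_zero
  | succ n ih =>
    intro E _ _ _ _ _ l hl M hM hi
    cases l with
    | nil => simp at hl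
    | cons a l =>
      have hl' : l.length = n := by simpa using hl
      have hsw : ∀ w : E, VD (w :: a :: l) M = VD (a :: w :: l) M := fun w =>
        vd_perm _ _ (List.Perm.swap a w l) M
      by_cases ha : a = 0
      · have h1 : (fun w : E => VD (w :: a :: l) M) = fun _ => (0 : ℝ) := by
          funext w
          rw [hsw, ha, vd_zero_cons]
        rw [h1]
        exact H60.zapp_zero
      · have hn : ‖a‖ ≠ 0 := norm_ne_zero_iff.mpr ha
        have huniq : ∀ e : E, a = ‖a‖ • e → e = ‖a‖⁻¹ • a := by
          intro e he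
          rw [eq_inv_smul_iff₀ hn]
          exact he.symm
        set e : E := ‖a‖⁻¹ • a with he
        have hred : ∀ w : E, VD (a :: w :: l) M =
            ‖a‖ * VD (((ℝ ∙ e)ᗮ.orthogonalProjectionOnto w) ::
              l.map ((ℝ ∙ e)ᗮ.orthogonalProjectionOnto))
              ((ℝ ∙ e)ᗮ.orthogonalProjectionOnto '' M) := by
          intro w
          obtain ⟨e', h1, h2, h3⟩ := vd_cons_unit (l := w :: l) hM ha
          have h4 := huniq e' h2
          rw [h3, h4, List.map_cons]
        have hsurj : Function.Surjective ((ℝ ∙ e)ᗮ.orthogonalProjectionOnto) := by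
          intro y
          exact ⟨(y : E), Submodule.orthogonalProjectionOnto_mem_subspace_eq_self y⟩
        have h1 := ih ((ℝ ∙ e)ᗮ : Submodule ℝ E) (l.map ((ℝ ∙ e)ᗮ.orthogonalProjectionOnto))
          (by rw [List.length_map, hl']) ((ℝ ∙ e)ᗮ.orthogonalProjectionOnto '' M)
          (hM.image _) (interior_image _ hsurj hi)
        have h2 := H60.zapp_smul (H60.zapp_sub _ h1) (norm_nonneg a)
        have h3 : (fun w : E => VD (w :: a :: l) M) = fun w : E =>
            ‖a‖ * VD (((ℝ ∙ e)ᗮ.orthogonalProjectionOnto w) ::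
              l.map ((ℝ ∙ e)ᗮ.orthogonalProjectionOnto))
              ((ℝ ∙ e)ᗮ.orthogonalProjectionOnto '' M) := by
          funext w
          rw [hsw, hred]
        rw [h3]
        exact h2

end Vdz

/-- VDZ. -/
theorem vdz (mol : MOLStmt) : VDZStmt := fun {E} _ _ _ _ _ l M hM hi =>
  Vdz.aux mol l.length E l rfl M hM hi

end Pool.Agent.BPH
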