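import Pool.Agent.Helper60_BPH.Zap

/-!
# BPH, row ZAK: a solution is a limit of zonoids
-/

open MeasureTheory Module Set Filter
open scoped RealInnerProductSpace Pointwise Topology ENNReal

namespace Pool.Agent.BPH

open Pool.Agent.Helper55_PB Pool.Agent.Helper28_PB

/-- ZAK. -/
theorem zak (vdz : VDZStmt) (unf : UNFStmt) : ZAKStmt := by
  intro E _ _ _ _ _ m K c hd hm hC
  have hK := hC.cc
  have hlim : LimStmt := lim_of vd_sum
  have hnt : Nontrivial E := by
    apply Module.nontrivial_of_finrank_pos (R := ℝ)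
    omega
  obtain ⟨c1, T, μ, hc1, hμ, hM⟩ := hlim (E := E)
  have hint : (interior K).Nonempty := ⟨0, hC.zero_mem⟩
  -- a ball
  obtain ⟨r, hr, hball⟩ := Metric.mem_nhds_iff.mp (mem_interior_iff_mem_nhds.mp hC.zero_mem)
  have hcb : Metric.closedBall (0 : E) (r / 2) ⊆ K :=
    (Metric.closedBall_subset_ball (by linarith)).trans hball
  have hlow : ∀ w : E, ‖w‖ = 1 → r / 2 ≤ supportFn K w := by
    intro w hw
    have h := le_supportFn_of_ball hK.cpt (by linarith : 0 ≤ r / 2) hcb w
    rwa [hw, mul_one] at h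
  have hhom : ∀ (t : ℝ) (w : E), supportFn K (t • w) = |t| * supportFn K w := by
    intro t w
    rcases le_total 0 t with ht | ht
    · rw [abs_of_nonneg ht, supportFn_smul hK.cpt hK.ne ht]
    · have h1 : t • w = -((-t) • w) := by rw [neg_smul, neg_neg]
      rw [h1, hC.even, supportFn_smul hK.cpt hK.ne (neg_nonneg.mpr ht), abs_of_nonpos ht]
  have hcm : 0 < c * c1 ^ m := mul_pos hC.pos (pow_pos hc1 m)
  refine unf (supportFn K) (r / 2) (by linarith) hlow hhom
    (continuous_supportFn hK.cpt hK.ne)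
    (fun N w => ∑ s ∈ (T N).powersetCard m, ((c * c1 ^ m)⁻¹ * ∏ p ∈ s, μ N p) *
      VD (w :: s.toList) K) ?_ ?_
  · intro N
    refine H60.zapp_sum _ _ (fun (s : Finset E) (w : E) => VD (w :: s.toList) K) ?_ ?_
    · intro s _
      exact mul_nonneg (inv_nonneg.mpr hcm.le) (Finset.prod_nonneg fun p _ => hμ N p)
    · intro s _
      exact vdz s.toList K hK hint
  · intro w hw
    have h1 := (hM (K + segment ℝ (0 : E) w) (hK.add w)).2 m (by omega)
    have h2 := (hM K hK).2 m (by omega)
    have h3 := (h1.sub h2).const_mul (c * c1 ^ m)⁻¹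
    have h4 : (c * c1 ^ m)⁻¹ * (sc (K + segment ℝ (0 : E) w) m * c1 ^ m - sc K m * c1 ^ m) =
        supportFn K w := by
      rw [← sub_mul, ← sc_proj_eq hlim (by omega) hK hw hm, ← hC.eq w hw]
      have h5 := hC.pos.ne'
      have h6 := (pow_pos hc1 m).ne'
      field_simp
    rw [h4] at h3
    refine h3.congr ?_
    intro N
    rw [← Finset.sum_sub_distrib, Finset.mul_sum]
    refine Finset.sum_congr rfl fun s _ => ?_
    simp only [VD]
    ring

end Pool.Agent.BPH
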