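import Pool.Agent.BPH.Stmts

/-!
# BPH, row ZFU: Fubini, symmetry and positivity for `ZZ` and `YY`
-/

open MeasureTheory Module Set Filter
open scoped RealInnerProductSpace Pointwise Topology ENNReal

namespace Pool.Agent.BPH

section

variable {E : Type} [NormedAddCommGroup E] [InnerProductSpace ℝ E] [FiniteDimensional ℝ E]
  [MeasurableSpace E] [BorelSpace E] [Nontrivial E]

private theorem zfu_gw_nonneg {i : ℕ} (v : Fin i → E) : 0 ≤ gw v := Real.sqrt_nonneg _

private theorem zfu_norm (hs : SPH) (i : ℕ) : ∀ᵐ v ∂sphP E i, ∀ l, ‖v l‖ = 1 := by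
  haveI := hs.prob (E := E)
  rw [ae_all_iff]
  intro l
  exact (Measure.quasiMeasurePreserving_eval (fun _ : Fin i => sph E) l).ae (hs.norm (E := E))

private theorem zfu_gw_le (gwb : GWB) (hs : SPH) (i : ℕ) : ∀ᵐ v ∂sphP E i, gw v ≤ 1 := by
  filter_upwards [zfu_norm hs i] with v hv
  refine (gwb.le v).trans ?_
  simp [hv]

private theorem zfu_gw_meas (gwb : GWB) (i : ℕ) : Measurable (fun v : Fin i → E => gw v) :=
  (gwb.cont).measurable

private theorem zfu_int_gen (gwb : GWB) (hs : SPH) (i : ℕ) (G : (Fin i → E) → ℝ)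
    (hG : Measurable G) (C : ℝ) (hC : ∀ v, |G v| ≤ C) :
    Integrable (fun v : Fin i → E => gw v * G v) (sphP E i) := by
  haveI := hs.prob (E := E)
  haveI : IsProbabilityMeasure (sphP E i) := by unfold sphP; infer_instance
  have hm : AEStronglyMeasurable (fun v : Fin i → E => gw v * G v) (sphP E i) :=
    ((zfu_gw_meas gwb i).mul hG).aestronglyMeasurable
  refine Integrable.of_bound hm (max C 0) ?_
  filter_upwards [zfu_gw_le gwb hs i] with v hv
  rw [Real.norm_eq_abs, abs_mul, abs_of_nonneg (zfu_gw_nonneg v)]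
  calc gw v * |G v| ≤ 1 * |G v| := by gcongr
    _ ≤ max C 0 := by rw [one_mul]; exact (hC v).trans (le_max_left _ _)

private theorem zfu_prod_bdd {i : ℕ} {f : E → ℝ} (hf : Dens f) :
    ∃ C : ℝ, 0 ≤ C ∧ ∀ v : Fin i → E, |∏ l, f (v l)| ≤ C := by
  obtain ⟨C, hC⟩ := hf.bdd
  have hC0 : 0 ≤ C := (hf.nonneg 0).trans (hC 0)
  refine ⟨C ^ i, pow_nonneg hC0 i, fun v => ?_⟩
  rw [Finset.abs_prod]
  calc ∏ l, |f (v l)| ≤ ∏ _l : Fin i, C := by
        refine Finset.prod_le_prod (fun l _ => abs_nonneg _) (fun l _ => ?_)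
        rw [abs_of_nonneg (hf.nonneg _)]; exact hC _
    _ = C ^ i := by simp

private theorem zfu_prod_meas {i : ℕ} {f : E → ℝ} (hf : Dens f) :
    Measurable (fun v : Fin i → E => ∏ l, f (v l)) :=
  Finset.measurable_prod _ (fun l _ => hf.meas.comp (measurable_pi_apply l))

private theorem zfu_int (gwb : GWB) (hs : SPH) (i : ℕ) (f : E → ℝ) (hf : Dens f) :
    Integrable (fun v : Fin i → E => gw v * ∏ l, f (v l)) (sphP E i) := by
  obtain ⟨C, _, hC⟩ := zfu_prod_bdd (i := i) hf
  exact zfu_int_gen gwb hs i _ (zfu_prod_meas hf) C hC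

private theorem zfu_pos (gwb : GWB) (hs : SPH) (spi : SPIStmt) (i : ℕ) (f : E → ℝ)
    (hi : i ≤ finrank ℝ E) (hf : Dens f) : 0 < ZZ i f := by
  haveI := hs.prob (E := E)
  have hnn : 0 ≤ ZZ i f := integral_nonneg fun v =>
    mul_nonneg (zfu_gw_nonneg v) (Finset.prod_nonneg fun l _ => hf.nonneg _)
  refine lt_of_le_of_ne hnn fun h0 => ?_
  have h1 : (fun v : Fin i → E => gw v * ∏ l, f (v l)) =ᵐ[sphP E i] 0 := by
    rw [← integral_eq_zero_iff_of_nonneg (fun v => mul_nonneg (zfu_gw_nonneg v)
      (Finset.prod_nonneg fun l _ => hf.nonneg _)) (zfu_int gwb hs i f hf)]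
    exact h0.symm
  have h2 : (fun v : Fin i → E => ∏ l, f (v l)) =ᵐ[sphP E i] 0 := by
    filter_upwards [h1, spi (E := E) i hi] with v hv hli
    have hpos : 0 < gw v := (gwb.pos_iff v).2 hli.1
    have : gw v * ∏ l, f (v l) = 0 := hv
    rcases mul_eq_zero.1 this with h | h
    · exact absurd h hpos.ne'
    · exact h
  have h3 : ∫ v : Fin i → E, ∏ l, f (v l) ∂sphP E i = 0 := by
    rw [integral_congr_ae h2]; simp
  have h4 : ∫ v : Fin i → E, ∏ l, f (v l) ∂sphP E i = 1 := by
    unfold sphP
    have := integral_fintype_prod_eq_prod (𝕜 := ℝ) (μ := fun _ : Fin i => sph E)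
      (fun _ : Fin i => f)
    rw [this]
    simp [hf.int]
  linarith

private theorem zfu_perm_insert (gwb : GWB) {j : ℕ} (l : Fin (j + 1)) (a : E) (v : Fin j → E) :
    gw (Fin.insertNth (α := fun _ => E) l a v) = gw (cns a v) := by
  have h := gwb.perm (cns a v) (Fin.cycleRange l)
  rw [← h]
  congr 1
  funext k
  unfold cns
  refine Fin.succAboveCases l ?_ (fun k' => ?_) k
  · simp
  · simp

private theorem zfu_key (gwb : GWB) (hs : SPH) (j : ℕ) (f : E → ℝ) (hf : Dens f) (F : E → ℝ)
    (hF : Measurable F) (hb : ∃ C, ∀ x, |F x| ≤ C) (l : Fin (j + 1)) :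
    ∫ v, gw v * (F (v l) * ∏ k, f (v (l.succAbove k))) ∂sphP E (j + 1) =
      ∫ x, F x * YY j f x ∂sph E := by
  haveI := hs.prob (E := E)
  haveI : IsProbabilityMeasure (sphP E j) := by unfold sphP; infer_instance
  obtain ⟨C, hC⟩ := hb
  obtain ⟨C', hC'0, hC'⟩ := zfu_prod_bdd (i := j) hf
  set Φ : (Fin (j + 1) → E) → ℝ := fun v => gw v * (F (v l) * ∏ k, f (v (l.succAbove k)))
    with hΦ
  have hGm : Measurable (fun v : Fin (j + 1) → E => F (v l) * ∏ k, f (v (l.succAbove k))) := by
    refine (hF.comp (measurable_pi_apply l)).mul ?_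
    exact Finset.measurable_prod _ (fun k _ => hf.meas.comp (measurable_pi_apply _))
  have hΦi : Integrable Φ (sphP E (j + 1)) := by
    refine zfu_int_gen gwb hs (j + 1) _ hGm (C * C') fun v => ?_
    rw [abs_mul]
    have h1 := hC (v l)
    have h2 := hC' (fun k => v (l.succAbove k))
    exact mul_le_mul h1 h2 (abs_nonneg _) ((abs_nonneg _).trans h1)
  have hmp := (measurePreserving_piFinSuccAbove (fun _ : Fin (j + 1) => sph E) l).symm
  have hmp' : MeasurePreserving (MeasurableEquiv.piFinSuccAbove (fun _ : Fin (j + 1) => E) l).symm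
      ((sph E).prod (sphP E j)) (sphP E (j + 1)) := hmp
  have e1 : ∫ v, Φ v ∂sphP E (j + 1) = ∫ q : E × (Fin j → E),
      Φ ((MeasurableEquiv.piFinSuccAbove (fun _ : Fin (j + 1) => E) l).symm q)
        ∂((sph E).prod (sphP E j)) :=
    (hmp'.integral_comp (MeasurableEquiv.measurableEmbedding _) Φ).symm
  have hval : ∀ q : E × (Fin j → E),
      Φ ((MeasurableEquiv.piFinSuccAbove (fun _ : Fin (j + 1) => E) l).symm q) =
        F q.1 * (gw (cns q.1 q.2) * ∏ k, f (q.2 k)) := by
    intro q
    have hq : (MeasurableEquiv.piFinSuccAbove (fun _ : Fin (j + 1) => E) l).symm q =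
      Fin.insertNth (α := fun _ => E) l q.1 q.2 := rfl
    rw [hq, hΦ]
    simp only [Fin.insertNth_apply_same, Fin.insertNth_apply_succAbove]
    rw [zfu_perm_insert gwb l q.1 q.2]
    ring
  have hint : Integrable (fun q : E × (Fin j → E) =>
      F q.1 * (gw (cns q.1 q.2) * ∏ k, f (q.2 k))) ((sph E).prod (sphP E j)) := by
    have := (hmp'.integrable_comp_emb (MeasurableEquiv.measurableEmbedding _) (g := Φ)).2 hΦi
    refine this.congr (Eventually.of_forall fun q => ?_)
    exact hval q
  rw [e1, integral_congr_ae (Eventually.of_forall hval), integral_prod _ hint]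
  refine integral_congr_ae (Eventually.of_forall fun x => ?_)
  simp only [YY]
  rw [integral_const_mul]

private theorem zfu_cns_cont {j : ℕ} :
    Continuous (fun q : E × (Fin j → E) => cns q.1 q.2) := by
  unfold cns
  refine continuous_pi fun k => ?_
  refine Fin.cases ?_ (fun k' => ?_) k
  · simpa using continuous_fst
  · simp only [Fin.cons_succ]
    exact (continuous_apply k').comp continuous_snd

end

/-- row ZFU -/
theorem zfu (gwa : GWAStmt) (gwb : GWB) (sph : SPH) (spi : SPIStmt) : ZFU where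
  int := fun i f hf => zfu_int gwb sph i f hf
  pos := fun i f hi hf => zfu_pos gwb sph spi i f hi hf
  succ := by
    intro E _ _ _ _ _ _ j f hf
    obtain ⟨C, hC⟩ := hf.bdd
    have h := zfu_key gwb sph j f hf f hf.meas
      ⟨C, fun x => by rw [abs_of_nonneg (hf.nonneg x)]; exact hC x⟩ 0
    rw [← h]
    unfold ZZ
    refine integral_congr_ae (Eventually.of_forall fun v => ?_)
    simp only
    rw [Fin.prod_univ_succAbove _ (0 : Fin (j + 1))]
  symm := by
    intro E _ _ _ _ _ _ j f h hf hh hb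
    haveI := sph.prob (E := E)
    have key : ∀ l : Fin (j + 1),
        ∫ v, gw v * ((∏ k, f (v k)) * h (v l)) ∂sphP E (j + 1) =
          ∫ x, h x * f x * YY j f x ∂Pool.Agent.BPH.sph E := by
      intro l
      rw [← zfu_key gwb sph j f hf (fun x => h x * f x) (hh.mul hf.meas) hb l]
      refine integral_congr_ae (Eventually.of_forall fun v => ?_)
      simp only
      rw [Fin.prod_univ_succAbove _ l]
      ring
    have hint : ∀ l : Fin (j + 1), Integrable
        (fun v : Fin (j + 1) → E => gw v * ((∏ k, f (v k)) * h (v l))) (sphP E (j + 1)) := by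
      intro l
      obtain ⟨C, hC⟩ := hb
      obtain ⟨C', hC'0, hC'⟩ := zfu_prod_bdd (i := j) hf
      refine zfu_int_gen gwb sph (j + 1) _ ?_ (C * C') fun v => ?_
      · exact (zfu_prod_meas hf).mul (hh.comp (measurable_pi_apply l))
      · have e : (∏ k, f (v k)) * h (v l) =
            (h (v l) * f (v l)) * ∏ k, f (v (l.succAbove k)) := by
          rw [Fin.prod_univ_succAbove _ l]; ring
        rw [e, abs_mul]
        have h1 := hC (v l)
        have h2 := hC' (fun k => v (l.succAbove k))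
        exact mul_le_mul h1 h2 (abs_nonneg _) ((abs_nonneg _).trans h1)
    have e : ∀ v : Fin (j + 1) → E, gw v * ((∏ l, f (v l)) * ∑ l, h (v l)) =
        ∑ l, gw v * ((∏ k, f (v k)) * h (v l)) := by
      intro v
      rw [Finset.mul_sum, Finset.mul_sum]
    rw [integral_congr_ae (Eventually.of_forall e), integral_finset_sum _ (fun l _ => hint l),
      Finset.sum_congr rfl (fun l _ => key l)]
    simp
  meas := by
    intro E _ _ _ _ _ _ j f hf
    haveI := sph.prob (E := E)
    haveI : IsProbabilityMeasure (sphP E j) := by unfold sphP; infer_instance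
    have hm : Measurable (fun q : E × (Fin j → E) => gw (cns q.1 q.2) * ∏ l, f (q.2 l)) :=
      ((gwb.cont (i := j + 1)).comp zfu_cns_cont).measurable.mul
        ((zfu_prod_meas hf).comp measurable_snd)
    have := hm.stronglyMeasurable.integral_prod_right' (ν := sphP E j)
    exact this.measurable
  nonneg := by
    intro E _ _ _ _ _ _ j f x hf
    refine ⟨integral_nonneg fun v => mul_nonneg (Real.sqrt_nonneg _)
      (Finset.prod_nonneg fun l _ => hf.nonneg _), ?_⟩
    have hi := (zfu_int gwb sph j f hf).const_mul ‖x‖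
    unfold YY ZZ
    rw [← integral_const_mul]
    refine integral_mono_of_nonneg (Eventually.of_forall fun v => mul_nonneg (Real.sqrt_nonneg _)
      (Finset.prod_nonneg fun l _ => hf.nonneg _)) hi (Eventually.of_forall fun v => ?_)
    simp only
    have h1 := (gwa x v).2
    have h2 : ‖pp v x‖ ≤ ‖x‖ := Submodule.norm_starProjection_apply_le _ x
    rw [h1]
    have hp : 0 ≤ ∏ l, f (v l) := Finset.prod_nonneg fun l _ => hf.nonneg _
    have hg : 0 ≤ gw v := Real.sqrt_nonneg _
    nlinarith [mul_nonneg hg hp, mul_le_mul_of_nonneg_left h2 (mul_nonneg hg hp)]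

end Pool.Agent.BPH
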