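import Pool.Agent.BPH.Simp

/-!
# Row ZOD: the `i`-th projection body of a zonoid
-/

open MeasureTheory Module Set Filter
open scoped RealInnerProductSpace Pointwise Topology ENNReal

namespace Pool.Agent.BPH

open Pool.Agent.Helper55_PB Pool.Agent.Helper28_PB

section geom

variable {E : Type} [NormedAddCommGroup E] [InnerProductSpace ℝ E]

/-- inclusion from the order of the support functions -/
theorem subset_of_supp [CompleteSpace E] {A B : Set E} (hA : IsCompact A) (hB : CC B)
    (h : ∀ u : E, supportFn A u ≤ supportFn B u) : A ⊆ B := by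
  intro z hz
  by_contra hcon
  obtain ⟨f, s, hf1, hf2⟩ := geometric_hahn_banach_closed_point hB.cvx hB.cpt.isClosed hcon
  set u := (InnerProductSpace.toDual ℝ E).symm f with hu
  have hfu : ∀ x : E, f x = ⟪x, u⟫ := by
    intro x
    rw [real_inner_comm, hu, InnerProductSpace.toDual_symm_apply]
  have h1 : supportFn B u ≤ s := supportFn_le hB.ne (fun x hx => by
    rw [← hfu]; exact (hf1 x hx).le)
  have h2 := inner_le_supportFn hA hz u
  rw [← hfu] at h2
  linarith [h u]

theorem supportFn_seg_symm (a u : E) : supportFn (segment ℝ (-a) a) u = |⟪a, u⟫| := by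
  have hc : IsCompact (segment ℝ (-a) a) := isCompact_segment _ _
  rcases le_total 0 ⟪a, u⟫ with h | h
  · rw [abs_of_nonneg h, supportFn_eq hc (right_mem_segment _ _ _)]
    intro z hz
    rw [segment_eq_image] at hz
    obtain ⟨θ, ⟨h0, h1⟩, rfl⟩ := hz
    simp only [smul_neg]
    rw [inner_add_left, inner_neg_left, real_inner_smul_left, real_inner_smul_left]
    nlinarith
  · rw [abs_of_nonpos h, supportFn_eq hc (left_mem_segment _ _ _), inner_neg_left]
    intro z hz
    rw [segment_eq_image] at hz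
    obtain ⟨θ, ⟨h0, h1⟩, rfl⟩ := hz
    simp only [smul_neg]
    rw [inner_add_left, inner_neg_left, real_inner_smul_left, real_inner_smul_left, inner_neg_left]
    nlinarith

theorem zt_props {ι : Type} (T : Finset ι) (b : ι → E) :
    CC (∑ l ∈ T, segment ℝ (-(b l)) (b l)) ∧
    ∀ u : E, supportFn (∑ l ∈ T, segment ℝ (-(b l)) (b l)) u = ∑ l ∈ T, |⟪b l, u⟫| := by
  classical
  induction T using Finset.induction_on with
  | empty =>
    simp only [Finset.sum_empty]
    refine ⟨⟨isCompact_singleton, convex_singleton _, singleton_nonempty _⟩, ?_⟩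
    intro u
    have : supportFn ({0} : Set E) u = ⟪(0 : E), u⟫ := by
      refine supportFn_eq isCompact_singleton (mem_singleton _) ?_
      intro z hz
      rw [mem_singleton_iff] at hz
      rw [hz]
    rw [inner_zero_left] at this
    exact this
  | insert a T ha ih =>
    obtain ⟨h1, h4⟩ := ih
    rw [Finset.sum_insert ha]
    have hs : IsCompact (segment ℝ (-(b a)) (b a)) := isCompact_segment _ _
    refine ⟨⟨hs.add h1.cpt, (convex_segment _ _).add h1.cvx,
      Set.Nonempty.add ⟨_, left_mem_segment _ _ _⟩ h1.ne⟩, ?_⟩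
    intro u
    rw [supportFn_add_set hs h1.cpt ⟨_, left_mem_segment _ _ _⟩ h1.ne, supportFn_seg_symm, h4,
      Finset.sum_insert ha]

theorem image_zt {F : Type} [NormedAddCommGroup F] [InnerProductSpace ℝ F] (P : E →L[ℝ] F)
    {ι : Type} (T : Finset ι) (b : ι → E) :
    P '' (∑ l ∈ T, segment ℝ (-(b l)) (b l)) = ∑ l ∈ T, segment ℝ (-(P (b l))) (P (b l)) := by
  classical
  induction T using Finset.induction_on with
  | empty =>
    simp only [Finset.sum_empty]
    show P '' ({0} : Set E) = ({0} : Set F)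
    rw [Set.image_singleton, map_zero]
  | insert a T ha ih =>
    rw [Finset.sum_insert ha, Finset.sum_insert ha, Set.image_add, ih]
    congr 1
    rw [segment_eq_image, segment_eq_image, Set.image_image]
    refine Set.image_congr fun t _ => ?_
    simp

end geom

section hz

variable {E : Type} [NormedAddCommGroup E] [InnerProductSpace ℝ E] [FiniteDimensional ℝ E]
  [MeasurableSpace E] [BorelSpace E]

theorem hz_smul (f : E → ℝ) (t : ℝ) (u : E) : hz f (t • u) = |t| * hz f u := by
  unfold hz
  rw [← integral_const_mul]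
  refine integral_congr_ae (Eventually.of_forall (fun x => ?_))
  simp only [real_inner_smul_left, abs_mul]
  ring

theorem le_hz {f : E → ℝ} {c : ℝ} (hcf : ∀ u : E, ‖u‖ = 1 → c ≤ hz f u) (u : E) :
    c * ‖u‖ ≤ hz f u := by
  by_cases hu : u = 0
  · rw [hu, norm_zero, mul_zero]
    simp [hz]
  · obtain ⟨e, he, hue⟩ := exists_unit u hu
    have h2 : hz f u = ‖u‖ * hz f e := by
      conv_lhs => rw [hue]
      rw [hz_smul, abs_norm]
    rw [h2, mul_comm]
    exact mul_le_mul_of_nonneg_left (hcf e he) (norm_nonneg u)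

/-- comparison of the support functions -/
theorem hz_simple (sp : SPH) [Nontrivial E] {f : E → ℝ} (hf : Dens f) {δ : ℝ} (hδ : 0 < δ)
    {r : SimpleFunc E E} (hr : ∀ x ∈ Metric.closedBall (0 : E) 1, ‖r x - x‖ < δ) (u : E) :
    |∫ x, |⟪u, r x⟫| * f x ∂sph E - hz f u| ≤ δ * ‖u‖ := by
  have := sp.prob (E := E)
  have hI2 := hf.integrable_inner sp u
  obtain ⟨C, hC⟩ := hf.bdd
  have hI1 : Integrable (fun x => |⟪u, r x⟫| * f x) (sph E) := by
    have h1 : Measurable (fun x => |⟪u, r x⟫| * f x) := by
      refine Measurable.mul ?_ hf.meas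
      have : Continuous (fun y : E => |⟪u, y⟫|) := by fun_prop
      exact this.measurable.comp r.measurable
    refine integrable_bdd h1 (C := ‖u‖ * (δ + 1) * C) ?_
    filter_upwards [sp.norm (E := E)] with x hx
    rw [abs_mul, abs_abs, abs_of_nonneg (hf.nonneg x)]
    have h2 := abs_real_inner_le_norm u (r x)
    have h3 := (hr x (by rw [mem_closedBall_zero_iff]; exact hx.le)).le
    have h4 : ‖r x‖ ≤ ‖r x - x‖ + ‖x‖ := by
      have := norm_add_le (r x - x) x
      simpa using this
    have h5 : ‖u‖ * ‖r x‖ ≤ ‖u‖ * (δ + 1) :=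
      mul_le_mul_of_nonneg_left (by linarith) (norm_nonneg _)
    exact mul_le_mul (h2.trans h5) (hC x) (hf.nonneg x) (by positivity)
  unfold hz
  rw [← integral_sub hI1 hI2, ← Real.norm_eq_abs]
  have h1 : ∀ᵐ x ∂sph E, ‖|⟪u, r x⟫| * f x - |⟪u, x⟫| * f x‖ ≤ δ * ‖u‖ * f x := by
    filter_upwards [sp.norm (E := E)] with x hx
    have h3 := (hr x (by rw [mem_closedBall_zero_iff]; exact hx.le)).le
    rw [← sub_mul, Real.norm_eq_abs, abs_mul, abs_of_nonneg (hf.nonneg x)]
    refine mul_le_mul_of_nonneg_right ?_ (hf.nonneg x)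
    refine (abs_abs_sub_abs_le _ _).trans ?_
    rw [← inner_sub_right]
    refine (abs_real_inner_le_norm _ _).trans ?_
    rw [mul_comm]
    exact mul_le_mul_of_nonneg_right h3 (norm_nonneg _)
  refine (norm_integral_le_of_norm_le ((hf.integrable sp).const_mul _) h1).trans ?_
  rw [integral_const_mul, hf.int, mul_one]

end hz

theorem zod (sp : SPH) (gwb : GWB) (zot : ZOTStmt) : ZODStmt := by
  intro E _ _ _ _ _ i m hm hn f hf c hc hcf M hM hMf w hw
  have hnt : Nontrivial E := Module.nontrivial_of_finrank_pos (R := ℝ) (by omega)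
  have hlim : LimStmt := lim_of facts.sum
  have := sp.prob (E := E)
  have hVd : finrank ℝ ((ℝ ∙ w)ᗮ : Submodule ℝ E) + 1 = finrank ℝ E := finrank_perp hw
  have hproj : ∀ v : Fin i → E,
      gw (fun l => (ℝ ∙ w)ᗮ.orthogonalProjectionOnto (v l)) = gw (cns w v) := gwb.proj w hw
  set V : Submodule ℝ E := (ℝ ∙ w)ᗮ with hV
  set P : E →L[ℝ] V := V.orthogonalProjectionOnto with hP
  have hV0 : 0 < finrank ℝ V := by omega
  -- simple functions
  have hpos : ∀ N : ℕ, (0 : ℝ) < 1 / ((N : ℝ) + 1) := fun N => by positivity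
  choose r hr using fun N : ℕ => exists_simple (E := E) 1 (hpos N)
  set b : ∀ N : ℕ, (r N).range → E := fun N p => wr (r N) f p • (p : E) with hb
  set Z : ℕ → Set E := fun N => ∑ p : (r N).range, segment ℝ (-(b N p)) (b N p) with hZ
  have hZc : ∀ N, CC (Z N) := fun N => (zt_props Finset.univ (b N)).1
  have hs1 : ∀ N u, supportFn (Z N) u = ∫ x, |⟪u, r N x⟫| * f x ∂sph E := by
    intro N u
    rw [(zt_props Finset.univ (b N)).2 u,
      ← simple_int1 (r N) (hf.integrable sp) (fun y => |⟪u, y⟫|)]
    refine Finset.sum_congr rfl ?_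
    intro p _
    simp only [hb]
    rw [real_inner_smul_left, abs_mul, abs_of_nonneg (wr_nonneg _ hf.nonneg _), mul_comm,
      real_inner_comm]
  have hs2 : ∀ N u, |supportFn (Z N) u - supportFn M u| ≤
      1 / ((N : ℝ) + 1) / c * supportFn M u := by
    intro N u
    rw [hs1, hMf]
    refine (hz_simple sp hf (hpos N) (hr N) u).trans ?_
    have h1 := le_hz hcf u
    have h2 : ‖u‖ ≤ hz f u / c := by
      rw [le_div_iff₀ hc, mul_comm]
      exact h1
    calc 1 / ((N : ℝ) + 1) * ‖u‖ ≤ 1 / ((N : ℝ) + 1) * (hz f u / c) :=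
          mul_le_mul_of_nonneg_left h2 (hpos N).le
      _ = 1 / ((N : ℝ) + 1) / c * hz f u := by ring
  set ε : ℕ → ℝ := fun N => 1 / ((N : ℝ) + 1) / c with hε
  have hε0 : ∀ N, 0 < ε N := fun N => div_pos (hpos N) hc
  have hεt : Tendsto ε atTop (𝓝 0) := by
    have := (tendsto_one_div_add_atTop_nhds_zero_nat (𝕜 := ℝ)).div_const c
    rw [zero_div] at this
    exact this
  have hMP : CC (P '' M) := hM.image P
  set S := sc (P '' M) m with hS
  have hscal : ∀ t : ℝ, 0 < t → sc (P '' (t • M)) m = t ^ i * S := by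
    intro t ht
    rw [Set.image_smul_comm P t M (fun x => map_smul P t x), sc_smul hlim hV0 hMP ht (by omega)]
    congr 2
    omega
  have hsupp : ∀ t : ℝ, 0 < t → ∀ u, supportFn (t • M) u = t * supportFn M u := by
    intro t ht u
    exact supportFn_smul_set hM.cpt hM.ne ht.le u
  have hup : ∀ N, sc (P '' (Z N)) m ≤ (1 + ε N) ^ i * S := by
    intro N
    have ht : 0 < 1 + ε N := by linarith [hε0 N]
    rw [← hscal _ ht]
    refine sc_mono hlim facts.mono hV0 ((hZc N).image P) ((CC_smul hM _).image P) (by omega) ?_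
    refine Set.image_mono (subset_of_supp (hZc N).cpt (CC_smul hM _) (fun u => ?_))
    rw [hsupp _ ht]
    have h := (abs_le.mp (hs2 N u)).2
    linarith
  have hlo : ∀ N, ε N < 1 → (1 - ε N) ^ i * S ≤ sc (P '' (Z N)) m := by
    intro N hN
    have ht : 0 < 1 - ε N := by linarith
    rw [← hscal _ ht]
    refine sc_mono hlim facts.mono hV0 ((CC_smul hM _).image P) ((hZc N).image P) (by omega) ?_
    refine Set.image_mono (subset_of_supp (CC_smul hM _).cpt (hZc N) (fun u => ?_))
    rw [hsupp _ ht]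
    have h := (abs_le.mp (hs2 N u)).1
    linarith
  set I : ℕ → ℝ := fun N => ∫ v, gw (cns w (fun l => r N (v l))) * ∏ l, f (v l) ∂sphP E i with hI
  have hval : ∀ N, sc (P '' (Z N)) m = ballVol m * (2 ^ i / (i.factorial : ℝ)) * I N := by
    intro N
    rw [hZ]
    simp only
    rw [image_zt P Finset.univ (b N), zot (fun p => P (b N p)) i m hm (by omega)]
    congr 1
    simp only [hI]
    rw [← simple_int sp (r N) (hf.integrable sp) (fun v => gw (cns w v))]
    refine Finset.sum_congr rfl ?_
    intro v _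
    rw [← hproj]
    simp only [hb, map_smul]
    rw [gwb.smul (fun l => P (v l : E)) (fun l => wr (r N) f (v l)), abs_of_nonneg
      (Finset.prod_nonneg (fun l _ => wr_nonneg _ hf.nonneg _)), mul_comm]
  have hG : Continuous (fun q : E × (Fin i → E) => gw (cns q.1 q.2)) :=
    gwb.cont.comp continuous_cns
  have hIt : Tendsto I atTop (𝓝 (YY i f w)) :=
    tendsto_simple sp hG hf hr (a := fun _ => w) (a₀ := w) tendsto_const_nhds
      (fun _ => by rw [hw]; norm_num)
  have hleft : Tendsto (fun N => sc (P '' (Z N)) m) atTop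
      (𝓝 (ballVol m * (2 ^ i / (i.factorial : ℝ)) * YY i f w)) := by
    simp_rw [hval]
    exact hIt.const_mul _
  have h1 : Tendsto (fun N => (1 + ε N) ^ i * S) atTop (𝓝 S) := by
    have : Tendsto (fun N => (1 + ε N) ^ i * S) atTop (𝓝 ((1 + 0) ^ i * S)) :=
      ((hεt.const_add 1).pow i).mul_const S
    simpa using this
  have h2 : Tendsto (fun N => (1 - ε N) ^ i * S) atTop (𝓝 S) := by
    have : Tendsto (fun N => (1 - ε N) ^ i * S) atTop (𝓝 ((1 - 0) ^ i * S)) :=
      ((hεt.const_sub 1).pow i).mul_const S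
    simpa using this
  refine le_antisymm ?_ ?_
  · refine le_of_tendsto_of_tendsto h2 hleft ?_
    filter_upwards [hεt.eventually (gt_mem_nhds one_pos)] with N hN
    exact hlo N hN
  · exact le_of_tendsto_of_tendsto' hleft h1 hup

end Pool.Agent.BPH
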