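import Pool.Agent.BPH.Stmts

/-!
# BPH: row ZOM, existence of the zonoid of a density
-/

open MeasureTheory Module Set Filter
open scoped RealInnerProductSpace Pointwise Topology ENNReal

namespace Pool.Agent.BPH

open Pool.Agent.Helper55_PB Pool.Agent.Helper28_PB

theorem zom (sp : SPH) : ZOMStmt := by
  intro E _ _ _ _ _ _ f hf
  have : IsProbabilityMeasure (sph E) := sp.prob
  obtain ⟨C, hC⟩ := hf.bdd
  have hn : ∀ᵐ x ∂sph E, ‖x‖ = 1 := sp.norm
  -- integrability
  have hfi : Integrable f (sph E) := by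
    refine Integrable.of_bound hf.meas.aestronglyMeasurable C ?_
    filter_upwards with x
    rw [Real.norm_eq_abs, abs_of_nonneg (hf.nonneg x)]
    exact hC x
  have hi : ∀ φ : E → ℝ, Measurable φ → (∀ x, |φ x| ≤ 1) →
      Integrable (fun x => (φ x * f x) • x) (sph E) := by
    intro φ hφ hb
    refine Integrable.mono' hfi ?_ ?_
    · exact ((hφ.mul hf.meas).aestronglyMeasurable).smul aestronglyMeasurable_id
    · filter_upwards [hn] with x hx
      rw [norm_smul, hx, mul_one, Real.norm_eq_abs, abs_mul, abs_of_nonneg (hf.nonneg x)]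
      exact mul_le_of_le_one_left (hf.nonneg x) (hb x)
  have hin : ∀ u : E, Integrable (fun x => |⟪u, x⟫| * f x) (sph E) := by
    intro u
    refine Integrable.mono' (hfi.const_mul ‖u‖) ?_ ?_
    · exact ((measurable_const.inner measurable_id).abs.mul hf.meas).aestronglyMeasurable
    · filter_upwards [hn] with x hx
      rw [Real.norm_eq_abs, abs_mul, abs_abs, abs_of_nonneg (hf.nonneg x)]
      refine mul_le_mul_of_nonneg_right ?_ (hf.nonneg x)
      have := abs_real_inner_le_norm u x
      rwa [hx, mul_one] at this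
  set S : Set (E → ℝ) := {φ | Measurable φ ∧ ∀ x, |φ x| ≤ 1} with hS
  set Φ : (E → ℝ) → E := fun φ => ∫ x, (φ x * f x) • x ∂sph E with hΦ
  have hinner : ∀ φ ∈ S, ∀ u : E, ⟪Φ φ, u⟫ = ∫ x, φ x * f x * ⟪u, x⟫ ∂sph E := by
    intro φ hφ u
    rw [hΦ, real_inner_comm, ← integral_inner (hi φ hφ.1 hφ.2)]
    refine integral_congr_ae (Eventually.of_forall fun x => ?_)
    simp only [inner_smul_right]
  have hle : ∀ φ ∈ S, ∀ u : E, ⟪Φ φ, u⟫ ≤ hz f u := by
    intro φ hφ u
    rw [hinner φ hφ u]
    unfold hz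
    refine integral_mono ?_ (hin u) ?_
    · refine Integrable.mono' (hin u) ?_ ?_
      · exact ((hφ.1.mul hf.meas).mul
          (measurable_const.inner measurable_id)).aestronglyMeasurable
      · filter_upwards with x
        rw [Real.norm_eq_abs, abs_mul, abs_mul, abs_of_nonneg (hf.nonneg x), mul_comm]
        exact mul_le_mul_of_nonneg_left (mul_le_of_le_one_left (hf.nonneg x) (hφ.2 x))
          (abs_nonneg _)
    · intro x
      have h1 : φ x * ⟪u, x⟫ ≤ |⟪u, x⟫| := by
        refine (le_abs_self _).trans ?_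
        rw [abs_mul]
        exact mul_le_of_le_one_left (abs_nonneg _) (hφ.2 x)
      calc φ x * f x * ⟪u, x⟫ = (φ x * ⟪u, x⟫) * f x := by ring
        _ ≤ |⟪u, x⟫| * f x := mul_le_mul_of_nonneg_right h1 (hf.nonneg x)
  have hnorm : ∀ φ ∈ S, ‖Φ φ‖ ≤ 1 := by
    intro φ hφ
    rw [← hf.int]
    refine norm_integral_le_of_norm_le hfi ?_
    filter_upwards [hn] with x hx
    rw [norm_smul, hx, mul_one, Real.norm_eq_abs, abs_mul, abs_of_nonneg (hf.nonneg x)]
    exact mul_le_of_le_one_left (hf.nonneg x) (hφ.2 x)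
  have hconv : Convex ℝ (Φ '' S) := by
    rintro _ ⟨φ, hφ, rfl⟩ _ ⟨ψ, hψ, rfl⟩ a b ha hb hab
    refine ⟨fun x => a * φ x + b * ψ x, ⟨?_, ?_⟩, ?_⟩
    · exact (hφ.1.const_mul a).add (hψ.1.const_mul b)
    · intro x
      refine (abs_add_le _ _).trans ?_
      rw [abs_mul, abs_mul, abs_of_nonneg ha, abs_of_nonneg hb]
      have h1 := mul_le_mul_of_nonneg_left (hφ.2 x) ha
      have h2 := mul_le_mul_of_nonneg_left (hψ.2 x) hb
      linarith
    · simp only [hΦ]
      rw [← integral_smul, ← integral_smul, ← integral_add]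
      · refine integral_congr_ae (Eventually.of_forall fun x => ?_)
        simp only [smul_smul, ← add_smul]
        congr 1
        ring
      · exact (hi φ hφ.1 hφ.2).smul a
      · exact (hi ψ hψ.1 hψ.2).smul b
  have hcpt : IsCompact (closure (Φ '' S)) := by
    refine Metric.isCompact_of_isClosed_isBounded isClosed_closure ?_
    refine Bornology.IsBounded.closure ?_
    refine (Metric.isBounded_closedBall (x := (0 : E)) (r := 1)).subset ?_
    rintro _ ⟨φ, hφ, rfl⟩
    rw [mem_closedBall_zero_iff]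
    exact hnorm φ hφ
  refine ⟨closure (Φ '' S), ⟨hcpt, hconv.closure, ?_⟩, ?_⟩
  · refine Set.Nonempty.closure ⟨Φ (fun _ => 0), ⟨fun _ => 0, ⟨measurable_const, ?_⟩, rfl⟩⟩
    intro x
    simp
  · intro u
    set σ : E → ℝ := fun x => if 0 ≤ ⟪u, x⟫ then 1 else -1 with hσ
    have hσS : σ ∈ S := by
      refine ⟨?_, ?_⟩
      · exact Measurable.ite (measurableSet_le measurable_const
          (measurable_const.inner measurable_id)) measurable_const measurable_const
      · intro x
        simp only [hσ]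
        split_ifs <;> simp
    have hval : ⟪Φ σ, u⟫ = hz f u := by
      rw [hinner σ hσS u]
      unfold hz
      refine integral_congr_ae (Eventually.of_forall fun x => ?_)
      simp only [hσ]
      split_ifs with h
      · rw [abs_of_nonneg h]
        ring
      · rw [abs_of_neg (not_le.mp h)]
        ring
    have hmem : Φ σ ∈ closure (Φ '' S) := subset_closure ⟨σ, hσS, rfl⟩
    refine le_antisymm ?_ ?_
    · refine supportFn_le ⟨_, hmem⟩ ?_
      intro x hx
      have hcl : IsClosed {y : E | ⟪y, u⟫ ≤ hz f u} :=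
        isClosed_le (continuous_id.inner continuous_const) continuous_const
      refine closure_minimal ?_ hcl hx
      rintro _ ⟨φ, hφ, rfl⟩
      exact hle φ hφ u
    · rw [← hval]
      exact inner_le_supportFn hcpt hmem u

end Pool.Agent.BPH
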