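import Pool.Agent.BPH.Stmts

/-!
# Row ZOT: Steiner coefficients of zonotopes
-/

open MeasureTheory Module Set Filter
open scoped RealInnerProductSpace Pointwise Topology ENNReal

namespace Pool.Agent.BPH

open Pool.Agent.Helper55_PB Pool.Agent.Helper28_PB

theorem zot_nonneg {E : Type} [NormedAddCommGroup E] [InnerProductSpace ℝ E] {i : ℕ}
    (v : Fin i → E) : 0 ≤ gw v := Real.sqrt_nonneg _

theorem zot_eq_zero (gwb : GWB) {E : Type} [NormedAddCommGroup E] [InnerProductSpace ℝ E] {i : ℕ}
    {v : Fin i → E} (h : ¬ LinearIndependent ℝ v) : gw v = 0 := by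
  by_contra h1
  exact h ((gwb.pos_iff v).1 (lt_of_le_of_ne (zot_nonneg v) (Ne.symm h1)))

theorem zot_zero (gwb : GWB) {E : Type} [NormedAddCommGroup E] [InnerProductSpace ℝ E] {i : ℕ}
    {v : Fin i → E} (l : Fin i) (h : v l = 0) : gw v = 0 :=
  zot_eq_zero gwb fun h1 => h1.ne_zero l h

theorem zot_dup (gwb : GWB) {E : Type} [NormedAddCommGroup E] [InnerProductSpace ℝ E] {i : ℕ}
    {v : Fin i → E} {p q : Fin i} (hpq : p ≠ q) (h : v p = v q) : gw v = 0 :=
  zot_eq_zero gwb fun h1 => hpq (h1.injective h)

open Classical in
/-- splitting off one vector of the family -/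
theorem zot_count (gwb : GWB) {E : Type} [NormedAddCommGroup E] [InnerProductSpace ℝ E]
    {ι : Type} [Fintype ι] {i : ℕ} (b : ι → E) (a : ι) :
    ∑ v : Fin (i + 1) → ι, gw (fun l => b (v l)) =
      ∑ v : Fin (i + 1) → ι, gw (fun l => Function.update b a 0 (v l)) +
      ((i : ℝ) + 1) * ∑ w : Fin i → ι, gw (cns (b a) (fun l => Function.update b a 0 (w l))) := by
  set b' := Function.update b a 0 with hb'
  have ha : b' a = 0 := by rw [hb']; simp
  have hne : ∀ x, x ≠ a → b' x = b x := fun x hx => by rw [hb']; simp [hx]
  -- step 1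
  have h1 : ∀ v : Fin (i + 1) → ι, gw (fun l => b (v l)) = gw (fun l => b' (v l)) +
      ∑ p, if v p = a then gw (fun l => b (v l)) else 0 := by
    intro v
    by_cases h : ∃ p, v p = a
    · obtain ⟨p, hp⟩ := h
      have e1 : gw (fun l => b' (v l)) = 0 := zot_zero gwb p (by rw [hp, ha])
      rw [e1, zero_add]
      by_cases h2 : ∃ q, q ≠ p ∧ v q = a
      · obtain ⟨q, hq, hq2⟩ := h2
        have e2 : gw (fun l => b (v l)) = 0 := zot_dup gwb hq (by rw [hq2, hp])
        rw [e2]
        simp
      · push Not at h2
        rw [Finset.sum_eq_single p]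
        · rw [if_pos hp]
        · intro q _ hq
          rw [if_neg (h2 q hq)]
        · intro h
          exact absurd (Finset.mem_univ p) h
    · push Not at h
      have e1 : (fun l => b' (v l)) = fun l => b (v l) := by
        funext l
        exact hne _ (h l)
      rw [e1, Finset.sum_eq_zero, add_zero]
      intro p _
      rw [if_neg (h p)]
  -- step 2
  have h2 : ∀ p : Fin (i + 1), (∑ v : Fin (i + 1) → ι, if v p = a then gw (fun l => b (v l)) else 0)
      = ∑ v : Fin (i + 1) → ι, if v 0 = a then gw (fun l => b (v l)) else 0 := by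
    intro p
    refine Fintype.sum_equiv (Equiv.arrowCongr (Equiv.swap 0 p) (Equiv.refl ι)) _ _ fun v => ?_
    have e0 : (Equiv.arrowCongr (Equiv.swap 0 p) (Equiv.refl ι)) v =
        fun l => v (Equiv.swap 0 p l) := by
      funext l
      simp [Equiv.arrowCongr]
    rw [e0]
    have e1 := gwb.perm (fun l => b (v l)) (Equiv.swap 0 p)
    simp only [Equiv.swap_apply_left]
    rw [← e1]
  -- step 3
  have h3 : (∑ v : Fin (i + 1) → ι, if v 0 = a then gw (fun l => b (v l)) else 0) =
      ∑ w : Fin i → ι, gw (cns (b a) (fun l => b (w l))) := by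
    rw [← (Fin.consEquiv (fun _ : Fin (i + 1) => ι)).sum_comp, Fintype.sum_prod_type,
      Finset.sum_comm]
    refine Finset.sum_congr rfl fun w _ => ?_
    rw [Finset.sum_eq_single a]
    · have e1 : (Fin.consEquiv (fun _ : Fin (i + 1) => ι)) (a, w) = Fin.cons a w := rfl
      rw [e1, if_pos (by simp)]
      congr 1
      funext l
      unfold cns
      refine Fin.cases ?_ (fun l => ?_) l <;> simp
    · intro x _ hx
      have e1 : (Fin.consEquiv (fun _ : Fin (i + 1) => ι)) (x, w) = Fin.cons x w := rfl
      rw [e1, if_neg (by simpa using hx)]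
    · intro h
      exact absurd (Finset.mem_univ a) h
  -- step 4
  have h4 : ∀ w : Fin i → ι, gw (cns (b a) (fun l => b (w l))) =
      gw (cns (b a) (fun l => b' (w l))) := by
    intro w
    by_cases h : ∃ p, w p = a
    · obtain ⟨p, hp⟩ := h
      have e1 : gw (cns (b a) (fun l => b' (w l))) = 0 := zot_zero gwb p.succ (by
        unfold cns
        rw [Fin.cons_succ, hp, ha])
      have e2 : gw (cns (b a) (fun l => b (w l))) = 0 :=
        zot_dup gwb (Fin.succ_ne_zero p) (by
          unfold cns
          rw [Fin.cons_succ, Fin.cons_zero, hp])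
      rw [e1, e2]
    · push Not at h
      have e1 : (fun l => b' (w l)) = fun l => b (w l) := by
        funext l
        exact hne _ (h l)
      rw [e1]
  rw [Finset.sum_congr rfl fun v _ => h1 v, Finset.sum_add_distrib, Finset.sum_comm,
    Finset.sum_congr rfl fun p _ => h2 p, Finset.sum_const, Finset.card_univ, Fintype.card_fin,
    h3, Finset.sum_congr rfl fun w _ => h4 w, nsmul_eq_mul]
  push_cast
  ring

theorem zot_cc {E : Type} [NormedAddCommGroup E] [InnerProductSpace ℝ E]
    {ι : Type} (s : Finset ι) (b : ι → E) :
    CC (∑ l ∈ s, segment ℝ (-(b l)) (b l)) := by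
  refine Finset.sum_induction _ (fun M : Set E => CC M) ?_ ?_ ?_
  · intro M M' h h'
    exact ⟨h.cpt.add h'.cpt, h.cvx.add h'.cvx, h.ne.add h'.ne⟩
  · exact ⟨isCompact_singleton, convex_singleton _, ⟨0, rfl⟩⟩
  · intro l _
    exact ⟨isCompact_segment _ _, convex_segment _ _, ⟨_, left_mem_segment _ _ _⟩⟩

theorem zot_image {E F : Type} [NormedAddCommGroup E] [InnerProductSpace ℝ E]
    [NormedAddCommGroup F] [InnerProductSpace ℝ F] (T : E →L[ℝ] F)
    {ι : Type} (s : Finset ι) (b : ι → E) :
    T '' (∑ l ∈ s, segment ℝ (-(b l)) (b l)) = ∑ l ∈ s, segment ℝ (-(T (b l))) (T (b l)) := by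
  rw [Set.image_finsetSum]
  refine Finset.sum_congr rfl fun l _ => ?_
  have := image_segment ℝ (T : E →ₗ[ℝ] F).toAffineMap (-(b l)) (b l)
  simpa using this

theorem zot_point {E : Type} [NormedAddCommGroup E] [InnerProductSpace ℝ E]
    [FiniteDimensional ℝ E] [MeasurableSpace E] [BorelSpace E] {j : ℕ} (hj : j < finrank ℝ E) :
    sc (0 : Set E) j = 0 := by
  have h : IsSteiner (0 : Set E) (fun k => if k = finrank ℝ E then
      (volume (Metric.closedBall (0 : E) 1)).toReal else 0) := by
    intro r hr
    rw [zero_add, Measure.addHaar_closedBall' _ _ hr, ENNReal.toReal_mul,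
      ENNReal.toReal_ofReal (by positivity), Finset.sum_eq_single (finrank ℝ E)]
    · beta_reduce
      rw [if_pos rfl, mul_comm]
    · intro k _ hk
      beta_reduce
      rw [if_neg hk, zero_mul]
    · intro h
      exact absurd (Finset.mem_range.2 (Nat.lt_succ_self _)) h
  rw [sc_eq h hj.le, if_neg hj.ne]

theorem zot (gwb : GWB) (lea : LEAStmt) : ZOTStmt := by
  classical
  have hlim : LimStmt := lim_of vd_sum
  intro E _ _ _ _ _ ι _ b i j hj hij
  induction i generalizing E with
  | zero =>
    have hn : j = finrank ℝ E := by omega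
    have h := lea (E := E) (by omega) (∑ l, segment ℝ (-(b l)) (b l)) (zot_cc _ b)
    rw [hn, h]
    have h2 : ∀ v : Fin 0 → ι, gw (fun l => b (v l)) = 1 := by
      intro v
      unfold gw
      simp
    simp [h2]
  | succ i ih =>
    have hn : 1 < finrank ℝ E := by omega
    have key : ∀ (s : Finset ι) (b : ι → E), (∀ l, l ∉ s → b l = 0) →
        sc (∑ l, segment ℝ (-(b l)) (b l)) j =
          ballVol j * (2 ^ (i + 1) / ((i + 1).factorial : ℝ)) *
            ∑ v : Fin (i + 1) → ι, gw (fun l => b (v l)) := by
      intro s
      induction s using Finset.induction_on with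
      | empty =>
        intro b hb
        have h0 : ∀ l, b l = 0 := fun l => hb l (Finset.notMem_empty l)
        have h1 : (∑ l, segment ℝ (-(b l)) (b l)) = (0 : Set E) := by
          refine Finset.sum_eq_zero fun l _ => ?_
          rw [h0 l, neg_zero, segment_same]
          rfl
        rw [h1, zot_point (by omega), Finset.sum_eq_zero, mul_zero]
        intro v _
        exact zot_zero gwb 0 (h0 _)
      | insert a s has ihs =>
        intro b hb
        set b' := Function.update b a 0 with hb'
        have ha : b' a = 0 := by rw [hb']; simp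
        have hne : ∀ x, x ≠ a → b' x = b x := fun x hx => by rw [hb']; simp [hx]
        have hb's : ∀ l, l ∉ s → b' l = 0 := by
          intro l hl
          by_cases h : l = a
          · rw [h, ha]
          · rw [hne l h]
            exact hb l (by simp [h, hl])
        have h1 := ihs b' hb's
        set M := ∑ l, segment ℝ (-(b' l)) (b' l) with hM
        have hsum : (∑ l, segment ℝ (-(b l)) (b l)) = M + segment ℝ (-(b a)) (b a) := by
          rw [hM, ← Finset.add_sum_erase _ _ (Finset.mem_univ a),
            ← Finset.add_sum_erase _ (fun l => segment ℝ (-(b' l)) (b' l)) (Finset.mem_univ a)]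
          have e1 : segment ℝ (-(b' a)) (b' a) = 0 := by
            rw [ha, neg_zero, segment_same]
            rfl
          simp only [e1, zero_add]
          rw [add_comm]
          congr 1
          refine Finset.sum_congr rfl fun l hl => ?_
          rw [hne l (Finset.ne_of_mem_erase hl)]
        by_cases h0 : b a = 0
        · have e1 : b' = b := by
            rw [hb', ← h0, Function.update_eq_self]
          rw [hsum, h0, neg_zero, segment_same]
          have e2 : M + {(0 : E)} = M := add_zero M
          rw [e2, h1, e1]
        · set c := ‖b a‖ with hc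
          have hc0 : 0 < c := norm_pos_iff.2 h0
          set e : E := c⁻¹ • b a with he
          have he1 : ‖e‖ = 1 := by
            rw [he, norm_smul, norm_inv, Real.norm_of_nonneg hc0.le, ← hc]
            exact inv_mul_cancel₀ hc0.ne'
          have hce : c • e = b a := by
            rw [he, smul_smul, mul_inv_cancel₀ hc0.ne', one_smul]
          have hMc : CC M := zot_cc _ b'
          have h2 := sc_add_segment_symm hlim hn hMc he1 hc0.le (j := j) (by omega)
          rw [hce] at h2
          rw [hsum, h2, h1, zot_count gwb b a, ← hb']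
          have hr := Helper28_PB.finrank_perp he1
          have h3 := ih (E := ((ℝ ∙ e)ᗮ : Submodule ℝ E))
            (fun l => (ℝ ∙ e)ᗮ.orthogonalProjectionOnto (b' l)) (by omega)
          rw [hM, zot_image, h3]
          have h4 : ∀ w : Fin i → ι, c * gw (fun l => (ℝ ∙ e)ᗮ.orthogonalProjectionOnto (b' (w l)))
              = gw (cns (b a) (fun l => b' (w l))) := by
            intro w
            rw [gwb.proj e he1 (fun l => b' (w l))]
            have e1 := gwb.smul (cns e (fun l => b' (w l))) (cns c (fun _ => 1))
            have e2 : (fun l => (cns c (fun _ => 1) : Fin (i + 1) → ℝ) l •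
                cns e (fun l => b' (w l)) l) = cns (b a) (fun l => b' (w l)) := by
              funext l
              unfold cns
              refine Fin.cases ?_ (fun l => ?_) l
              · simp [hce]
              · simp
            rw [e2] at e1
            rw [e1]
            congr 1
            unfold cns
            rw [Fin.prod_univ_succ]
            simp [abs_of_pos hc0]
          have h5 : c * ∑ w : Fin i → ι,
              gw (fun l => (ℝ ∙ e)ᗮ.orthogonalProjectionOnto (b' (w l))) =
              ∑ w : Fin i → ι, gw (cns (b a) (fun l => b' (w l))) := by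
            rw [Finset.mul_sum]
            exact Finset.sum_congr rfl fun w _ => h4 w
          rw [← h5, Nat.factorial_succ]
          have h6 : ((i.factorial : ℕ) : ℝ) ≠ 0 := Nat.cast_ne_zero.2 (Nat.factorial_ne_zero i)
          have h7 : ((i : ℝ) + 1) ≠ 0 := by positivity
          push_cast
          field_simp
          ring
    exact key Finset.univ b (fun l hl => absurd (Finset.mem_univ l) hl)

end Pool.Agent.BPH
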