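import Pool.Agent.BPH.Fnl
import Pool.Agent.BPH.Gwa
import Pool.Agent.BPH.Gwb
import Pool.Agent.BPH.Sph
import Pool.Agent.BPH.Spi
import Pool.Agent.BPH.Uni
import Pool.Agent.BPH.Foa
import Pool.Agent.BPH.Fob
import Pool.Agent.BPH.Avg
import Pool.Agent.BPH.Bkk
import Pool.Agent.BPH.Zfu
import Pool.Agent.BPH.Tex
import Pool.Agent.BPH.Afb
import Pool.Agent.Helper61_BPH.AFL
import Pool.Agent.Helper61_BPH.AFI
import Pool.Agent.BPH.Aft
import Pool.Agent.BPH.Afm
import Pool.Agent.BPH.Stp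
import Pool.Agent.BPH.Qb2
import Pool.Agent.BPH.Pbb
import Pool.Agent.BPH.Pin
import Pool.Agent.BPH.Lea
import Pool.Agent.BPH.Zot
import Pool.Agent.BPH.Zod
import Pool.Agent.BPH.Zom
import Pool.Agent.BPH.Geo
import Pool.Agent.BPH.Mol
import Pool.Agent.BPH.Vdz
import Pool.Agent.BPH.Unf
import Pool.Agent.BPH.Zak
import Pool.Agent.BPH.Sta
import Pool.Agent.BPH.Ite
import Pool.Agent.BPH.PpmB
import Pool.Agent.BPH.FocB
import Pool.Agent.BPH.Haa

/-!
# All rows together
-/

open MeasureTheory Module Set Filter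
open scoped RealInnerProductSpace Pointwise Topology ENNReal

namespace Pool.Agent.BPH

open Pool.Agent.Helper55_PB Pool.Agent.Helper28_PB

theorem ball_of_rows (ppm : PPMStmt) (haa : HAAStmt) (foc : FOCStmt)
    {E : Type} [NormedAddCommGroup E] [InnerProductSpace ℝ E] [FiniteDimensional ℝ E]
    [MeasurableSpace E] [BorelSpace E] {i : ℕ} (hi : 1 ≤ i)
    (hn : 8 * i ≤ 3 * finrank ℝ E + 1) {K L : Set E} (hK : IsConvexBody K)
    (hL : IsProjectionBodyOfOrder i K L) (hKL : Homothetic K L) :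
    ∃ (x : E) (r : ℝ), 0 < r ∧ K = Metric.closedBall x r := by
  have hs : SPH := sph_facts
  have hgwb : GWB := gwb gwa
  have hspi : SPIStmt := spi hs
  have huni : UNI := uni hs
  have havg : AVGStmt := avg hs hspi ppm hgwb haa huni
  have hbkk : BKKStmt := bkk hs
  have hzfu : ZFU := zfu gwa hgwb hs hspi
  have htex : TEXStmt := tex hs ppm havg hzfu
  have hafi : AFIStmt := afi gwa hgwb afb afl
  have hafm : AFMStmt := afm hs hgwb hzfu (aft hgwb hafi)
  have hstp : STPStmt := stp_of hs ppm hgwb hzfu foc hafm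
  have hqb2 : QB2Stmt := qb2 gwa hgwb hs hspi ppm hbkk hzfu
  have hpbb : PBBStmt := pbb hs gwa hgwb hzfu
  have hpin : PINStmt := pin hs
  have hzod : ZODStmt := zod hs hgwb (zot hgwb lea)
  have hgeo : GEOStmt := geo gwa hs hspi hbkk hzfu hzod (zom hs)
  have hzak : ZAKStmt := zak (vdz mol) unf
  have hite : ITEStmt := ite_of hs htex hgeo hstp hpbb hpin hzak (sta_of hs)
  exact ball_of_facts hstp hqb2 hite hi hn hK hL hKL

/-- For `i ≥ 1` and `8 i ≤ 3 n + 1` a convex body homothetic to its `i`-th projection body is a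
ball. -/
theorem ball_linear {E : Type} [NormedAddCommGroup E] [InnerProductSpace ℝ E]
    [FiniteDimensional ℝ E] [MeasurableSpace E] [BorelSpace E] {i : ℕ} (hi : 1 ≤ i)
    (hn : 8 * i ≤ 3 * finrank ℝ E + 1) {K L : Set E} (hK : IsConvexBody K)
    (hL : IsProjectionBodyOfOrder i K L) (hKL : Homothetic K L) :
    ∃ (x : E) (r : ℝ), 0 < r ∧ K = Metric.closedBall x r :=
  ball_of_rows ppm haa
    (foc sph_facts (spi sph_facts) ppm (gwb gwa) haa
      (fob sph_facts (spi sph_facts) (foa haa (uni sph_facts)))) hi hn hK hL hKL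

end Pool.Agent.BPH
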