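import Pool.Agent.Helper55_PB.BallsFin

/-!
# BPH: solutions of `Π_i K ~ K` are balls for `n ≥ 3 i` (entropy method): definitions

`sph E` is the uniform probability measure on the unit sphere of `E`, as a measure on `E`.
All densities are functions `f : E → ℝ`, only their values on the unit sphere matter.
-/

open MeasureTheory Module Set Filter
open scoped RealInnerProductSpace Pointwise Topology

namespace Pool.Agent.BPH

/-- normalisation of a vector -/
noncomputable def nrm {E : Type} [NormedAddCommGroup E] [InnerProductSpace ℝ E] (x : E) : E :=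
  ‖x‖⁻¹ • x

/-- the `i`-dimensional volume `|v_1 ∧ ... ∧ v_i|` of the parallelepiped spanned by `v` -/
noncomputable def gw {E : Type} [NormedAddCommGroup E] [InnerProductSpace ℝ E] {i : ℕ}
    (v : Fin i → E) : ℝ := Real.sqrt (Matrix.gram ℝ v).det

/-- the vector `a` in front of the family `v` -/
def cns {E : Type} {i : ℕ} (a : E) (v : Fin i → E) : Fin (i + 1) → E := Fin.cons a v

section

variable {E : Type} [NormedAddCommGroup E] [InnerProductSpace ℝ E] [FiniteDimensional ℝ E]

/-- orthogonal projection to the complement of the line through `a` (the identity if `a = 0`) -/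
noncomputable def po (a : E) (x : E) : E := (ℝ ∙ a)ᗮ.starProjection x

/-- the orthogonal complement of the span of `v` -/
noncomputable def perp {i : ℕ} (v : Fin i → E) : Submodule ℝ E :=
  (Submodule.span ℝ (Set.range v))ᗮ

/-- orthogonal projection to the orthogonal complement of the span of `v` -/
noncomputable def pp {i : ℕ} (v : Fin i → E) (x : E) : E := (perp v).starProjection x

variable [MeasurableSpace E] [BorelSpace E]

variable (E) in
/-- the uniform probability measure on the unit sphere of `E` (as a measure on `E`) -/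
noncomputable def sph : Measure E :=
  (ProbabilityTheory.cond volume (Metric.ball (0 : E) 1)).map nrm

variable (E) in
/-- `i` independent uniform unit vectors -/
noncomputable def sphP (i : ℕ) : Measure (Fin i → E) := Measure.pi (fun _ => sph E)

/-- mean of `φ` over the unit sphere of the subspace `U` -/
noncomputable def mS (U : Submodule ℝ E) (φ : E → ℝ) : ℝ :=
  ∫ x, φ (nrm (U.starProjection x)) ∂sph E

/-- bounded probability densities with respect to `sph E` -/
structure Dens (f : E → ℝ) : Prop where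
  meas : Measurable f
  nonneg : ∀ x, 0 ≤ f x
  bdd : ∃ C, ∀ x, f x ≤ C
  int : ∫ x, f x ∂sph E = 1

/-- relative entropy of the measure with density `f` with respect to `sph E` -/
noncomputable def ent (f : E → ℝ) : ℝ := ∫ x, f x * Real.log (f x) ∂sph E

/-- the support function of the zonoid generated by the density `f` -/
noncomputable def hz (f : E → ℝ) (u : E) : ℝ := ∫ x, |⟪u, x⟫| * f x ∂sph E

/-- `Z_i(f) = E |v_1 ∧ ... ∧ v_i|` for `v_l` independent with density `f` -/
noncomputable def ZZ (i : ℕ) (f : E → ℝ) : ℝ := ∫ v, gw v * ∏ l, f (v l) ∂sphP E i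

/-- `∫ |x ∧ v_1 ∧ ... ∧ v_j| f(v_1) ... f(v_j)` -/
noncomputable def YY (j : ℕ) (f : E → ℝ) (x : E) : ℝ :=
  ∫ v, gw (cns x v) * ∏ l, f (v l) ∂sphP E j

/-- bounded measurable test functions -/
structure Tst (φ : E → ℝ) : Prop where
  meas : Measurable φ
  bdd : ∃ C, ∀ x, |φ x| ≤ C

/-- `f'` is the generating density of the `i`-th projection body of the zonoid generated
by `f` (up to the normalisation). -/
def IsStep (i : ℕ) (f f' : E → ℝ) : Prop :=
  ∀ φ : E → ℝ, Tst φ →
    ZZ i f * ∫ x, φ x * f' x ∂sph E = ∫ v, (gw v * ∏ l, f (v l)) * mS (perp v) φ ∂sphP E i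

/-- the continuous linear map of an isometry -/
noncomputable def opT (T : E ≃ₗᵢ[ℝ] E) : E →L[ℝ] E := (T.toContinuousLinearEquiv : E →L[ℝ] E)

/-- a bi-invariant probability measure on the orthogonal group, as a measure on the space of
operators -/
structure IsHaarO (lam : Measure (E →L[ℝ] E)) : Prop where
  prob : IsProbabilityMeasure lam
  iso : ∀ᵐ g ∂lam, ∃ T : E ≃ₗᵢ[ℝ] E, g = opT T
  left : ∀ T : E ≃ₗᵢ[ℝ] E, lam.map (fun g => (opT T).comp g) = lam
  right : ∀ T : E ≃ₗᵢ[ℝ] E, lam.map (fun g => g.comp (opT T)) = lam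

/-- uniform approximation of the function `g` by support functions of zonoids -/
def ZApp (g : E → ℝ) : Prop :=
  ∀ ε : ℝ, 0 < ε → ∃ (R : ℝ) (τ : Measure E), IsFiniteMeasure τ ∧
    τ (Metric.closedBall (0 : E) R)ᶜ = 0 ∧
    ∀ w : E, (1 - ε) * g w ≤ ∫ y, |⟪w, y⟫| ∂τ ∧ ∫ y, |⟪w, y⟫| ∂τ ≤ (1 + ε) * g w

end

section

variable {E : Type} [NormedAddCommGroup E] [InnerProductSpace ℝ E] {ι : Type} [Fintype ι]

/-- `sum over v : Fin m → ι of |b_v1 ∧ ... ∧ b_vm| x_v1 ... x_vm` -/
noncomputable def zf (m : ℕ) (b : ι → E) (x : ι → ℝ) : ℝ :=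
  ∑ v : Fin m → ι, gw (fun l => b (v l)) * ∏ l, x (v l)

/-- the same with one argument `y` and `m` arguments `x` -/
noncomputable def zf1 (m : ℕ) (b : ι → E) (y x : ι → ℝ) : ℝ :=
  ∑ a : ι, ∑ v : Fin m → ι, gw (cns (b a) (fun l => b (v l))) * (y a * ∏ l, x (v l))

/-- the same with the arguments `y`, `z` and `m` arguments `x` -/
noncomputable def zf2 (m : ℕ) (b : ι → E) (y z x : ι → ℝ) : ℝ :=
  ∑ a : ι, ∑ c : ι, ∑ v : Fin m → ι,
    gw (cns (b a) (cns (b c) (fun l => b (v l)))) * (y a * z c * ∏ l, x (v l))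

end

end Pool.Agent.BPH
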