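import Pool.Agent.BPH.Stmts

/-!
# Final assembly
-/

open MeasureTheory Module Set Filter
open scoped RealInnerProductSpace Pointwise Topology ENNReal

namespace Pool.Agent.BPH

open Pool.Agent.Helper55_PB Pool.Agent.Helper28_PB

/-- the contraction constant -/
theorem q_lt_one {i k : ℕ} (hi : 1 ≤ i) (h : 8 * i ≤ 3 * (i + k) + 1) :
    (i : ℝ) / ((k : ℝ) - (i - 1)) * Real.sqrt (((k : ℝ) - (i - 1) + 2) / (k + 2)) < 1 := by
  set a : ℝ := (k : ℝ) - (i - 1) with ha
  have hi1 : (1 : ℝ) ≤ i := by exact_mod_cast hi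
  have h1 : (8 : ℝ) * i ≤ 3 * (i + k) + 1 := by exact_mod_cast h
  have h2 : 2 * ((i : ℝ) + 1) ≤ 3 * a := by rw [ha]; linarith
  have ha0 : 0 < a := by linarith
  have hk : (k : ℝ) + 2 = a + i + 1 := by rw [ha]; ring
  rw [hk]
  have hden : 0 < a + i + 1 := by linarith
  have key : (i : ℝ) ^ 2 * (a + 2) < a ^ 2 * (a + i + 1) := by
    obtain ⟨d, hd, had⟩ : ∃ d : ℝ, 0 ≤ d ∧ a = 2 * ((i : ℝ) + 1) / 3 + d :=
      ⟨a - 2 * ((i : ℝ) + 1) / 3, by linarith, by ring⟩
    rw [had]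
    have hii : 0 ≤ (i : ℝ) - 1 := by linarith
    have h3 : 0 < 2 * (i : ℝ) ^ 3 - 12 * (i : ℝ) ^ 2 + 60 * i + 20 := by
      nlinarith [mul_nonneg hii (sq_nonneg ((i : ℝ) - 3)), sq_nonneg ((i : ℝ) - 3)]
    have h4 : 0 ≤ (i : ℝ) * d := by positivity
    have h5 : 0 ≤ (i : ℝ) ^ 2 * d := by positivity
    have h6 : 0 ≤ (i : ℝ) * d ^ 2 := by positivity
    have h7 : 0 ≤ d ^ 3 := by positivity
    nlinarith [sq_nonneg d]
  have h3 : ((i : ℝ) / a * Real.sqrt ((a + 2) / (a + i + 1))) ^ 2 < 1 := by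
    rw [mul_pow, Real.sq_sqrt (by positivity), div_pow, div_mul_div_comm, div_lt_one (by positivity)]
    exact key
  have h4 : 0 ≤ (i : ℝ) / a * Real.sqrt ((a + 2) / (a + i + 1)) := by positivity
  nlinarith

/-- balls are the only solutions, from the interface statements -/
theorem ball_of_facts (stp : STPStmt) (qb2 : QB2Stmt) (ite : ITEStmt)
    {E : Type} [NormedAddCommGroup E] [InnerProductSpace ℝ E] [FiniteDimensional ℝ E]
    [MeasurableSpace E] [BorelSpace E] {i : ℕ} (hi : 1 ≤ i)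
    (hn : 8 * i ≤ 3 * finrank ℝ E + 1) {K L : Set E} (hK : IsConvexBody K)
    (hL : IsProjectionBodyOfOrder i K L) (hKL : Homothetic K L) :
    ∃ (x : E) (r : ℝ), 0 < r ∧ K = Metric.closedBall x r := by
  have hlim : LimStmt := lim_of vd_sum
  have hin : i + 2 ≤ finrank ℝ E := by omega
  obtain ⟨a, K', c, hK', hG⟩ := exists_midGood (by omega) hK hL hKL
  have hC := MidGood.centred hlim vd_mono hi hin hG
  obtain ⟨j, rfl⟩ : ∃ j, i = j + 1 := ⟨i - 1, by omega⟩
  set m := finrank ℝ E - 1 - (j + 1) with hm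
  have hq := q_lt_one (i := j + 1) (k := m + 1) hi (by omega)
  push_cast at hq
  have hjk : j < m + 1 := by omega
  have hjk' : (j : ℝ) < (m : ℝ) + 1 := by exact_mod_cast hjk
  have hb : ∃ r : ℝ, 0 < r ∧ K' = Metric.closedBall (0 : E) r := by
    refine ite j (m + 1) m (by omega) rfl (by omega)
      (((j : ℝ) + 1) / ((m : ℝ) + 1 - j) * Real.sqrt (((m : ℝ) + 1 - j + 2) / (m + 1 + 2)))
      ?_ ?_ ?_ K' c hC
    · have : 0 < (m : ℝ) + 1 - j := by linarith
      positivity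
    · have h1 : (m : ℝ) + 1 - j = (m : ℝ) + 1 - ((j : ℝ) + 1 - 1) := by ring
      rw [h1]
      exact hq
    · intro g f f' hg hf hf' hgf hff'
      have h1 := qb2 j (m + 1) hjk (by omega) g f hg hf hgf
      have h2 := stp j (m + 1) (by omega) (by omega) f f' hf hf' hff' _ h1
      push_cast at h2
      have hm0 : 0 < (m : ℝ) + 1 := by positivity
      have h3 : 0 < (m : ℝ) + 1 - j := by linarith
      have h4 : ((m : ℝ) + 1) * ent f' ≤ ((m : ℝ) + 1) *
          ((((j : ℝ) + 1) / ((m : ℝ) + 1 - j) *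
            Real.sqrt (((m : ℝ) + 1 - j + 2) / (m + 1 + 2))) * ent f) := by
        refine h2.trans (le_of_eq ?_)
        field_simp
      exact le_of_mul_le_mul_left h4 hm0
  obtain ⟨r, hr, hr'⟩ := hb
  refine ⟨-a, r, hr, ?_⟩
  have h1 : K = (fun y => -a + y) '' K' := by
    rw [hK', image_image]
    simp
  rw [h1, hr']
  ext z
  constructor
  · rintro ⟨y, hy, rfl⟩
    rw [Metric.mem_closedBall, dist_zero_right] at hy
    rw [Metric.mem_closedBall, dist_eq_norm]
    simpa using hy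
  · intro hz
    rw [Metric.mem_closedBall, dist_eq_norm] at hz
    refine ⟨a + z, ?_, by simp⟩
    rw [Metric.mem_closedBall, dist_zero_right]
    rwa [sub_neg_eq_add, add_comm] at hz

end Pool.Agent.BPH
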