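import Pool.Agent.BPH.Stmts

/-!
# BPH, row MOL, part A: total variation of unimodal functions on the line
-/

open MeasureTheory Module Set Filter
open scoped RealInnerProductSpace Pointwise Topology ENNReal

namespace Pool.Agent.BPH.H55

/-- total variation bound for a unimodal function -/
theorem unimodal_upper {u : ℝ → ℝ} (hc : Continuous u) (h0 : ∀ x, 0 ≤ u x) (h1 : ∀ x, u x ≤ 1)
    (hq : ∀ a b c, a ≤ b → b ≤ c → min (u a) (u c) ≤ u b) {R : ℝ} (hR : 0 ≤ R)
    (hz : ∀ x, R ≤ |x| → u x = 0) {t : ℝ} (ht : 0 < t) :
    ∫ x, |u (x + t) - u x| ≤ 2 * t := by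
  obtain ⟨m, -, hm'⟩ := isCompact_Icc.exists_isMaxOn (nonempty_Icc.2 (by linarith : -R ≤ R))
    hc.continuousOn
  have hm : ∀ x, u x ≤ u m := by
    intro x
    by_cases hx : R ≤ |x|
    · rw [hz x hx]; exact h0 m
    · push Not at hx
      exact hm' (a := x) ⟨(abs_lt.1 hx).1.le, (abs_lt.1 hx).2.le⟩
  have hmono : ∀ a b, a ≤ b → b ≤ m → u a ≤ u b := by
    intro a b hab hbm
    have h := hq a b m hab hbm
    rwa [min_eq_left (hm a)] at h
  have hanti : ∀ a b, m ≤ a → a ≤ b → u b ≤ u a := by
    intro a b hma hab
    have h := hq m a b hma hab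
    rwa [min_eq_right (hm b)] at h
  set V : ℝ → ℝ := fun x => u (min x m) - u (max x m) with hV
  have hVc : Continuous V :=
    (hc.comp (continuous_id.min continuous_const)).sub (hc.comp (continuous_id.max continuous_const))
  have hV1 : ∀ x, |V x| ≤ 1 := by
    intro x
    rw [abs_le]
    constructor
    · have := h0 (min x m); have := h1 (max x m); simp only [hV]; linarith
    · have := h1 (min x m); have := h0 (max x m); simp only [hV]; linarith
  have hpt : ∀ x, |u (x + t) - u x| ≤ V (x + t) - V x := by
    intro x
    simp only [hV]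
    rcases le_total (x + t) m with h | h
    · rw [min_eq_left h, max_eq_right h, min_eq_left (by linarith : x ≤ m),
        max_eq_right (by linarith : x ≤ m)]
      rw [abs_of_nonneg (sub_nonneg.2 (hmono _ _ (by linarith) h))]
      linarith
    · rcases le_total x m with h' | h'
      · rw [min_eq_right h, max_eq_left h, min_eq_left h', max_eq_right h', abs_le]
        have := hm (x + t); have := hm x
        constructor <;> linarith
      · rw [min_eq_right h, max_eq_left h, min_eq_right h', max_eq_left h']
        rw [abs_of_nonpos (sub_nonpos.2 (hanti _ _ h' (by linarith)))]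
        linarith
  have hI : ∫ x, |u (x + t) - u x| = ∫ x in (-R - t)..R, |u (x + t) - u x| := by
    rw [intervalIntegral.integral_of_le (by linarith)]
    symm
    refine setIntegral_eq_integral_of_forall_compl_eq_zero fun x hx => ?_
    rw [mem_Ioc, not_and_or, not_lt, not_le] at hx
    rcases hx with hx | hx
    · rw [hz (x + t) (by rw [abs_of_nonpos (by linarith)]; linarith),
        hz x (by rw [abs_of_nonpos (by linarith)]; linarith), sub_zero, abs_zero]
    · rw [hz (x + t) (by rw [abs_of_nonneg (by linarith)]; linarith),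
        hz x (by rw [abs_of_nonneg (by linarith)]; linarith), sub_zero, abs_zero]
  have hct : Continuous fun x => V (x + t) := hVc.comp (continuous_id.add continuous_const)
  rw [hI]
  have h2 : ∫ x in (-R - t)..R, |u (x + t) - u x| ≤ ∫ x in (-R - t)..R, (V (x + t) - V x) := by
    refine intervalIntegral.integral_mono (by linarith) ?_ ?_ hpt
    · exact ((hc.comp (continuous_id.add continuous_const)).sub hc).abs.intervalIntegrable _ _
    · exact (hct.sub hVc).intervalIntegrable _ _
  refine h2.trans ?_
  rw [intervalIntegral.integral_sub (hct.intervalIntegrable _ _) (hVc.intervalIntegrable _ _),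
    intervalIntegral.integral_comp_add_right,
    intervalIntegral.integral_interval_sub_interval_comm' (hVc.intervalIntegrable _ _)
      (hVc.intervalIntegrable _ _) (hVc.intervalIntegrable _ _)]
  have b1 : ‖∫ x in R..(R + t), V x‖ ≤ 1 * |R + t - R| :=
    intervalIntegral.norm_integral_le_of_norm_le_const fun x _ => hV1 x
  have b2 : ‖∫ x in (-R - t)..(-R - t + t), V x‖ ≤ 1 * |-R - t + t - (-R - t)| :=
    intervalIntegral.norm_integral_le_of_norm_le_const fun x _ => hV1 x
  have e1 : |R + t - R| = t := by rw [show R + t - R = t by ring, abs_of_pos ht]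
  have e2 : |-R - t + t - (-R - t)| = t := by
    rw [show -R - t + t - (-R - t) = t by ring, abs_of_pos ht]
  rw [e1, Real.norm_eq_abs] at b1
  rw [e2, Real.norm_eq_abs] at b2
  have := (abs_le.1 b1).2
  have := (abs_le.1 b2).1
  linarith

/-- lower bound for a Lipschitz function reaching the value 1 -/
theorem peak_lower {u : ℝ → ℝ} (hc : Continuous u) {R s : ℝ} (hs : 0 < s)
    (hz : ∀ x, R ≤ |x| → u x = 0) (hl : ∀ x y, |u x - u y| ≤ |x - y| / s) {p : ℝ} (hp : u p = 1)
    {t : ℝ} (ht : 0 < t) :
    2 * t * (1 - t / s) ≤ ∫ x, |u (x + t) - u x| := by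
  have hpR : |p| < R := by
    by_contra h
    push Not at h
    rw [hz p h] at hp
    norm_num at hp
  obtain ⟨hp1, hp2⟩ := abs_lt.1 hpR
  have hI : ∫ x, |u (x + t) - u x| = ∫ x in (-R - t)..R, |u (x + t) - u x| := by
    rw [intervalIntegral.integral_of_le (by linarith)]
    symm
    refine setIntegral_eq_integral_of_forall_compl_eq_zero fun x hx => ?_
    rw [mem_Ioc, not_and_or, not_lt, not_le] at hx
    rcases hx with hx | hx
    · rw [hz (x + t) (by rw [abs_of_nonpos (by linarith)]; linarith),
        hz x (by rw [abs_of_nonpos (by linarith)]; linarith), sub_zero, abs_zero]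
    · rw [hz (x + t) (by rw [abs_of_nonneg (by linarith)]; linarith),
        hz x (by rw [abs_of_nonneg (by linarith)]; linarith), sub_zero, abs_zero]
  have hut : Continuous fun x => u (x + t) := hc.comp (continuous_id.add continuous_const)
  have hd : Continuous fun x => |u (x + t) - u x| := (hut.sub hc).abs
  have hint : ∀ a b : ℝ, IntervalIntegrable (fun x => |u (x + t) - u x|) volume a b :=
    fun a b => hd.intervalIntegrable a b
  have hu : ∀ a b : ℝ, IntervalIntegrable u volume a b := fun a b => hc.intervalIntegrable a b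
  have hzero : ∀ a b : ℝ, a ≤ b → (∀ x ∈ Icc a b, R ≤ |x|) → ∫ x in a..b, u x = 0 := by
    intro a b hab h
    rw [intervalIntegral.integral_congr (g := fun _ => (0 : ℝ)) (fun x hx => by
      rw [uIcc_of_le hab] at hx
      exact hz x (h x hx))]
    simp
  have hlow : ∀ a b : ℝ, b - a = t → (∀ x ∈ Icc a b, |x - p| ≤ t) →
      t * (1 - t / s) ≤ ∫ x in a..b, u x := by
    intro a b hab h
    have h1 : ∫ x in a..b, (1 - t / s) ≤ ∫ x in a..b, u x := by
      refine intervalIntegral.integral_mono_on (by linarith) (by simp) (hu a b) fun x hx => ?_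
      have h2 := hl x p
      have h3 : |x - p| / s ≤ t / s := div_le_div_of_nonneg_right (h x hx) hs.le
      have h4 := (abs_le.1 (h2.trans h3)).1
      rw [hp] at h4
      linarith
    rw [intervalIntegral.integral_const, smul_eq_mul, hab] at h1
    exact h1
  rw [hI, ← intervalIntegral.integral_add_adjacent_intervals (hint (-R - t) (p - t)) (hint _ R),
    ← intervalIntegral.integral_add_adjacent_intervals (hint (p - t) p) (hint p R)]
  have J2 : 0 ≤ ∫ x in (p - t)..p, |u (x + t) - u x| :=
    intervalIntegral.integral_nonneg (by linarith) fun x _ => abs_nonneg _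
  have J1 : t * (1 - t / s) ≤ ∫ x in (-R - t)..(p - t), |u (x + t) - u x| := by
    have h1 : ∫ x in (-R - t)..(p - t), (u (x + t) - u x) ≤
        ∫ x in (-R - t)..(p - t), |u (x + t) - u x| :=
      intervalIntegral.integral_mono (by linarith)
        ((hut.sub hc).intervalIntegrable _ _) (hint _ _) fun x => le_abs_self _
    refine le_trans ?_ h1
    rw [intervalIntegral.integral_sub (hut.intervalIntegrable _ _) (hu _ _),
      intervalIntegral.integral_comp_add_right,
      intervalIntegral.integral_interval_sub_interval_comm' (hu _ _) (hu _ _) (hu _ _),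
      hzero (-R - t) (-R - t + t) (by linarith) (fun x hx => by
        rw [abs_of_nonpos (by linarith [hx.2])]; linarith [hx.2]), sub_zero]
    refine hlow _ _ (by ring) fun x hx => ?_
    rw [abs_le]
    constructor <;> linarith [hx.1, hx.2]
  have J3 : t * (1 - t / s) ≤ ∫ x in p..R, |u (x + t) - u x| := by
    have h1 : ∫ x in p..R, (u x - u (x + t)) ≤ ∫ x in p..R, |u (x + t) - u x| :=
      intervalIntegral.integral_mono (by linarith)
        ((hc.sub hut).intervalIntegrable _ _) (hint _ _) fun x => by
          show u x - u (x + t) ≤ |u (x + t) - u x|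
          rw [abs_sub_comm]; exact le_abs_self _
    refine le_trans ?_ h1
    rw [intervalIntegral.integral_sub (hu _ _) (hut.intervalIntegrable _ _),
      intervalIntegral.integral_comp_add_right,
      intervalIntegral.integral_interval_sub_interval_comm (hu _ _) (hu _ _) (hu _ _),
      hzero R (R + t) (by linarith) (fun x hx => by
        rw [abs_of_nonneg (by linarith [hx.1])]; linarith [hx.1]), sub_zero]
    refine hlow _ _ (by ring) fun x hx => ?_
    rw [abs_le]
    constructor <;> linarith [hx.1, hx.2]
  linarith

end Pool.Agent.BPH.H55
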