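import Pool.Agent.BPH.MolA

/-!
# BPH, row MOL, part B: the cut off distance function and Fubini
-/

set_option linter.unusedSectionVars false

open MeasureTheory Module Set Filter
open scoped RealInnerProductSpace Pointwise Topology ENNReal

namespace Pool.Agent.BPH.H55

open Pool.Agent.Helper55_PB Pool.Agent.Helper28_PB

section

variable {E : Type} [NormedAddCommGroup E] [InnerProductSpace ℝ E]

/-- cut off distance function -/
noncomputable def gg (M : Set E) (s : ℝ) (x : E) : ℝ := max 0 (1 - Metric.infDist x M / s)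

theorem gg_nonneg (M : Set E) (s : ℝ) (x : E) : 0 ≤ gg M s x := le_max_left _ _

theorem gg_le_one (M : Set E) {s : ℝ} (hs : 0 < s) (x : E) : gg M s x ≤ 1 := by
  unfold gg
  have h : 0 ≤ Metric.infDist x M / s := div_nonneg Metric.infDist_nonneg hs.le
  exact max_le (by norm_num) (by linarith)

theorem gg_eq_one {M : Set E} (s : ℝ) {x : E} (hx : x ∈ M) : gg M s x = 1 := by
  unfold gg
  rw [Metric.infDist_zero_of_mem hx, zero_div, sub_zero]
  exact max_eq_right (by norm_num)

theorem gg_lip (M : Set E) {s : ℝ} (hs : 0 < s) (x y : E) :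
    |gg M s x - gg M s y| ≤ ‖x - y‖ / s := by
  unfold gg
  rw [max_comm 0, max_comm 0]
  refine (abs_max_sub_max_le_abs _ _ _).trans ?_
  have h1 : |Metric.infDist x M - Metric.infDist y M| ≤ ‖x - y‖ := by
    have h := (Metric.lipschitz_infDist_pt M).dist_le_mul x y
    rw [NNReal.coe_one, one_mul, Real.dist_eq, dist_eq_norm] at h
    exact h
  have e : 1 - Metric.infDist x M / s - (1 - Metric.infDist y M / s) =
      -((Metric.infDist x M - Metric.infDist y M) / s) := by ring
  rw [e, abs_neg, abs_div, abs_of_pos hs]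
  exact div_le_div_of_nonneg_right h1 hs.le

theorem gg_lipschitz (M : Set E) {s : ℝ} (hs : 0 < s) :
    LipschitzWith (Real.toNNReal (1 / s)) (gg M s) := by
  refine LipschitzWith.of_dist_le_mul fun x y => ?_
  rw [Real.coe_toNNReal _ (by positivity), Real.dist_eq, dist_eq_norm]
  refine (gg_lip M hs x y).trans (le_of_eq ?_)
  ring

theorem gg_continuous (M : Set E) {s : ℝ} (hs : 0 < s) : Continuous (gg M s) :=
  (gg_lipschitz M hs).continuous

theorem infDist_convex {M : Set E} (hM : IsCompact M) (hc : Convex ℝ M) (hne : M.Nonempty)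
    (x y : E) {a b : ℝ} (ha : 0 ≤ a) (hb : 0 ≤ b) (hab : a + b = 1) :
    Metric.infDist (a • x + b • y) M ≤ a * Metric.infDist x M + b * Metric.infDist y M := by
  obtain ⟨p, hp, hp'⟩ := hM.exists_infDist_eq_dist hne x
  obtain ⟨q, hq, hq'⟩ := hM.exists_infDist_eq_dist hne y
  rw [hp', hq']
  have hm : a • p + b • q ∈ M := hc hp hq ha hb hab
  refine (Metric.infDist_le_dist_of_mem hm).trans ?_
  rw [dist_eq_norm, dist_eq_norm, dist_eq_norm]
  have e : a • x + b • y - (a • p + b • q) = a • (x - p) + b • (y - q) := by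
    rw [smul_sub, smul_sub]; abel
  rw [e]
  refine (norm_add_le _ _).trans ?_
  rw [norm_smul, norm_smul, Real.norm_of_nonneg ha, Real.norm_of_nonneg hb]

theorem gg_quasi {M : Set E} (hM : IsCompact M) (hc : Convex ℝ M) (hne : M.Nonempty) {s : ℝ}
    (hs : 0 < s) (x w : E) (a b c : ℝ) (hab : a ≤ b) (hbc : b ≤ c) :
    min (gg M s (x + a • w)) (gg M s (x + c • w)) ≤ gg M s (x + b • w) := by
  have key : Metric.infDist (x + b • w) M ≤
      max (Metric.infDist (x + a • w) M) (Metric.infDist (x + c • w) M) := by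
    rcases eq_or_lt_of_le (hab.trans hbc) with h | h
    · have h1 : b = a := le_antisymm (by linarith) hab
      rw [h1]; exact le_max_left _ _
    · have hca : 0 < c - a := by linarith
      set l : ℝ := (b - a) / (c - a) with hl
      have hl0 : 0 ≤ l := div_nonneg (by linarith) hca.le
      have hl1 : l ≤ 1 := by rw [hl, div_le_one hca]; linarith
      have hb : b = (1 - l) * a + l * c := by rw [hl]; field_simp; ring
      have e : x + b • w = (1 - l) • (x + a • w) + l • (x + c • w) := by
        rw [hb]; module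
      rw [e]
      refine (infDist_convex hM hc hne _ _ (by linarith) hl0 (by ring)).trans ?_
      have m1 := le_max_left (Metric.infDist (x + a • w) M) (Metric.infDist (x + c • w) M)
      have m2 := le_max_right (Metric.infDist (x + a • w) M) (Metric.infDist (x + c • w) M)
      nlinarith
  unfold gg
  rcases le_max_iff.1 key with h | h
  · refine (min_le_left _ _).trans (max_le_max le_rfl ?_)
    have := div_le_div_of_nonneg_right h hs.le
    linarith
  · refine (min_le_right _ _).trans (max_le_max le_rfl ?_)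
    have := div_le_div_of_nonneg_right h hs.le
    linarith

theorem gg_supp {M : Set E} (hM : IsCompact M) (hne : M.Nonempty) {s : ℝ} (hs : 0 < s) {x : E}
    (hx : x ∉ M + Metric.closedBall (0 : E) s) : gg M s x = 0 := by
  obtain ⟨p, hp, hp'⟩ := hM.exists_infDist_eq_dist hne x
  unfold gg
  refine max_eq_left ?_
  by_contra h
  push Not at h
  apply hx
  refine ⟨p, hp, x - p, ?_, by simp⟩
  rw [mem_closedBall_zero_iff, ← dist_eq_norm, ← hp']
  have h2 : Metric.infDist x M / s < 1 := by linarith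
  rw [div_lt_one hs] at h2
  exact h2.le

theorem exists_radius {M : Set E} (hM : IsCompact M) (s : ℝ) : ∃ R : ℝ, 0 < R ∧
    M + Metric.closedBall (0 : E) s ⊆ Metric.closedBall (0 : E) R := by
  obtain ⟨R, hR⟩ := hM.isBounded.exists_norm_le
  refine ⟨max (R + s) 1, lt_of_lt_of_le one_pos (le_max_right _ _), ?_⟩
  rintro z ⟨x, hx, y, hy, rfl⟩
  rw [mem_closedBall_zero_iff] at hy ⊢
  refine le_trans ?_ (le_max_left _ _)
  exact (norm_add_le _ _).trans (add_le_add (hR x hx) hy)

end

section

variable {E : Type} [NormedAddCommGroup E] [InnerProductSpace ℝ E] [FiniteDimensional ℝ E]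
  [MeasurableSpace E] [BorelSpace E]

/-- Fubini for a continuous function with compact support, along the unit vector `e` -/
theorem integral_line {e : E} (he : ‖e‖ = 1) {F : E → ℝ} (hF : Continuous F)
    (hs : HasCompactSupport F) :
    Integrable (fun y : ((ℝ ∙ e)ᗮ : Submodule ℝ E) => ∫ σ : ℝ, F ((y : E) + σ • e)) volume ∧
    ∫ x, F x = ∫ y : ((ℝ ∙ e)ᗮ : Submodule ℝ E), ∫ σ : ℝ, F ((y : E) + σ • e) := by
  have h := measurePreserving_lineMap he
  have hi : Integrable F volume := hF.integrable_of_hasCompactSupport hs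
  have hi2 : Integrable (fun p => F (lineMap e p))
      (volume : Measure (((ℝ ∙ e)ᗮ : Submodule ℝ E) × ℝ)) :=
    (h.integrable_comp hF.aestronglyMeasurable).2 hi
  have e1 : ∫ x, F x = ∫ p : ((ℝ ∙ e)ᗮ : Submodule ℝ E) × ℝ, F (lineMap e p) := by
    conv_lhs => rw [← h.map_eq]
    exact integral_map h.measurable.aemeasurable hF.aestronglyMeasurable
  rw [Measure.volume_eq_prod] at hi2
  refine ⟨hi2.integral_prod_left, ?_⟩
  rw [e1, Measure.volume_eq_prod, integral_prod _ hi2]
  rfl

theorem norm_line_ge {e : E} (he : ‖e‖ = 1) (y : E) (x : ℝ) : |x| - ‖y‖ ≤ ‖y + x • e‖ := by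
  have h1 : ‖x • e‖ ≤ ‖y + x • e‖ + ‖y‖ := by
    have : x • e = (y + x • e) - y := by abel
    calc ‖x • e‖ = ‖(y + x • e) - y‖ := by rw [← this]
      _ ≤ _ := norm_sub_le _ _
  rw [norm_smul, he, mul_one, Real.norm_eq_abs] at h1
  linarith

theorem diff_facts {M : Set E} (hM : CC M) {s : ℝ} (hs : 0 < s) (e : E) (t : ℝ) :
    Continuous (fun x => |gg M s (x + t • e) - gg M s x|) ∧
    HasCompactSupport (fun x => |gg M s (x + t • e) - gg M s x|) := by
  have hg := gg_continuous M hs
  obtain ⟨R, hR, hR'⟩ := exists_radius hM.cpt s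
  have hz : ∀ x : E, R < ‖x‖ → gg M s x = 0 := fun x hx =>
    gg_supp hM.cpt hM.ne hs fun h => absurd (mem_closedBall_zero_iff.1 (hR' h)) (not_le.2 hx)
  refine ⟨((hg.comp (continuous_id.add continuous_const)).sub hg).abs, ?_⟩
  refine HasCompactSupport.of_support_subset_isCompact
    (isCompact_closedBall (0 : E) (R + ‖t • e‖)) fun x hx => ?_
  by_contra hx'
  rw [mem_closedBall_zero_iff, not_le] at hx'
  apply hx
  have h1 : R < ‖x‖ := lt_of_le_of_lt (le_add_of_nonneg_right (norm_nonneg _)) hx'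
  have h2 : R < ‖x + t • e‖ := by
    have : ‖x‖ ≤ ‖x + t • e‖ + ‖t • e‖ := by
      calc ‖x‖ = ‖(x + t • e) - t • e‖ := by rw [add_sub_cancel_right]
        _ ≤ _ := norm_sub_le _ _
    linarith
  show |gg M s (x + t • e) - gg M s x| = 0
  rw [hz _ h1, hz _ h2, sub_zero, abs_zero]

theorem line_radius {M : Set E} (hM : CC M) {s : ℝ} (hs : 0 < s) {e : E} (he : ‖e‖ = 1) (y : E) :
    ∃ R : ℝ, 0 ≤ R ∧ ∀ x : ℝ, R ≤ |x| → gg M s (y + x • e) = 0 := by
  obtain ⟨R, hR, hR'⟩ := exists_radius hM.cpt s
  refine ⟨R + ‖y‖ + 1, by positivity, fun x hx => ?_⟩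
  refine gg_supp hM.cpt hM.ne hs fun h => ?_
  have h1 := mem_closedBall_zero_iff.1 (hR' h)
  have h2 := norm_line_ge he y x
  linarith

theorem int_upper {M : Set E} (hM : CC M) {s : ℝ} (hs : 0 < s) {e : E} (he : ‖e‖ = 1) {t : ℝ}
    (ht : 0 < t) :
    ∫ x, |gg M s (x + t • e) - gg M s x| ≤
      2 * t * shadowVol (M + Metric.closedBall (0 : E) s) e := by
  obtain ⟨hc, hcs⟩ := diff_facts hM hs e t
  obtain ⟨hi, hI⟩ := integral_line he hc hcs
  have hg := gg_continuous M hs
  set Ms : Set E := M + Metric.closedBall (0 : E) s with hMs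
  have hMsc : IsCompact Ms := hM.cpt.add (isCompact_closedBall _ _)
  have hPc : IsCompact ((ℝ ∙ e)ᗮ.orthogonalProjectionOnto '' Ms) :=
    hMsc.image (ContinuousLinearMap.continuous _)
  have hPm := hPc.measurableSet
  rw [hI]
  have hb : ∀ y : ((ℝ ∙ e)ᗮ : Submodule ℝ E),
      ∫ σ : ℝ, |gg M s ((y : E) + σ • e + t • e) - gg M s ((y : E) + σ • e)| ≤
      ((ℝ ∙ e)ᗮ.orthogonalProjectionOnto '' Ms).indicator (fun _ => 2 * t) y := by
    intro y
    have e1 : ∀ σ : ℝ, (y : E) + σ • e + t • e = (y : E) + (σ + t) • e := by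
      intro σ; rw [add_smul, add_assoc]
    simp only [e1]
    by_cases hy : y ∈ (ℝ ∙ e)ᗮ.orthogonalProjectionOnto '' Ms
    · rw [indicator_of_mem hy]
      obtain ⟨R, hR, hz⟩ := line_radius hM hs he (y : E)
      exact unimodal_upper (u := fun σ => gg M s ((y : E) + σ • e))
        (hg.comp (continuous_const.add (continuous_id.smul continuous_const)))
        (fun _ => gg_nonneg _ _ _) (fun _ => gg_le_one _ hs _)
        (fun a b c hab hbc => gg_quasi hM.cpt hM.cvx hM.ne hs (y : E) e a b c hab hbc) hR hz ht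
    · rw [indicator_of_notMem hy]
      have h0 : ∀ σ : ℝ, gg M s ((y : E) + σ • e) = 0 := by
        intro σ
        refine gg_supp hM.cpt hM.ne hs fun h => hy ((mem_proj_iff he y).2 ⟨σ, h⟩)
      simp only [h0, sub_zero, abs_zero, integral_zero]
      exact le_rfl
  have h2 : ∫ y : ((ℝ ∙ e)ᗮ : Submodule ℝ E),
      ((ℝ ∙ e)ᗮ.orthogonalProjectionOnto '' Ms).indicator (fun _ => 2 * t) y =
      2 * t * shadowVol Ms e := by
    rw [integral_indicator hPm, setIntegral_const, smul_eq_mul, shadowVol, measureReal_def]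
    ring
  rw [← h2]
  refine integral_mono hi ?_ hb
  exact (integrable_indicator_iff hPm).2 (integrableOn_const hPc.measure_lt_top.ne)

theorem int_lower {M : Set E} (hM : CC M) {s : ℝ} (hs : 0 < s) {e : E} (he : ‖e‖ = 1) {t : ℝ}
    (ht : 0 < t) :
    2 * t * (1 - t / s) * shadowVol M e ≤ ∫ x, |gg M s (x + t • e) - gg M s x| := by
  obtain ⟨hc, hcs⟩ := diff_facts hM hs e t
  obtain ⟨hi, hI⟩ := integral_line he hc hcs
  have hg := gg_continuous M hs
  have hPc : IsCompact ((ℝ ∙ e)ᗮ.orthogonalProjectionOnto '' M) :=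
    hM.cpt.image (ContinuousLinearMap.continuous _)
  have hPm := hPc.measurableSet
  rw [hI]
  have hb : ∀ y : ((ℝ ∙ e)ᗮ : Submodule ℝ E),
      ((ℝ ∙ e)ᗮ.orthogonalProjectionOnto '' M).indicator (fun _ => 2 * t * (1 - t / s)) y ≤
      ∫ σ : ℝ, |gg M s ((y : E) + σ • e + t • e) - gg M s ((y : E) + σ • e)| := by
    intro y
    have e1 : ∀ σ : ℝ, (y : E) + σ • e + t • e = (y : E) + (σ + t) • e := by
      intro σ; rw [add_smul, add_assoc]
    simp only [e1]
    by_cases hy : y ∈ (ℝ ∙ e)ᗮ.orthogonalProjectionOnto '' M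
    · rw [indicator_of_mem hy]
      obtain ⟨R, hR, hz⟩ := line_radius hM hs he (y : E)
      obtain ⟨p, hp⟩ := (mem_proj_iff he y).1 hy
      refine peak_lower (u := fun σ => gg M s ((y : E) + σ • e)) (p := p)
        (hg.comp (continuous_const.add (continuous_id.smul continuous_const))) hs hz
        (fun a b => ?_) (gg_eq_one s hp) ht
      refine (gg_lip M hs _ _).trans (le_of_eq ?_)
      have e2 : (y : E) + a • e - ((y : E) + b • e) = (a - b) • e := by
        rw [sub_smul]; abel
      rw [e2, norm_smul, he, mul_one, Real.norm_eq_abs]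
    · rw [indicator_of_notMem hy]
      exact integral_nonneg fun σ => abs_nonneg _
  have h2 : ∫ y : ((ℝ ∙ e)ᗮ : Submodule ℝ E),
      ((ℝ ∙ e)ᗮ.orthogonalProjectionOnto '' M).indicator (fun _ => 2 * t * (1 - t / s)) y =
      2 * t * (1 - t / s) * shadowVol M e := by
    rw [integral_indicator hPm, setIntegral_const, smul_eq_mul, shadowVol, measureReal_def]
    ring
  rw [← h2]
  refine integral_mono ?_ hi hb
  exact (integrable_indicator_iff hPm).2 (integrableOn_const hPc.measure_lt_top.ne)

end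

end Pool.Agent.BPH.H55
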