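import Pool.Agent.Helper55_PB.BallsFin

/-!
# Convex bodies homothetic to their `i`-th projection body in large dimensions: only balls

Main statement: if `i ≥ 1` and `n ≥ 2 i^2 + 2`, the convex bodies in `E^n` that are homothetic to
their `i`-th projection body are exactly the Euclidean balls.
-/

open MeasureTheory Module Set
open scoped RealInnerProductSpace

namespace Pool.Agent.BPH.OnlyBallsOld

open Pool.Agent.Helper55_PB

/-- If `i ≥ 1` and `n ≥ 2 i^2 + 2`, a set `K` in `E^n` is a convex body homothetic to its `i`-th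
projection body if and only if it is a closed ball of positive radius. -/
theorem result (n i : ℕ) (hi : 1 ≤ i) (hn : 2 * i ^ 2 + 2 ≤ n)
    (K : Set (EuclideanSpace ℝ (Fin n))) :
    (IsConvexBody K ∧ ∃ L : Set (EuclideanSpace ℝ (Fin n)),
      IsProjectionBodyOfOrder i K L ∧ Homothetic K L) ↔
    ∃ (x : EuclideanSpace ℝ (Fin n)) (r : ℝ), 0 < r ∧ K = Metric.closedBall x r := by
  have hfr : finrank ℝ (EuclideanSpace ℝ (Fin n)) = n := finrank_euclideanSpace_fin
  constructor
  · rintro ⟨hK, L, hL, hKL⟩
    exact ball_of_sol facts hi (by rw [hfr]; exact hn) hK hL hKL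
  · rintro ⟨x, r, hr, rfl⟩
    have hi2 : i ≤ i ^ 2 := Nat.le_self_pow (by norm_num) i
    exact sol_of_ball (by rw [hfr]; omega) x hr

end Pool.Agent.BPH.OnlyBallsOld
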