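import Pool.Agent.BPH.Stmts

/-!
# BPH, row QBB: sup norm bound for images (helper53)
-/

open MeasureTheory Module Set Filter
open scoped RealInnerProductSpace Pointwise Topology ENNReal

namespace Pool.Agent.BPH

open Pool.Agent.Helper55_PB Pool.Agent.Helper28_PB

namespace H53

section
variable {E : Type} [NormedAddCommGroup E] [InnerProductSpace ℝ E] [FiniteDimensional ℝ E]

theorem gw_nonneg {i : ℕ} (v : Fin i → E) : 0 ≤ gw v := Real.sqrt_nonneg _

theorem gw_eq_zero (gwb : GWB) {i : ℕ} {v : Fin i → E} (h : ¬ LinearIndependent ℝ v) :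
    gw v = 0 := by
  have h1 := (gwb.pos_iff v).not.2 h
  exact le_antisymm (not_lt.1 h1) (gw_nonneg v)

theorem finrank_perp {i : ℕ} {v : Fin i → E} (h : LinearIndependent ℝ v) :
    finrank ℝ (perp v) = finrank ℝ E - i := by
  have h1 := Submodule.finrank_add_finrank_orthogonal (Submodule.span ℝ (Set.range v))
  have h2 : finrank ℝ (Submodule.span ℝ (Set.range v)) = i := by
    rw [finrank_span_eq_card h, Fintype.card_fin]
  unfold perp
  omega

theorem norm_nrm_le (y : E) : ‖nrm y‖ ≤ 1 := by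
  unfold nrm
  by_cases h : y = 0
  · simp [h]
  · rw [norm_smul, norm_inv, norm_norm, inv_mul_cancel₀ (norm_ne_zero_iff.2 h)]

theorem inner_sq_le (w y : E) : ⟪w, y⟫ ^ 2 ≤ ‖w‖ ^ 2 * ‖y‖ ^ 2 := by
  have h := abs_real_inner_le_norm w y
  rw [← mul_pow, ← sq_abs]
  exact pow_le_pow_left₀ (abs_nonneg _) h 2

theorem norm_starProjection_sq (U : Submodule ℝ E) (x : E) :
    ‖U.starProjection x‖ ^ 2 = ∑ i, ⟪((stdOrthonormalBasis ℝ U i : U) : E), x⟫ ^ 2 := by
  have h1 := (stdOrthonormalBasis ℝ U).sum_sq_norm_inner_right (U.orthogonalProjectionOnto x)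
  have h2 : ‖U.starProjection x‖ = ‖U.orthogonalProjectionOnto x‖ := by
    rw [Submodule.starProjection_apply, Submodule.coe_norm]
  rw [h2, ← h1]
  refine Finset.sum_congr rfl fun i _ => ?_
  rw [Real.norm_eq_abs, sq_abs]
  congr 1
  rw [← Submodule.inner_orthogonalProjectionOnto_eq_of_mem_left]

theorem norm_pp_sq {i : ℕ} (v : Fin i → E) (x : E) :
    ‖pp v x‖ ^ 2 = ‖x‖ ^ 2 - ‖(Submodule.span ℝ (Set.range v)).starProjection x‖ ^ 2 := by
  have h := (Submodule.span ℝ (Set.range v)).norm_sq_eq_add_norm_sq_starProjection x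
  unfold pp perp
  linarith

end

section
variable {E : Type} [NormedAddCommGroup E] [InnerProductSpace ℝ E] [FiniteDimensional ℝ E]
  [MeasurableSpace E] [BorelSpace E]

theorem int_bdd [Nontrivial E] (hs : SPH) {h : E → ℝ} (hm : Measurable h) (C : ℝ)
    (hC : ∀ x, ‖x‖ = 1 → |h x| ≤ C) : Integrable h (sph E) := by
  have := hs.prob (E := E)
  refine Integrable.of_bound hm.aestronglyMeasurable C ?_
  filter_upwards [hs.norm (E := E)] with x hx
  rw [Real.norm_eq_abs]
  exact hC x hx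

/-- second moments of the image of a step -/
theorem second_moment [Nontrivial E] (gwb : GWB) (hs : SPH) (bkk : BKKStmt) (zfu : ZFU)
    {j k : ℕ} (hk : 1 ≤ k) (hjk : j + 1 + k = finrank ℝ E) {g f : E → ℝ} (hg : Dens g)
    (hst : IsStep (j + 1) g f) (w : E) :
    ∫ x, ⟪w, x⟫ ^ 2 * f x ∂sph E ≤ ‖w‖ ^ 2 / k := by
  obtain ⟨b, hb, hbk⟩ := bkk E k hk (by omega)
  have := hs.prob (E := E)
  set φ : E → ℝ := fun x => min (⟪w, x⟫ ^ 2) (‖w‖ ^ 2) with hφ
  have hT : Tst φ := by
    refine ⟨?_, ‖w‖ ^ 2, fun x => ?_⟩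
    · exact ((measurable_const.inner measurable_id).pow_const 2).min measurable_const
    · rw [abs_of_nonneg (le_min (sq_nonneg _) (sq_nonneg _))]
      exact min_le_right _ _
  have hstep := hst φ hT
  have hZ : 0 < ZZ (j + 1) g := zfu.pos (j + 1) g (by omega) hg
  have e1 : ∫ x, ⟪w, x⟫ ^ 2 * f x ∂sph E = ∫ x, φ x * f x ∂sph E := by
    refine integral_congr_ae ?_
    filter_upwards [hs.norm (E := E)] with x hx
    have h1 := inner_sq_le w x
    rw [hx] at h1
    have h2 : φ x = ⟪w, x⟫ ^ 2 := min_eq_left (by linarith)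
    rw [h2]
  rw [e1]
  have hpr : ∀ v : Fin (j + 1) → E, 0 ≤ gw v * ∏ l, g (v l) := fun v =>
    mul_nonneg (gw_nonneg v) (Finset.prod_nonneg fun l _ => hg.nonneg _)
  have hle : ∫ v, (gw v * ∏ l, g (v l)) * mS (perp v) φ ∂sphP E (j + 1) ≤
      ∫ v, (gw v * ∏ l, g (v l)) * (‖w‖ ^ 2 / k) ∂sphP E (j + 1) := by
    refine integral_mono_of_nonneg ?_ ((zfu.int (j + 1) g hg).mul_const _) ?_
    · refine Eventually.of_forall fun v => ?_
      refine mul_nonneg (hpr v) ?_
      exact integral_nonneg fun x => le_min (sq_nonneg _) (sq_nonneg _)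
    · refine Eventually.of_forall fun v => ?_
      by_cases hv : LinearIndependent ℝ v
      · refine mul_le_mul_of_nonneg_left ?_ (hpr v)
        have hfr : finrank ℝ (perp v) = k := by rw [finrank_perp hv]; omega
        have h2 := (hbk (perp v) hfr w).2
        have h3 : mS (perp v) φ = mS (perp v) (fun x => ⟪w, x⟫ ^ 2) := by
          unfold mS
          refine integral_congr_ae (Eventually.of_forall fun x => ?_)
          have h4 := inner_sq_le w (nrm ((perp v).starProjection x))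
          have h5 := norm_nrm_le ((perp v).starProjection x)
          have h6 : ‖nrm ((perp v).starProjection x)‖ ^ 2 ≤ 1 := by
            have := norm_nonneg (nrm ((perp v).starProjection x))
            nlinarith
          have h7 : ‖w‖ ^ 2 * ‖nrm ((perp v).starProjection x)‖ ^ 2 ≤ ‖w‖ ^ 2 := by
            have := sq_nonneg ‖w‖
            nlinarith
          exact min_eq_left (h4.trans h7)
        rw [h3, h2]
        have h8 : ‖(perp v).starProjection w‖ ≤ ‖w‖ :=
          Submodule.norm_starProjection_apply_le _ _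
        have h9 : ‖(perp v).starProjection w‖ ^ 2 ≤ ‖w‖ ^ 2 :=
          pow_le_pow_left₀ (norm_nonneg _) h8 2
        exact div_le_div_of_nonneg_right h9 (Nat.cast_nonneg k)
      · show gw v * _ * _ ≤ gw v * _ * _
        rw [gw_eq_zero gwb hv]
        simp
  rw [integral_mul_const] at hle
  have h7 : ZZ (j + 1) g * ∫ x, φ x * f x ∂sph E ≤ ZZ (j + 1) g * (‖w‖ ^ 2 / k) := by
    rw [hstep]; exact hle
  exact le_of_mul_le_mul_left h7 hZ

theorem measurable_pp_norm (ppm : PPMStmt) {j : ℕ} (v : Fin j → E) :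
    Measurable fun x : E => ‖pp v x‖ := by
  have h1 : Measurable fun x : E => (v, x) := by fun_prop
  exact ((ppm (E := E) j).comp h1).norm

theorem norm_pp_le {j : ℕ} (v : Fin j → E) (x : E) : ‖pp v x‖ ≤ ‖x‖ :=
  Submodule.norm_starProjection_apply_le _ _

/-- the mean distance to a subspace -/
theorem mean_pp [Nontrivial E] (hs : SPH) (ppm : PPMStmt) {j k : ℕ} (hk : 1 ≤ k) {f : E → ℝ}
    (hf : Dens f) (h2 : ∀ w : E, ∫ x, ⟪w, x⟫ ^ 2 * f x ∂sph E ≤ ‖w‖ ^ 2 / k) (v : Fin j → E)
    (hv : LinearIndependent ℝ v) :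
    1 - (j : ℝ) / k ≤ ∫ x, ‖pp v x‖ * f x ∂sph E := by
  have := hs.prob (E := E)
  obtain ⟨C, hC⟩ := hf.bdd
  set U := Submodule.span ℝ (Set.range v) with hU
  have hfr : finrank ℝ U = j := by rw [hU, finrank_span_eq_card hv, Fintype.card_fin]
  set e := stdOrthonormalBasis ℝ U with he
  have hen : ∀ i, ‖((e i : U) : E)‖ = 1 := fun i => by
    have := e.orthonormal.1 i
    rwa [Submodule.norm_coe]
  have hif : Integrable f (sph E) := int_bdd hs hf.meas C fun x _ => by
    rw [abs_of_nonneg (hf.nonneg x)]; exact hC x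
  have hC0 : 0 ≤ C := (hf.nonneg 0).trans (hC 0)
  have hie : ∀ i, Integrable (fun x => ⟪((e i : U) : E), x⟫ ^ 2 * f x) (sph E) := by
    intro i
    refine int_bdd hs (((measurable_const.inner measurable_id).pow_const 2).mul hf.meas) C
      fun x hx => ?_
    rw [abs_mul, abs_of_nonneg (hf.nonneg x), abs_of_nonneg (sq_nonneg _)]
    have h3 := inner_sq_le ((e i : U) : E) x
    rw [hen, hx] at h3
    calc ⟪((e i : U) : E), x⟫ ^ 2 * f x ≤ 1 * C :=
          mul_le_mul (by linarith) (hC x) (hf.nonneg x) zero_le_one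
      _ = C := one_mul C
  have hip : Integrable (fun x => ‖pp v x‖ * f x) (sph E) := by
    refine int_bdd hs ((measurable_pp_norm ppm v).mul hf.meas) C fun x hx => ?_
    rw [abs_mul, abs_of_nonneg (hf.nonneg x), abs_of_nonneg (norm_nonneg _)]
    have h3 := norm_pp_le v x
    rw [hx] at h3
    calc ‖pp v x‖ * f x ≤ 1 * C := mul_le_mul h3 (hC x) (hf.nonneg x) zero_le_one
      _ = C := one_mul C
  have hmono : ∫ x, (f x - ∑ i, ⟪((e i : U) : E), x⟫ ^ 2 * f x) ∂sph E ≤
      ∫ x, ‖pp v x‖ * f x ∂sph E := by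
    refine integral_mono_ae (hif.sub (integrable_finsetSum _ fun i _ => hie i)) hip ?_
    filter_upwards [hs.norm (E := E)] with x hx
    have h3 := norm_pp_sq v x
    rw [hx, norm_starProjection_sq] at h3
    have h4 := norm_pp_le v x
    rw [hx] at h4
    have h5 : ‖pp v x‖ ^ 2 ≤ ‖pp v x‖ := by
      have := norm_nonneg (pp v x)
      nlinarith
    have h6 : f x - ∑ i, ⟪((e i : U) : E), x⟫ ^ 2 * f x =
        (1 - ∑ i, ⟪((e i : U) : E), x⟫ ^ 2) * f x := by
      rw [← Finset.sum_mul]; ring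
    show f x - ∑ i, ⟪((e i : U) : E), x⟫ ^ 2 * f x ≤ _
    rw [h6]
    refine mul_le_mul_of_nonneg_right ?_ (hf.nonneg x)
    have h7 : (1 : ℝ) - ∑ i, ⟪((e i : U) : E), x⟫ ^ 2 = ‖pp v x‖ ^ 2 := by
      rw [h3]; ring
    rw [h7]
    exact h5
  rw [integral_sub hif (integrable_finsetSum _ fun i _ => hie i), hf.int,
    integral_finsetSum _ fun i _ => hie i] at hmono
  refine le_trans ?_ hmono
  have hsum : ∑ i, ∫ x, ⟪((e i : U) : E), x⟫ ^ 2 * f x ∂sph E ≤ (j : ℝ) / k := by
    calc ∑ i, ∫ x, ⟪((e i : U) : E), x⟫ ^ 2 * f x ∂sph E ≤ ∑ _i : Fin (finrank ℝ U), (1 : ℝ) / k := by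
          refine Finset.sum_le_sum fun i _ => ?_
          have h3 := h2 ((e i : U) : E)
          rwa [hen, one_pow] at h3
      _ = (j : ℝ) / k := by
          rw [Finset.sum_const, Finset.card_univ, Fintype.card_fin, hfr, nsmul_eq_mul]
          ring
  linarith

theorem qbb_core [Nontrivial E] (gwa : GWAStmt) (gwb : GWB) (hs : SPH) (ppm : PPMStmt)
    (zfu : ZFU) {j k : ℕ} (hk : 1 ≤ k) {f : E → ℝ}
    (hf : Dens f) (h2 : ∀ w : E, ∫ x, ⟪w, x⟫ ^ 2 * f x ∂sph E ≤ ‖w‖ ^ 2 / k) :
    (1 - (j : ℝ) / k) * ZZ j f ≤ ZZ (j + 1) f := by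
  have := hs.prob (E := E)
  have : IsProbabilityMeasure (sphP E j) := by unfold sphP; infer_instance
  obtain ⟨C, hC⟩ := hf.bdd
  have hint : Integrable (Function.uncurry fun (x : E) (v : Fin j → E) =>
      f x * (gw v * ‖pp v x‖ * ∏ l, f (v l))) ((sph E).prod (sphP E j)) := by
    have hdom : Integrable (fun z : E × (Fin j → E) => (f z.1 * ‖z.1‖) *
        (gw z.2 * ∏ l, f (z.2 l))) ((sph E).prod (sphP E j)) := by
      refine Integrable.mul_prod (f := fun x : E => f x * ‖x‖)
        (g := fun v : Fin j → E => gw v * ∏ l, f (v l)) ?_ (zfu.int j f hf)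
      refine int_bdd hs (hf.meas.mul measurable_norm) C fun x hx => ?_
      rw [hx, mul_one, abs_of_nonneg (hf.nonneg x)]
      exact hC x
    refine hdom.mono ?_ ?_
    · have hgm : Measurable fun v : Fin j → E => gw v := gwb.cont.measurable
      have hpm : Measurable fun z : E × (Fin j → E) => ‖pp z.2 z.1‖ :=
        ((ppm (E := E) j).comp measurable_swap).norm
      have hfm : Measurable fun z : E × (Fin j → E) => ∏ l, f (z.2 l) :=
        Finset.measurable_prod _ fun l _ =>
          hf.meas.comp ((measurable_pi_apply l).comp measurable_snd)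
      exact ((hf.meas.comp measurable_fst).mul
        (((hgm.comp measurable_snd).mul hpm).mul hfm)).aestronglyMeasurable
    · refine Eventually.of_forall ?_
      rintro ⟨x, v⟩
      simp only [Function.uncurry]
      have h1 : 0 ≤ ∏ l, f (v l) := Finset.prod_nonneg fun l _ => hf.nonneg _
      have h3 := gw_nonneg v
      have h4 := norm_pp_le v x
      have h5 := hf.nonneg x
      have h6 := norm_nonneg (pp v x)
      rw [Real.norm_of_nonneg (by positivity), Real.norm_of_nonneg (by positivity)]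
      calc f x * (gw v * ‖pp v x‖ * ∏ l, f (v l)) ≤ f x * (gw v * ‖x‖ * ∏ l, f (v l)) := by
            gcongr
        _ = f x * ‖x‖ * (gw v * ∏ l, f (v l)) := by ring
  have hZ : ZZ (j + 1) f = ∫ v, ∫ x, f x * (gw v * ‖pp v x‖ * ∏ l, f (v l)) ∂sph E
      ∂sphP E j := by
    rw [zfu.succ j f hf, ← integral_integral_swap hint]
    refine integral_congr_ae (Eventually.of_forall fun x => ?_)
    show f x * YY j f x = ∫ v, f x * (gw v * ‖pp v x‖ * ∏ l, f (v l)) ∂sphP E j
    rw [integral_const_mul]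
    congr 1
    unfold YY
    refine integral_congr_ae (Eventually.of_forall fun v => ?_)
    show gw (cns x v) * _ = _
    rw [(gwa x v).2]
  rw [hZ]
  have hL : (1 - (j : ℝ) / k) * ZZ j f =
      ∫ v, (1 - (j : ℝ) / k) * (gw v * ∏ l, f (v l)) ∂sphP E j := by
    rw [integral_const_mul]; rfl
  rw [hL]
  refine integral_mono_ae ((zfu.int j f hf).const_mul _) hint.integral_prod_right ?_
  refine Eventually.of_forall fun v => ?_
  show (1 - (j : ℝ) / k) * (gw v * ∏ l, f (v l)) ≤
    ∫ x, f x * (gw v * ‖pp v x‖ * ∏ l, f (v l)) ∂sph E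
  by_cases hv : LinearIndependent ℝ v
  · have e1 : ∀ x, f x * (gw v * ‖pp v x‖ * ∏ l, f (v l)) =
        (gw v * ∏ l, f (v l)) * (‖pp v x‖ * f x) := by intro x; ring
    simp only [e1]
    rw [integral_const_mul, mul_comm]
    refine mul_le_mul_of_nonneg_left (mean_pp hs ppm hk hf h2 v hv) ?_
    exact mul_nonneg (gw_nonneg v) (Finset.prod_nonneg fun l _ => hf.nonneg _)
  · simp [gw_eq_zero gwb hv]

end

end H53

open H53 in
theorem qbb (gwa : GWAStmt) (gwb : GWB) (hs : SPH) (ppm : PPMStmt) (bkk : BKKStmt)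
    (zfu : ZFU) : QBBStmt := by
  intro E _ _ _ _ _ j k hjk hn g f hg hf hst x hx
  have : Nontrivial E := Module.nontrivial_of_finrank_pos (R := ℝ) (by omega)
  have hk : 1 ≤ k := by omega
  have h2 : ∀ w : E, ∫ x, ⟪w, x⟫ ^ 2 * f x ∂sph E ≤ ‖w‖ ^ 2 / k := fun w =>
    second_moment gwb hs bkk zfu hk hn hg hst w
  have h3 := qbb_core gwa gwb hs ppm zfu (j := j) hk hf h2
  have h4 := (zfu.nonneg j f x hf).2
  rw [hx, one_mul] at h4
  refine h4.trans ?_
  have hk' : (0 : ℝ) < k := by exact_mod_cast hk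
  have hjk' : (0 : ℝ) < (k : ℝ) - j := by
    have : (j : ℝ) < k := by exact_mod_cast hjk
    linarith
  have h5 : ((k : ℝ) - j) * ZZ j f ≤ k * ZZ (j + 1) f := by
    have h6 := mul_le_mul_of_nonneg_left h3 hk'.le
    have h7 : (k : ℝ) * ((1 - (j : ℝ) / k) * ZZ j f) = ((k : ℝ) - j) * ZZ j f := by
      field_simp
    linarith
  rw [div_mul_eq_mul_div, le_div_iff₀ hjk']
  linarith

end Pool.Agent.BPH
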