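import Pool.Agent.BPH.Kit

/-!
# Simple functions: sums over the values of a simple function as integrals over `sphP`

Tools for the rows AFM and ZOD.
-/

open MeasureTheory Module Set Filter
open scoped RealInnerProductSpace Pointwise Topology ENNReal

namespace Pool.Agent.BPH

open Pool.Agent.Helper55_PB Pool.Agent.Helper28_PB

theorem continuous_cns {E : Type} [NormedAddCommGroup E] {i : ℕ} :
    Continuous (fun q : E × (Fin i → E) => cns q.1 q.2) := by
  unfold cns
  refine continuous_pi (fun l => ?_)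
  refine Fin.cases ?_ (fun l => ?_) l
  · simpa using continuous_fst
  · simp only [Fin.cons_succ]
    exact (continuous_apply l).comp continuous_snd

section simp

variable {E : Type} [NormedAddCommGroup E] [InnerProductSpace ℝ E] [FiniteDimensional ℝ E]
  [MeasurableSpace E] [BorelSpace E]

/-- weight of the value `p` of the simple function `r`, with respect to the density `f` -/
noncomputable def wr (r : SimpleFunc E E) (f : E → ℝ) (p : E) : ℝ :=
  ∫ x, (r ⁻¹' {p}).indicator f x ∂sph E

theorem wr_nonneg (r : SimpleFunc E E) {f : E → ℝ} (hf : ∀ x, 0 ≤ f x) (p : E) :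
    0 ≤ wr r f p := by
  refine integral_nonneg (fun x => ?_)
  exact Set.indicator_nonneg (fun _ _ => hf _) _

theorem integrable_ind (r : SimpleFunc E E) {f : E → ℝ} (hf : Integrable f (sph E)) (p : E) :
    Integrable ((r ⁻¹' {p}).indicator f) (sph E) :=
  hf.indicator (r.measurableSet_fiber p)

/-- one variable -/
theorem simple_int1 (r : SimpleFunc E E) {f : E → ℝ} (hf : Integrable f (sph E)) (H : E → ℝ) :
    ∑ p : r.range, H p * wr r f p = ∫ x, H (r x) * f x ∂sph E := by
  have h1 : ∀ x : E, H (r x) * f x = ∑ p : r.range, H p * (r ⁻¹' {(p : E)}).indicator f x := by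
    intro x
    rw [Finset.sum_eq_single ⟨r x, SimpleFunc.mem_range_self r x⟩]
    · rw [Set.indicator_of_mem]
      exact rfl
    · rintro p _ hp
      rw [Set.indicator_of_notMem, mul_zero]
      intro hx
      apply hp
      have : r x = p := hx
      exact Subtype.ext this.symm
    · intro h
      exact absurd (Finset.mem_univ _) h
  simp_rw [h1]
  rw [integral_finset_sum _ (fun p _ => (integrable_ind r hf _).const_mul _)]
  refine Finset.sum_congr rfl ?_
  intro p _
  rw [integral_const_mul]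
  rfl

/-- several variables -/
theorem simple_int (sp : SPH) {m : ℕ} (r : SimpleFunc E E) {f : E → ℝ}
    (hf : Integrable f (sph E)) (G : (Fin m → E) → ℝ) :
    ∑ v : Fin m → r.range, G (fun l => (v l : E)) * ∏ l, wr r f (v l) =
      ∫ v, G (fun l => r (v l)) * ∏ l, f (v l) ∂sphP E m := by
  have := sp.prob (E := E)
  have h1 : ∀ x : Fin m → E, G (fun l => r (x l)) * ∏ l, f (x l) =
      ∑ v : Fin m → r.range, G (fun l => (v l : E)) *
        ∏ l, (r ⁻¹' {(v l : E)}).indicator f (x l) := by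
    intro x
    rw [Finset.sum_eq_single (fun l => ⟨r (x l), SimpleFunc.mem_range_self r (x l)⟩)]
    · congr 1
      refine Finset.prod_congr rfl ?_
      intro l _
      rw [Set.indicator_of_mem]
      exact rfl
    · rintro v _ hv
      obtain ⟨l, hl⟩ := Function.ne_iff.mp hv
      rw [Finset.prod_eq_zero (Finset.mem_univ l), mul_zero]
      rw [Set.indicator_of_notMem]
      intro hx
      apply hl
      have : r (x l) = v l := hx
      exact Subtype.ext this.symm
    · intro h
      exact absurd (Finset.mem_univ _) h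
  simp_rw [h1]
  have hint : ∀ v : Fin m → r.range, Integrable (fun x : Fin m → E =>
      ∏ l, (r ⁻¹' {(v l : E)}).indicator f (x l)) (sphP E m) := by
    intro v
    exact Integrable.fintype_prod (f := fun l : Fin m => (r ⁻¹' {(v l : E)}).indicator f)
      (fun l => integrable_ind r hf _)
  rw [integral_finset_sum _ (fun v _ => (hint v).const_mul _)]
  refine Finset.sum_congr rfl ?_
  intro v _
  rw [integral_const_mul]
  congr 1
  exact (integral_fintype_prod_eq_prod (𝕜 := ℝ)
    (fun l : Fin m => (r ⁻¹' {(v l : E)}).indicator f) (μ := fun _ => sph E)).symm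

theorem ae_norm_le (sp : SPH) [Nontrivial E] (m : ℕ) :
    ∀ᵐ v ∂sphP E m, ∀ l, ‖v l‖ ≤ 1 := by
  have := sp.prob (E := E)
  rw [ae_all_iff]
  intro l
  have h := (Measure.tendsto_eval_ae_ae (μ := fun _ : Fin m => sph E) (i := l)).eventually
    (sp.norm (E := E))
  exact h.mono (fun v hv => le_of_eq hv)

theorem prod_bdd {m : ℕ} {f : E → ℝ} {C : ℝ} (h0 : ∀ x, 0 ≤ f x) (hC : ∀ x, f x ≤ C)
    (v : Fin m → E) : 0 ≤ ∏ l, f (v l) ∧ ∏ l, f (v l) ≤ C ^ m := by
  refine ⟨Finset.prod_nonneg (fun l _ => h0 _), ?_⟩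
  calc ∏ l, f (v l) ≤ ∏ _l : Fin m, C := Finset.prod_le_prod (fun l _ => h0 _) (fun l _ => hC _)
    _ = C ^ m := by rw [Finset.prod_const, Finset.card_fin]

theorem bound_comp {m : ℕ} {G : E × (Fin m → E) → ℝ} (hG : Continuous G) :
    ∃ C : ℝ, 0 ≤ C ∧ ∀ (a : E) (v : Fin m → E), ‖a‖ ≤ 2 → (∀ l, ‖v l‖ ≤ 2) → |G (a, v)| ≤ C := by
  obtain ⟨C, hC⟩ := (isCompact_closedBall (0 : E × (Fin m → E)) 2).exists_bound_of_continuousOn
    hG.continuousOn
  refine ⟨max C 0, le_max_right _ _, ?_⟩
  intro a v ha hv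
  refine le_trans (hC (a, v) ?_) (le_max_left _ _)
  rw [mem_closedBall_zero_iff, Prod.norm_mk, max_le_iff]
  exact ⟨ha, (pi_norm_le_iff_of_nonneg (by norm_num)).mpr hv⟩

variable [Nontrivial E]

theorem meas_simple {m : ℕ} {G : E × (Fin m → E) → ℝ} (hG : Continuous G) {f : E → ℝ}
    (hf : Measurable f) (r : SimpleFunc E E) (a : E) :
    Measurable (fun v : Fin m → E => G (a, fun l => r (v l)) * ∏ l, f (v l)) := by
  refine Measurable.mul ?_ ?_
  · refine hG.measurable.comp (measurable_const.prodMk ?_)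
    exact measurable_pi_iff.mpr (fun l => r.measurable.comp (measurable_pi_apply l))
  · exact Finset.measurable_prod _ (fun l _ => hf.comp (measurable_pi_apply l))

/-- convergence of the integrals with simple functions -/
theorem tendsto_simple (sp : SPH) {m : ℕ} {G : E × (Fin m → E) → ℝ} (hG : Continuous G)
    {f : E → ℝ} (hf : Dens f) {r : ℕ → SimpleFunc E E}
    (hr : ∀ N, ∀ x ∈ Metric.closedBall (0 : E) 1, ‖r N x - x‖ < 1 / ((N : ℝ) + 1))
    {a : ℕ → E} {a₀ : E} (ha : Tendsto a atTop (𝓝 a₀)) (hab : ∀ N, ‖a N‖ ≤ 2) :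
    Tendsto (fun N => ∫ v, G (a N, fun l => r N (v l)) * ∏ l, f (v l) ∂sphP E m) atTop
      (𝓝 (∫ v, G (a₀, v) * ∏ l, f (v l) ∂sphP E m)) := by
  have := sp.probP (E := E) m
  obtain ⟨C, hC⟩ := hf.bdd
  obtain ⟨B, hB0, hB⟩ := bound_comp hG
  have hle : ∀ N : ℕ, 1 / ((N : ℝ) + 1) ≤ 1 := by
    intro N
    rw [div_le_one (by positivity)]
    have : (0 : ℝ) ≤ N := Nat.cast_nonneg N
    linarith
  have hrn : ∀ N, ∀ x : E, ‖x‖ ≤ 1 → ‖r N x‖ ≤ 2 := by
    intro N x hx
    have h1 := (hr N x (by rwa [mem_closedBall_zero_iff])).le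
    have h2 : ‖r N x‖ ≤ ‖r N x - x‖ + ‖x‖ := by
      have := norm_add_le (r N x - x) x
      simpa using this
    linarith [hle N]
  refine tendsto_integral_of_dominated_convergence (fun _ => B * C ^ m) ?_ ?_ ?_ ?_
  · intro N
    exact (meas_simple hG hf.meas (r N) (a N)).aestronglyMeasurable
  · exact integrable_const _
  · intro N
    filter_upwards [ae_norm_le sp (E := E) m] with v hv
    rw [Real.norm_eq_abs, abs_mul, abs_of_nonneg (prod_bdd hf.nonneg hC v).1]
    exact mul_le_mul (hB _ _ (hab N) (fun l => hrn N _ (hv l))) (prod_bdd hf.nonneg hC v).2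
      (prod_bdd hf.nonneg hC v).1 hB0
  · filter_upwards [ae_norm_le sp (E := E) m] with v hv
    refine Tendsto.mul_const _ ?_
    refine (hG.tendsto (a₀, v)).comp ?_
    refine ha.prodMk_nhds ?_
    rw [tendsto_pi_nhds]
    intro l
    rw [tendsto_iff_norm_sub_tendsto_zero]
    refine squeeze_zero (fun _ => norm_nonneg _) (fun N => (hr N (v l) (by
      rw [mem_closedBall_zero_iff]; exact hv l)).le) tendsto_one_div_add_atTop_nhds_zero_nat

/-- uniform bound of the integrals with simple functions -/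
theorem bdd_simple (sp : SPH) {m : ℕ} {G : E × (Fin m → E) → ℝ} (hG : Continuous G)
    {f : E → ℝ} (hf : Dens f) :
    ∃ B : ℝ, ∀ (a : E) (r : SimpleFunc E E), ‖a‖ ≤ 2 →
      (∀ x ∈ Metric.closedBall (0 : E) 1, ‖r x - x‖ < 1) →
      |∫ v, G (a, fun l => r (v l)) * ∏ l, f (v l) ∂sphP E m| ≤ B := by
  have := sp.probP (E := E) m
  obtain ⟨C, hC⟩ := hf.bdd
  obtain ⟨B, hB0, hB⟩ := bound_comp hG
  refine ⟨B * C ^ m, ?_⟩
  intro a r ha hr
  have hrn : ∀ x : E, ‖x‖ ≤ 1 → ‖r x‖ ≤ 2 := by
    intro x hx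
    have h1 := (hr x (by rwa [mem_closedBall_zero_iff])).le
    have h2 : ‖r x‖ ≤ ‖r x - x‖ + ‖x‖ := by
      have := norm_add_le (r x - x) x
      simpa using this
    linarith
  have h := norm_integral_le_of_norm_le_const (μ := sphP E m)
    (f := fun v => G (a, fun l => r (v l)) * ∏ l, f (v l)) (C := B * C ^ m) (by
      filter_upwards [ae_norm_le sp (E := E) m] with v hv
      rw [Real.norm_eq_abs, abs_mul, abs_of_nonneg (prod_bdd hf.nonneg hC v).1]
      exact mul_le_mul (hB _ _ ha (fun l => hrn _ (hv l))) (prod_bdd hf.nonneg hC v).2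
        (prod_bdd hf.nonneg hC v).1 hB0)
  simpa using h

end simp

end Pool.Agent.BPH
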