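import Pool.Agent.BPH.Defs

/-!
# BPH: interface statements (every row: a statement, with its proof in the docstring)

`n = finrank ℝ E`. Write your row as `theorem xxx (h1 : YyyStmt) ... : XxxStmt`, using other rows
only as hypotheses.
-/

open MeasureTheory Module Set Filter
open scoped RealInnerProductSpace Pointwise Topology ENNReal

namespace Pool.Agent.BPH

open Pool.Agent.Helper55_PB Pool.Agent.Helper28_PB

/-! ### Gram volumes -/

/-- (GWA) `|a ∧ v_1 ∧ ...| = |a| |P_a v_1 ∧ ... |` and `= |v_1 ∧ ...| |P_v a|`.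
PROOF. Schur complement: `det Gram (a, v) = |a|^2 det (⟪v_p, v_q⟫ - ⟪v_p,a⟫⟪a,v_q⟫/|a|^2)` if
`a ≠ 0` (`Matrix.det_fromBlocks₁₁` after `finSumFinEquiv`, or subtract multiples of the first row),
and `⟪po a x, po a y⟫ = ⟪x,y⟫ - ⟪x,a⟫⟪a,y⟫/|a|^2`; for `a = 0` both sides vanish. Second formula:
the gram determinant of `(a, v)` does not change if `a` is replaced by `a - w`, `w ∈ span v`
(`a - w = pp v a`), and then the gram matrix is block diagonal. (Or by induction from the first.) -/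
def GWAStmt : Prop :=
  ∀ {E : Type} [NormedAddCommGroup E] [InnerProductSpace ℝ E] [FiniteDimensional ℝ E]
    {i : ℕ} (a : E) (v : Fin i → E),
    gw (cns a v) = ‖a‖ * gw (fun l => po a (v l)) ∧ gw (cns a v) = gw v * ‖pp v a‖

/-- (GWB) elementary facts on `gw`: symmetric, bounded by the product of the norms, continuous,
positive iff linearly independent, invariant under linear isometries (also into another space),
homogeneous; and for a unit vector `w` the volume of the projections to `w^⊥`. -/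
structure GWB : Prop where
  perm : ∀ {E : Type} [NormedAddCommGroup E] [InnerProductSpace ℝ E] {i : ℕ} (v : Fin i → E)
    (e : Equiv.Perm (Fin i)), gw (fun l => v (e l)) = gw v
  le : ∀ {E : Type} [NormedAddCommGroup E] [InnerProductSpace ℝ E] [FiniteDimensional ℝ E]
    {i : ℕ} (v : Fin i → E), gw v ≤ ∏ l, ‖v l‖
  cont : ∀ {E : Type} [NormedAddCommGroup E] [InnerProductSpace ℝ E] {i : ℕ},
    Continuous (fun v : Fin i → E => gw v)
  pos_iff : ∀ {E : Type} [NormedAddCommGroup E] [InnerProductSpace ℝ E] {i : ℕ} (v : Fin i → E),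
    0 < gw v ↔ LinearIndependent ℝ v
  iso : ∀ {E F : Type} [NormedAddCommGroup E] [InnerProductSpace ℝ E] [NormedAddCommGroup F]
    [InnerProductSpace ℝ F] (T : E →ₗᵢ[ℝ] F) {i : ℕ} (v : Fin i → E),
    gw (fun l => T (v l)) = gw v
  smul : ∀ {E : Type} [NormedAddCommGroup E] [InnerProductSpace ℝ E] {i : ℕ} (v : Fin i → E)
    (c : Fin i → ℝ), gw (fun l => c l • v l) = |∏ l, c l| * gw v
  proj : ∀ {E : Type} [NormedAddCommGroup E] [InnerProductSpace ℝ E] [FiniteDimensional ℝ E]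
    {i : ℕ} (w : E), ‖w‖ = 1 → ∀ v : Fin i → E,
    gw (fun l => (ℝ ∙ w)ᗮ.orthogonalProjectionOnto (v l)) = gw (cns w v)

/-! ### The uniform measure on the sphere -/

/-- (SPH) facts on `sph E`. PROOFS. `prob`: volume of the ball is positive and finite, map.
`norm`: `volume {0} = 0`. `iso`: isometries preserve volume and the ball, `nrm (T x) = T (nrm x)`.
`null`: `nrm x ∈ V ↔ x ∈ V`, a proper subspace is a null set (`Measure.addHaar_submodule`).
`ball`: scaling `z = R y` (`Measure.lintegral_comp_smul` or `setLIntegral`), `nrm (R y) = nrm y`. -/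
structure SPH : Prop where
  prob : ∀ {E : Type} [NormedAddCommGroup E] [InnerProductSpace ℝ E] [FiniteDimensional ℝ E]
    [MeasurableSpace E] [BorelSpace E], IsProbabilityMeasure (sph E)
  norm : ∀ {E : Type} [NormedAddCommGroup E] [InnerProductSpace ℝ E] [FiniteDimensional ℝ E]
    [MeasurableSpace E] [BorelSpace E] [Nontrivial E], ∀ᵐ x ∂sph E, ‖x‖ = 1
  iso : ∀ {E : Type} [NormedAddCommGroup E] [InnerProductSpace ℝ E] [FiniteDimensional ℝ E]
    [MeasurableSpace E] [BorelSpace E] (T : E ≃ₗᵢ[ℝ] E), (sph E).map T = sph E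
  null : ∀ {E : Type} [NormedAddCommGroup E] [InnerProductSpace ℝ E] [FiniteDimensional ℝ E]
    [MeasurableSpace E] [BorelSpace E] (V : Submodule ℝ E), V ≠ ⊤ → sph E (V : Set E) = 0
  ball : ∀ {E : Type} [NormedAddCommGroup E] [InnerProductSpace ℝ E] [FiniteDimensional ℝ E]
    [MeasurableSpace E] [BorelSpace E] (R : ℝ), 0 < R → ∀ F : E → ℝ≥0∞, Measurable F →
    ∫⁻ z in Metric.ball (0 : E) R, F (nrm z) =
      volume (Metric.ball (0 : E) R) * ∫⁻ x, F x ∂sph E

/-- (SPI) `i ≤ n` independent uniform unit vectors are almost surely linearly independent unit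
vectors. PROOF. Induction on `i`: `Measure.pi` over `Fin (i+1)` is the image of
`(sph E).prod (sphP E i)` under `cns` (`measurePreserving_piFinSuccAbove`); for linearly
independent `v` (span proper since `i < n`) the set of `x ∈ span v` is null (`SPH.null`),
`linearIndependent_fin_cons`. -/
def SPIStmt : Prop :=
  ∀ {E : Type} [NormedAddCommGroup E] [InnerProductSpace ℝ E] [FiniteDimensional ℝ E]
    [MeasurableSpace E] [BorelSpace E] [Nontrivial E] (i : ℕ), i ≤ finrank ℝ E →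
    ∀ᵐ v ∂sphP E i, LinearIndependent ℝ v ∧ ∀ l, ‖v l‖ = 1

/-- (PPM) joint measurability of `(v, x) ↦ pp v x`. PROOF. Induction on `i` with
`pp (cns a v) x = pp (fun l => po a (v l)) (po a x)` (orthogonal projection to the complement of
`span (a, v)` = project first to `a^⊥`; `span (a, v) = ℝ a + span (po a v)`), and
`po a x = x - (⟪a, x⟫ / ‖a‖ ^ 2) • a` is jointly measurable. -/
def PPMStmt : Prop :=
  ∀ {E : Type} [NormedAddCommGroup E] [InnerProductSpace ℝ E] [FiniteDimensional ℝ E]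
    [MeasurableSpace E] [BorelSpace E] (i : ℕ),
    Measurable (fun q : (Fin i → E) × E => pp q.1 q.2)

/-! ### Haar measure on the orthogonal group, entropy transport -/

/-- (HAA) PROOF. `G = unitary (E →L[ℝ] E)` is a topological group, compact (closed and bounded in
a finite-dimensional space); its left Haar probability measure `mu` (`haarMeasure ⊤`). Take the
law of `A * B⁻¹` for independent `A, B ~ mu`: it is left and right invariant. Push it forward to
`E →L[ℝ] E` by the inclusion. Elements of `G` are (maps of) linear isometries. -/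
def HAAStmt : Prop :=
  ∀ (E : Type) [NormedAddCommGroup E] [InnerProductSpace ℝ E] [FiniteDimensional ℝ E]
    [MeasurableSpace E] [BorelSpace E], ∃ lam : Measure (E →L[ℝ] E), IsHaarO lam

/-- (UNI) uniform distribution of `g y`. PROOF of `all`: by right invariance and transitivity
(for unit `y, y'` there is an isometry `T`, `T y = y'`, e.g. a reflection) the left side does
not depend on `y`; integrate over `y ~ sph E` and use `SPH.iso`. PROOF of `sub`: same with `U`: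
`Ψ φ = mS U φ` satisfies `Ψ (φ ∘ (h ⊕ id)) = Ψ φ` for an isometry `h` of `U` (extend by the
identity on `U^⊥`, `SPH.iso`, the projection commutes), average over `h`, and
`∫ φ (h y) dlam` does not depend on the unit vector `y ∈ U`. (`nrm (U.starProjection x)` is a unit
vector for almost all `x` since `U ≠ ⊥`.) -/
structure UNI : Prop where
  all : ∀ {E : Type} [NormedAddCommGroup E] [InnerProductSpace ℝ E] [FiniteDimensional ℝ E]
    [MeasurableSpace E] [BorelSpace E] (lam : Measure (E →L[ℝ] E)), IsHaarO lam →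
    ∀ y : E, ‖y‖ = 1 → ∀ φ : E → ℝ, Tst φ → ∫ g, φ (g y) ∂lam = ∫ x, φ x ∂sph E
  sub : ∀ {E : Type} [NormedAddCommGroup E] [InnerProductSpace ℝ E] [FiniteDimensional ℝ E]
    [MeasurableSpace E] [BorelSpace E] (U : Submodule ℝ E) (lam : Measure (U →L[ℝ] U)),
    IsHaarO lam → ∀ y : U, ‖y‖ = 1 → ∀ φ : E → ℝ, Tst φ →
    ∫ h, φ ((h y : U) : E) ∂lam = mS U φ

/-- (FOA) Jensen. PROOF. Let `h` be an isometry of `U` and `H = h ⊕ id`. By `IsHaarO.right`,
`∫ g, exp (∑ j, φ (g (y j))) = ∫ g, exp (∑ j, φ (g (H (y j))))`, `H (y j) = h (y j)`. Average over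
`h ~ lamU` (Haar of `U`, row HAA), Fubini, Jensen for `exp` in the inner integral, and
`∫ φ (g (h (y j))) dlamU(h) = mS U (φ ∘ g)` by UNI.sub (applied to `φ ∘ g`). -/
def FOAStmt : Prop :=
  ∀ {E : Type} [NormedAddCommGroup E] [InnerProductSpace ℝ E] [FiniteDimensional ℝ E]
    [MeasurableSpace E] [BorelSpace E] (lam : Measure (E →L[ℝ] E)), IsHaarO lam →
    ∀ (U : Submodule ℝ E) (k : ℕ) (y : Fin k → E), (∀ j, y j ∈ U) → (∀ j, ‖y j‖ = 1) →
    ∀ φ : E → ℝ, Tst φ →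
    ∫ g, Real.exp (k * mS U (fun x => φ (g x))) ∂lam ≤ ∫ g, Real.exp (∑ j, φ (g (y j))) ∂lam

/-- (FOB) PROOF. For almost every `y ∈ (Fin k → E)` (row SPI) the `y j` are linearly independent
unit vectors; their span `U'` has dimension `k`, so `U' = T U` for an isometry `T`, and
`∫ g, exp (k mS U (φ ∘ g)) = ∫ g, exp (k mS U' (φ ∘ g))` by right invariance
(`mS U (ψ ∘ T) = mS (T U) ψ` by `SPH.iso`), `≤ ∫ g, exp (∑ j, φ (g (y j)))` by FOA. Integrate over
`y ~ sphP E k`; Fubini, product structure (`integral_fintype_prod_eq_prod`), `SPH.iso`. -/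
def FOBStmt : Prop :=
  ∀ {E : Type} [NormedAddCommGroup E] [InnerProductSpace ℝ E] [FiniteDimensional ℝ E]
    [MeasurableSpace E] [BorelSpace E] (lam : Measure (E →L[ℝ] E)), IsHaarO lam →
    ∀ U : Submodule ℝ E, 0 < finrank ℝ U → ∀ φ : E → ℝ, Tst φ →
    ∫ g, Real.exp (finrank ℝ U * mS U (fun x => φ (g x))) ∂lam ≤
      (∫ x, Real.exp (φ x) ∂sph E) ^ finrank ℝ U

/-- (FOC) PROOF. `k = n - i ≥ 1`. For an isometry `T` replace `v` by `T ∘ v` (`SPH.iso` for each
coordinate: `sphP` is invariant; `gw (T ∘ v) = gw v`; `mS (perp (T ∘ v)) φ = mS (perp v) (φ ∘ T)`).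
Average over `T = g ~ lam` (row HAA), Fubini: the left side is
`∫ v, gw v * (∫ g, exp (k mS (perp v) (φ ∘ g)))`, for almost all `v` the dimension of `perp v` is
`k` (row SPI), apply FOB. -/
def FOCStmt : Prop :=
  ∀ {E : Type} [NormedAddCommGroup E] [InnerProductSpace ℝ E] [FiniteDimensional ℝ E]
    [MeasurableSpace E] [BorelSpace E] (i k : ℕ), 1 ≤ k → i + k = finrank ℝ E →
    ∀ φ : E → ℝ, Tst φ →
    ∫ v, gw v * Real.exp (k * mS (perp v) φ) ∂sphP E i ≤
      ZZ i (fun _ : E => 1) * (∫ x, Real.exp (φ x) ∂sph E) ^ k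

/-- (AVG) the average of `mS (perp v) φ` with the weight `gw v`. PROOF. As in FOC:
`mS (perp v) (φ ∘ g)` averaged over `g ~ lam` is `∫ φ dsph` by Fubini and UNI.all
(`nrm ((perp v).starProjection x)` is a unit vector for almost all `x`, because `perp v ≠ ⊥`). -/
def AVGStmt : Prop :=
  ∀ {E : Type} [NormedAddCommGroup E] [InnerProductSpace ℝ E] [FiniteDimensional ℝ E]
    [MeasurableSpace E] [BorelSpace E] (i : ℕ), i < finrank ℝ E → ∀ φ : E → ℝ, Tst φ →
    ∫ v, gw v * mS (perp v) φ ∂sphP E i = ZZ i (fun _ : E => 1) * ∫ x, φ x ∂sph E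

/-- (BKK) first and second moments on the unit sphere of a `k`-dimensional subspace. PROOF.
For `w ∈ U^⊥` zero; in general replace `w` by its projection `w'` to `U`; for `U, w'` and
`U_1, w_1'` with `‖w'‖ = ‖w_1'‖` there is an isometry `T` of `E` with `T U = U_1, T w' = w_1'`,
and `SPH.iso`. So both sides depend only on `‖w'‖` and homogeneity. Second moment:
`∑ over an orthonormal basis e of U of ⟪e, nrm (U.starProjection x)⟫ ^ 2 = 1` a.e.
Positivity of `b`: otherwise `⟪w, U.starProjection x⟫ = 0` a.e., i.e. for `x` in a set of full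
measure in a hyperplane, against `SPH.null`. -/
def BKKStmt : Prop :=
  ∀ (E : Type) [NormedAddCommGroup E] [InnerProductSpace ℝ E] [FiniteDimensional ℝ E]
    [MeasurableSpace E] [BorelSpace E] (k : ℕ), 1 ≤ k → k ≤ finrank ℝ E → ∃ b : ℝ, 0 < b ∧
    ∀ U : Submodule ℝ E, finrank ℝ U = k → ∀ w : E,
      mS U (fun x => |⟪w, x⟫|) = b * ‖U.starProjection w‖ ∧
      mS U (fun x => ⟪w, x⟫ ^ 2) = ‖U.starProjection w‖ ^ 2 / k

/-- (ZFU) Fubini, positivity and trivial bounds. PROOFS. `ZZ (j+1) f = ∫ f YY` : `sphP E (j+1)` is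
the image of the product measure under `cns`, `Fin.prod_univ_succ`. `symm`: `gw` and `sphP` are
invariant under permutations of the indices. `YY j f x ≤ ZZ j f`: `gw (cns x v) ≤ ‖x‖ gw v` by
GWA. `pos`: `gw > 0` a.e. (SPI), `∏ f (v l) > 0` on a product of sets of positive measure. -/
structure ZFU : Prop where
  int : ∀ {E : Type} [NormedAddCommGroup E] [InnerProductSpace ℝ E] [FiniteDimensional ℝ E]
    [MeasurableSpace E] [BorelSpace E] [Nontrivial E] (i : ℕ) (f : E → ℝ), Dens f →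
    Integrable (fun v : Fin i → E => gw v * ∏ l, f (v l)) (sphP E i)
  pos : ∀ {E : Type} [NormedAddCommGroup E] [InnerProductSpace ℝ E] [FiniteDimensional ℝ E]
    [MeasurableSpace E] [BorelSpace E] [Nontrivial E] (i : ℕ) (f : E → ℝ), i ≤ finrank ℝ E →
    Dens f → 0 < ZZ i f
  succ : ∀ {E : Type} [NormedAddCommGroup E] [InnerProductSpace ℝ E] [FiniteDimensional ℝ E]
    [MeasurableSpace E] [BorelSpace E] [Nontrivial E] (j : ℕ) (f : E → ℝ), Dens f →
    ZZ (j + 1) f = ∫ x, f x * YY j f x ∂sph E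
  symm : ∀ {E : Type} [NormedAddCommGroup E] [InnerProductSpace ℝ E] [FiniteDimensional ℝ E]
    [MeasurableSpace E] [BorelSpace E] [Nontrivial E] (j : ℕ) (f h : E → ℝ), Dens f →
    Measurable h → (∃ C, ∀ x, |h x * f x| ≤ C) →
    ∫ v, gw v * ((∏ l, f (v l)) * ∑ l, h (v l)) ∂sphP E (j + 1) =
      (j + 1) * ∫ x, h x * f x * YY j f x ∂sph E
  meas : ∀ {E : Type} [NormedAddCommGroup E] [InnerProductSpace ℝ E] [FiniteDimensional ℝ E]
    [MeasurableSpace E] [BorelSpace E] [Nontrivial E] (j : ℕ) (f : E → ℝ), Dens f →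
    Measurable (YY j f)
  nonneg : ∀ {E : Type} [NormedAddCommGroup E] [InnerProductSpace ℝ E] [FiniteDimensional ℝ E]
    [MeasurableSpace E] [BorelSpace E] [Nontrivial E] (j : ℕ) (f : E → ℝ) (x : E), Dens f →
    0 ≤ YY j f x ∧ YY j f x ≤ ‖x‖ * ZZ j f

/-- (TEX) existence of the next density. PROOF. The measure `ρ' A = (ZZ i f)⁻¹ ∫ v, gw v ∏ f (v l)
mS (perp v) 1_A` is a probability measure and `ρ' ≤ C^i (ZZ i 1 / ZZ i f) sph E` for `f ≤ C` by AVG;
so it has a bounded density (Radon-Nikodym, `Measure.rnDeriv`, changed on a null set to be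
bounded). Concretely `ρ'` is the image of the measure
`((sphP E i).withDensity (gw v ∏ f (v l))).prod (sph E)` under `(v, x) ↦ nrm (pp v x)`. -/
def TEXStmt : Prop :=
  ∀ {E : Type} [NormedAddCommGroup E] [InnerProductSpace ℝ E] [FiniteDimensional ℝ E]
    [MeasurableSpace E] [BorelSpace E] (i : ℕ), i < finrank ℝ E → ∀ f : E → ℝ, Dens f →
    ∃ f' : E → ℝ, Dens f' ∧ IsStep i f f'

/-! ### Alexandrov-Fenchel inequality for zonoids -/

/-- (AFB) case `m = 2`. PROOF. WLOG (by `GWB.smul`, weights) all nonzero `b a` are unit vectors.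
For unit vectors `|u ∧ v| = sqrt (1 - t^2)`, `t = ⟪u,v⟫`. The kernel `1 - sqrt (1 - t^2)` is
positive semidefinite: it is the limit of `q_N(t^2)`, `q_0 = 0, q_(N+1)(s) = (s + q_N(s)^2)/2`,
whose matrices are PSD by `Matrix.PosSemidef.hadamard` (Gram matrices). So
`zf2 0 b y z x = β(y) β(z) - Ψ(y,z)`, `β(y) = ∑ y_a |b_a|`, `Ψ` PSD. If `Q(y) = β(y)^2 - Ψ(y,y) ≤ 0`
nothing to prove (`Q(x) ≥ 0` for `x ≥ 0`); else Aczél: `|Ψ(x,y)| ≤ sqrt (Ψ(x,x) Ψ(y,y)) ≤
|β(x) β(y)|` and `(ab - cd)^2 ≥ (a^2 - c^2)(b^2 - d^2)`. -/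
def AFBStmt : Prop :=
  ∀ {E : Type} [NormedAddCommGroup E] [InnerProductSpace ℝ E] [FiniteDimensional ℝ E]
    {ι : Type} [Fintype ι] (b : ι → E) (x y : ι → ℝ), (∀ a, 0 ≤ x a) →
    zf2 0 b y y x * zf2 0 b x x x ≤ zf2 0 b y x x ^ 2

/-- (AFL) linear algebra. PROOF. `s_a := (H x)_a > 0`. `S_ac := H_ac sqrt (x_a x_c / (s_a s_c))` is
symmetric, `u_a := sqrt (x_a s_a)` satisfies `S u = u`. The hypothesis says `⟪z, S z⟫ ≤ ⟪S z, S z⟫`
for all `z` (`y_a = z_a sqrt (x_a / s_a)`), so every eigenvalue of `S` is `≤ 0` or `≥ 1`.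
Perron-Frobenius: an eigenvalue `≥ 1` is `= 1` with eigenvectors multiples of `u` (write `z = g u`
pointwise; `g_a = λ⁻¹ ∑_c A_ac g_c` with `A_ac = H_ac x_c / s_a ≥ 0`, `∑_c A_ac = 1`; take `|g_a|`
maximal: `λ = 1` and `g` is constant on the `c` with `H_ac > 0`, then on the neighbours of these,
which are all indices by the hypothesis `hirr`). So `⟪z, S z⟫ ≤ 0` for `z ⊥ u` (spectral theorem),
which gives the claim (`⟪z,u⟫ = y H x`). -/
def AFLStmt : Prop :=
  ∀ {ι : Type} [Fintype ι] (H : ι → ι → ℝ) (x : ι → ℝ), (∀ a c, H a c = H c a) →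
    (∀ a c, 0 ≤ H a c) → (∀ a, 0 < x a) → (∀ a, 0 < ∑ c, H a c * x c) →
    (∀ a c, ∃ d, 0 < H a d ∧ 0 < H d c) →
    (∀ y : ι → ℝ, ∑ a, ∑ c, H a c * y a * y c ≤
      ∑ a, x a * (∑ c, H a c * y c) ^ 2 / ∑ c, H a c * x c) →
    ∀ y : ι → ℝ, (∑ a, ∑ c, H a c * y a * y c) * (∑ a, ∑ c, H a c * x a * x c) ≤
      (∑ a, ∑ c, H a c * y a * x c) ^ 2

/-- (AFI) Alexandrov-Fenchel for finite families of vectors, by induction on `m` (Lorentzian
polynomials). PROOF. `m = 0` is AFB. Step `m → m + 1`. GOOD families first: all `b a ≠ 0`,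
`x > 0`, `m + 3 ≤ n` and `b` contains an orthonormal basis of `E`. Put
`H a c = ∑_v gw (cns (b a) (cns (b c) (b ∘ v))) ∏ x (v l)`, `v : Fin (m+1) → ι`. Fix `d`; for the
projected family `b' = po (b d) ∘ b` (GWA: `gw (cns (b d) w) = ‖b d‖ gw (po (b d) ∘ w)`) the
inductive hypothesis says `Q_d(y,y) Q_d(x,x) ≤ Q_d(y,x)^2`, where `Q_d(y,z) = ‖b d‖ zf2 m b' y z x`;
`Q_d(y,x) = (H y)_d`, `Q_d(x,x) = (H x)_d > 0` and `∑_d x_d Q_d(y,y) = ∑ H a c y a y c` by the
symmetry of `gw` (`GWB.perm`). So the hypothesis of AFL holds. Irreducibility: given `a, c`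
choose a basis vector `b d` not parallel to `b a` nor to `b c` (`n ≥ 3`), complete by basis vectors
(`m + 3 ≤ n`) to see `H a d, H d c > 0`. General families: drop the zero vectors, add a basis with
weights `ε` and replace `x` by `x + ε`, `y` by `(y, 0)`; `ε → 0` (both sides are polynomials in
`ε`). If `m + 3 > n` all terms vanish. -/
def AFIStmt : Prop :=
  ∀ {E : Type} [NormedAddCommGroup E] [InnerProductSpace ℝ E] [FiniteDimensional ℝ E]
    {ι : Type} [Fintype ι] (m : ℕ) (b : ι → E) (x y : ι → ℝ), (∀ a, 0 ≤ x a) →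
    zf2 m b y y x * zf2 m b x x x ≤ zf2 m b y x x ^ 2

/-- (AFT) tangent form of Minkowski's inequality. PROOF. `P(s) = zf (j+1) b ((1-s) y + s x)`,
`s ∈ [0,1]`, is positive on `[0,1]` (`≥ (1-s)^(j+1) P(0)` and `≥ s^(j+1) P(1)`), a polynomial with
`P' = (j+1) zf1 j b (x-y) X_s`, `P'' = (j+1) j zf2 (j-1) b (x-y) (x-y) X_s`, `X_s = (1-s) y + s x`
(symmetry of `gw`). AFI at `X_s`: `P'' P ≤ P'^2`, so `log P` is concave on `[0,1]` and
`log P(0) ≤ log P(1) - P'(1)/P(1)`, `P'(1) = (j+1) (zf (j+1) b x - zf1 j b y x)`. (`j = 0`: `P` is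
affine, `log t ≤ t - 1`.) -/
def AFTStmt : Prop :=
  ∀ {E : Type} [NormedAddCommGroup E] [InnerProductSpace ℝ E] [FiniteDimensional ℝ E]
    {ι : Type} [Fintype ι] (j : ℕ) (b : ι → E) (x y : ι → ℝ), (∀ a, 0 ≤ x a) → (∀ a, 0 ≤ y a) →
    0 < zf (j + 1) b x → 0 < zf (j + 1) b y →
    (j + 1) * (1 - zf1 j b y x / zf (j + 1) b x) ≤
      Real.log (zf (j + 1) b x / zf (j + 1) b y)

/-- (AFM) integral form. PROOF. For `δ > 0` let `r` be a simple function with `‖r x - x‖ < δ` on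
the unit ball (`Helper55_PB.exists_simple`); apply AFT to the family of the values `b` of `r`
(index type the range of `r`) with `x_b = ∫_{r = b} f dsph`, `y_b = sph E {r = b}`; the sums are
integrals of `gw (r ∘ v)` over `sphP`; let `δ → 0` (`gw` is continuous, bounded on bounded sets;
dominated convergence). -/
def AFMStmt : Prop :=
  ∀ {E : Type} [NormedAddCommGroup E] [InnerProductSpace ℝ E] [FiniteDimensional ℝ E]
    [MeasurableSpace E] [BorelSpace E] [Nontrivial E] (j : ℕ), j + 1 ≤ finrank ℝ E →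
    ∀ f : E → ℝ, Dens f →
    (j + 1) * (1 - (∫ x, YY j f x ∂sph E) / ZZ (j + 1) f) ≤
      Real.log (ZZ (j + 1) f / ZZ (j + 1) (fun _ : E => 1))

/-! ### The entropy contraction -/

/-- (STP) THE MAIN STEP. PROOF. `i = j + 1`, `Z = ZZ i f > 0`, `Z0 = ZZ i 1 > 0`. Let `ε > 0`,
`φ = log (f' + ε)` (Tst), `ψ(v) = k mS (perp v) φ`. FOC: `∫ gw e^ψ ≤ Z0 (1+ε)^k`. With
`q(v) = ∏ f (v l) * Z0 / Z` (`∫ gw q = Z0`) and `q t ≤ q log q - q + e^t`, `t = ψ - k log (1+ε)`:
`∫ gw q ψ - Z0 k log (1+ε) ≤ ∫ gw q log q`. By IsStep `∫ gw q ψ = Z0 k ∫ φ f'`, so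
`k ∫ φ f' ≤ k log (1+ε) + Z⁻¹ ∫ gw ∏ f (∑ log f (v l)) + log (Z0/Z)`
`= k log (1+ε) + (i/Z) ∫ f log f YY + log (Z0/Z)` (ZFU.symm). With
`κ(f) = f log f - f + 1 ≥ 0`, `∫ κ(f) = ent f`, `YY ≤ P Z` on the unit sphere:
`∫ f log f YY = ∫ κ(f) YY + ∫ f YY - ∫ YY ≤ P Z ent f + Z - ∫ YY`. AFM kills the rest. Finally
`f' log f' ≤ f' log (f' + ε)`, `ε → 0`. -/
def STPStmt : Prop :=
  ∀ {E : Type} [NormedAddCommGroup E] [InnerProductSpace ℝ E] [FiniteDimensional ℝ E]
    [MeasurableSpace E] [BorelSpace E] (j k : ℕ), 1 ≤ k → j + 1 + k = finrank ℝ E →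
    ∀ f f' : E → ℝ, Dens f → Dens f' → IsStep (j + 1) f f' →
    ∀ P : ℝ, (∀ x : E, ‖x‖ = 1 → YY j f x ≤ P * ZZ (j + 1) f) →
    k * ent f' ≤ (j + 1) * P * ent f

/-- (QBB) PROOF. `f` is the density of a mixture of uniform measures on unit spheres of
`k`-dimensional subspaces (`f = f'` of the step from `g`): so `∫ ⟪w, x⟫^2 f ≤ ‖w‖^2 / k`
(IsStep with the truncated test function, BKK). Hence for linearly independent `v : Fin j → E`,
`∫ ‖pp v x‖ f ≥ ∫ ‖pp v x‖^2 f = 1 - ∑ over an orthonormal basis e of span v of ∫ ⟪e,x⟫^2 f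
≥ 1 - j / k`. So `ZZ (j+1) f = ∫ gw v (∫ ‖pp v x‖ f) ∏ f ≥ (1 - j/k) ZZ j f` (GWA, Fubini), and
`YY j f x ≤ ZZ j f` for unit `x` (ZFU). -/
def QBBStmt : Prop :=
  ∀ {E : Type} [NormedAddCommGroup E] [InnerProductSpace ℝ E] [FiniteDimensional ℝ E]
    [MeasurableSpace E] [BorelSpace E] (j k : ℕ), j < k → j + 1 + k = finrank ℝ E →
    ∀ g f : E → ℝ, Dens g → Dens f → IsStep (j + 1) g f →
    ∀ x : E, ‖x‖ = 1 → YY j f x ≤ (k / (k - j)) * ZZ (j + 1) f

/-- (QB2) the sharper version of QBB. PROOF. For `U` of dimension `k` and `v` linearly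
independent, `X = ‖pp v x‖^2 = ⟪M x, x⟫`, `x` uniform in the unit sphere of `U`, `M = P_U P_v P_U`,
`0 ≤ M ≤ 1`: `E X = tr M / k =: t ≥ (k - j)/k`, `E X^2 = ((tr M)^2 + 2 tr M^2)/(k (k+2)) ≤
t (k t + 2)/(k + 2)`, and by Hölder `E sqrt X ≥ (E X)^(3/2) / (E X^2)^(1/2) ≥
t sqrt ((k+2)/(k t + 2))`, increasing in `t`. (Simplest route: the pointwise inequality
`sqrt X ≥ (3/2) c^(-1/2)... ` i.e. `2 sqrt X ≥ 3 s X - s^3 X^2` for every `s ≥ 0`, because
`2 r - 3 s r^2 + s^3 r^4 = r (1 - s r)^2 (2 + s r)`; take `s^2 = E X / E X^2`.) -/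
def QB2Stmt : Prop :=
  ∀ {E : Type} [NormedAddCommGroup E] [InnerProductSpace ℝ E] [FiniteDimensional ℝ E]
    [MeasurableSpace E] [BorelSpace E] (j k : ℕ), j < k → j + 1 + k = finrank ℝ E →
    ∀ g f : E → ℝ, Dens g → Dens f → IsStep (j + 1) g f →
    ∀ x : E, ‖x‖ = 1 → YY j f x ≤
      (k / (k - j) * Real.sqrt ((k - j + 2) / (k + 2))) * ZZ (j + 1) f

/-- (PBB) the bound for the first step. PROOF. For linearly independent `v : Fin j → E`
(`j < n`) choose a unit vector `e ∈ perp v`: `‖pp v x‖ ≥ |⟪e, x⟫|`, so `∫ ‖pp v x‖ f ≥ c` and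
`ZZ (j+1) f ≥ c ZZ j f ≥ c YY j f x`. -/
def PBBStmt : Prop :=
  ∀ {E : Type} [NormedAddCommGroup E] [InnerProductSpace ℝ E] [FiniteDimensional ℝ E]
    [MeasurableSpace E] [BorelSpace E] (j : ℕ), j + 1 ≤ finrank ℝ E →
    ∀ f : E → ℝ, Dens f → ∀ c : ℝ, 0 < c → (∀ u : E, ‖u‖ = 1 → c ≤ hz f u) →
    ∀ x : E, ‖x‖ = 1 → YY j f x ≤ (1 / c) * ZZ (j + 1) f

/-- (PIN) small entropy implies almost constant support function. PROOF. `ent f = ∫ κ(f)`,
`κ(t) = t log t - t + 1 ≥ 0`; for `ε > 0` there is `c > 0` with `|t - 1| ≤ ε + κ(t)/c` for all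
`t ≥ 0`. So `∫ |f - 1| ≤ ε + ent f / c`, and `|hz f u - hz 1 u| ≤ ‖u‖ ∫ |f - 1|`. `hz 1 u = b ‖u‖`
with `b > 0` by rotation invariance (or BKK with `U = ⊤`). -/
def PINStmt : Prop :=
  ∀ (E : Type) [NormedAddCommGroup E] [InnerProductSpace ℝ E] [FiniteDimensional ℝ E]
    [MeasurableSpace E] [BorelSpace E] [Nontrivial E], ∃ b : ℝ, 0 < b ∧
    ∀ ε : ℝ, 0 < ε → ∃ η : ℝ, 0 < η ∧ ∀ f : E → ℝ, Dens f → ent f ≤ η →
      ∀ u : E, ‖u‖ = 1 → |hz f u - b| ≤ ε

/-! ### Geometry: intrinsic volumes of zonotopes and zonoids -/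

/-- (LEA) the leading Steiner coefficient. PROOF. `M ⊆ closedBall 0 R`, `x_0 ∈ M`:
`κ_n r^n ≤ vol (M + rB) ≤ κ_n (R + r)^n`; divide by `r^n`, `r → ∞`
(`Helper55_PB.sc_spec`, `volume_unitBall`). -/
def LEAStmt : Prop :=
  ∀ {E : Type} [NormedAddCommGroup E] [InnerProductSpace ℝ E] [FiniteDimensional ℝ E]
    [MeasurableSpace E] [BorelSpace E], 0 < finrank ℝ E → ∀ M : Set E, CC M →
    sc M (finrank ℝ E) = ballVol (finrank ℝ E)

/-- (ZOT) Steiner coefficients of zonotopes. PROOF. Induction on the dimension and on the number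
of segments (`Finset.induction` on a finset of indices, or `Fin N`), statement for `∑ l ∈ s`. If
`j = n`: LEA. If `j < n`: `sc_add_segment_symm` (F3) with `e = b l / ‖b l‖`, `a = ‖b l‖`:
`sc (M + [-b l, b l]) j = sc M j + 2 ‖b l‖ sc (P M) j`, `P M` is the zonotope of the projected
vectors in the space `(ℝ ∙ e)ᗮ` of dimension `n - 1 ≥ j` (if `b l = 0` nothing changes); GWA and
`GWB.proj`: `‖b l‖ gw (P ∘ v) = gw (cns (b l) v)`. Count: the sum over injective `v` of the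
summand (non-injective `v` give `gw = 0`) containing the new index exactly once, in one of `n - j`
positions (`GWB.perm`). -/
def ZOTStmt : Prop :=
  ∀ {E : Type} [NormedAddCommGroup E] [InnerProductSpace ℝ E] [FiniteDimensional ℝ E]
    [MeasurableSpace E] [BorelSpace E] {ι : Type} [Fintype ι] (b : ι → E) (i j : ℕ), 1 ≤ j →
    i + j = finrank ℝ E →
    sc (∑ l, segment ℝ (-(b l)) (b l)) j =
      ballVol j * (2 ^ i / (i.factorial : ℝ)) * ∑ v : Fin i → ι, gw (fun l => b (v l))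

/-- (ZOD) the `i`-th projection body of a zonoid. PROOF. `r` simple with `‖r x - x‖ < ε` on the
unit ball (`exists_simple`), `x_b = ∫_{r=b} f`, `Z = ∑_b [-x_b b, x_b b]`, whose support function
is `∫ |⟪u, r x⟫| f`, within `ε ‖u‖ ≤ (ε/c) hz f u` of `hz f u`; so
`(1 - ε/c) • M ⊆ Z ⊆ (1 + ε/c) • M`. By `sc_mono`, `sc_smul` in `(ℝ ∙ w)ᗮ` (exponent `i`)
`sc (P '' Z) m` is between `(1 ∓ ε/c)^i sc (P '' M) m`. ZOT in `(ℝ ∙ w)ᗮ` and `GWB.proj`, `GWB.smul`:
`sc (P '' Z) m = ballVol m 2^i/i! ∫ gw (cns w (r ∘ v)) ∏ f (v l) dsphP → ... YY i f w`. -/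
def ZODStmt : Prop :=
  ∀ {E : Type} [NormedAddCommGroup E] [InnerProductSpace ℝ E] [FiniteDimensional ℝ E]
    [MeasurableSpace E] [BorelSpace E] (i m : ℕ), 1 ≤ m → m + i + 1 = finrank ℝ E →
    ∀ f : E → ℝ, Dens f → ∀ c : ℝ, 0 < c → (∀ u : E, ‖u‖ = 1 → c ≤ hz f u) →
    ∀ M : Set E, CC M → (∀ u : E, supportFn M u = hz f u) → ∀ w : E, ‖w‖ = 1 →
    sc ((ℝ ∙ w)ᗮ.orthogonalProjectionOnto '' M) m =
      ballVol m * (2 ^ i / (i.factorial : ℝ)) * YY i f w

/-- (ZOM) existence of the zonoid of a density. PROOF. The closure of the convex bounded set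
`{∫ φ x • x * f x dsph : φ measurable, |φ| ≤ 1}`; the support function is attained at
`φ = sign ⟪u, x⟫`. -/
def ZOMStmt : Prop :=
  ∀ {E : Type} [NormedAddCommGroup E] [InnerProductSpace ℝ E] [FiniteDimensional ℝ E]
    [MeasurableSpace E] [BorelSpace E] [Nontrivial E] (f : E → ℝ), Dens f →
    ∃ M : Set E, CC M ∧ ∀ u : E, supportFn M u = hz f u

/-- (GEO) one step for the body. PROOF. `M` the zonoid of `f` (ZOM). The hypothesis says
`e^(-δ) t M ⊆ K ⊆ e^δ t M` (support functions), so `c supportFn K w = sc (P K) m` lies between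
`e^(∓ i δ) t^i sc (P M) m` (`sc_mono`, `sc_smul`), and `sc (P M) m = C YY i f w` (ZOD),
`YY i f w = ∫ gw v ‖pp v w‖ ∏ f (GWA) = b⁻¹ ∫ gw v mS (perp v) |⟪w,·⟫| ∏ f (BKK, SPI)
= b⁻¹ ZZ i f hz f' w` (IsStep with the test function `min |⟪w,x⟫| ‖w‖`). Homogeneity for all `w`. -/
def GEOStmt : Prop :=
  ∀ {E : Type} [NormedAddCommGroup E] [InnerProductSpace ℝ E] [FiniteDimensional ℝ E]
    [MeasurableSpace E] [BorelSpace E] (i m : ℕ), 1 ≤ i → 1 ≤ m → m + i + 1 = finrank ℝ E →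
    ∀ (K : Set E) (c : ℝ), Centred m K c → ∀ f f' : E → ℝ, Dens f → Dens f' → IsStep i f f' →
    ∀ δ t : ℝ, 0 ≤ δ → 0 < t →
    (∀ w : E, Real.exp (-δ) * (t * hz f w) ≤ supportFn K w ∧
      supportFn K w ≤ Real.exp δ * (t * hz f w)) →
    ∃ t' : ℝ, 0 < t' ∧ ∀ w : E, Real.exp (-(i * δ)) * (t' * hz f' w) ≤ supportFn K w ∧
      supportFn K w ≤ Real.exp (i * δ) * (t' * hz f' w)

/-! ### Geometry: projection bodies are limits of zonoids -/

/-- (MOL) mollified indicator function. PROOF. Translate so that `closedBall 0 r ⊆ M`. Let `g` be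
the convolution of the indicator of `M` with a normalised `ContDiffBump` of outer radius `η`
(smooth, compact support, `0 ≤ g ≤ 1`), `τ` the image of `volume` restricted to the
closed ball containing the support of `g` under `x ↦ (1/2) ∇ g(x)`. UPPER: Fatou and
`∫ |g(x+tw) - g(x)| ≤ vol ((M - tw) \ M) + vol (M \ (M - tw)) ≤ 2 t segVol M w`. LOWER (unit `w`):
`∫ |Dg w| ≥ t⁻¹ ∫ |g(x+tw) - g(x)| ≥ t⁻¹ (2 vol ((M - tw) \ M) - 2 ∫ |g - 1_M|)` for all `t > 0`;
`∫ |g - 1_M| ≤ vol ((1+s)M \ (1-s)M)`, `s = η/r`, tends to `0` with `η`. With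
`N = M ∩ ((1-s)M + ℝw)`: all chords of `M` in direction `w` over `(1-s) M` have length `≥ 2sr`
(`(1-s)M + s closedBall 0 r ⊆ M`), so for `t ≤ 2sr`, `N ∪ (N - tw) = N + [-tw, 0]`,
`vol ((N - tw) \ N) = vol (N + [-tw,0]) - vol N = t vol (P N) = (1-s)^(n-1) t segVol M w`
(`volume_add_segment`), and `(N - tw) \ N ⊆ (M - tw) \ M`. Choose first `s`, `t = 2sr`, then `η`;
`segVol M w ≥ vol (P (closedBall 0 r)) > 0` is bounded below for unit `w`. Homogeneity. -/
def MOLStmt : Prop :=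
  ∀ {E : Type} [NormedAddCommGroup E] [InnerProductSpace ℝ E] [FiniteDimensional ℝ E]
    [MeasurableSpace E] [BorelSpace E], 0 < finrank ℝ E → ∀ M : Set E, CC M →
    (interior M).Nonempty → ZApp (fun w => segVol M w)

/-- (VDZ) PROOF. Induction on `l` for all `E`. `l = []`: MOL (if `finrank = 0` the function is `0`).
`l = a :: l'`: `VD (w :: a :: l') M = VD (a :: w :: l') M` (`vd_perm`); `a = 0`: zero; else
`= ‖a‖ VD (P w :: P l') (P '' M)` with `P` the projection to `(ℝ ∙ a)ᗮ` (`vd_hom`, `vd_proj`),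
inductive hypothesis in `(ℝ ∙ a)ᗮ`, push the measure forward by the inclusion, scale by `‖a‖`. -/
def VDZStmt : Prop :=
  ∀ {E : Type} [NormedAddCommGroup E] [InnerProductSpace ℝ E] [FiniteDimensional ℝ E]
    [MeasurableSpace E] [BorelSpace E] (l : List E) (M : Set E), CC M →
    (interior M).Nonempty → ZApp (fun w => VD (w :: l) M)

/-- (UNF) pointwise limits. PROOF. `h_N(w) = ∫ |⟪w,y⟫| dτ_N` with `(1 - 1/N) g_N ≤ h_N ≤
(1 + 1/N) g_N`; `h_N → g` pointwise on unit vectors, hence everywhere; `h_N` are sublinear and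
even, bounded on a basis, so uniformly Lipschitz; so the convergence is uniform on the unit
sphere; `g ≥ c > 0` there gives the multiplicative form; homogeneity. Nonnegative combinations of
ZApp functions are ZApp (sums of measures). -/
def UNFStmt : Prop :=
  ∀ {E : Type} [NormedAddCommGroup E] [InnerProductSpace ℝ E] [FiniteDimensional ℝ E]
    [MeasurableSpace E] [BorelSpace E] (g : E → ℝ) (c : ℝ), 0 < c →
    (∀ w : E, ‖w‖ = 1 → c ≤ g w) → (∀ (t : ℝ) (w : E), g (t • w) = |t| * g w) →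
    Continuous g → ∀ G : ℕ → E → ℝ, (∀ N, ZApp (G N)) → (∀ w, ‖w‖ = 1 →
      Tendsto (fun N => G N w) atTop (𝓝 (g w))) → ZApp g

/-- (ZAK) a solution is a limit of zonoids. PROOF. LimStmt (`lim_of vd_sum`): for unit `w`,
`c supportFn K w = sc (P K) m = sc (K + [0,w]) m - sc K m` (`sc_proj_eq`)
`= lim_N c₁^(-m) ∑_{s} (∏ m N p) VD (w :: s.toList) K`; finite nonnegative combinations of ZApp
functions (VDZ) are ZApp; UNF with `g = supportFn K`, which is even, homogeneous and `≥ r` on the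
unit sphere. -/
def ZAKStmt : Prop :=
  ∀ {E : Type} [NormedAddCommGroup E] [InnerProductSpace ℝ E] [FiniteDimensional ℝ E]
    [MeasurableSpace E] [BorelSpace E] (m : ℕ) (K : Set E) (c : ℝ), 2 ≤ finrank ℝ E →
    m + 1 ≤ finrank ℝ E → Centred m K c → ZApp (supportFn K)

/-- (STA) cap smoothing. PROOF. Let `closedBall 0 r ⊆ K`, `δ ∈ (0,1]`, `ε = δ/8`,
`τ` from ZApp. With `d = c₀ δ` small let `τ_δ(A) = ∫∫_{x ∈ B} |z| 1_A(nrm z) dx̄ dτ(y)`,
`z = y + d |y| x`, `dx̄` uniform in the unit ball. Then `|∫ |⟪w,v⟫| dτ_δ - ∫ |⟪w,y⟫| dτ| ≤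
d ‖w‖ ∫ |y| dτ` and `∫ |y| dτ ≤ ∑ over an orthonormal basis of 2 h_K(e)`. Substituting,
`ball (y, d|y|) ⊆ ball (0, 2|y|)` and SPH.ball: `τ_δ ≤ 2 (2/d)^n (∫ |y| dτ) sph E`. So `τ_δ` has a
bounded density `F` (Radon-Nikodym); `f = F / t`, `t = ∫ F`; `t ≥ ∫ |⟪w,v⟫| dτ_δ ≥ r/2`. -/
def STAStmt : Prop :=
  ∀ {E : Type} [NormedAddCommGroup E] [InnerProductSpace ℝ E] [FiniteDimensional ℝ E]
    [MeasurableSpace E] [BorelSpace E] [Nontrivial E] (K : Set E), CC K →
    (0 : E) ∈ interior K → ZApp (supportFn K) →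
    ∃ C : ℝ, 1 ≤ C ∧ ∀ δ : ℝ, 0 < δ → δ ≤ 1 → ∃ (f : E → ℝ) (t : ℝ), Dens f ∧ 0 < t ∧
      (∀ x, f x ≤ C / δ ^ finrank ℝ E) ∧
      ∀ w : E, Real.exp (-δ) * (t * hz f w) ≤ supportFn K w ∧
        supportFn K w ≤ Real.exp δ * (t * hz f w)

/-! ### Assembly -/

/-- (ITE) the abstract iteration, for any contraction constant `q < 1` of the steps after the
first one. PROOF. `i = j+1`, `k = n - i`. Let `θ > 1` with `q θ < 1`. For `N ∈ ℕ` put
`δ = exp (-θ^N) ≤ 1`; `f_0` from STA, `ent f_0 ≤ log (C / δ^n) = log C + n θ^N`; `f_(s+1)` from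
`f_s` by TEX; `t_s` from GEO with `i^s δ`. First step: `hz f_0 ≥ c_1 > 0` on the unit sphere with
`c_1` independent of `N` (`hz f_0 ≥ e^(-δ) h_K/t`, and `t ≤ e n max h_K` because some unit `e` of
an orthonormal basis has `hz f_0 e ≥ 1/n`), so PBB and STP: `ent f_1 ≤ (i/(k c_1)) ent f_0`; then
`ent f_(s+1) ≤ q ent f_s`. So `ent f_N → 0` and `i^N δ → 0` as `N → ∞`. By PIN
`h_K(u)/h_K(u') ≤ e^(2 i^N δ) (b+ε)/(b-ε) → 1`: the support function is constant on the unit
sphere, and `K` is a ball (`closedBall_subset_of_min`, `subset_closedBall_of_max`). -/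
def ITEStmt : Prop :=
  ∀ {E : Type} [NormedAddCommGroup E] [InnerProductSpace ℝ E] [FiniteDimensional ℝ E]
    [MeasurableSpace E] [BorelSpace E] (j k m : ℕ), 1 ≤ m → k = m + 1 →
    j + 1 + k = finrank ℝ E → ∀ q : ℝ, 0 ≤ q → q < 1 →
    (∀ g f f' : E → ℝ, Dens g → Dens f → Dens f' → IsStep (j + 1) g f → IsStep (j + 1) f f' →
      ent f' ≤ q * ent f) →
    ∀ (K : Set E) (c : ℝ), Centred m K c →
    ∃ r : ℝ, 0 < r ∧ K = Metric.closedBall (0 : E) r

end Pool.Agent.BPH
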