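import Pool.Agent.BPH.Kit
import Pool.Agent.BPH.Simp

/-!
# (STP) the main entropy step
-/

open MeasureTheory Module Set Filter
open scoped RealInnerProductSpace Pointwise Topology ENNReal

namespace Pool.Agent.BPH

open Pool.Agent.Helper55_PB Pool.Agent.Helper28_PB

namespace StpH

/-- the pointwise inequality behind Donsker-Varadhan -/
theorem young {q t : ℝ} (hq : 0 ≤ q) : q * t ≤ q * Real.log q - q + Real.exp t := by
  rcases hq.eq_or_lt with h0 | h0
  · rw [← h0]; simp [Real.exp_nonneg]
  · have h1 := Real.add_one_le_exp (t - Real.log q)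
    have h2 : q * (t - Real.log q + 1) ≤ q * Real.exp (t - Real.log q) :=
      mul_le_mul_of_nonneg_left h1 hq
    rw [Real.exp_sub, Real.exp_log h0, mul_div_cancel₀ _ h0.ne'] at h2
    linarith

/-- `x log x` of a product -/
theorem prod_mul_log {i : ℕ} (a : Fin i → ℝ) (ha : ∀ l, 0 ≤ a l) {c : ℝ} (hc : 0 < c) :
    (∏ l, a l * c) = (∏ l, a l * c) ∧
    ((∏ l, a l) * c) * Real.log ((∏ l, a l) * c) =
      c * ((∏ l, a l) * ∑ l, Real.log (a l)) + c * Real.log c * ∏ l, a l := by
  refine ⟨rfl, ?_⟩
  by_cases h : ∃ l, a l = 0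
  · obtain ⟨l, hl⟩ := h
    have h1 : ∏ l, a l = 0 := Finset.prod_eq_zero (Finset.mem_univ l) hl
    rw [h1]; simp
  · push Not at h
    have hp : 0 < ∏ l, a l := Finset.prod_pos (fun l _ => lt_of_le_of_ne (ha l) (h l).symm)
    rw [Real.log_mul hp.ne' hc.ne', Real.log_prod (fun l _ => h l)]
    ring

theorem gw_nonneg {F : Type} [NormedAddCommGroup F] [InnerProductSpace ℝ F] {i : ℕ}
    (v : Fin i → F) : 0 ≤ gw v := Real.sqrt_nonneg _

variable {E : Type} [NormedAddCommGroup E] [InnerProductSpace ℝ E] [FiniteDimensional ℝ E]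
  [MeasurableSpace E] [BorelSpace E]

theorem meas_mS (sp : SPH) (ppm : PPMStmt) {i : ℕ} {φ : E → ℝ} (hφ : Measurable φ) :
    Measurable (fun v : Fin i → E => mS (perp v) φ) := by
  have := sp.prob (E := E)
  have h1 : Measurable (fun q : (Fin i → E) × E => φ (nrm (pp q.1 q.2))) :=
    hφ.comp (measurable_nrm.comp (ppm i))
  exact (h1.stronglyMeasurable.integral_prod_right' (ν := sph E)).measurable

theorem int_gw (sp : SPH) (gwb : GWB) [Nontrivial E] {i : ℕ} {H : (Fin i → E) → ℝ}
    (hH : Measurable H) {C : ℝ} (hC : ∀ v, |H v| ≤ C) :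
    Integrable (fun v => gw v * H v) (sphP E i) := by
  have := sp.probP (E := E) i
  refine integrable_bdd (gwb.cont.measurable.mul hH) (C := 1 * C) ?_
  filter_upwards [ae_norm_le sp i] with v hv
  rw [abs_mul, abs_of_nonneg (gw_nonneg v)]
  have h1 : gw v ≤ 1 := (gwb.le v).trans (Finset.prod_le_one (fun l _ => norm_nonneg _)
    (fun l _ => hv l))
  exact mul_le_mul h1 (hC v) (abs_nonneg _) zero_le_one

end StpH

open StpH

theorem stp_of (sp : SPH) (ppm : PPMStmt) (gwb : GWB) (zfu : ZFU) (foc : FOCStmt)
    (afm : AFMStmt) : STPStmt := by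
  intro E _ _ _ _ _ j k hk hn f f' hf hf' hstep P hP
  have hnt : Nontrivial E := Module.nontrivial_of_finrank_pos (R := ℝ) (by omega)
  have hprob := sp.prob (E := E)
  have hprobP := sp.probP (E := E) (j + 1)
  set Z := ZZ (j + 1) f with hZ
  set Z0 := ZZ (j + 1) (fun _ : E => (1 : ℝ)) with hZ0
  have hZpos : 0 < Z := zfu.pos (j + 1) f (by omega) hf
  have hZ0pos : 0 < Z0 := zfu.pos (j + 1) _ (by omega) (Dens.one sp)
  obtain ⟨B, hB⟩ := hf.bdd
  obtain ⟨B', hB'⟩ := hf'.bdd
  have hB0 : 0 ≤ B := (hf.nonneg 0).trans (hB 0)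
  have hB'0 : 0 ≤ B' := (hf'.nonneg 0).trans (hB' 0)
  set c : ℝ := Z0 / Z with hc
  have hcpos : 0 < c := div_pos hZ0pos hZpos
  -- the entropy term
  set Y := ∫ x, YY j f x ∂sph E with hY
  have hYmeas : Measurable (YY j f) := zfu.meas j f hf
  have hYb : ∀ᵐ x ∂sph E, |YY j f x| ≤ ZZ j f := by
    filter_upwards [sp.norm (E := E)] with x hx
    have h1 := zfu.nonneg j f x hf
    rw [hx, one_mul] at h1
    rw [abs_of_nonneg h1.1]
    exact h1.2
  have hYint : Integrable (YY j f) (sph E) := integrable_bdd hYmeas hYb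
  obtain ⟨Cl, hCl⟩ := hf.mul_log_bdd
  have hI1 : Integrable (fun x => Real.log (f x) * f x * YY j f x) (sph E) := by
    refine integrable_bdd (((Real.measurable_log.comp hf.meas).mul hf.meas).mul hYmeas)
      (C := Cl * ZZ j f) ?_
    filter_upwards [hYb] with x hx
    rw [abs_mul, mul_comm (Real.log (f x))]
    exact mul_le_mul (hCl x) hx (abs_nonneg _) ((abs_nonneg _).trans (hCl x))
  have hI2 : Integrable (fun x => f x * YY j f x) (sph E) := by
    refine integrable_bdd (hf.meas.mul hYmeas) (C := B * ZZ j f) ?_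
    filter_upwards [hYb] with x hx
    rw [abs_mul, abs_of_nonneg (hf.nonneg x)]
    exact mul_le_mul (hB x) hx (abs_nonneg _) hB0
  have hent : ∫ x, Real.log (f x) * f x * YY j f x ∂sph E ≤ P * Z * ent f + Z - Y := by
    have hk1 : Integrable (fun x => f x * Real.log (f x) - f x + 1) (sph E) :=
      ((hf.integrable_mul_log sp).sub (hf.integrable sp)).add (integrable_const _)
    have h1 : ∫ x, (f x * Real.log (f x) - f x + 1) ∂sph E = ent f := by
      have e1 : Integrable (fun x => f x * Real.log (f x) - f x) (sph E) :=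
        (hf.integrable_mul_log sp).sub (hf.integrable sp)
      rw [integral_add e1 (integrable_const _),
        integral_sub (hf.integrable_mul_log sp) (hf.integrable sp), hf.int]
      simp [ent]
    have h2 : ∫ x, Real.log (f x) * f x * YY j f x ∂sph E ≤
        ∫ x, (P * Z * (f x * Real.log (f x) - f x + 1) + f x * YY j f x - YY j f x) ∂sph E := by
      refine integral_mono_ae hI1 (((hk1.const_mul _).add hI2).sub hYint) ?_
      filter_upwards [sp.norm (E := E)] with x hx
      have h3 := hP x hx
      have h4 : 0 ≤ f x * Real.log (f x) - f x + 1 := by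
        have := sub_one_le_mul_log (hf.nonneg x)
        linarith
      have h5 := mul_le_mul_of_nonneg_right h3 h4
      nlinarith
    refine h2.trans (le_of_eq ?_)
    have e1 : Integrable (fun x => P * Z * (f x * Real.log (f x) - f x + 1) +
        f x * YY j f x) (sph E) := (hk1.const_mul _).add hI2
    rw [integral_sub e1 hYint, integral_add (hk1.const_mul _) hI2, integral_const_mul, h1,
      ← zfu.succ j f hf]
  have hafm := afm j (by omega) f hf
  rw [← hZ, ← hZ0, ← hY] at hafm
  have hlogc : Real.log (Z / Z0) = -Real.log c := by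
    rw [hc, Real.log_div hZpos.ne' hZ0pos.ne', Real.log_div hZ0pos.ne' hZpos.ne']
    ring
  rw [hlogc] at hafm
  -- the inequality for every ε
  have key : ∀ ε : ℝ, 0 < ε → (k : ℝ) * ent f' ≤ k * Real.log (1 + ε) +
      (j + 1) * P * ent f := by
    intro ε hε
    set φ : E → ℝ := fun x => Real.log (f' x + ε) with hφ
    have hφm : Measurable φ := Real.measurable_log.comp (hf'.meas.add_const ε)
    set Cφ : ℝ := max |Real.log ε| |Real.log (B' + ε)| with hCφ
    have hφC : ∀ x, |φ x| ≤ Cφ := by
      intro x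
      have h0 := hf'.nonneg x
      have h1 : Real.log ε ≤ φ x := Real.log_le_log hε (by linarith)
      have h2 : φ x ≤ Real.log (B' + ε) := Real.log_le_log (by linarith) (by linarith [hB' x])
      exact abs_le_max_abs_abs h1 h2
    have hTst : Tst φ := ⟨hφm, Cφ, hφC⟩
    have hexp : ∫ x, Real.exp (φ x) ∂sph E = 1 + ε := by
      have h1 : ∀ x, Real.exp (φ x) = f' x + ε := fun x =>
        Real.exp_log (by have := hf'.nonneg x; linarith)
      simp_rw [h1]
      rw [integral_add (hf'.integrable sp) (integrable_const _), hf'.int]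
      simp
    set L : ℝ := Real.log (1 + ε) with hL
    set m : (Fin (j + 1) → E) → ℝ := fun v => mS (perp v) φ with hm
    have hmm : Measurable m := meas_mS sp ppm hφm
    have hmC : ∀ v, |m v| ≤ Cφ := fun v => mS_abs_le sp _ hφC
    have hCφ0 : 0 ≤ Cφ := (abs_nonneg _).trans (hφC 0)
    -- FOC
    have hfoc := foc (j + 1) k hk (by omega) φ hTst
    rw [hexp, ← hZ0] at hfoc
    have hfoc' : ∫ v, gw v * Real.exp (k * m v - k * L) ∂sphP E (j + 1) ≤ Z0 := by
      have h1 : ∀ v : Fin (j + 1) → E, gw v * Real.exp (k * m v - k * L) =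
          (gw v * Real.exp (k * m v)) * ((1 + ε) ^ k)⁻¹ := by
        intro v
        have h0 : Real.exp (k * L) = (1 + ε) ^ k := by
          rw [Real.exp_nat_mul, hL, Real.exp_log (by linarith)]
        rw [Real.exp_sub, h0, div_eq_mul_inv]
        ring
      simp_rw [h1]
      rw [integral_mul_const, ← div_eq_mul_inv, div_le_iff₀ (by positivity)]
      exact hfoc
    -- the functions
    have hprodm : Measurable (fun v : Fin (j + 1) → E => ∏ l, f (v l)) :=
      Finset.measurable_prod _ (fun l _ => hf.meas.comp (measurable_pi_apply l))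
    have hprodb : ∀ v : Fin (j + 1) → E, |∏ l, f (v l)| ≤ B ^ (j + 1) := by
      intro v
      have h1 := prod_bdd hf.nonneg hB v
      rw [abs_of_nonneg h1.1]
      exact h1.2
    have hA : Integrable (fun v => gw v * ((∏ l, f (v l)) * m v)) (sphP E (j + 1)) := by
      refine int_gw sp gwb (hprodm.mul hmm) (C := B ^ (j + 1) * Cφ) (fun v => ?_)
      rw [abs_mul]
      exact mul_le_mul (hprodb v) (hmC v) (abs_nonneg _) (by positivity)
    have hA1 : Integrable (fun v => gw v * ∏ l, f (v l)) (sphP E (j + 1)) :=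
      zfu.int (j + 1) f hf
    have hA2 : Integrable (fun v => gw v * Real.exp (k * m v - k * L)) (sphP E (j + 1)) := by
      refine int_gw sp gwb (Real.measurable_exp.comp ((hmm.const_mul _).sub_const _))
        (C := Real.exp (k * Cφ - k * L)) (fun v => ?_)
      rw [abs_of_pos (Real.exp_pos _)]
      refine Real.exp_le_exp.mpr ?_
      have h1 := (le_abs_self _).trans (hmC v)
      have h2 : (k : ℝ) * m v ≤ k * Cφ := mul_le_mul_of_nonneg_left h1 (Nat.cast_nonneg k)
      linarith
    -- the product times the sum of logarithms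
    have hlogm : Measurable (fun x => Real.log (f x)) := Real.measurable_log.comp hf.meas
    have hbl : ∃ C, ∀ x, |Real.log (f x) * f x| ≤ C :=
      ⟨Cl, fun x => by rw [mul_comm]; exact hCl x⟩
    have hsumb : ∀ v : Fin (j + 1) → E, |(∏ l, f (v l)) * ∑ l, Real.log (f (v l))| ≤
        (j + 1) * (Cl * B ^ j) := by
      intro v
      rw [Finset.mul_sum]
      refine (Finset.abs_sum_le_sum_abs _ _).trans ?_
      have h1 : ∀ l : Fin (j + 1), |(∏ l, f (v l)) * Real.log (f (v l))| ≤ Cl * B ^ j := by
        intro l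
        rw [← Finset.mul_prod_erase Finset.univ (fun l => f (v l)) (Finset.mem_univ l)]
        have h2 : f (v l) * (∏ x ∈ Finset.univ.erase l, f (v x)) * Real.log (f (v l)) =
            (f (v l) * Real.log (f (v l))) * ∏ x ∈ Finset.univ.erase l, f (v x) := by ring
        rw [h2, abs_mul]
        have h3 : |∏ x ∈ Finset.univ.erase l, f (v x)| ≤ B ^ j := by
          rw [Finset.abs_prod]
          calc ∏ x ∈ Finset.univ.erase l, |f (v x)| ≤ ∏ _x ∈ Finset.univ.erase l, B :=
                Finset.prod_le_prod (fun _ _ => abs_nonneg _) (fun x _ => by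
                  rw [abs_of_nonneg (hf.nonneg _)]; exact hB _)
            _ = B ^ j := by
                rw [Finset.prod_const, Finset.card_erase_of_mem (Finset.mem_univ l),
                  Finset.card_univ, Fintype.card_fin, Nat.add_sub_cancel]
        exact mul_le_mul (hCl _) h3 (abs_nonneg _) ((abs_nonneg _).trans (hCl (v l)))
      refine (Finset.sum_le_sum (fun l _ => h1 l)).trans (le_of_eq ?_)
      rw [Finset.sum_const, Finset.card_univ, Fintype.card_fin, nsmul_eq_mul]
      push_cast
      ring
    have hA3 : Integrable (fun v => gw v * ((∏ l, f (v l)) * ∑ l, Real.log (f (v l))))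
        (sphP E (j + 1)) := by
      refine int_gw sp gwb (hprodm.mul (Finset.measurable_sum _ (fun l _ =>
        hlogm.comp (measurable_pi_apply l)))) hsumb
    -- integrate the pointwise inequality
    have hpt : ∀ v : Fin (j + 1) → E,
        c * (gw v * ((∏ l, f (v l)) * (k * m v - k * L))) ≤
        c * (gw v * ((∏ l, f (v l)) * ∑ l, Real.log (f (v l)))) +
          c * Real.log c * (gw v * ∏ l, f (v l)) - c * (gw v * ∏ l, f (v l)) +
          gw v * Real.exp (k * m v - k * L) := by
      intro v
      have h1 := young (q := (∏ l, f (v l)) * c) (t := k * m v - k * L)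
        (mul_nonneg (Finset.prod_nonneg (fun l _ => hf.nonneg _)) hcpos.le)
      rw [(prod_mul_log (fun l => f (v l)) (fun l => hf.nonneg _) hcpos).2] at h1
      have h2 := mul_le_mul_of_nonneg_left h1 (gw_nonneg v)
      linarith
    have hi1 : Integrable (fun v => c * (gw v * ((∏ l, f (v l)) * (k * m v - k * L))))
        (sphP E (j + 1)) := by
      have h1 := ((hA.const_mul (c * k)).sub (hA1.const_mul (c * k * L)))
      refine h1.congr (Eventually.of_forall (fun v => ?_))
      simp only [Pi.sub_apply]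
      ring
    have hi2 : Integrable (fun v => c * (gw v * ((∏ l, f (v l)) * ∑ l, Real.log (f (v l)))) +
          c * Real.log c * (gw v * ∏ l, f (v l)) - c * (gw v * ∏ l, f (v l)) +
          gw v * Real.exp (k * m v - k * L)) (sphP E (j + 1)) :=
      (((hA3.const_mul c).add (hA1.const_mul _)).sub (hA1.const_mul _)).add hA2
    have hint := integral_mono hi1 hi2 hpt
    have hlhs : ∫ v, c * (gw v * ((∏ l, f (v l)) * (k * m v - k * L))) ∂sphP E (j + 1) =
        Z0 * (k * ∫ x, φ x * f' x ∂sph E - k * L) := by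
      have h1 : ∀ v : Fin (j + 1) → E, c * (gw v * ((∏ l, f (v l)) * (k * m v - k * L))) =
          (c * k) * ((gw v * ∏ l, f (v l)) * m v) - (c * k * L) * (gw v * ∏ l, f (v l)) := by
        intro v; ring
      simp_rw [h1]
      have hA' : Integrable (fun v => (gw v * ∏ l, f (v l)) * m v) (sphP E (j + 1)) :=
        hA.congr (Eventually.of_forall (fun v => by simp only; ring))
      rw [integral_sub (hA'.const_mul _) (hA1.const_mul _), integral_const_mul,
        integral_const_mul, ← hstep φ hTst]
      have h2 : ∫ v, gw v * ∏ l, f (v l) ∂sphP E (j + 1) = Z := rfl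
      rw [h2, ← hZ, hc]
      field_simp
    have hrhs : ∫ v, (c * (gw v * ((∏ l, f (v l)) * ∑ l, Real.log (f (v l)))) +
          c * Real.log c * (gw v * ∏ l, f (v l)) - c * (gw v * ∏ l, f (v l)) +
          gw v * Real.exp (k * m v - k * L)) ∂sphP E (j + 1) ≤
        c * ((j + 1) * ∫ x, Real.log (f x) * f x * YY j f x ∂sph E) + Z0 * Real.log c := by
      have e1 : Integrable (fun v => c * (gw v * ((∏ l, f (v l)) * ∑ l, Real.log (f (v l)))) +
          c * Real.log c * (gw v * ∏ l, f (v l))) (sphP E (j + 1)) :=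
        (hA3.const_mul c).add (hA1.const_mul _)
      have e2 : Integrable (fun v => c * (gw v * ((∏ l, f (v l)) * ∑ l, Real.log (f (v l)))) +
          c * Real.log c * (gw v * ∏ l, f (v l)) - c * (gw v * ∏ l, f (v l)))
          (sphP E (j + 1)) := e1.sub (hA1.const_mul _)
      rw [integral_add e2 hA2, integral_sub e1 (hA1.const_mul _),
        integral_add (hA3.const_mul c) (hA1.const_mul _), integral_const_mul,
        integral_const_mul, integral_const_mul,
        zfu.symm j f (fun x => Real.log (f x)) hf hlogm hbl]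
      have h2 : ∫ v, gw v * ∏ l, f (v l) ∂sphP E (j + 1) = Z := rfl
      rw [h2]
      have h3 : c * Z = Z0 := by rw [hc]; field_simp
      have h4 : c * Real.log c * Z = Z0 * Real.log c := by rw [← h3]; ring
      rw [h4, h3]
      linarith
    rw [hlhs] at hint
    have h1 := hint.trans hrhs
    have h2 : c * ((j + 1) * ∫ x, Real.log (f x) * f x * YY j f x ∂sph E) ≤
        c * ((j + 1) * (P * Z * ent f + Z - Y)) := by
      gcongr
    have h3 : c * ((j + 1) * (P * Z * ent f + Z - Y)) =
        Z0 * ((j + 1) * P * ent f + (j + 1) * (1 - Y / Z)) := by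
      rw [hc]; field_simp; ring
    have h4 : Z0 * (k * ∫ x, φ x * f' x ∂sph E - k * L) ≤
        Z0 * ((j + 1) * P * ent f) := by
      have h5 : Z0 * ((j + 1) * (1 - Y / Z)) ≤ Z0 * (-Real.log c) :=
        mul_le_mul_of_nonneg_left hafm hZ0pos.le
      rw [h3] at h2
      nlinarith
    have h5 := le_of_mul_le_mul_left h4 hZ0pos
    have h6 : ent f' ≤ ∫ x, φ x * f' x ∂sph E := by
      unfold ent
      refine integral_mono (hf'.integrable_mul_log sp) ?_ (fun x => ?_)
      · refine integrable_bdd (hφm.mul hf'.meas) (C := Cφ * B')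
          (Eventually.of_forall (fun x => ?_))
        rw [abs_mul, abs_of_nonneg (hf'.nonneg x)]
        exact mul_le_mul (hφC x) (hB' x) (hf'.nonneg x) hCφ0
      · simp only
        rcases (hf'.nonneg x).eq_or_lt with h7 | h7
        · rw [← h7]; simp
        · rw [mul_comm]
          exact mul_le_mul_of_nonneg_right (Real.log_le_log h7 (by linarith)) h7.le
    have h7 : (k : ℝ) * ent f' ≤ k * ∫ x, φ x * f' x ∂sph E :=
      mul_le_mul_of_nonneg_left h6 (Nat.cast_nonneg k)
    linarith
  -- let ε → 0
  have h1 : Tendsto (fun ε : ℝ => (k : ℝ) * Real.log (1 + ε) + (j + 1) * P * ent f) (𝓝[>] 0)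
      (𝓝 ((k : ℝ) * Real.log (1 + 0) + (j + 1) * P * ent f)) := by
    refine Tendsto.mono_left ?_ nhdsWithin_le_nhds
    refine ((Tendsto.log ?_ (by norm_num)).const_mul _).add_const _
    exact (continuous_const.add continuous_id).tendsto 0
  have h2 : (k : ℝ) * ent f' ≤ (k : ℝ) * Real.log (1 + 0) + (j + 1) * P * ent f := by
    refine ge_of_tendsto h1 ?_
    filter_upwards [self_mem_nhdsWithin] with ε hε
    exact key ε hε
  rwa [add_zero, Real.log_one, mul_zero, zero_add] at h2

end Pool.Agent.BPH
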